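import Pool.Agent.Work.MP_122e00_nt.Hyb.Stmts

set_option autoImplicit false

/-!
# C0: sum over the lengths of the chain
-/

namespace Pool.Agent.Work.MP_122e00_nt.Hyb

open Finset Filter Topology MeasureTheory

open scoped ENNReal

namespace IC0

open Classical in
/-- the integrand, extended by zero -/
noncomputable def g (f : ℝ → ℝ≥0∞) (e : ℝ) (k : ℕ) (a : ℝ) (x : Fin k → ℝ) : ℝ≥0∞ :=
  if (∀ m, 0 < x m) ∧ a + ∑ m, x m < e then
    ∏ m : Fin k, f (a + ∑ m' ∈ Finset.univ.filter (fun m' : Fin k => m' ≤ m), x m') else 0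

/-- the integral of the product, starting from `a` -/
noncomputable def V (f : ℝ → ℝ≥0∞) (e : ℝ) (k : ℕ) (a : ℝ) : ℝ≥0∞ :=
  ∫⁻ x : Fin k → ℝ, g f e k a x

theorem meas_set (e : ℝ) (k : ℕ) :
    MeasurableSet {p : ℝ × (Fin k → ℝ) | (∀ m, 0 < p.2 m) ∧ p.1 + ∑ m, p.2 m < e} := by
  have h1 : MeasurableSet {p : ℝ × (Fin k → ℝ) | ∀ m, 0 < p.2 m} := by
    rw [show {p : ℝ × (Fin k → ℝ) | ∀ m, 0 < p.2 m} = ⋂ m, {p | 0 < p.2 m} by ext; simp]
    exact MeasurableSet.iInter fun m =>
      measurableSet_lt measurable_const ((measurable_pi_apply m).comp measurable_snd)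
  have h2 : MeasurableSet {p : ℝ × (Fin k → ℝ) | p.1 + ∑ m, p.2 m < e} := by
    refine measurableSet_lt ?_ measurable_const
    exact measurable_fst.add
      (Finset.measurable_sum _ fun m _ => (measurable_pi_apply m).comp measurable_snd)
  exact h1.inter h2

theorem meas_g (f : ℝ → ℝ≥0∞) (hf : Measurable f) (e : ℝ) (k : ℕ) :
    Measurable (fun p : ℝ × (Fin k → ℝ) => g f e k p.1 p.2) := by
  classical
  unfold g
  refine Measurable.ite (meas_set e k) ?_ measurable_const
  refine Finset.measurable_prod _ fun m _ => hf.comp ?_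
  exact measurable_fst.add
    (Finset.measurable_sum _ fun m _ => (measurable_pi_apply m).comp measurable_snd)

theorem meas_V (f : ℝ → ℝ≥0∞) (hf : Measurable f) (e : ℝ) (k : ℕ) : Measurable (V f e k) := by
  unfold V
  exact (meas_g f hf e k).lintegral_prod_right'

theorem g_cons (f : ℝ → ℝ≥0∞) (e : ℝ) (k : ℕ) (a t : ℝ) (y : Fin k → ℝ) :
    g f e (k + 1) a (Fin.cons t y) = (if 0 < t then f (a + t) else 0) * g f e k (a + t) y := by
  classical
  unfold g
  have hc : ((∀ m, 0 < (Fin.cons t y : Fin (k + 1) → ℝ) m) ∧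
      a + ∑ m, (Fin.cons t y : Fin (k + 1) → ℝ) m < e) ↔
      (0 < t ∧ ((∀ m, 0 < y m) ∧ a + t + ∑ m, y m < e)) := by
    rw [Fin.forall_fin_succ, Fin.sum_univ_succ]
    simp only [Fin.cons_zero, Fin.cons_succ]
    rw [← add_assoc, and_assoc]
  by_cases ht : 0 < t
  · by_cases h : (∀ m, 0 < y m) ∧ a + t + ∑ m, y m < e
    · rw [if_pos (hc.2 ⟨ht, h⟩), if_pos ht, if_pos h, Fin.prod_univ_succ]
      congr 1
      · congr 1
        rw [Finset.sum_filter, Fin.sum_univ_succ]
        simp
      · refine Finset.prod_congr rfl fun m _ => ?_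
        congr 1
        rw [Finset.sum_filter, Fin.sum_univ_succ, Finset.sum_filter]
        simp only [Fin.cons_zero, Fin.cons_succ, Fin.zero_le, if_true, Fin.succ_le_succ_iff]
        ring
    · rw [if_neg (fun h' => h (hc.1 h').2), if_neg h, mul_zero]
  · rw [if_neg (fun h' => ht (hc.1 h').1), if_neg ht, zero_mul]

theorem V_zero (f : ℝ → ℝ≥0∞) (e a : ℝ) (h : a < e) : V f e 0 a = 1 := by
  unfold V g
  have : (∀ m : Fin 0, (0:ℝ) < (0 : Fin 0 → ℝ) m) := fun m => m.elim0
  have h2 : (fun x : Fin 0 → ℝ => (if (∀ m, 0 < x m) ∧ a + ∑ m, x m < e then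
    ∏ m : Fin 0, f (a + ∑ m' ∈ Finset.univ.filter (fun m' : Fin 0 => m' ≤ m), x m') else 0)) =
      fun _ => 1 := by
    funext x
    rw [if_pos ⟨fun m => m.elim0, by simpa using h⟩]
    simp
  rw [h2, lintegral_const, one_mul]
  simp [volume_pi]

theorem V_eq_zero (f : ℝ → ℝ≥0∞) (e a : ℝ) (k : ℕ) (h : e ≤ a) : V f e k a = 0 := by
  unfold V g
  have h2 : (fun x : Fin k → ℝ => (if (∀ m, 0 < x m) ∧ a + ∑ m, x m < e then
    ∏ m : Fin k, f (a + ∑ m' ∈ Finset.univ.filter (fun m' : Fin k => m' ≤ m), x m') else 0)) =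
      fun _ => 0 := by
    funext x
    rw [if_neg]
    rintro ⟨h1, h3⟩
    have : 0 ≤ ∑ m, x m := Finset.sum_nonneg fun m _ => (h1 m).le
    linarith
  rw [h2, lintegral_zero]

theorem V_succ (f : ℝ → ℝ≥0∞) (hf : Measurable f) (e : ℝ) (k : ℕ) (a : ℝ) :
    V f e (k + 1) a = ∫⁻ s in Set.Ioo a e, f s * V f e k s := by
  classical
  have h1 : V f e (k + 1) a =
      ∫⁻ p : ℝ × (Fin k → ℝ), g f e (k + 1) a (Fin.cons p.1 p.2) := by
    unfold V
    have hmp := (volume_preserving_piFinSuccAbove (fun _ : Fin (k + 1) => ℝ) 0).symm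
    rw [← hmp.lintegral_comp_emb (MeasurableEquiv.measurableEmbedding _)]
    refine lintegral_congr fun p => ?_
    congr 1
    funext m
    refine Fin.cases ?_ (fun i => ?_) m
    · simp [MeasurableEquiv.piFinSuccAbove]
    · simp [MeasurableEquiv.piFinSuccAbove]
  rw [h1]
  simp_rw [g_cons]
  have hm : Measurable (fun p : ℝ × (Fin k → ℝ) =>
      (if 0 < p.1 then f (a + p.1) else 0) * g f e k (a + p.1) p.2) := by
    refine Measurable.mul ?_ ?_
    · exact Measurable.ite (measurableSet_lt measurable_const measurable_fst)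
        (hf.comp (measurable_const.add measurable_fst)) measurable_const
    · exact (meas_g f hf e k).comp ((measurable_const.add measurable_fst).prodMk measurable_snd)
  rw [Measure.volume_eq_prod, lintegral_prod _ hm.aemeasurable]
  have h2 : ∀ t : ℝ, ∫⁻ y : Fin k → ℝ, (if 0 < t then f (a + t) else 0) * g f e k (a + t) y =
      (fun s => (if a < s then f s else 0) * V f e k s) (a + t) := by
    intro t
    rw [lintegral_const_mul]
    · simp only [lt_add_iff_pos_right]
      rfl
    · exact (meas_g f hf e k).comp (measurable_const.prodMk measurable_id)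
  simp_rw [h2]
  rw [lintegral_add_left_eq_self (fun s => (if a < s then f s else 0) * V f e k s) a]
  rw [← lintegral_indicator measurableSet_Ioo]
  refine lintegral_congr fun s => ?_
  by_cases hs : s ∈ Set.Ioo a e
  · rw [Set.indicator_of_mem hs, if_pos hs.1]
  · rw [Set.indicator_of_notMem hs]
    by_cases has : a < s
    · have : e ≤ s := by
        by_contra hcon
        exact hs ⟨has, not_le.1 hcon⟩
      rw [V_eq_zero f e s k this, mul_zero]
    · rw [if_neg has, zero_mul]

theorem main (f : ℝ → ℝ≥0∞) (hf : Measurable f) (E : ℝ → ℝ≥0∞) (e : ℝ)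
    (h : ∀ a, 0 ≤ a → a < e → 1 + ∫⁻ s in Set.Ioo a e, f s * E s ≤ E a) (K : ℕ) :
    ∀ a, 0 ≤ a → a < e → ∑ k ∈ Finset.range (K + 1), V f e k a ≤ E a := by
  induction K with
  | zero =>
    intro a ha hae
    simp only [zero_add, Finset.sum_range_one]
    rw [V_zero f e a hae]
    exact le_trans le_self_add (h a ha hae)
  | succ K ih =>
    intro a ha hae
    rw [Finset.sum_range_succ', V_zero f e a hae]
    refine le_trans ?_ (h a ha hae)
    rw [add_comm]
    gcongr
    simp_rw [V_succ f hf e]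
    rw [← lintegral_finset_sum]
    · refine setLIntegral_mono' measurableSet_Ioo fun s hs => ?_
      rw [← Finset.mul_sum]
      gcongr
      exact ih s (ha.trans hs.1.le) hs.2
    · intro k _
      exact hf.mul (meas_V f hf e k)

end IC0

open IC0 in
theorem prfC0 : claimC0 := by
  classical
  intro f E e hf _ h K
  have hset : ∀ k : ℕ, ∫⁻ x in {x : Fin k → ℝ | (∀ m, 0 < x m) ∧ ∑ m, x m < e},
        ∏ m : Fin k, f (∑ m' ∈ Finset.univ.filter (fun m' : Fin k => m' ≤ m), x m') =
      V f e k 0 := by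
    intro k
    have hms : MeasurableSet {x : Fin k → ℝ | (∀ m, 0 < x m) ∧ ∑ m, x m < e} := by
      have h3 := (meas_set e k).preimage
        (show Measurable (fun x : Fin k → ℝ => ((0:ℝ), x)) from
          measurable_const.prodMk measurable_id)
      have h4 : (fun x : Fin k → ℝ => ((0:ℝ), x)) ⁻¹'
          {p : ℝ × (Fin k → ℝ) | (∀ m, 0 < p.2 m) ∧ p.1 + ∑ m, p.2 m < e} =
          {x : Fin k → ℝ | (∀ m, 0 < x m) ∧ ∑ m, x m < e} := by
        ext x
        simp
      rwa [h4] at h3
    unfold V g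
    rw [← lintegral_indicator hms]
    refine lintegral_congr fun x => ?_
    by_cases hx : x ∈ {x : Fin k → ℝ | (∀ m, 0 < x m) ∧ ∑ m, x m < e}
    · rw [Set.indicator_of_mem hx, if_pos (by simpa using hx)]
      simp only [zero_add]
    · rw [Set.indicator_of_notMem hx, if_neg (by simpa using hx)]
  simp_rw [hset]
  by_cases he : 0 < e
  · rw [if_pos he]
    exact main f hf E e h K 0 le_rfl he
  · rw [if_neg he]
    push Not at he
    simp_rw [fun k => V_eq_zero f e 0 k he]
    simp

end Pool.Agent.Work.MP_122e00_nt.Hyb
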