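import Pool.Agent.Work.MP_122e00_nt.Hyb.Defs

set_option autoImplicit false

/-!
# The hybrid block scheme: statements

P: pointwise identities and inequalities for the structure sums `TS`.  F: properties of `FF`.
S: sums over `n`.  C: the limit functionals.
-/

namespace Pool.Agent.Work.MP_122e00_nt.Hyb

open Finset Filter Topology MeasureTheory

open scoped ENNReal ArithmeticFunction.vonMangoldt ArithmeticFunction.zeta

/-! ## P: pointwise -/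

/-- P0: monotonicity of `TS`; only the relevant positions count. -/
def claimP0 : Prop := ∀ (L : ℝ) (k n : ℕ) (F G : (Fin k → ℝ) → (Fin 3 → ℝ) → ℝ), 0 < L → n ≠ 0 →
    (∀ x v, (∀ m, 0 < x m) → (∀ i, 0 ≤ v i) → ∑ m, x m + ∑ i, v i = Real.log n / L →
      F x v ≤ G x v) →
    Two.TS L 2 k n F ≤ Two.TS L 2 k n G

/-- P1: the mark step: one more mark, taken out of part `j`. -/
def claimP1 : Prop := ∀ (L : ℝ) (k n : ℕ) (j : Fin 3) (F : (Fin k → ℝ) → (Fin 3 → ℝ) → ℝ),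
    0 < L → n ≠ 0 →
    (∀ x v, (∀ m, 0 ≤ x m) → (∀ i, 0 ≤ v i) → ∑ m, x m + ∑ i, v i = Real.log n / L →
      v j = 0 → F x v = 0) →
    Two.TS L 2 k n F = Two.TS L 2 (k + 1) n (fun x v =>
      F (Fin.init x) (ad v j (x (Fin.last k))) *
        ((∑ i, v i + x (Fin.last k)) / (v j + x (Fin.last k))))

/-- P2: the first mark. -/
def claimP2 : Prop := ∀ (L : ℝ) (n : ℕ) (g : (Fin 3 → ℝ) → ℝ), 0 < L → 2 ≤ n →
    Two.TS L 2 0 n (fun _ v => g v) =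
      Two.TS L 2 1 n (fun x v => ∑ i, g (ad v i (x 0)))

/-- P3: the identity of the scheme. -/
def claimP3 : Prop := ∀ (L th c : ℝ) (n K : ℕ) (g : (Fin 3 → ℝ) → ℝ), 0 < L → 0 < th →
    th ≤ 1 / 100 → c = 1 / 4 + 2 * th → 2 ≤ n → 9 / 10 ≤ Real.log n / L →
    Real.log n / L ≤ 1 + th / 2 →
    Two.TS L 2 0 n (fun _ v => g v) =
      ∑ k ∈ Finset.range (K + 1), Two.TS L 2 (k + 1) n (fun x v => by
        classical exact if Reg th x v ∧ stp c x then Pk g x v else 0) +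
      Two.TS L 2 (K + 1) n (LL th c K g)

/-- P4a: there is a good member in every cell for which the chain has stopped. -/
def claimP4a : Prop := ∀ (th c : ℝ), 0 < th → th ≤ 1 / 100 → c = 1 / 4 + 2 * th →
    ∀ (k : ℕ) (x : Fin (k + 1) → ℝ) (v : Fin 3 → ℝ), Reg th x v → stp c x →
    1 ≤ gt th (x 0) (blk x) v

/-- P4b: positivity of the denominators: if the block can be on part `j`, then the rest of this
part is large, before each mark. -/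
def claimP4b : Prop := ∀ (th c : ℝ), 0 < th → th ≤ 1 / 100 → c = 1 / 4 + 2 * th →
    ∀ (k : ℕ) (x : Fin (k + 1) → ℝ) (v : Fin 3 → ℝ), Reg th x v → (stp c x ∨ lft c x) →
    ∀ j, am (ad v j (blk x)) j → ∀ m : Fin k, 1 / 40 ≤ v j + blk x - bef x m ∧
      0 ≤ ∑ i, v i + blk x - bef x m ∧ ∑ i, v i + blk x - bef x m ≤ 11 / 10 ∧
      v j + blk x - bef x m ≤ 11 / 10

/-- P4: the inequality between the structure functions. -/
def claimP4 : Prop := ∀ (th c : ℝ), 0 < th → th ≤ 1 / 100 → c = 1 / 4 + 2 * th →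
    ∀ (k : ℕ) (x : Fin (k + 1) → ℝ) (v : Fin 3 → ℝ),
    0 ≤ NN th c k x v ∧ 0 ≤ GG th c k x v ∧ 0 ≤ FF th c k x v ∧
      NN th c k x v ^ 2 ≤ FF th c k x v * GG th c k x v

/-- P5: Cauchy-Schwarz for structure sums. -/
def claimP5 : Prop := ∀ (L : ℝ) (n K : ℕ) (F G N : (k : ℕ) → (Fin (k + 1) → ℝ) →
      (Fin 3 → ℝ) → ℝ), 0 < L → n ≠ 0 →
    (∀ k x v, 0 ≤ N k x v ∧ 0 ≤ F k x v ∧ 0 ≤ G k x v ∧ N k x v ^ 2 ≤ F k x v * G k x v) →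
    (∑ k ∈ Finset.range (K + 1), Two.TS L 2 (k + 1) n (N k)) ^ 2 ≤
      (∑ k ∈ Finset.range (K + 1), Two.TS L 2 (k + 1) n (F k)) *
      (∑ k ∈ Finset.range (K + 1), Two.TS L 2 (k + 1) n (G k))

/-- P6: the pointwise inequality. -/
def claimP6 : Prop := ∀ (L th c : ℝ) (n K : ℕ), 0 < L → 0 < th → th ≤ 1 / 100 →
    c = 1 / 4 + 2 * th → 2 ≤ n → 9 / 10 ≤ Real.log n / L → Real.log n / L ≤ 1 + th / 2 →
    0 ≤ Two.TS L 2 (K + 1) n (LL th c K (bi th)) ∧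
    Two.TS L 2 (K + 1) n (LL th c K (bi th)) ≤ BB th L n ∧
    0 ≤ Hs th c L K n ∧
    (BB th L n - Two.TS L 2 (K + 1) n (LL th c K (bi th))) ^ 2 ≤ Hs th c L K n * AA th L n

/-- P7: good and bad factorisations. -/
def claimP7 : Prop := ∀ (th L : ℝ) (n : ℕ), n ≠ 0 →
    (AA th L n + BB th L n = (((ζ : ArithmeticFunction ℕ) ^ 3) n : ℝ) ∧ 0 ≤ AA th L n ∧
      0 ≤ BB th L n) ∧
    Two.TS L 2 0 n (fun _ _ => 1) = (((ζ : ArithmeticFunction ℕ) ^ 3) n : ℝ)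

/-- P8: the number of good factorisations is a divisor sum of level `1 / 2 - th`. -/
def claimP8 : Prop := ∀ (th X : ℝ) (m n : ℕ) (z : ℤ), 1 < X → 0 < th → th < 1 / 2 → n ≠ 0 →
    (m : ℤ) - z = n → 1 - 2 * th < Real.log n / Real.log X →
    AA th (Real.log X) n = 3 * Two.Apsi (ps th) X z m

/-! ## F: the structure function -/

/-- F1: bounds for the structure functions. -/
def claimF1 : Prop := ∃ C₀ : ℝ, 1 ≤ C₀ ∧ ∀ (th c : ℝ), 0 < th → th ≤ 1 / 100 →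
    c = 1 / 4 + 2 * th → ∀ (k : ℕ) (x : Fin (k + 1) → ℝ) (v : Fin 3 → ℝ),
    0 ≤ FF th c k x v ∧
    FF th c k x v ≤ C₀ ^ (k + 1) * (if ∑ m : Fin k, x m.castSucc < c then 1 else 0) ∧
    0 ≤ LL th c k (bi th) x v ∧ LL th c k (bi th) x v ≤ C₀ ^ (k + 1)

/-- F2: continuity almost everywhere. -/
def claimF2 : Prop := ∀ (th c : ℝ), 0 < th → th ≤ 1 / 100 → c = 1 / 4 + 2 * th → ∀ k : ℕ,
    ∀ᵐ y ∂(volume.restrict (Two.Sim (k + 1) 2)),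
      ContinuousAt (Two.ext (FF th c k)) (y, 1 - ∑ i, y i)

/-- F3: the same for the good factorisations. -/
def claimF3 : Prop := ∀ (th : ℝ), 0 < th → th ≤ 1 / 100 →
    ∀ᵐ y ∂(volume.restrict (Two.Sim 0 2)),
      ContinuousAt (Two.ext (k := 0) (s := 2) (fun _ v => gi th v)) (y, 1 - ∑ i, y i)

/-- F4: the weight is admissible, and its integral. -/
def claimF4 : Prop := ∀ (th : ℝ), 0 < th → th ≤ 1 / 100 →
    Two.Wt 2 th (ps th) ∧ ∫ y, ps th y = (1 / 2 - th) ^ 2 / 2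

/-- F5: two integrals over the simplex of factorisations. -/
def claimF5 : Prop := ∀ (th : ℝ), 0 < th → th ≤ 1 / 100 →
    (∫ y in Two.Sim 0 2, Two.ext (k := 0) (s := 2) (fun _ _ => (1 : ℝ)) (y, 1 - ∑ i, y i) *
      Two.den y = 1 / 2) ∧
    (∫ y in Two.Sim 0 2, Two.ext (k := 0) (s := 2) (fun _ v => gi th v) (y, 1 - ∑ i, y i) *
      Two.den y = 3 * ((1 / 2 - th) ^ 2 / 2))

/-! ## S: sums over `n` -/

/-- S1: the limits of the three sums. -/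
def claimS1 : Prop := ∀ (h : ℕ), h ≠ 0 → ∀ th c : ℝ, 0 < th → th ≤ 1 / 100 →
    c = 1 / 4 + 2 * th → ∀ z : ℤ, z.natAbs = h →
    Tendsto (fun X : ℝ => (∑ n ∈ Finset.Icc 1 ⌊X⌋₊, Two.Apsi (ps th) X z n *
        (((ζ : ArithmeticFunction ℕ) ^ 3) n : ℝ)) / (X * (Real.log X) ^ 4)) atTop
      (𝓝 (Csing 2 h * ((1 / 2 - th) ^ 2 / 2) * (1 / 2))) ∧
    Tendsto (fun X : ℝ => (∑ n ∈ Finset.Icc 1 ⌊X⌋₊, Two.Apsi (ps th) X z n *
        AA th (Real.log X) n) / (X * (Real.log X) ^ 4)) atTop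
      (𝓝 (Csing 2 h * ((1 / 2 - th) ^ 2 / 2) * (3 * ((1 / 2 - th) ^ 2 / 2)))) ∧
    ∀ k : ℕ, Tendsto (fun X : ℝ => (∑ n ∈ Finset.Icc 1 ⌊X⌋₊, Two.Apsi (ps th) X z n *
        Two.TS (Real.log X) 2 (k + 1) n (FF th c k)) / (X * (Real.log X) ^ 4)) atTop
      (𝓝 (Csing 2 h * ((1 / 2 - th) ^ 2 / 2) * IF th c k))

/-- S2: the mean value of `Hs`, with a chain of length up to a constant times `log X`. -/
def claimS2 : Prop := ∀ (h : ℕ), h ≠ 0 → ∀ th c : ℝ, 0 < th → th ≤ 1 / 100 →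
    c = 1 / 4 + 2 * th → ∀ I₀ : ℝ,
    (∀ K : ℕ, ∑ k ∈ Finset.range (K + 1), IF th c k ≤ I₀) →
    ∃ c₁ : ℝ, 0 < c₁ ∧ ∀ δ : ℝ, 0 < δ → ∀ᶠ X : ℝ in atTop, ∀ z : ℤ, z.natAbs = h →
      ∑ n ∈ Finset.Ioc ⌊X / Real.log X⌋₊ ⌊X⌋₊, Two.Apsi (ps th) X z n *
        Hs th c (Real.log X) ⌊c₁ * Real.log X⌋₊ n ≤
      (Csing 2 h * ((1 / 2 - th) ^ 2 / 2) * I₀ + δ) * (X * (Real.log X) ^ 4)

/-- S3: the left over part is negligible, pointwise. -/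
def claimS3 : Prop := ∀ th c : ℝ, 0 < th → th ≤ 1 / 100 → c = 1 / 4 + 2 * th → ∀ c₁ : ℝ,
    0 < c₁ → ∀ᶠ X : ℝ in atTop, ∀ n : ℕ, n ≠ 0 → (n : ℝ) ≤ X →
      Two.TS (Real.log X) 2 (⌊c₁ * Real.log X⌋₊ + 1) n
        (LL th c ⌊c₁ * Real.log X⌋₊ (bi th)) ≤ X⁻¹

/-- S4: the product at `n` and `n + h`. -/
def claimS4 : Prop := ∀ th c : ℝ, 0 < th → th ≤ 1 / 100 → c = 1 / 4 + 2 * th → ∀ c₁ : ℝ,
    0 < c₁ → ∀ h : ℕ, h ≠ 0 → ∀ᶠ X : ℝ in atTop, ∀ n : ℕ, X / Real.log X ≤ (n : ℝ) →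
      ((n + h : ℕ) : ℝ) ≤ X →
      (((ζ : ArithmeticFunction ℕ) ^ 3) n : ℝ) * (((ζ : ArithmeticFunction ℕ) ^ 3) (n + h) : ℝ) ≤
        3 * Two.Apsi (ps th) X (-h) n * (((ζ : ArithmeticFunction ℕ) ^ 3) n : ℝ) +
        3 * Two.Apsi (ps th) X h (n + h) * (((ζ : ArithmeticFunction ℕ) ^ 3) (n + h) : ℝ) -
        3 * Two.Apsi (ps th) X (-h) n * AA th (Real.log X) n +
        3 / 2 * Two.Apsi (ps th) X (-h) n *
          Hs th c (Real.log X) ⌊c₁ * Real.log X⌋₊ n +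
        3 / 2 * Two.Apsi (ps th) X h (n + h) *
          Hs th c (Real.log X) ⌊c₁ * Real.log X⌋₊ (n + h) +
        X⁻¹ * ((((ζ : ArithmeticFunction ℕ) ^ 3) n : ℝ) +
          (((ζ : ArithmeticFunction ℕ) ^ 3) (n + h) : ℝ))

/-- The shifted divisor sum. -/
noncomputable def DS (h : ℕ) (lo hi : ℕ) : ℝ :=
  ∑ n ∈ Finset.Ioc lo hi, (((ζ : ArithmeticFunction ℕ) ^ 3) n : ℝ) *
    (((ζ : ArithmeticFunction ℕ) ^ 3) (n + h) : ℝ)

/-- S5: the sum over `X / log X < n ≤ X`. -/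
def claimS5 : Prop := ∀ (h : ℕ), h ≠ 0 → ∀ th c : ℝ, 0 < th → th ≤ 1 / 100 →
    c = 1 / 4 + 2 * th → ∀ I₀ : ℝ, 0 ≤ I₀ →
    (∀ K : ℕ, ∑ k ∈ Finset.range (K + 1), IF th c k ≤ I₀) → ∀ δ : ℝ, 0 < δ →
    ∀ᶠ X : ℝ in atTop, DS h ⌊X / Real.log X⌋₊ ⌊X⌋₊ ≤
      (Csing 2 h * (3 * ((1 / 2 - th) ^ 2 / 2) - 9 * ((1 / 2 - th) ^ 2 / 2) ^ 2 +
        3 * ((1 / 2 - th) ^ 2 / 2) * I₀) + δ) * (X * (Real.log X) ^ 4)

/-- S6: from `X / log X < n ≤ X` to `1 ≤ n ≤ X`. -/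
def claimS6 : Prop := ∀ (h : ℕ) (E : ℝ), 0 ≤ E →
    (∀ δ : ℝ, 0 < δ → ∀ᶠ X : ℝ in atTop, DS h ⌊X / Real.log X⌋₊ ⌊X⌋₊ ≤
      (E + δ) * (X * (Real.log X) ^ 4)) →
    ∀ δ : ℝ, 0 < δ → ∀ᶠ X : ℝ in atTop, DS h 0 ⌊X⌋₊ ≤ (E + δ) * (X * (Real.log X) ^ 4)

/-! ## C: the limit functionals -/

/-- C0: sum over the lengths of the chain, for a fixed block. -/
def claimC0 : Prop := ∀ (f : ℝ → ℝ≥0∞) (E : ℝ → ℝ≥0∞) (e : ℝ), Measurable f → Measurable E →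
    (∀ a, 0 ≤ a → a < e → 1 + ∫⁻ s in Set.Ioo a e, f s * E s ≤ E a) →
    ∀ K : ℕ, ∑ k ∈ Finset.range (K + 1),
      (∫⁻ x in {x : Fin k → ℝ | (∀ m, 0 < x m) ∧ ∑ m, x m < e},
        ∏ m : Fin k, f (∑ m' ∈ Finset.univ.filter (fun m' : Fin k => m' ≤ m), x m')) ≤
      if 0 < e then E 0 else 1

/-- C1a: the closed form is a supersolution. -/
def claimC1a : Prop := ∀ (ui uj e : ℝ), 0 < e → e < ui → 0 < uj → e ≤ uj →
    ∀ a, 0 ≤ a → a < e →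
    1 + ∫⁻ s in Set.Ioo a e, ENNReal.ofReal ((uj - s) / (ui - s) ^ 2) *
      ENNReal.ofReal ((ui - s) / (ui - e) * Real.exp ((uj - ui) * (1 / (ui - e) - 1 / (ui - s)))) ≤
    ENNReal.ofReal ((ui - a) / (ui - e) * Real.exp ((uj - ui) * (1 / (ui - e) - 1 / (ui - a))))

/-- C1s: the change of variables `D = x₁ + ⋯ + x_(n + 1)`. -/
def claimC1s : Prop := ∀ (n : ℕ) (Φ : (Fin 4 → ℝ) → (Fin n → ℝ) → ℝ≥0∞),
    Measurable (Function.uncurry Φ) →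
    ∫⁻ y : Fin (n + 2) ⊕ Fin 2 → ℝ, Φ ![y (Sum.inl 0), ∑ m : Fin (n + 1), y (Sum.inl m.succ),
        y (Sum.inr 0), y (Sum.inr 1)] (fun m => y (Sum.inl m.castSucc.succ)) =
      ∫⁻ q : Fin 4 → ℝ, ∫⁻ x : Fin n → ℝ, Φ q x

/-- C1m: measurability. -/
def claimC1m : Prop := (∀ (th : ℝ) (i j : Fin 3),
      Measurable (fun p : Fin 5 → ℝ => cf th (p 0) (p 1) ![p 2, p 3, p 4] i j)) ∧
    (∀ th c : ℝ, Measurable (H1 th c)) ∧ (∀ th c : ℝ, Measurable (H0 th c))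

/-- C1b: the cells without a block. -/
def claimC1b : Prop := ∀ (th c : ℝ), 0 < th → th ≤ 1 / 100 → c = 1 / 4 + 2 * th →
    ENNReal.ofReal (IF th c 0) ≤ J0 th c

/-- C1c: the cells with a block. -/
def claimC1c : Prop := ∀ (th c : ℝ), 0 < th → th ≤ 1 / 100 → c = 1 / 4 + 2 * th → ∀ K : ℕ,
    ∑ k ∈ Finset.range K, ENNReal.ofReal (IF th c (k + 1)) ≤ J1 th c

/-- C1: the sum of the limits is bounded by the two functionals. -/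
def claimC1 : Prop := ∀ (th c : ℝ), 0 < th → th ≤ 1 / 100 → c = 1 / 4 + 2 * th → ∀ K : ℕ,
    ∑ k ∈ Finset.range (K + 1), ENNReal.ofReal (IF th c k) ≤ J0 th c + J1 th c

/-- C2: continuity at `th = 0`. -/
def claimC2 : Prop := Tendsto (fun th : ℝ => J0 th (1 / 4 + 2 * th) + J1 th (1 / 4 + 2 * th))
    (𝓝[>] 0) (𝓝 (J0 0 (1 / 4) + J1 0 (1 / 4)))

/-- C3a: numerics for the cells without a block. -/
def claimC3a : Prop := J0 0 (1 / 4) ≤ ENNReal.ofReal (87 / 2000)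

/-- C3b: numerics for the cells with a block. -/
def claimC3b : Prop := J1 0 (1 / 4) ≤ ENNReal.ofReal (11 / 50)

/-- C3: numerics. -/
def claimC3 : Prop := J0 0 (1 / 4) + J1 0 (1 / 4) < ENNReal.ofReal (19 / 72)

/-- The final statement. -/
def claimFinal : Prop := ∀ (h : ℕ), h ≠ 0 → ∀ c : ℝ, Csing 2 h / 3 < c →
    ∀ᶠ X : ℝ in atTop, DS h 0 ⌊X⌋₊ ≤ c * (X * (Real.log X) ^ 4)

end Pool.Agent.Work.MP_122e00_nt.Hyb
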