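import Pool.Agent.Work.MP_122e00_nt.Hyb.Sound6
import Pool.Agent.Work.MP_122e00_nt.Two.ItemT7

set_option autoImplicit false

/-!
# The numerical bound for the cells without a block
-/

namespace Pool.Agent.Work.MP_122e00_nt.Hyb

open Finset Filter Topology MeasureTheory

open scoped ENNReal

namespace Cz

open Chamber

/-- A vertex: homogeneous coordinates of `(x0, v0, v1, v2)`. -/
structure Vx where
  x : ℕ
  p : ℕ
  q : ℕ
  r : ℕ

/-- The sum of the coordinates. -/
def Vx.T (v : Vx) : ℕ := v.x + v.p + v.q + v.r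

/-- A simplex. -/
structure Sx where
  a : Vx
  b : Vx
  c : Vx
  d : Vx

/-- A vertex of a simplex. -/
def Sx.get (s : Sx) : ℕ → Vx
  | 0 => s.a
  | 1 => s.b
  | 2 => s.c
  | _ => s.d

/-- Replace a vertex. -/
def Sx.set (s : Sx) (i : ℕ) (w : Vx) : Sx :=
  match i with
  | 0 => ⟨w, s.b, s.c, s.d⟩
  | 1 => ⟨s.a, w, s.c, s.d⟩
  | 2 => ⟨s.a, s.b, w, s.d⟩
  | _ => ⟨s.a, s.b, s.c, w⟩

/-- All vertices. -/
def Sx.all (s : Sx) (f : Vx → Bool) : Bool := f s.a && (f s.b && (f s.c && f s.d))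

/-- Status of `f ≥ g`: `1` true, `0` false, `2` undecided. -/
def st (f g : Vx → ℕ) (s : Sx) : ℕ :=
  bif s.all (fun v => Nat.ble (g v) (f v)) then 1 else
    bif s.all (fun v => Nat.ble (f v) (g v)) then 0 else 2

def hx (f : Vx → ℕ) (s : Sx) : ℕ := st (fun v => 2 * f v) Vx.T s

def leaf (s : Sx) : Option ℕ :=
  bif s.all (fun v => Nat.blt 0 v.T) then
    bif Nat.beq (st (fun v => 4 * v.x) Vx.T s) 0 then some 0 else
      match Cert.isSure (hx (fun v => v.p + v.x) s) (hx (fun v => v.q) s) (hx (fun v => v.r) s) +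
        Cert.isSure (hx (fun v => v.p) s) (hx (fun v => v.q + v.x) s) (hx (fun v => v.r) s) +
        Cert.isSure (hx (fun v => v.p) s) (hx (fun v => v.q) s) (hx (fun v => v.r + v.x) s) with
      | 0 => none
      | 1 => some 4000000
      | 2 => some 500000
      | _ => some 0
  else none

inductive Ct
  | lf
  | ct (i j A B g : ℕ) (w : Vx) (l r : Ct)

def chk (A B g : ℕ) (P Q w : Vx) : Bool :=
  Nat.beq (A * P.x + B * Q.x) (g * w.x) && (Nat.beq (A * P.p + B * Q.p) (g * w.p) &&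
  (Nat.beq (A * P.q + B * Q.q) (g * w.q) && Nat.beq (A * P.r + B * Q.r) (g * w.r)))

def run : Ct → Sx → Option ℕ
  | .lf, s => leaf s
  | .ct i j A B g w l r, s =>
    bif (Nat.blt i j && Nat.ble j 3) && (Nat.blt 0 (A * (s.get i).T) && (Nat.blt 0 (B * (s.get j).T)
        && chk A B g (s.get i) (s.get j) w)) then
      Cert.avg (A * (s.get i).T) (B * (s.get j).T) (run l (s.set i w)) (run r (s.set j w))
    else none

/-- The certificate. -/
def top : Ct :=
  (.ct 0 3 1 1 1 ⟨1, 1, 1, 1⟩ .lf (.ct 0 1 1 1 1 ⟨1, 1, 0, 0⟩ (.ct 1 3 2 1 1 ⟨1, 3, 1, 1⟩ (.ct 0 2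
  1 1 1 ⟨1, 2, 1, 0⟩ .lf (.ct 0 1 1 1 1 ⟨2, 4, 1, 1⟩ .lf (.ct 0 1 4 1 1 ⟨6, 8, 1, 1⟩ (.ct 0 1 1 2
  1 ⟨10, 16, 3, 3⟩ .lf .lf) (.ct 0 1 8 1 1 ⟨14, 16, 1, 1⟩ .lf .lf)))) .lf) (.ct 0 2 2 1 1 ⟨2, 1,
  1, 0⟩ (.ct 0 2 1 2 1 ⟨2, 3, 3, 0⟩ (.ct 1 2 1 1 1 ⟨1, 2, 1, 0⟩ .lf .lf) .lf) .lf)))

/-- The chamber. -/
def S0 : Sx := ⟨⟨1, 0, 0, 0⟩, ⟨0, 1, 0, 0⟩, ⟨0, 1, 1, 0⟩, ⟨0, 1, 1, 1⟩⟩

theorem cert_ok : Cert.le (run top S0) 260000 = true := by decide +kernel

/-! ### symmetry and chambers -/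

/-- Four vertices. -/
def V4 {E : Type} (a b c d : E) : Option (Fin 3) → E
  | some 0 => a
  | some 1 => b
  | some 2 => c
  | none => d

theorem V4_ext {E : Type} (V W : Option (Fin 3) → E) (h0 : V (some 0) = W (some 0))
    (h1 : V (some 1) = W (some 1)) (h2 : V (some 2) = W (some 2)) (h4 : V none = W none) :
    V = W := by
  funext o
  rcases o with _ | i
  · exact h4
  · fin_cases i
    · exact h0
    · exact h1
    · exact h2

theorem vec_ext (v w : Fin 4 → ℝ) (h0 : v 0 = w 0) (h1 : v 1 = w 1) (h2 : v 2 = w 2)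
    (h3 : v 3 = w 3) : v = w := by
  funext q
  fin_cases q
  · exact h0
  · exact h1
  · exact h2
  · exact h3

/-- The integrand. -/
noncomputable def GC (p : Fin 4 → ℝ) : ℝ≥0∞ := ENNReal.ofReal (H0 0 (1 / 4) p)

theorem meas_GC : Measurable GC := ENNReal.measurable_ofReal.comp (prfC1m.2.2 0 (1 / 4))

theorem ad_zero (v : Fin 3 → ℝ) (j : Fin 3) : ad v j 0 = v := by
  funext q
  simp [ad]

theorem nb_zero (x : ℝ) (v : Fin 3 → ℝ) (j : Fin 3) : nb 0 x 0 v j = nb 0 x 0 v 0 := by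
  unfold nb
  simp only [ad_zero]

theorem ng_zero (x : ℝ) (v : Fin 3 → ℝ) (j : Fin 3) : ng 0 x 0 v j = ng 0 x 0 v 0 := by
  unfold ng
  simp only [ad_zero]

theorem GC_comp (p p' : Fin 4 → ℝ) (σ : Equiv.Perm (Fin 3)) (h0 : p' 0 = p 0)
    (h : ![p' 1, p' 2, p' 3] = ![p 1, p 2, p 3] ∘ σ) : GC p' = GC p := by
  unfold GC H0
  rw [h, Cl.nb_comp, Cl.ng_comp, nb_zero, ng_zero, h0]

theorem GC_swap23 (p : Fin 4 → ℝ) : GC (p ∘ Equiv.swap 2 3) = GC p := by
  refine GC_comp _ _ (Equiv.swap 1 2) (by simp [Function.comp, Equiv.swap_apply_def]) ?_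
  funext q
  fin_cases q <;> simp [Function.comp, Equiv.swap_apply_def]

theorem GC_swap12 (p : Fin 4 → ℝ) : GC (p ∘ Equiv.swap 1 2) = GC p := by
  refine GC_comp _ _ (Equiv.swap 0 1) (by simp [Function.comp, Equiv.swap_apply_def]) ?_
  funext q
  fin_cases q <;> simp [Function.comp, Equiv.swap_apply_def]

theorem EV_symm (σ : Equiv.Perm (Fin 4)) (G : (Fin 4 → ℝ) → ℝ≥0∞) (hG : ∀ p, G (p ∘ σ) = G p)
    (V : Option (Fin 3) → Fin 4 → ℝ) : EV V G = EV (fun o => V o ∘ σ) G := by
  unfold EV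
  congr 1
  funext y
  rw [← hG]
  have h : bar V y ∘ σ = bar (fun o => V o ∘ σ) y := by
    funext q
    simp [bar, Function.comp]
  rw [h]

def e0 : Fin 4 → ℝ := ![1, 0, 0, 0]
def e1 : Fin 4 → ℝ := ![0, 1, 0, 0]
def e2 : Fin 4 → ℝ := ![0, 0, 1, 0]
def e3 : Fin 4 → ℝ := ![0, 0, 0, 1]
noncomputable def e23 : Fin 4 → ℝ := ![0, 0, 1 / 2, 1 / 2]
noncomputable def e12 : Fin 4 → ℝ := ![0, 1 / 2, 1 / 2, 0]
noncomputable def e123 : Fin 4 → ℝ := ![0, 1 / 3, 1 / 3, 1 / 3]

theorem std_eq : std 3 = V4 e0 e1 e2 e3 := by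
  apply V4_ext <;>
    (funext q; fin_cases q <;> simp [std, V4, e0, e1, e2, e3, Fin.ext_iff])

theorem s23 (a b c d : Fin 4 → ℝ) : EV (V4 a b c d) GC =
    EV (V4 (a ∘ Equiv.swap 2 3) (b ∘ Equiv.swap 2 3) (c ∘ Equiv.swap 2 3)
      (d ∘ Equiv.swap 2 3)) GC := by
  rw [EV_symm (Equiv.swap 2 3) GC GC_swap23]
  congr 1
  apply V4_ext <;> rfl

theorem s12 (a b c d : Fin 4 → ℝ) : EV (V4 a b c d) GC =
    EV (V4 (a ∘ Equiv.swap 1 2) (b ∘ Equiv.swap 1 2) (c ∘ Equiv.swap 1 2)
      (d ∘ Equiv.swap 1 2)) GC := by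
  rw [EV_symm (Equiv.swap 1 2) GC GC_swap12]
  congr 1
  apply V4_ext <;> rfl

theorem w2 (a b c d : Fin 4 → ℝ) : EV (V4 a b c d) GC = EV (V4 a b d c) GC := by
  rw [EV_swap _ GC meas_GC 2]
  congr 1
  apply V4_ext <;> simp [V4, Equiv.swap_apply_def, Function.comp]

theorem w1 (a b c d : Fin 4 → ℝ) : EV (V4 a b c d) GC = EV (V4 a d c b) GC := by
  rw [EV_swap _ GC meas_GC 1]
  congr 1
  apply V4_ext <;> simp [V4, Equiv.swap_apply_def, Function.comp]

theorem cut2n (a b c d w : Fin 4 → ℝ) (hw : w = (1 / 2 : ℝ) • c + (1 - 1 / 2 : ℝ) • d) :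
    EV (V4 a b c d) GC = ENNReal.ofReal (1 / 2) * EV (V4 a b w d) GC +
      ENNReal.ofReal (1 - 1 / 2) * EV (V4 a b c w) GC := by
  rw [EV_bisect (V4 a b c d) GC meas_GC (some 2) none (by simp) (1 / 2) (by norm_num)
    (by norm_num)]
  have h1 : Function.update (V4 a b c d) (some 2)
      ((1 / 2 : ℝ) • V4 a b c d (some 2) + (1 - 1 / 2 : ℝ) • V4 a b c d none) =
      V4 a b w d := by
    apply V4_ext <;> simp [V4, hw]
  have h2 : Function.update (V4 a b c d) none
      ((1 / 2 : ℝ) • V4 a b c d (some 2) + (1 - 1 / 2 : ℝ) • V4 a b c d none) =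
      V4 a b c w := by
    apply V4_ext <;> simp [V4, hw]
  rw [h1, h2]

theorem cut1n (a b c d w : Fin 4 → ℝ) (hw : w = (1 / 3 : ℝ) • b + (1 - 1 / 3 : ℝ) • d) :
    EV (V4 a b c d) GC = ENNReal.ofReal (1 / 3) * EV (V4 a w c d) GC +
      ENNReal.ofReal (1 - 1 / 3) * EV (V4 a b c w) GC := by
  rw [EV_bisect (V4 a b c d) GC meas_GC (some 1) none (by simp) (1 / 3) (by norm_num)
    (by norm_num)]
  have h1 : Function.update (V4 a b c d) (some 1)
      ((1 / 3 : ℝ) • V4 a b c d (some 1) + (1 - 1 / 3 : ℝ) • V4 a b c d none) =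
      V4 a w c d := by
    apply V4_ext <;> simp [V4, hw]
  have h2 : Function.update (V4 a b c d) none
      ((1 / 3 : ℝ) • V4 a b c d (some 1) + (1 - 1 / 3 : ℝ) • V4 a b c d none) =
      V4 a b c w := by
    apply V4_ext <;> simp [V4, hw]
  rw [h1, h2]

theorem cut12 (a b c d w : Fin 4 → ℝ) (hw : w = (1 / 2 : ℝ) • b + (1 - 1 / 2 : ℝ) • c) :
    EV (V4 a b c d) GC = ENNReal.ofReal (1 / 2) * EV (V4 a w c d) GC +
      ENNReal.ofReal (1 - 1 / 2) * EV (V4 a b w d) GC := by
  rw [EV_bisect (V4 a b c d) GC meas_GC (some 1) (some 2) (by simp) (1 / 2) (by norm_num)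
    (by norm_num)]
  have h1 : Function.update (V4 a b c d) (some 1)
      ((1 / 2 : ℝ) • V4 a b c d (some 1) + (1 - 1 / 2 : ℝ) • V4 a b c d (some 2)) =
      V4 a w c d := by
    apply V4_ext <;> simp [V4, hw]
  have h2 : Function.update (V4 a b c d) (some 2)
      ((1 / 2 : ℝ) • V4 a b c d (some 1) + (1 - 1 / 2 : ℝ) • V4 a b c d (some 2)) =
      V4 a b w d := by
    apply V4_ext <;> simp [V4, hw]
  rw [h1, h2]

theorem step1 : EV (V4 e0 e1 e2 e3) GC = EV (V4 e0 e1 e2 e23) GC := by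
  rw [cut2n e0 e1 e2 e3 e23 (by
    apply vec_ext <;> simp [e2, e3, e23]; norm_num)]
  have h : EV (V4 e0 e1 e23 e3) GC = EV (V4 e0 e1 e2 e23) GC := by
    rw [s23, w2]
    congr 1
    apply V4_ext <;> apply vec_ext <;>
      simp [V4, e0, e1, e2, e3, e23, Equiv.swap_apply_def, Function.comp]
  rw [h, Cl.half_add]

theorem step2 : EV (V4 e0 e1 e2 e123) GC = EV (V4 e0 e1 e12 e123) GC := by
  rw [cut12 e0 e1 e2 e123 e12 (by
    apply vec_ext <;> simp [e1, e2, e12]; norm_num)]
  have h : EV (V4 e0 e12 e2 e123) GC = EV (V4 e0 e1 e12 e123) GC := by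
    rw [s12, w1, w2, w1]
    congr 1
    apply V4_ext <;> apply vec_ext <;>
      simp [V4, e0, e1, e2, e12, e123, Equiv.swap_apply_def, Function.comp]
  rw [h, Cl.half_add]

theorem step3 : EV (V4 e0 e1 e2 e23) GC = EV (V4 e0 e1 e12 e123) GC := by
  rw [cut1n e0 e1 e2 e23 e123 (by
    apply vec_ext <;> simp [e1, e23, e123] <;> norm_num), step2]
  have h : EV (V4 e0 e123 e2 e23) GC = EV (V4 e0 e1 e12 e123) GC := by
    rw [s12, s23, w1, w2, w1, w2]
    congr 1
    apply V4_ext <;> apply vec_ext <;>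
      simp [V4, e0, e1, e2, e12, e123, e23, Equiv.swap_apply_def, Function.comp]
  rw [h, Cl.third_add]

/-- The integral over the cells without a block, on the chamber. -/
theorem J0_eq : J0 0 (1 / 4) = EV (V4 e0 e1 e12 e123) GC := by
  have h : J0 0 (1 / 4) = EV (std 3) GC := rfl
  rw [h, std_eq, step1, step3]

/-! ### soundness -/

/-- The point with homogeneous coordinates `v`. -/
noncomputable def pt (v : Vx) : Fin 4 → ℝ := ![v.x / v.T, v.p / v.T, v.q / v.T, v.r / v.T]

/-- The vertices. -/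
noncomputable def pts (s : Sx) : Option (Fin 3) → Fin 4 → ℝ :=
  V4 (pt s.a) (pt s.b) (pt s.c) (pt s.d)

/-- The vertices, as `Vx`. -/
def vx (s : Sx) : Option (Fin 3) → Vx := V4 s.a s.b s.c s.d

theorem pts_eq (s : Sx) (o : Option (Fin 3)) : pts s o = pt (vx s o) := by
  have : pts s = fun o => pt (vx s o) := V4_ext _ _ rfl rfl rfl rfl
  rw [this]

theorem all_spec (s : Sx) (f : Vx → Bool) : s.all f = true ↔ ∀ o, f (vx s o) = true := by
  unfold Sx.all
  simp only [Bool.and_eq_true]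
  constructor
  · rintro ⟨ha, hb, hc, hd⟩ o
    rcases o with _ | i
    · exact hd
    · fin_cases i
      · exact ha
      · exact hb
      · exact hc
  · intro h
    exact ⟨h (some 0), h (some 1), h (some 2), h none⟩

/-- The barycentric weights. -/
noncomputable def wt (y : Fin 3 → ℝ) : Option (Fin 3) → ℝ
  | some i => y i
  | none => 1 - ∑ i, y i

theorem wt_sum (y : Fin 3 → ℝ) : ∑ o, wt y o = 1 := by
  rw [Fintype.sum_option]
  simp [wt]

theorem bar_wt (V : Option (Fin 3) → Fin 4 → ℝ) (y : Fin 3 → ℝ) (q : Fin 4) :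
    bar V y q = ∑ o, wt y o * V o q := by
  rw [Fintype.sum_option]
  simp only [bar, wt, Pi.add_apply, Finset.sum_apply, Pi.smul_apply, smul_eq_mul]
  ring

theorem null (c : Fin 3 → ℝ) (b : ℝ) (hc : c ≠ 0) : ∀ᵐ y : Fin 3 → ℝ, ∑ i, c i * y i ≠ b := by
  have h := Two.prfL6 (Fin 3) c b hc
  rw [ae_iff]
  simpa using h

/-- Almost all points are interior. -/
theorem ae_int : ∀ᵐ y ∂(volume.restrict (T (Fin 3))), ∀ o, 0 < wt y o := by
  rw [ae_restrict_iff' (measurableSet_T _)]
  have h0 := null ![1, 0, 0] 0 (by intro h; simpa using congrFun h 0)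
  have h1 := null ![0, 1, 0] 0 (by intro h; simpa using congrFun h 1)
  have h2 := null ![0, 0, 1] 0 (by intro h; simpa using congrFun h 2)
  have h4 := null ![1, 1, 1] 1 (by intro h; simpa using congrFun h 1)
  filter_upwards [h0, h1, h2, h4] with y h0 h1 h2 h4 hy
  simp only [Fin.sum_univ_three] at h0 h1 h2
  have hne : ∀ i, y i ≠ 0 := by
    intro i
    fin_cases i
    · simpa using h0
    · simpa using h1
    · simpa using h2
  have hne1 : ∑ i, y i ≠ 1 := by simpa [Fin.sum_univ_three] using h4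
  intro o
  rcases o with _ | i
  · exact sub_pos.2 (lt_of_le_of_ne hy.2 hne1)
  · exact lt_of_le_of_ne (hy.1 i) (hne i).symm

theorem st_one (f g : Vx → ℕ) (s : Sx) (h : st f g s = 1) : ∀ o, g (vx s o) ≤ f (vx s o) := by
  unfold st at h
  cases h1 : s.all (fun v => Nat.ble (g v) (f v)) with
  | true =>
    intro o
    exact Nat.le_of_ble_eq_true ((all_spec s _).1 h1 o)
  | false =>
    rw [h1] at h
    simp only [cond_false] at h
    cases h2 : s.all (fun v => Nat.ble (f v) (g v)) with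
    | true => rw [h2] at h; simp at h
    | false => rw [h2] at h; simp at h

theorem st_zero (f g : Vx → ℕ) (s : Sx) (h : st f g s = 0) :
    (∀ o, f (vx s o) ≤ g (vx s o)) ∧ ∃ o, f (vx s o) < g (vx s o) := by
  unfold st at h
  cases h1 : s.all (fun v => Nat.ble (g v) (f v)) with
  | true => rw [h1] at h; simp at h
  | false =>
    rw [h1] at h
    simp only [cond_false] at h
    cases h2 : s.all (fun v => Nat.ble (f v) (g v)) with
    | true =>
      refine ⟨fun o => Nat.le_of_ble_eq_true ((all_spec s _).1 h2 o), ?_⟩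
      by_contra hcon
      push Not at hcon
      have : s.all (fun v => Nat.ble (g v) (f v)) = true :=
        (all_spec s _).2 fun o => Nat.ble_eq_true_of_le (hcon o)
      rw [this] at h1
      exact absurd h1 (by simp)
    | false => rw [h2] at h; simp at h

/-- A linear form. -/
def lin (c p : Fin 4 → ℝ) : ℝ := c 0 * p 0 + c 1 * p 1 + c 2 * p 2 + c 3 * p 3

theorem lin_bar (c : Fin 4 → ℝ) (s : Sx) (y : Fin 3 → ℝ) :
    lin c (bar (pts s) y) = ∑ o, wt y o * lin c (pt (vx s o)) := by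
  unfold lin
  simp only [bar_wt, Finset.mul_sum, ← Finset.sum_add_distrib]
  refine Finset.sum_congr rfl fun o _ => ?_
  rw [pts_eq]
  ring

theorem lin_pt (c : Fin 4 → ℝ) (v : Vx) : lin c (pt v) =
    (c 0 * v.x + c 1 * v.p + c 2 * v.q + c 3 * v.r) / v.T := by
  simp only [lin, pt, Matrix.cons_val_zero, Matrix.cons_val_one, Matrix.cons_val]
  ring

theorem Tcast (v : Vx) : (v.T : ℝ) = v.x + v.p + v.q + v.r := by
  unfold Vx.T
  push_cast
  ring

section pointwise

variable (s : Sx) (y : Fin 3 → ℝ) (hw : ∀ o, 0 < wt y o) (hT : ∀ o, 0 < (vx s o).T)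

include hw hT

theorem fm_st (c c' : Fin 4 → ℝ) (f g : Vx → ℕ) (hf : ∀ v, lin c (pt v) = (f v : ℝ) / v.T)
    (hg : ∀ v, lin c' (pt v) = (g v : ℝ) / v.T) :
    Cl.Fm (st f g s) (lin c' (bar (pts s) y) ≤ lin c (bar (pts s) y)) := by
  have hT' : ∀ o, (0 : ℝ) < (vx s o).T := fun o => by exact_mod_cast hT o
  rw [lin_bar, lin_bar]
  constructor
  · intro h
    have h1 := st_one f g s h
    refine Finset.sum_le_sum fun o _ => mul_le_mul_of_nonneg_left ?_ (hw o).le
    rw [hf, hg]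
    exact div_le_div_of_nonneg_right (by exact_mod_cast h1 o) (hT' o).le
  · intro h
    obtain ⟨h1, o, ho⟩ := st_zero f g s h
    rw [not_le]
    refine Finset.sum_lt_sum (fun o _ => mul_le_mul_of_nonneg_left ?_ (hw o).le)
      ⟨o, Finset.mem_univ o, mul_lt_mul_of_pos_left ?_ (hw o)⟩
    · rw [hf, hg]
      exact div_le_div_of_nonneg_right (by exact_mod_cast h1 o) (hT' o).le
    · rw [hf, hg]
      exact div_lt_div_of_pos_right (by exact_mod_cast ho) (hT' o)

omit hw in
theorem sum_one : lin ![1, 1, 1, 1] (bar (pts s) y) = 1 := by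
  rw [lin_bar]
  refine Eq.trans (Finset.sum_congr rfl fun o _ => ?_) (wt_sum y)
  rw [lin_pt]
  have hT' : (0 : ℝ) < (vx s o).T := by exact_mod_cast hT o
  have := Tcast (vx s o)
  simp only [Matrix.cons_val_zero, Matrix.cons_val_one, Matrix.cons_val]
  rw [this] at hT' ⊢
  field_simp

theorem fm_hx (c : Fin 4 → ℝ) (f : Vx → ℕ) (hf : ∀ v, lin c (pt v) = (f v : ℝ) / v.T) :
    Cl.Fm (hx f s) (1 / 2 ≤ lin c (bar (pts s) y)) := by
  have h := fm_st s y hw hT (fun q => 2 * c q) ![1, 1, 1, 1] (fun v => 2 * f v) Vx.T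
    (by
      intro v
      have := hf v
      rw [lin_pt] at this ⊢
      push_cast
      rw [mul_div_assoc, ← this]
      ring)
    (by
      intro v
      rw [lin_pt, Tcast]
      simp)
  rw [sum_one s y hT] at h
  have e : lin (fun q => 2 * c q) (bar (pts s) y) = 2 * lin c (bar (pts s) y) := by
    unfold lin; ring
  rw [e] at h
  unfold hx
  refine ⟨fun h' => ?_, fun h' => ?_⟩
  · have := h.1 h'; linarith
  · have := h.2 h'
    intro h''
    apply this
    linarith

end pointwise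

/-- A constant bound on a leaf. -/
theorem const_leaf (s : Sx) (r : ℕ)
    (h : ∀ y, (∀ o, 0 < wt y o) → H0 0 (1 / 4) (bar (pts s) y) ≤ (r : ℝ) / (Cert.S : ℕ)) :
    EV (pts s) GC ≤ ENNReal.ofReal ((r : ℝ) / (Cert.S : ℕ)) * vol (Fin 3) := by
  have h1 : EV (pts s) GC ≤ ∫⁻ _ in T (Fin 3), ENNReal.ofReal ((r : ℝ) / (Cert.S : ℕ)) := by
    unfold EV
    refine lintegral_mono_ae ?_
    filter_upwards [ae_int] with y hy
    exact ENNReal.ofReal_le_ofReal (h y hy)
  refine h1.trans ?_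
  rw [setLIntegral_const]
  rfl

theorem GN_ge (x v0 v1 v2 : ℝ) (hs : x + v0 + v1 + v2 = 1) (s00 s02 s10 s12 s20 s22 : ℕ)
    (h00 : Cl.Fm s00 (1 / 2 ≤ v0)) (h02 : Cl.Fm s02 (1 / 2 ≤ v0 + x))
    (h10 : Cl.Fm s10 (1 / 2 ≤ v1)) (h12 : Cl.Fm s12 (1 / 2 ≤ v1 + x))
    (h20 : Cl.Fm s20 (1 / 2 ≤ v2)) (h22 : Cl.Fm s22 (1 / 2 ≤ v2 + x)) :
    Cert.isSure s02 s10 s20 + Cert.isSure s00 s12 s20 + Cert.isSure s00 s10 s22 ≤
      Cl.GN x 0 ![v0, v1, v2] 0 := by
  classical
  have key : ∀ (i : Fin 3) (a b c : ℕ) (A B C : ℝ) (_ : Cl.Fm a (1 / 2 ≤ A))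
      (_ : Cl.Fm b (1 / 2 ≤ B)) (_ : Cl.Fm c (1 / 2 ≤ C))
      (_ : ad (ad ![v0, v1, v2] 0 0) i x 0 = A) (_ : ad (ad ![v0, v1, v2] 0 0) i x 1 = B)
      (_ : ad (ad ![v0, v1, v2] 0 0) i x 2 = C) (_ : A + B + C = 1),
      Cert.isSure a b c ≤ (if Gd 0 (ad (ad ![v0, v1, v2] 0 0) i x) then 1 else 0) := by
    intro i a b c A B C ha hb hc eA eB eC hABC
    refine (Cl.sure_le2 a b c _ _ _ _ ?_ ha hb hc).1
    rw [Cl.Gd_iff _ (by rw [eA, eB, eC]; exact hABC), eA, eB, eC]
  have k00 := key 0 s02 s10 s20 (v0 + x) v1 v2 h02 h10 h20 (by simp [ad]) (by simp [ad])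
    (by simp [ad]) (by linarith)
  have k01 := key 1 s00 s12 s20 v0 (v1 + x) v2 h00 h12 h20 (by simp [ad]) (by simp [ad])
    (by simp [ad]) (by linarith)
  have k02 := key 2 s00 s10 s22 v0 v1 (v2 + x) h00 h10 h22 (by simp [ad]) (by simp [ad])
    (by simp [ad]) (by linarith)
  unfold Cl.GN
  simp only [Fin.sum_univ_three]
  exact Nat.add_le_add (Nat.add_le_add k00 k01) k02

theorem leaf_spec (s : Sx) (r : ℕ) (h : leaf s = some r) :
    EV (pts s) GC ≤ ENNReal.ofReal ((r : ℝ) / (Cert.S : ℕ)) * vol (Fin 3) := by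
  unfold leaf at h
  cases hT0 : s.all (fun v => Nat.blt 0 v.T) with
  | false => rw [hT0] at h; simp at h
  | true =>
  have hT : ∀ o, 0 < (vx s o).T := fun o => by
    have := (all_spec s _).1 hT0 o
    simpa using this
  rw [hT0] at h
  simp only [cond_true] at h
  refine const_leaf s r fun y hw => ?_
  have hr0 : (0 : ℝ) ≤ (r : ℝ) / (Cert.S : ℕ) := by positivity
  cases hc : (Nat.beq (st (fun v => 4 * v.x) Vx.T s) 0) with
  | true =>
    rw [Nat.beq_eq] at hc
    have hx := fm_st s y hw hT ![4, 0, 0, 0] ![1, 1, 1, 1] (fun v => 4 * v.x) Vx.T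
      (by intro v; rw [lin_pt]; simp) (by intro v; rw [lin_pt, Tcast]; simp)
    rw [sum_one s y hT] at hx
    have e1 : lin ![4, 0, 0, 0] (bar (pts s) y) = 4 * bar (pts s) y 0 := by simp [lin]
    rw [e1] at hx
    unfold H0
    rw [if_neg]
    · exact hr0
    · intro h'
      apply hx.2 hc
      linarith
  | false =>
    rw [hc] at h
    simp only [cond_false] at h
    have h00 := fm_hx s y hw hT ![0, 1, 0, 0] (fun v => v.p) (by intro v; rw [lin_pt]; simp)
    have h10 := fm_hx s y hw hT ![0, 0, 1, 0] (fun v => v.q) (by intro v; rw [lin_pt]; simp)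
    have h20 := fm_hx s y hw hT ![0, 0, 0, 1] (fun v => v.r) (by intro v; rw [lin_pt]; simp)
    have h02 := fm_hx s y hw hT ![1, 1, 0, 0] (fun v => v.p + v.x)
      (by intro v; rw [lin_pt]; simp; ring)
    have h12 := fm_hx s y hw hT ![1, 0, 1, 0] (fun v => v.q + v.x)
      (by intro v; rw [lin_pt]; simp; ring)
    have h22 := fm_hx s y hw hT ![1, 0, 0, 1] (fun v => v.r + v.x)
      (by intro v; rw [lin_pt]; simp; ring)
    have hs := sum_one s y hT
    have c00 : lin ![0, 1, 0, 0] (bar (pts s) y) = bar (pts s) y 1 := by simp [lin]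
    have c10 : lin ![0, 0, 1, 0] (bar (pts s) y) = bar (pts s) y 2 := by simp [lin]
    have c20 : lin ![0, 0, 0, 1] (bar (pts s) y) = bar (pts s) y 3 := by simp [lin]
    have c02 : lin ![1, 1, 0, 0] (bar (pts s) y) = bar (pts s) y 1 + bar (pts s) y 0 := by
      simp [lin]; ring
    have c12 : lin ![1, 0, 1, 0] (bar (pts s) y) = bar (pts s) y 2 + bar (pts s) y 0 := by
      simp [lin]; ring
    have c22 : lin ![1, 0, 0, 1] (bar (pts s) y) = bar (pts s) y 3 + bar (pts s) y 0 := by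
      simp [lin]; ring
    have es : lin ![1, 1, 1, 1] (bar (pts s) y) = bar (pts s) y 0 + bar (pts s) y 1 +
      bar (pts s) y 2 + bar (pts s) y 3 := by simp [lin]
    rw [c00] at h00
    rw [c10] at h10
    rw [c20] at h20
    rw [c02] at h02
    rw [c12] at h12
    rw [c22] at h22
    rw [es] at hs
    have hG := GN_ge _ _ _ _ hs _ _ _ _ _ _ h00 h02 h10 h12 h20 h22
    have hG3 := Cl.GN_le (bar (pts s) y 0) 0 ![bar (pts s) y 1, bar (pts s) y 2,
      bar (pts s) y 3] 0
    unfold H0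
    split_ifs with hc2
    · rw [Cl.nb_eq, Cl.ng_eq]
      set G := Cl.GN (bar (pts s) y 0) 0 ![bar (pts s) y 1, bar (pts s) y 2,
        bar (pts s) y 3] 0 with hGdef
      set lo := Cert.isSure (hx (fun v => v.p + v.x) s) (hx (fun v => v.q) s)
        (hx (fun v => v.r) s) +
        Cert.isSure (hx (fun v => v.p) s) (hx (fun v => v.q + v.x) s) (hx (fun v => v.r) s) +
        Cert.isSure (hx (fun v => v.p) s) (hx (fun v => v.q) s) (hx (fun v => v.r + v.x) s)
        with hlo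
      have hcases : (lo = 1 ∧ r = 4000000) ∨ (lo = 2 ∧ r = 500000) ∨ 3 ≤ lo := by
        rcases lo with _ | _ | _ | lo
        · simp at h
        · left; exact ⟨rfl, by simpa using h.symm⟩
        · right; left; exact ⟨rfl, by simpa using h.symm⟩
        · right; right; omega
      unfold Cert.S
      rcases hcases with ⟨h1, h2⟩ | ⟨h1, h2⟩ | h1
      · rw [h2]
        have : G = 1 ∨ G = 2 ∨ G = 3 := by omega
        rcases this with h | h | h <;> rw [h] <;> norm_num
      · rw [h2]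
        have : G = 2 ∨ G = 3 := by omega
        rcases this with h | h <;> rw [h] <;> norm_num
      · have : G = 3 := by omega
        rw [this]
        norm_num
        positivity
    · exact hr0

/-! ### cuts -/

/-- The index of a vertex. -/
def ix : ℕ → Option (Fin 3)
  | 0 => some 0
  | 1 => some 1
  | 2 => some 2
  | _ => none

theorem pts_get (s : Sx) (i : ℕ) : pts s (ix i) = pt (s.get i) := by
  rcases i with _ | _ | _ | i <;> rfl

theorem pts_set (s : Sx) (i : ℕ) (w : Vx) :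
    pts (s.set i w) = Function.update (pts s) (ix i) (pt w) := by
  rcases i with _ | _ | _ | i <;> apply V4_ext <;>
    simp [pts, V4, Sx.set, ix, Function.update_apply]

theorem ix_ne (i j : ℕ) (h1 : i < j) (h2 : j ≤ 3) : ix i ≠ ix j := by
  interval_cases j <;> interval_cases i <;> simp [ix]

theorem chk_spec (A B g : ℕ) (P Q w : Vx) (h : chk A B g P Q w = true) (hP : 0 < A * P.T)
    (hQ : 0 < B * Q.T) :
    pt w = ((A * P.T : ℕ) / ((A * P.T : ℕ) + (B * Q.T : ℕ)) : ℝ) • pt P +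
      (1 - ((A * P.T : ℕ) / ((A * P.T : ℕ) + (B * Q.T : ℕ)) : ℝ)) • pt Q := by
  unfold chk at h
  simp only [Bool.and_eq_true, Nat.beq_eq] at h
  obtain ⟨h0, h2, h3, h4⟩ := h
  have hsum : A * P.T + B * Q.T = g * w.T := by
    unfold Vx.T
    have e : A * (P.x + P.p + P.q + P.r) + B * (Q.x + Q.p + Q.q + Q.r) =
        (A * P.x + B * Q.x) + (A * P.p + B * Q.p) + (A * P.q + B * Q.q) +
          (A * P.r + B * Q.r) := by ring
    rw [e, h0, h2, h3, h4]
    ring
  have hPT : 0 < P.T := by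
    rcases Nat.eq_zero_or_pos P.T with h | h
    · rw [h] at hP; simp at hP
    · exact h
  have hQT : 0 < Q.T := by
    rcases Nat.eq_zero_or_pos Q.T with h | h
    · rw [h] at hQ; simp at hQ
    · exact h
  have hg : 0 < g := by
    rcases Nat.eq_zero_or_pos g with h | h
    · rw [h] at hsum; omega
    · exact h
  have hwT : 0 < w.T := by
    rcases Nat.eq_zero_or_pos w.T with h | h
    · rw [h] at hsum; omega
    · exact h
  have hPT' : (0 : ℝ) < P.T := by exact_mod_cast hPT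
  have hQT' : (0 : ℝ) < Q.T := by exact_mod_cast hQT
  have hg' : (0 : ℝ) < g := by exact_mod_cast hg
  have hwT' : (0 : ℝ) < w.T := by exact_mod_cast hwT
  have hsum' : (A : ℝ) * P.T + B * Q.T = g * w.T := by exact_mod_cast hsum
  have key : ∀ a b c : ℕ, A * a + B * b = g * c → (c : ℝ) / w.T =
      (A * P.T : ℝ) / (A * P.T + B * Q.T) * ((a : ℝ) / P.T) +
      (1 - (A * P.T : ℝ) / (A * P.T + B * Q.T)) * ((b : ℝ) / Q.T) := by
    intro a b c habc
    have habc' : (A : ℝ) * a + B * b = g * c := by exact_mod_cast habc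
    have hne : (A * P.T + B * Q.T : ℝ) ≠ 0 := by
      rw [hsum']; positivity
    have e1 : (1 - (A * P.T : ℝ) / (A * P.T + B * Q.T)) = (B * Q.T) / (A * P.T + B * Q.T) := by
      field_simp
      ring
    rw [e1]
    have e2 : (A * P.T : ℝ) / (A * P.T + B * Q.T) * ((a : ℝ) / P.T) +
        (B * Q.T) / (A * P.T + B * Q.T) * ((b : ℝ) / Q.T) =
        (A * a + B * b) / (A * P.T + B * Q.T) := by
      field_simp
    rw [e2, habc', hsum']
    field_simp
  push_cast
  apply vec_ext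
  · exact key _ _ _ h0
  · exact key _ _ _ h2
  · exact key _ _ _ h3
  · exact key _ _ _ h4

theorem run_spec : ∀ (t : Ct) (s : Sx) (r : ℕ), run t s = some r →
    EV (pts s) GC ≤ ENNReal.ofReal ((r : ℝ) / (Cert.S : ℕ)) * vol (Fin 3) := by
  intro t
  induction t with
  | lf => exact fun s r h => leaf_spec s r h
  | ct i j A B g w l r' ihl ihr =>
    intro s r h
    unfold run at h
    cases hc : ((Nat.blt i j && Nat.ble j 3) && (Nat.blt 0 (A * (s.get i).T) &&
        (Nat.blt 0 (B * (s.get j).T) && chk A B g (s.get i) (s.get j) w))) with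
    | false => rw [hc] at h; simp at h
    | true =>
      rw [hc] at h
      simp only [cond_true] at h
      simp only [Bool.and_eq_true, Nat.blt_eq, Nat.ble_eq] at hc
      obtain ⟨⟨hij, hj4⟩, hP, hQ, hchk⟩ := hc
      cases hl : run l (s.set i w) with
      | none => rw [hl] at h; simp [Cert.avg] at h
      | some a =>
        cases hr : run r' (s.set j w) with
        | none => rw [hl, hr] at h; simp [Cert.avg] at h
        | some b =>
          rw [hl, hr] at h
          simp only [Cert.avg, Option.some.injEq] at h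
          have Ha := ihl _ _ hl
          have Hb := ihr _ _ hr
          have hw := chk_spec A B g _ _ w hchk hP hQ
          have hSp := Cl.S_pos
          set α : ℝ := ((A * (s.get i).T : ℕ) : ℝ) with hα
          set β : ℝ := ((B * (s.get j).T : ℕ) : ℝ) with hβ
          have hα0 : 0 < α := by rw [hα]; exact_mod_cast hP
          have hβ0 : 0 < β := by rw [hβ]; exact_mod_cast hQ
          set μ : ℝ := α / (α + β) with hμ
          have hμ0 : 0 ≤ μ := by positivity
          have hμ1 : μ ≤ 1 := by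
            rw [hμ, div_le_one (by positivity)]
            linarith
          rw [EV_bisect (pts s) GC meas_GC (ix i) (ix j) (ix_ne i j hij hj4) μ hμ0 hμ1, pts_get,
            pts_get, ← hw, ← pts_set, ← pts_set]
          refine (add_le_add (mul_le_mul_right Ha _) (mul_le_mul_right Hb _)).trans ?_
          rw [← mul_assoc, ← mul_assoc, ← add_mul, ← ENNReal.ofReal_mul hμ0,
            ← ENNReal.ofReal_mul (by linarith), ← ENNReal.ofReal_add
              (mul_nonneg hμ0 (div_nonneg (Nat.cast_nonneg _) hSp.le))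
              (mul_nonneg (by linarith) (div_nonneg (Nat.cast_nonneg _) hSp.le))]
          refine mul_le_mul_left ?_ _
          refine ENNReal.ofReal_le_ofReal ?_
          rw [← h]
          have h2 := Cl.cdiv_ge (A * (s.get i).T * a + B * (s.get j).T * b)
            (A * (s.get i).T + B * (s.get j).T)
          rw [le_div_iff₀ hSp]
          refine le_trans (le_of_eq ?_) h2
          rw [Nat.cast_add (A * (s.get i).T * a), Nat.cast_mul (A * (s.get i).T) a,
            Nat.cast_mul (B * (s.get j).T) b, Nat.cast_add (A * (s.get i).T), ← hα, ← hβ, hμ]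
          have := hSp.ne'
          have hne : α + β ≠ 0 := by positivity
          field_simp
          ring

theorem pts_S0 : pts S0 = V4 e0 e1 e12 e123 := by
  apply V4_ext <;> apply vec_ext <;>
    simp [pts, V4, S0, pt, Vx.T, e0, e1, e12, e123]

theorem vol3 : vol (Fin 3) ≤ ENNReal.ofReal (1 / 6) := by
  have h := Two.IT7.vol_Dl 3 1 zero_le_one
  have e : ((1 : ℝ) ^ 3 / (Nat.factorial 3 : ℝ)) = 1 / 6 := by
    norm_num [Nat.factorial]
  rw [e] at h
  refine le_trans ?_ h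
  unfold vol
  refine measure_mono_ae ?_
  have h2 := ae_int
  rw [ae_restrict_iff' (measurableSet_T _)] at h2
  filter_upwards [h2] with y hy hyT
  have h3 := hy hyT
  refine ⟨fun i => h3 (some i), ?_⟩
  have := h3 none
  simp only [wt] at this
  linarith

end Cz

open Cz in
theorem prfC3a : claimC3a := by
  unfold claimC3a
  rw [J0_eq, ← pts_S0]
  have h := cert_ok
  cases hr : run top S0 with
  | none => rw [hr] at h; simp [Cert.le] at h
  | some r =>
    rw [hr] at h
    have hle : r ≤ 260000 := by simpa [Cert.le] using h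
    refine (run_spec _ _ r hr).trans ?_
    calc _ ≤ ENNReal.ofReal (26 / 100) * ENNReal.ofReal (1 / 6) := by
          refine mul_le_mul' ?_ vol3
          refine ENNReal.ofReal_le_ofReal ?_
          unfold Cert.S
          have : (r : ℝ) ≤ 260000 := by exact_mod_cast hle
          push_cast
          rw [div_le_iff₀ (by norm_num)]
          linarith
      _ ≤ _ := by
          rw [← ENNReal.ofReal_mul (by norm_num)]
          refine ENNReal.ofReal_le_ofReal ?_
          norm_num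

end Pool.Agent.Work.MP_122e00_nt.Hyb
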