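import Pool.Agent.Work.MP_122e00_nt.Hyb.Sound6
import Pool.Agent.Work.MP_122e00_nt.Hyb.CertData
import Pool.Agent.Work.MP_122e00_nt.Two.ItemT7

set_option autoImplicit false

/-!
# The numerical bound for the cells with a block
-/

namespace Pool.Agent.Work.MP_122e00_nt.Hyb

open Finset Filter Topology MeasureTheory

open scoped ENNReal

namespace Cl

open Chamber Cert

/-- The chamber. -/
def S0 : Sx := ⟨⟨1, 0, 0, 0, 0⟩, ⟨0, 1, 0, 0, 0⟩, ⟨0, 0, 1, 0, 0⟩, ⟨0, 0, 1, 1, 0⟩, ⟨0, 0, 1, 1, 1⟩⟩

theorem pts_S0 : pts S0 = V5 e0 e1 e2 e23 e234 := by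
  apply V5_ext <;> apply vec_ext <;>
    simp [pts, V5, S0, pt, Vx.T, e0, e1, e2, e23, e234]

theorem cert_ok : le (run top S0) 5280000 = true := by decide +kernel

theorem vol4 : vol (Fin 4) ≤ ENNReal.ofReal (1 / 24) := by
  have h := Two.IT7.vol_Dl 4 1 zero_le_one
  have e : ((1 : ℝ) ^ 4 / (Nat.factorial 4 : ℝ)) = 1 / 24 := by
    norm_num [Nat.factorial]
  rw [e] at h
  refine le_trans ?_ h
  unfold vol
  refine measure_mono_ae ?_
  have h2 := ae_int
  rw [ae_restrict_iff' (measurableSet_T _)] at h2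
  filter_upwards [h2] with y hy hyT
  have h3 := hy hyT
  refine ⟨fun i => h3 (some i), ?_⟩
  have := h3 none
  simp only [wt] at this
  linarith

end Cl

open Cl in
theorem prfC3b : claimC3b := by
  unfold claimC3b
  rw [J1_eq, ← pts_S0]
  have h := cert_ok
  cases hr : Cert.run Cert.top S0 with
  | none => rw [hr] at h; simp [Cert.le] at h
  | some r =>
    rw [hr] at h
    have hle : r ≤ 5280000 := by simpa [Cert.le] using h
    refine (run_spec _ _ r hr).trans ?_
    calc _ ≤ ENNReal.ofReal (528 / 100) * ENNReal.ofReal (1 / 24) := by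
          refine mul_le_mul' ?_ vol4
          refine ENNReal.ofReal_le_ofReal ?_
          unfold Cert.S
          have : (r : ℝ) ≤ 5280000 := by exact_mod_cast hle
          push_cast
          rw [div_le_iff₀ (by norm_num)]
          linarith
      _ = _ := by
          rw [← ENNReal.ofReal_mul (by norm_num)]
          norm_num

end Pool.Agent.Work.MP_122e00_nt.Hyb
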