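import Pool.Agent.Work.MP_122e00_nt.Hyb.Stmts

set_option autoImplicit false

/-!
C1a: the closed form is a supersolution of the chain equation (in fact a solution).
-/

namespace Pool.Agent.Work.MP_122e00_nt.Hyb

open Finset Filter Topology MeasureTheory

open scoped ENNReal

namespace IC1a

/-- the closed form -/
noncomputable def G (ui uj e s : ℝ) : ℝ :=
  (ui - s) / (ui - e) * Real.exp ((uj - ui) * (1 / (ui - e) - 1 / (ui - s)))

theorem hasDerivAt_G {ui uj e s : ℝ} (he : e < ui) (hs : s < ui) :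
    HasDerivAt (G ui uj e) (-((uj - s) / (ui - s) ^ 2 * G ui uj e s)) s := by
  have h1 : HasDerivAt (fun s : ℝ => ui - s) (-1) s := by
    simpa using (hasDerivAt_id s).const_sub ui
  have hne : ui - s ≠ 0 := by
    have : 0 < ui - s := by linarith
    exact this.ne'
  have hne' : ui - e ≠ 0 := by
    have : 0 < ui - e := by linarith
    exact this.ne'
  have h2 : HasDerivAt (fun s : ℝ => (ui - s)⁻¹) (-(-1) / (ui - s) ^ 2) s := h1.inv hne
  have h3 : HasDerivAt (fun s : ℝ => (uj - ui) * (1 / (ui - e) - (ui - s)⁻¹))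
      ((uj - ui) * (-(-(-1) / (ui - s) ^ 2))) s := (h2.const_sub _).const_mul _
  have h4 := (h1.div_const (ui - e)).mul h3.exp
  have h5 : G ui uj e = (fun s : ℝ => (ui - s) / (ui - e)) *
      (fun s : ℝ => Real.exp ((uj - ui) * (1 / (ui - e) - (ui - s)⁻¹))) := by
    funext x
    simp only [G, Pi.mul_apply, one_div]
  rw [h5]
  refine h4.congr_deriv ?_
  simp only [Pi.mul_apply]
  field_simp
  ring

theorem continuousOn_fG {ui uj e a : ℝ} (he : e < ui) :
    ContinuousOn (fun s => (uj - s) / (ui - s) ^ 2 * G ui uj e s) (Set.Icc a e) := by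
  have hne : ∀ s ∈ Set.Icc a e, ui - s ≠ 0 := by
    intro s hs
    have : 0 < ui - s := by linarith [hs.2]
    exact this.ne'
  unfold G
  refine ContinuousOn.mul ?_ ?_
  · exact ContinuousOn.div (by fun_prop) (by fun_prop) fun s hs => pow_ne_zero _ (hne s hs)
  · refine ContinuousOn.mul (by fun_prop) ?_
    refine Real.continuous_exp.comp_continuousOn ?_
    refine ContinuousOn.mul (by fun_prop) ?_
    refine ContinuousOn.sub (by fun_prop) ?_
    exact ContinuousOn.div (by fun_prop) (by fun_prop) hne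

theorem G_self {ui uj e : ℝ} (he : e < ui) : G ui uj e e = 1 := by
  have hne' : ui - e ≠ 0 := by
    have : 0 < ui - e := by linarith
    exact this.ne'
  simp [G, div_self hne']

theorem G_pos {ui uj e s : ℝ} (he : e < ui) (hs : s < ui) : 0 < G ui uj e s := by
  have h1 : 0 < ui - e := by linarith
  have h2 : 0 < ui - s := by linarith
  unfold G
  positivity

theorem integral_fG {ui uj e a : ℝ} (he : e < ui) (ha : a ≤ e) :
    ∫ s in a..e, (uj - s) / (ui - s) ^ 2 * G ui uj e s = G ui uj e a - 1 := by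
  have h1 : ∀ s ∈ Set.uIcc a e, HasDerivAt (fun s => -G ui uj e s)
      ((uj - s) / (ui - s) ^ 2 * G ui uj e s) s := by
    intro s hs
    rw [Set.uIcc_of_le ha] at hs
    have h := (hasDerivAt_G (uj := uj) he (lt_of_le_of_lt hs.2 he)).neg
    rw [neg_neg] at h
    exact h
  have h2 : IntervalIntegrable (fun s => (uj - s) / (ui - s) ^ 2 * G ui uj e s)
      MeasureTheory.volume a e := by
    apply ContinuousOn.intervalIntegrable
    rw [Set.uIcc_of_le ha]
    exact continuousOn_fG he
  rw [intervalIntegral.integral_eq_sub_of_hasDerivAt h1 h2, G_self he]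
  ring

theorem main {ui uj e : ℝ} (hui : e < ui) (hej : e ≤ uj) {a : ℝ} (ha : a < e) :
    1 + ∫⁻ s in Set.Ioo a e, ENNReal.ofReal ((uj - s) / (ui - s) ^ 2) *
      ENNReal.ofReal (G ui uj e s) ≤ ENNReal.ofReal (G ui uj e a) := by
  have h1 : ∀ s ∈ Set.Ioo a e, 0 ≤ (uj - s) / (ui - s) ^ 2 := by
    intro s hs
    have h2 : 0 ≤ uj - s := by linarith [hs.2]
    positivity
  have h3 : ∫⁻ s in Set.Ioo a e, ENNReal.ofReal ((uj - s) / (ui - s) ^ 2) *
      ENNReal.ofReal (G ui uj e s) =
      ∫⁻ s in Set.Ioo a e, ENNReal.ofReal ((uj - s) / (ui - s) ^ 2 * G ui uj e s) := by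
    apply setLIntegral_congr_fun measurableSet_Ioo
    intro s hs
    exact (ENNReal.ofReal_mul (h1 s hs)).symm
  have hint : IntegrableOn (fun s => (uj - s) / (ui - s) ^ 2 * G ui uj e s) (Set.Ioo a e) :=
    ((continuousOn_fG hui).integrableOn_Icc).mono_set Set.Ioo_subset_Icc_self
  have hnn : 0 ≤ᵐ[volume.restrict (Set.Ioo a e)]
      fun s => (uj - s) / (ui - s) ^ 2 * G ui uj e s := by
    filter_upwards [ae_restrict_mem measurableSet_Ioo] with s hs
    exact mul_nonneg (h1 s hs) (G_pos hui (hs.2.trans hui)).le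
  rw [h3, ← ofReal_integral_eq_lintegral_ofReal hint hnn, ← integral_Ioc_eq_integral_Ioo,
    ← intervalIntegral.integral_of_le ha.le, integral_fG hui ha.le]
  have h5 : 0 ≤ G ui uj e a - 1 := by
    rw [← integral_fG (uj := uj) hui ha.le, intervalIntegral.integral_of_le ha.le,
      integral_Ioc_eq_integral_Ioo]
    exact setIntegral_nonneg measurableSet_Ioo fun s hs =>
      mul_nonneg (h1 s hs) (G_pos hui (hs.2.trans hui)).le
  have h6 : (1 : ℝ≥0∞) = ENNReal.ofReal 1 := by simp
  rw [h6, ← ENNReal.ofReal_add zero_le_one h5]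
  apply le_of_eq
  congr 1
  ring

end IC1a

theorem prfC1a : claimC1a := by
  intro ui uj e _ hui _ hej a _ hae
  exact IC1a.main hui hej hae

end Pool.Agent.Work.MP_122e00_nt.Hyb
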