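import Pool.Agent.Work.MP_122e00_nt.Hyb.Stmts

set_option autoImplicit false

/-!
# C1c: the cells with a block
-/

namespace Pool.Agent.Work.MP_122e00_nt.Hyb

open Finset Filter Topology MeasureTheory

open scoped ENNReal

namespace IC1c

/-! ### Sums over initial segments -/

theorem filter_succ {n : ℕ} (f : Fin (n + 1) → ℝ) (m : Fin n) :
    ∑ i ∈ Finset.univ.filter (fun i : Fin (n + 1) => i < m.succ), f i =
      f 0 + ∑ i ∈ Finset.univ.filter (fun i : Fin n => i < m), f i.succ := by
  rw [Finset.sum_filter, Fin.sum_univ_succ, if_pos (Fin.succ_pos m), Finset.sum_filter]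
  simp only [Fin.succ_lt_succ_iff]

theorem filter_castSucc {n : ℕ} (f : Fin (n + 1) → ℝ) (m : Fin n) :
    ∑ i ∈ Finset.univ.filter (fun i : Fin (n + 1) => i < m.succ), f i =
      ∑ i ∈ Finset.univ.filter (fun i : Fin n => i ≤ m), f i.castSucc := by
  rw [Finset.sum_filter, Fin.sum_univ_castSucc, if_neg (not_lt.2 (Fin.le_last _)), add_zero,
    Finset.sum_filter]
  simp only [Fin.castSucc_lt_succ_iff]

theorem filter_zero {n : ℕ} (f : Fin (n + 1) → ℝ) :
    ∑ i ∈ Finset.univ.filter (fun i : Fin (n + 1) => i < 0), f i = 0 := by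
  rw [Finset.sum_filter]
  refine Finset.sum_eq_zero fun i _ => ?_
  rw [if_neg (not_lt.2 (Fin.zero_le i))]

theorem filter_last {n : ℕ} (f : Fin (n + 1) → ℝ) :
    ∑ i ∈ Finset.univ.filter (fun i : Fin (n + 1) => i < Fin.last n), f i =
      ∑ i : Fin n, f i.castSucc := by
  rw [Finset.sum_filter, Fin.sum_univ_castSucc, if_neg (lt_irrefl _), add_zero]
  refine Finset.sum_congr rfl fun i _ => ?_
  rw [if_pos (Fin.castSucc_lt_last i)]

/-! ### The integrand -/

/-- The sizes of the three parts. -/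
noncomputable def vv (q : Fin 4 → ℝ) : Fin 3 → ℝ := ![q 2, q 3, 1 - q 0 - q 1 - q 2 - q 3]

/-- All sizes. -/
noncomputable def pp (q : Fin 4 → ℝ) : Fin 5 → ℝ :=
  ![q 0, q 1, q 2, q 3, 1 - q 0 - q 1 - q 2 - q 3]

/-- The region. -/
def RR (c : ℝ) : Set (Fin 4 → ℝ) :=
  {q | 0 < q 0 ∧ 0 < q 1 ∧ 0 < q 2 ∧ 0 < q 3 ∧ q 0 + q 1 + q 2 + q 3 < 1 ∧ q 0 < c ∧
    c ≤ q 0 + q 1}

/-- The simplex of the marks of the block but the last one. -/
def PP (n : ℕ) (e : ℝ) : Set (Fin n → ℝ) := {x | (∀ m, 0 < x m) ∧ ∑ m, x m < e}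

noncomputable def psum {n : ℕ} (x : Fin n → ℝ) (m : Fin n) : ℝ :=
  ∑ m' ∈ Finset.univ.filter (fun m' : Fin n => m' ≤ m), x m'

/-- The factor of one mark. -/
noncomputable def ff (ui uj s : ℝ) : ℝ≥0∞ := ENNReal.ofReal ((uj - s) / (ui - s) ^ 2)

/-- The integrand without the region. -/
noncomputable def GI (th : ℝ) (n : ℕ) (z : (Fin 4 → ℝ) × (Fin n → ℝ)) : ℝ≥0∞ :=
  ∑ i : Fin 3, ∑ j : Fin 3, (ENNReal.ofReal (cf th (z.1 0) (z.1 1) (vv z.1) i j) *
    ENNReal.ofReal ((vv z.1 j + z.1 1) / (vv z.1 i + z.1 1) ^ 2)) *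
      ∏ m : Fin n, ff (vv z.1 i + z.1 1) (vv z.1 j + z.1 1) (psum z.2 m)

/-- The region of all marks. -/
def RP (c : ℝ) (n : ℕ) : Set ((Fin 4 → ℝ) × (Fin n → ℝ)) :=
  {z | z.1 ∈ RR c ∧ z.2 ∈ PP n (c - z.1 0)}

/-- The integrand. -/
noncomputable def Ph (th c : ℝ) (n : ℕ) (q : Fin 4 → ℝ) (x : Fin n → ℝ) : ℝ≥0∞ :=
  (RP c n).indicator (GI th n) (q, x)

/-! ### Positivity -/

theorem nb_nonneg (th x0 D : ℝ) (v : Fin 3 → ℝ) (j : Fin 3) : 0 ≤ nb th x0 D v j := by
  unfold nb bi
  exact Finset.sum_nonneg fun i _ => by split_ifs <;> norm_num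

theorem ng_nonneg (th x0 D : ℝ) (v : Fin 3 → ℝ) (j : Fin 3) : 0 ≤ ng th x0 D v j := by
  unfold ng gi
  exact Finset.sum_nonneg fun i _ => by split_ifs <;> norm_num

theorem bt_nonneg (th x0 D : ℝ) (v : Fin 3 → ℝ) : 0 ≤ bt th x0 D v := by
  unfold bt
  exact Finset.sum_nonneg fun j _ => by
    split_ifs
    · exact nb_nonneg _ _ _ _ _
    · exact le_rfl

theorem cf_nonneg (th x0 D : ℝ) (v : Fin 3 → ℝ) (i j : Fin 3) : 0 ≤ cf th x0 D v i j := by
  unfold cf
  split_ifs
  · have h1 := bt_nonneg th x0 D v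
    have h2 := nb_nonneg th x0 D v i
    have h3 := ng_nonneg th x0 D v j
    positivity
  · exact le_rfl

theorem vv_pos {c : ℝ} {q : Fin 4 → ℝ} (hq : q ∈ RR c) (i : Fin 3) : 0 < vv q i := by
  obtain ⟨h0, h1, h2, h3, h4, h5, h6⟩ := hq
  fin_cases i
  · exact h2
  · exact h3
  · show 0 < 1 - q 0 - q 1 - q 2 - q 3
    linarith

theorem vv_sum (q : Fin 4 → ℝ) : ∑ i, vv q i = 1 - q 0 - q 1 := by
  simp only [Fin.sum_univ_three, vv, Matrix.cons_val_zero, Matrix.cons_val_one,
    Matrix.cons_val_two, Matrix.head_cons, Matrix.tail_cons]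
  ring

theorem am_le {q : Fin 4 → ℝ} {i : Fin 3} (h : am (ad (vv q) i (q 1)) i) (j : Fin 3) (hj : j ≠ i) :
    vv q j ≤ vv q i + q 1 := by
  have h1 := h j
  have h2 : ad (vv q) i (q 1) j = vv q j := by unfold ad; rw [if_neg hj]
  have h3 : ad (vv q) i (q 1) i = vv q i + q 1 := by unfold ad; rw [if_pos rfl]
  rw [h2, h3] at h1
  rcases h1 with h1 | h1
  · exact h1.le
  · exact h1.1.le

theorem ui_large {th c : ℝ} (h0 : 0 < th) (h1 : th ≤ 1 / 100) (hc : c = 1 / 4 + 2 * th)
    {q : Fin 4 → ℝ} (hq : q ∈ RR c) {i : Fin 3} (h : am (ad (vv q) i (q 1)) i) :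
    1 / 40 ≤ vv q i + q 1 - (c - q 0) := by
  have hs := vv_sum q
  rw [Fin.sum_univ_three] at hs
  obtain ⟨p0, p1, p2, p3, p4, p5, p6⟩ := hq
  have key : 1 - q 0 ≤ 3 * (vv q i + q 1) := by
    fin_cases i
    · have a1 := am_le h 1 (by decide)
      have a2 := am_le h 2 (by decide)
      simp only [Fin.zero_eta, Fin.isValue] at *
      linarith
    · have a1 := am_le h 0 (by decide)
      have a2 := am_le h 2 (by decide)
      simp only [Fin.mk_one, Fin.isValue] at *
      linarith
    · have a1 := am_le h 0 (by decide)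
      have a2 := am_le h 1 (by decide)
      simp only [Fin.reduceFinMk, Fin.isValue] at *
      linarith
  linarith

/-! ### Pointwise bound -/

section pointwise

variable {n : ℕ} (y : Fin (n + 2) ⊕ Fin 2 → ℝ)

/-- The sizes `(x0, D, v0, v1)`. -/
noncomputable def qq : Fin 4 → ℝ := ![y (Sum.inl 0), ∑ m : Fin (n + 1), y (Sum.inl m.succ),
        y (Sum.inr 0), y (Sum.inr 1)]

theorem sum_y : ∑ i, y i = qq y 0 + qq y 1 + qq y 2 + qq y 3 := by
  rw [Fintype.sum_sum_type, Fin.sum_univ_succ, Fin.sum_univ_two]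
  show _ = y (Sum.inl 0) + ∑ m : Fin (n + 1), y (Sum.inl m.succ) + y (Sum.inr 0) + y (Sum.inr 1)
  ring

theorem snoc_eq : (Fin.snoc (fun i : Fin 2 => y (Sum.inr i)) (1 - ∑ i, y i) : Fin 3 → ℝ) =
    vv (qq y) := by
  funext i
  rw [sum_y]
  fin_cases i
  · rfl
  · rfl
  · show 1 - (qq y 0 + qq y 1 + qq y 2 + qq y 3) = 1 - qq y 0 - qq y 1 - qq y 2 - qq y 3
    ring

theorem bef_zero : bef (fun i => y (Sum.inl i)) (0 : Fin (n + 1)) = 0 :=
  filter_zero (fun m : Fin (n + 1) => y (Sum.inl m.succ))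

theorem bef_succ (m : Fin n) : bef (fun i => y (Sum.inl i)) m.succ =
    psum (fun m => y (Sum.inl m.castSucc.succ)) m :=
  filter_castSucc (fun m : Fin (n + 1) => y (Sum.inl m.succ)) m

theorem bef_last : bef (fun i => y (Sum.inl i)) (Fin.last n) =
    ∑ m : Fin n, y (Sum.inl m.castSucc.succ) :=
  filter_last (fun m : Fin (n + 1) => y (Sum.inl m.succ))

theorem blk_eq : blk (fun i : Fin (n + 2) => y (Sum.inl i)) = qq y 1 := rfl

theorem bef_le (hy : ∀ i, 0 < y i) (m : Fin (n + 1)) :
    bef (fun i => y (Sum.inl i)) m ≤ qq y 1 := by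
  show ∑ m' ∈ Finset.univ.filter (fun m' : Fin (n + 1) => m' < m), y (Sum.inl m'.succ) ≤
    ∑ m : Fin (n + 1), y (Sum.inl m.succ)
  exact Finset.sum_le_sum_of_subset_of_nonneg (Finset.filter_subset _ _) fun i _ _ => (hy _).le

theorem den_eq : Two.den y = ∏ m : Fin (n + 1),
    (∑ i, vv (qq y) i + qq y 1 - bef (fun i => y (Sum.inl i)) m)⁻¹ := by
  unfold Two.den
  rw [Fin.prod_univ_succ, filter_zero (fun i : Fin (n + 2) => y (Sum.inl i)), sub_zero, inv_one,
    one_mul]
  refine Finset.prod_congr rfl fun m _ => ?_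
  rw [filter_succ (fun i : Fin (n + 2) => y (Sum.inl i)) m, vv_sum]
  congr 1
  show 1 - (y (Sum.inl 0) + bef (fun i => y (Sum.inl i)) m) = 1 - qq y 0 - qq y 1 + qq y 1 - _
  show 1 - (y (Sum.inl 0) + bef (fun i => y (Sum.inl i)) m) =
    1 - y (Sum.inl 0) - qq y 1 + qq y 1 - bef (fun i => y (Sum.inl i)) m
  ring

theorem prod_split (g : ℝ → ℝ) : ∏ m : Fin (n + 1), g (bef (fun i => y (Sum.inl i)) m) =
    g 0 * ∏ m : Fin n, g (psum (fun m => y (Sum.inl m.castSucc.succ)) m) := by
  rw [Fin.prod_univ_succ, bef_zero]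
  congr 1
  exact Finset.prod_congr rfl fun m _ => by rw [bef_succ]

theorem pointwise {th c : ℝ} (h0 : 0 < th) (h1 : th ≤ 1 / 100) (hc : c = 1 / 4 + 2 * th)
    (hy : y ∈ Two.Sim (n + 2) 2) :
    ENNReal.ofReal (Two.ext (FF th c (n + 1)) (y, 1 - ∑ i, y i) * Two.den y) ≤
      Ph th c n (qq y) (fun m => y (Sum.inl m.castSucc.succ)) := by
  obtain ⟨hpos, hsum⟩ := hy
  obtain ⟨x, hx⟩ : ∃ x : Fin (n + 2) → ℝ, x = fun i => y (Sum.inl i) := ⟨_, rfl⟩
  obtain ⟨q, hq⟩ : ∃ q, q = qq y := ⟨_, rfl⟩
  have hext : Two.ext (FF th c (n + 1)) (y, 1 - ∑ i, y i) = FF th c (n + 1) x (vv q) := by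
    unfold Two.ext
    rw [snoc_eq, hx, hq]
  rw [hext]
  by_cases hR : Reg th x (vv q) ∧ stp c x
  · -- inside the region
    have hqR : q ∈ RR c := by
      have e0 : bef x (0 : Fin (n + 1)) = 0 := by rw [hx]; exact bef_zero y
      have s1 := hR.2.1
      have s2 := hR.2.2 0
      rw [e0] at s2
      have e1 : x 0 = q 0 := by rw [hx, hq]; rfl
      have e2 : blk x = q 1 := by rw [hx, hq]; rfl
      rw [e1, e2] at s1
      rw [e1, add_zero] at s2
      refine ⟨?_, ?_, ?_, ?_, ?_, s2, s1⟩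
      · rw [hq]; exact hpos _
      · rw [hq]
        show 0 < ∑ m : Fin (n + 1), y (Sum.inl m.succ)
        exact Finset.sum_pos (fun m _ => hpos _) Finset.univ_nonempty
      · rw [hq]; exact hpos _
      · rw [hq]; exact hpos _
      · rw [hq, ← sum_y]; exact hsum
    have hxP : (fun m : Fin n => y (Sum.inl m.castSucc.succ)) ∈ PP n (c - q 0) := by
      refine ⟨fun m => hpos _, ?_⟩
      have s2 := hR.2.2 (Fin.last n)
      have e0 : bef x (Fin.last n) = ∑ m : Fin n, y (Sum.inl m.castSucc.succ) := by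
        rw [hx]; exact bef_last y
      have e1 : x 0 = q 0 := by rw [hx, hq]; rfl
      rw [e0, e1] at s2
      linarith
    have hbef : ∀ m : Fin (n + 1), bef x m < c - q 0 := by
      intro m
      have s2 := hR.2.2 m
      have e1 : x 0 = q 0 := by rw [hx, hq]; rfl
      rw [e1] at s2
      linarith
    have hbef2 : ∀ m : Fin (n + 1), bef x m ≤ q 1 := by
      intro m
      rw [hx, hq]; exact bef_le y hpos m
    have hvs : 0 < ∑ i, vv q i := Finset.sum_pos (fun i _ => vv_pos hqR i) Finset.univ_nonempty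
    have hA : ∀ m : Fin (n + 1), ∑ i, vv q i + q 1 - bef x m ≠ 0 := by
      intro m
      have := hbef2 m
      have : 0 < ∑ i, vv q i + q 1 - bef x m := by linarith
      exact this.ne'
    have hFF : FF th c (n + 1) x (vv q) * Two.den y = ∑ i, ∑ j,
        cf th (q 0) (q 1) (vv q) i j * ∏ m : Fin (n + 1),
          ((vv q j + q 1 - bef x m) / (vv q i + q 1 - bef x m) ^ 2) := by
      unfold FF
      rw [if_pos hR, den_eq, Finset.sum_mul]
      refine Finset.sum_congr rfl fun i _ => ?_
      rw [Finset.sum_mul]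
      refine Finset.sum_congr rfl fun j _ => ?_
      have e1 : x 0 = q 0 := by rw [hx, hq]; rfl
      have e2 : blk x = q 1 := by rw [hx, hq]; rfl
      rw [e1, e2, mul_assoc, ← hx, ← hq, ← Finset.prod_mul_distrib]
      congr 1
      refine Finset.prod_congr rfl fun m _ => ?_
      have hAm := hA m
      field_simp
    rw [hFF]
    have hmem : (q, fun m : Fin n => y (Sum.inl m.castSucc.succ)) ∈ RP c n := ⟨hqR, hxP⟩
    unfold Ph
    rw [← hq, Set.indicator_of_mem hmem]
    unfold GI
    have hterm : ∀ i j : Fin 3, 0 ≤ cf th (q 0) (q 1) (vv q) i j * ∏ m : Fin (n + 1),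
          ((vv q j + q 1 - bef x m) / (vv q i + q 1 - bef x m) ^ 2) ∧
        ENNReal.ofReal (cf th (q 0) (q 1) (vv q) i j * ∏ m : Fin (n + 1),
          ((vv q j + q 1 - bef x m) / (vv q i + q 1 - bef x m) ^ 2)) =
        (ENNReal.ofReal (cf th (q 0) (q 1) (vv q) i j) *
          ENNReal.ofReal ((vv q j + q 1) / (vv q i + q 1) ^ 2)) *
        ∏ m : Fin n, ff (vv q i + q 1) (vv q j + q 1)
          (psum (fun m => y (Sum.inl m.castSucc.succ)) m) := by
      intro i j
      by_cases hij : am (ad (vv q) i (q 1)) i ∧ am (ad (vv q) j (q 1)) j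
      · have li := ui_large h0 h1 hc hqR hij.1
        have lj := ui_large h0 h1 hc hqR hij.2
        have hpm : ∀ m : Fin (n + 1), 0 ≤ (vv q j + q 1 - bef x m) /
            (vv q i + q 1 - bef x m) ^ 2 := by
          intro m
          have := hbef m
          have h2 : 0 ≤ vv q j + q 1 - bef x m := by linarith
          positivity
        have hcf := cf_nonneg th (q 0) (q 1) (vv q) i j
        refine ⟨mul_nonneg hcf (Finset.prod_nonneg fun m _ => hpm m), ?_⟩
        rw [ENNReal.ofReal_mul hcf, mul_assoc]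
        congr 1
        have e3 := prod_split y (fun s => (vv q j + q 1 - s) / (vv q i + q 1 - s) ^ 2)
        rw [← hx] at e3
        rw [e3, sub_zero, sub_zero]
        have hu0 : 0 ≤ (vv q j + q 1) / (vv q i + q 1) ^ 2 := by
          have hj := vv_pos hqR j
          have h11 := hqR.2.1
          positivity
        rw [ENNReal.ofReal_mul hu0]
        congr 1
        rw [ENNReal.ofReal_prod_of_nonneg]
        · rfl
        · intro m _
          have := hpm m.succ
          have e4 : bef x m.succ = psum (fun m => y (Sum.inl m.castSucc.succ)) m := by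
            rw [hx]; exact bef_succ y m
          rwa [e4] at this
      · have hcf0 : cf th (q 0) (q 1) (vv q) i j = 0 := by
          unfold cf
          rw [if_neg hij]
        rw [hcf0]
        simp
    rw [ENNReal.ofReal_sum_of_nonneg
      (fun i _ => Finset.sum_nonneg fun j _ => (hterm i j).1)]
    refine Finset.sum_le_sum fun i _ => ?_
    rw [ENNReal.ofReal_sum_of_nonneg (fun j _ => (hterm i j).1)]
    refine Finset.sum_le_sum fun j _ => ?_
    exact (hterm i j).2.le
  · unfold FF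
    rw [if_neg hR, zero_mul, ENNReal.ofReal_zero]
    exact bot_le

end pointwise

/-! ### Measurability -/

theorem measurable_vv (i : Fin 3) : Measurable fun q : Fin 4 → ℝ => vv q i := by
  fin_cases i
  · exact measurable_pi_apply 2
  · exact measurable_pi_apply 3
  · show Measurable fun q : Fin 4 → ℝ => 1 - q 0 - q 1 - q 2 - q 3
    fun_prop

theorem measurable_pp : Measurable pp := by
  rw [measurable_pi_iff]
  intro i
  fin_cases i
  · exact measurable_pi_apply 0
  · exact measurable_pi_apply 1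
  · exact measurable_pi_apply 2
  · exact measurable_pi_apply 3
  · show Measurable fun q : Fin 4 → ℝ => 1 - q 0 - q 1 - q 2 - q 3
    fun_prop

theorem measurable_ff {α : Type} [MeasurableSpace α] {u w s : α → ℝ} (hu : Measurable u)
    (hw : Measurable w) (hs : Measurable s) : Measurable fun a => ff (u a) (w a) (s a) := by
  unfold ff
  exact ENNReal.measurable_ofReal.comp ((hw.sub hs).div ((hu.sub hs).pow_const 2))

theorem measurable_psum {n : ℕ} (m : Fin n) : Measurable fun x : Fin n → ℝ => psum x m := by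
  unfold psum
  exact Finset.measurable_sum _ fun i _ => measurable_pi_apply i

theorem measurable_GI (hm : claimC1m) (th : ℝ) (n : ℕ) : Measurable (GI th n) := by
  unfold GI
  refine Finset.measurable_sum _ fun i _ => Finset.measurable_sum _ fun j _ => ?_
  have hv : ∀ i : Fin 3, Measurable fun z : (Fin 4 → ℝ) × (Fin n → ℝ) => vv z.1 i + z.1 1 :=
    fun i => ((measurable_vv i).comp measurable_fst).add
      ((measurable_pi_apply 1).comp measurable_fst)
  have h1 := (hm.1 th i j).comp (measurable_pp.comp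
      (measurable_fst : Measurable (Prod.fst : (Fin 4 → ℝ) × (Fin n → ℝ) → Fin 4 → ℝ)))
  have h2 : Measurable fun z : (Fin 4 → ℝ) × (Fin n → ℝ) =>
      ENNReal.ofReal (cf th (z.1 0) (z.1 1) (vv z.1) i j) := ENNReal.measurable_ofReal.comp h1
  have h3 : Measurable fun z : (Fin 4 → ℝ) × (Fin n → ℝ) =>
      ENNReal.ofReal ((vv z.1 j + z.1 1) / (vv z.1 i + z.1 1) ^ 2) :=
    ENNReal.measurable_ofReal.comp ((hv j).div ((hv i).pow_const 2))
  have h4 : Measurable fun z : (Fin 4 → ℝ) × (Fin n → ℝ) =>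
      ∏ m : Fin n, ff (vv z.1 i + z.1 1) (vv z.1 j + z.1 1) (psum z.2 m) :=
    Finset.measurable_prod _ fun m _ =>
      measurable_ff (hv i) (hv j) ((measurable_psum m).comp measurable_snd)
  exact (h2.mul h3).mul h4

theorem measurableSet_RR (c : ℝ) : MeasurableSet (RR c) := by
  have h : ∀ i : Fin 4, Measurable fun q : Fin 4 → ℝ => q i := fun i => measurable_pi_apply i
  refine (measurableSet_lt measurable_const (h 0)).inter
    ((measurableSet_lt measurable_const (h 1)).inter
    ((measurableSet_lt measurable_const (h 2)).inter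
    ((measurableSet_lt measurable_const (h 3)).inter
    ((measurableSet_lt ((((h 0).add (h 1)).add (h 2)).add (h 3)) measurable_const).inter
    ((measurableSet_lt (h 0) measurable_const).inter
      (measurableSet_le measurable_const ((h 0).add (h 1))))))))

theorem measurableSet_pos (ι : Type) [Fintype ι] : MeasurableSet {x : ι → ℝ | ∀ m, 0 < x m} := by
  rw [show {x : ι → ℝ | ∀ i, 0 < x i} = ⋂ i, {x | 0 < x i} by ext; simp]
  exact MeasurableSet.iInter fun i => measurableSet_lt measurable_const (measurable_pi_apply i)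

theorem measurableSet_PP (n : ℕ) (e : ℝ) : MeasurableSet (PP n e) := by
  show MeasurableSet ({x : Fin n → ℝ | ∀ m, 0 < x m} ∩ {x | ∑ m, x m < e})
  refine (measurableSet_pos (Fin n)).inter (measurableSet_lt ?_ measurable_const)
  exact Finset.measurable_sum _ fun i _ => measurable_pi_apply i

theorem measurableSet_RP (c : ℝ) (n : ℕ) : MeasurableSet (RP c n) := by
  show MeasurableSet ({z : (Fin 4 → ℝ) × (Fin n → ℝ) | z.1 ∈ RR c} ∩
    ({z | z.2 ∈ {x : Fin n → ℝ | ∀ m, 0 < x m}} ∩ {z | ∑ m, z.2 m < c - z.1 0}))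
  refine (measurable_fst (measurableSet_RR c)).inter
    ((measurable_snd (measurableSet_pos (Fin n))).inter (measurableSet_lt ?_ ?_))
  · exact Finset.measurable_sum _ fun i _ => (measurable_pi_apply i).comp measurable_snd
  · exact measurable_const.sub ((measurable_pi_apply 0).comp measurable_fst)

theorem measurableSet_Sim (k s : ℕ) : MeasurableSet (Two.Sim k s) := by
  show MeasurableSet ({y : Fin k ⊕ Fin s → ℝ | ∀ i, 0 < y i} ∩ {y | ∑ i, y i < 1})
  refine (measurableSet_pos (Fin k ⊕ Fin s)).inter (measurableSet_lt ?_ measurable_const)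
  exact Finset.measurable_sum _ fun i _ => measurable_pi_apply i

theorem measurable_Ph (hm : claimC1m) (th c : ℝ) (n : ℕ) :
    Measurable (Function.uncurry (Ph th c n)) :=
  (measurable_GI hm th n).indicator (measurableSet_RP c n)

/-! ### The sum over the lengths -/

theorem hh_id {ui uj e : ℝ} (hu : 0 < ui) (hue : 0 < ui - e) :
    uj / ui ^ 2 * ((ui - 0) / (ui - e) * Real.exp ((uj - ui) * (1 / (ui - e) - 1 / (ui - 0)))) =
      hh ui uj e := by
  unfold hh
  have e1 : (uj - ui) * (1 / (ui - e) - 1 / (ui - 0)) = (uj - ui) * e / (ui * (ui - e)) := by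
    rw [sub_zero]
    field_simp
    ring
  rw [e1, sub_zero]
  field_simp

theorem inner (h0' : claimC0) (ha : claimC1a) {ui uj e : ℝ} (he : 0 < e) (hu : e < ui)
    (huj : 0 < uj) (hle : e ≤ uj) (K : ℕ) :
    ∑ k ∈ Finset.range K, (∫⁻ x in PP k e, ∏ m : Fin k, ff ui uj (psum x m)) ≤
      ENNReal.ofReal ((ui - 0) / (ui - e) *
        Real.exp ((uj - ui) * (1 / (ui - e) - 1 / (ui - 0)))) := by
  have hE : Measurable fun s : ℝ => ENNReal.ofReal ((ui - s) / (ui - e) *
        Real.exp ((uj - ui) * (1 / (ui - e) - 1 / (ui - s)))) := by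
    refine ENNReal.measurable_ofReal.comp ?_
    refine ((measurable_const.sub measurable_id).div_const _).mul (Real.measurable_exp.comp ?_)
    exact (measurable_const.sub (measurable_const.div
      (measurable_const.sub measurable_id))).const_mul _
  have h1 := h0' (ff ui uj) (fun s : ℝ => ENNReal.ofReal ((ui - s) / (ui - e) *
        Real.exp ((uj - ui) * (1 / (ui - e) - 1 / (ui - s))))) e
    (measurable_ff measurable_const measurable_const measurable_id) hE
    (fun a ha0 hae => ha ui uj e he hu huj hle a ha0 hae) K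
  rw [if_pos he] at h1
  refine le_trans ?_ h1
  exact Finset.sum_le_sum_of_subset (Finset.range_mono (Nat.le_succ K))

theorem H1_eq {th c : ℝ} {q : Fin 4 → ℝ} (hq : q ∈ RR c) : H1 th c (pp q) = ∑ i, ∑ j,
    cf th (q 0) (q 1) (vv q) i j * hh (vv q i + q 1) (vv q j + q 1) (c - q 0) := by
  have h : pp q 0 < c ∧ c ≤ pp q 0 + pp q 1 := ⟨hq.2.2.2.2.2.1, hq.2.2.2.2.2.2⟩
  unfold H1
  rw [if_pos h]
  rfl

theorem sum_q (h0' : claimC0) (ha : claimC1a) {th c : ℝ} (h0 : 0 < th)
    (h1 : th ≤ 1 / 100) (hc : c = 1 / 4 + 2 * th) (K : ℕ) (q : Fin 4 → ℝ) :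
    ∑ n ∈ Finset.range K, ∫⁻ x, Ph th c n q x ≤
      (RR c).indicator (fun q => ENNReal.ofReal (H1 th c (pp q))) q := by
  by_cases hq : q ∈ RR c
  · rw [Set.indicator_of_mem hq, H1_eq hq]
    have hPh : ∀ n x, Ph th c n q x = (PP n (c - q 0)).indicator (fun x => GI th n (q, x)) x := by
      intro n x
      unfold Ph
      by_cases hx : x ∈ PP n (c - q 0)
      · have hmem : (q, x) ∈ RP c n := ⟨hq, hx⟩
        rw [Set.indicator_of_mem hmem, Set.indicator_of_mem hx]
      · have hmem : (q, x) ∉ RP c n := fun h => hx h.2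
        rw [Set.indicator_of_notMem hmem, Set.indicator_of_notMem hx]
    have hint : ∀ n, ∫⁻ x, Ph th c n q x = ∑ i : Fin 3, ∑ j : Fin 3,
        (ENNReal.ofReal (cf th (q 0) (q 1) (vv q) i j) *
          ENNReal.ofReal ((vv q j + q 1) / (vv q i + q 1) ^ 2)) *
        ∫⁻ x in PP n (c - q 0), ∏ m : Fin n, ff (vv q i + q 1) (vv q j + q 1) (psum x m) := by
      intro n
      have hmf : ∀ i j : Fin 3, Measurable fun x : Fin n → ℝ =>
          ∏ m : Fin n, ff (vv q i + q 1) (vv q j + q 1) (psum x m) := fun i j =>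
        Finset.measurable_prod _ fun m _ =>
          measurable_ff measurable_const measurable_const (measurable_psum m)
      simp only [hPh]
      rw [lintegral_indicator (measurableSet_PP n _)]
      show ∫⁻ x in PP n (c - q 0), ∑ i : Fin 3, ∑ j : Fin 3,
        (ENNReal.ofReal (cf th (q 0) (q 1) (vv q) i j) *
          ENNReal.ofReal ((vv q j + q 1) / (vv q i + q 1) ^ 2)) *
        ∏ m : Fin n, ff (vv q i + q 1) (vv q j + q 1) (psum x m) = _
      rw [lintegral_finsetSum _ fun i _ => Finset.measurable_sum _ fun j _ =>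
        (hmf i j).const_mul _]
      refine Finset.sum_congr rfl fun i _ => ?_
      rw [lintegral_finsetSum _ fun j _ => (hmf i j).const_mul _]
      refine Finset.sum_congr rfl fun j _ => ?_
      exact lintegral_const_mul _ (hmf i j)
    simp only [hint]
    rw [Finset.sum_comm]
    have hterm : ∀ i j : Fin 3, 0 ≤ cf th (q 0) (q 1) (vv q) i j *
        hh (vv q i + q 1) (vv q j + q 1) (c - q 0) ∧
        ∑ n ∈ Finset.range K, (ENNReal.ofReal (cf th (q 0) (q 1) (vv q) i j) *
          ENNReal.ofReal ((vv q j + q 1) / (vv q i + q 1) ^ 2)) *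
        (∫⁻ x in PP n (c - q 0), ∏ m : Fin n, ff (vv q i + q 1) (vv q j + q 1) (psum x m)) ≤
        ENNReal.ofReal (cf th (q 0) (q 1) (vv q) i j *
          hh (vv q i + q 1) (vv q j + q 1) (c - q 0)) := by
      intro i j
      by_cases hij : am (ad (vv q) i (q 1)) i ∧ am (ad (vv q) j (q 1)) j
      · have li := ui_large h0 h1 hc hq hij.1
        have lj := ui_large h0 h1 hc hq hij.2
        have hcf := cf_nonneg th (q 0) (q 1) (vv q) i j
        have he : 0 < c - q 0 := by linarith [hq.2.2.2.2.2.1]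
        have hui : 0 < vv q i + q 1 := by linarith
        have huj : 0 < vv q j + q 1 := by linarith
        have hue : 0 < vv q i + q 1 - (c - q 0) := by linarith
        have hhn : 0 ≤ hh (vv q i + q 1) (vv q j + q 1) (c - q 0) := by
          unfold hh
          positivity
        refine ⟨mul_nonneg hcf hhn, ?_⟩
        rw [← Finset.mul_sum, ENNReal.ofReal_mul hcf, mul_assoc]
        refine mul_le_mul_right ?_ _
        rw [← hh_id hui hue, ENNReal.ofReal_mul (by positivity)]
        refine mul_le_mul_right ?_ _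
        exact inner h0' ha he (by linarith) huj (by linarith) K
      · have hcf0 : cf th (q 0) (q 1) (vv q) i j = 0 := by
          unfold cf
          rw [if_neg hij]
        rw [hcf0]
        simp
    rw [ENNReal.ofReal_sum_of_nonneg
      (fun i _ => Finset.sum_nonneg fun j _ => (hterm i j).1)]
    refine Finset.sum_le_sum fun i _ => ?_
    rw [ENNReal.ofReal_sum_of_nonneg (fun j _ => (hterm i j).1), Finset.sum_comm]
    refine Finset.sum_le_sum fun j _ => ?_
    exact (hterm i j).2
  · rw [Set.indicator_of_notMem hq]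
    have hz : ∀ n x, Ph th c n q x = 0 := by
      intro n x
      have hmem : (q, x) ∉ RP c n := fun h => hq h.1
      exact Set.indicator_of_notMem hmem _
    simp only [hz]
    simp

/-! ### The final comparison -/

theorem bar_eq (y : Fin 4 → ℝ) : Chamber.bar (std 4) y = pp y := by
  have hsome : ∀ (i : Fin 4) (k : Fin 5), std 4 (some i) k = if k = i.castSucc then 1 else 0 :=
    fun i k => rfl
  have hnone : ∀ k : Fin 5, std 4 none k = if k = Fin.last 4 then 1 else 0 := fun k => rfl
  funext k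
  unfold Chamber.bar
  simp only [Pi.add_apply, Pi.smul_apply, smul_eq_mul, hsome, hnone,
    Fin.sum_univ_four]
  fin_cases k
  · rw [if_pos (by decide), if_neg (by decide), if_neg (by decide), if_neg (by decide),
      if_neg (by decide)]
    show _ = y 0
    ring
  · rw [if_neg (by decide), if_pos (by decide), if_neg (by decide), if_neg (by decide),
      if_neg (by decide)]
    show _ = y 1
    ring
  · rw [if_neg (by decide), if_neg (by decide), if_pos (by decide), if_neg (by decide),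
      if_neg (by decide)]
    show _ = y 2
    ring
  · rw [if_neg (by decide), if_neg (by decide), if_neg (by decide), if_pos (by decide),
      if_neg (by decide)]
    show _ = y 3
    ring
  · rw [if_neg (by decide), if_neg (by decide), if_neg (by decide), if_neg (by decide),
      if_pos (by decide)]
    show _ = 1 - y 0 - y 1 - y 2 - y 3
    ring

theorem J1_ge (th c : ℝ) :
    ∫⁻ q, (RR c).indicator (fun q => ENNReal.ofReal (H1 th c (pp q))) q ≤ J1 th c := by
  rw [lintegral_indicator (measurableSet_RR c)]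
  unfold J1 Chamber.EV
  simp only [bar_eq]
  refine lintegral_mono_set ?_
  rintro q ⟨p0, p1, p2, p3, p4, p5, p6⟩
  refine ⟨?_, ?_⟩
  · intro i
    fin_cases i
    · exact p0.le
    · exact p1.le
    · exact p2.le
    · exact p3.le
  · rw [Fin.sum_univ_four]
    exact p4.le

theorem ofReal_integral_le {α : Type} [MeasurableSpace α] (μ : Measure α) (g : α → ℝ) :
    ENNReal.ofReal (∫ x, g x ∂μ) ≤ ∫⁻ x, ENNReal.ofReal (g x) ∂μ := by
  by_cases hg : Integrable g μ
  · rw [integral_eq_lintegral_pos_part_sub_lintegral_neg_part hg]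
    exact (ENNReal.ofReal_le_ofReal (sub_le_self _ ENNReal.toReal_nonneg)).trans
      ENNReal.ofReal_toReal_le
  · rw [integral_undef hg]
    simp

theorem IF_le (hs : claimC1s) (hm : claimC1m) {th c : ℝ} (h0 : 0 < th)
    (h1 : th ≤ 1 / 100) (hc : c = 1 / 4 + 2 * th) (n : ℕ) :
    ENNReal.ofReal (IF th c (n + 1)) ≤ ∫⁻ q, ∫⁻ x, Ph th c n q x := by
  rw [← hs n (Ph th c n) (measurable_Ph hm th c n)]
  unfold IF
  refine (ofReal_integral_le _ _).trans ?_
  refine le_trans (setLIntegral_mono' (measurableSet_Sim _ _)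
    (fun y hy => pointwise y h0 h1 hc hy)) ?_
  exact setLIntegral_le_lintegral _ _

end IC1c

open IC1c in
theorem prfC1c (h0' : claimC0) (ha : claimC1a) (hs : claimC1s) (hm : claimC1m)
    (_hb : claimP4b) : claimC1c := by
  intro th c h0 h1 hc K
  calc ∑ k ∈ Finset.range K, ENNReal.ofReal (IF th c (k + 1))
      ≤ ∑ n ∈ Finset.range K, ∫⁻ q, ∫⁻ x, Ph th c n q x :=
        Finset.sum_le_sum fun n _ => IF_le hs hm h0 h1 hc n
    _ = ∫⁻ q, ∑ n ∈ Finset.range K, ∫⁻ x, Ph th c n q x := by
        rw [lintegral_finsetSum]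
        intro n _
        exact (measurable_Ph hm th c n).lintegral_prod_right'
    _ ≤ ∫⁻ q, (RR c).indicator (fun q => ENNReal.ofReal (H1 th c (pp q))) q :=
        lintegral_mono fun q => sum_q h0' ha h0 h1 hc K q
    _ ≤ J1 th c := J1_ge th c

end Pool.Agent.Work.MP_122e00_nt.Hyb
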