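import Pool.Agent.Work.MP_122e00_nt.Hyb.Stmts

open MeasureTheory Set Filter
open scoped ENNReal Topology

noncomputable section

namespace Pool.Agent.Work.MP_122e00_nt.Hyb

namespace IC1s

/-- Splitting of the coordinates on the left. -/
def eL (n : ℕ) : (Fin (n + 2) ⊕ Fin 2 → ℝ) ≃ᵐ (ℝ × (ℝ × (Fin n → ℝ))) × (ℝ × ℝ) :=
  (MeasurableEquiv.sumPiEquivProdPi (fun _ : Fin (n + 2) ⊕ Fin 2 => ℝ)).trans
    (MeasurableEquiv.prodCongr
      ((MeasurableEquiv.piFinSuccAbove (fun _ : Fin (n + 2) => ℝ) 0).trans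
        (MeasurableEquiv.prodCongr (MeasurableEquiv.refl ℝ)
          (MeasurableEquiv.piFinSuccAbove (fun _ : Fin (n + 1) => ℝ) (Fin.last n))))
      MeasurableEquiv.finTwoArrow)

theorem eL_mp (n : ℕ) : MeasurePreserving (eL n) := by
  unfold eL
  refine MeasurePreserving.trans
    (volume_measurePreserving_sumPiEquivProdPi (fun _ : Fin (n + 2) ⊕ Fin 2 => ℝ)) ?_
  refine MeasurePreserving.prod ?_ (volume_preserving_finTwoArrow ℝ)
  refine MeasurePreserving.trans (volume_preserving_piFinSuccAbove (fun _ : Fin (n + 2) => ℝ) 0) ?_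
  exact MeasurePreserving.prod (MeasurePreserving.id volume)
    (volume_preserving_piFinSuccAbove (fun _ : Fin (n + 1) => ℝ) (Fin.last n))

theorem eL_apply (n : ℕ) (y : Fin (n + 2) ⊕ Fin 2 → ℝ) :
    eL n y = ((y (Sum.inl 0), (y (Sum.inl (Fin.last n).succ),
      fun m : Fin n => y (Sum.inl m.castSucc.succ))), (y (Sum.inr 0), y (Sum.inr 1))) := by
  have h : (fun m : Fin n => y (Sum.inl ((Fin.last n).succAbove m).succ)) =
      fun m : Fin n => y (Sum.inl m.castSucc.succ) := by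
    funext m
    rw [Fin.succAbove_last]
  rw [← h]
  rfl

/-- Splitting of the coordinates on the right. -/
def eR : (Fin 4 → ℝ) ≃ᵐ ℝ × (ℝ × (ℝ × ℝ)) :=
  (MeasurableEquiv.piFinSuccAbove (fun _ : Fin 4 => ℝ) 0).trans
    (MeasurableEquiv.prodCongr (MeasurableEquiv.refl ℝ)
      ((MeasurableEquiv.piFinSuccAbove (fun _ : Fin 3 => ℝ) 0).trans
        (MeasurableEquiv.prodCongr (MeasurableEquiv.refl ℝ) MeasurableEquiv.finTwoArrow)))

theorem eR_mp : MeasurePreserving eR := by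
  unfold eR
  refine MeasurePreserving.trans (volume_preserving_piFinSuccAbove (fun _ : Fin 4 => ℝ) 0) ?_
  refine MeasurePreserving.prod (MeasurePreserving.id volume) ?_
  refine MeasurePreserving.trans (volume_preserving_piFinSuccAbove (fun _ : Fin 3 => ℝ) 0) ?_
  exact MeasurePreserving.prod (MeasurePreserving.id volume) (volume_preserving_finTwoArrow ℝ)

theorem eR_apply (q : Fin 4 → ℝ) : eR q = (q 0, (q 1, (q 2, q 3))) := rfl

theorem meas_vec {X : Type*} [MeasurableSpace X] {a t b c : X → ℝ} (ha : Measurable a)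
    (ht : Measurable t) (hb : Measurable b) (hc : Measurable c) :
    Measurable (fun z : X => (![a z, t z, b z, c z] : Fin 4 → ℝ)) := by
  refine measurable_pi_iff.mpr fun i => ?_
  fin_cases i
  · exact ha
  · exact ht
  · exact hb
  · exact hc

end IC1s

open IC1s

theorem prfC1s : claimC1s := by
  intro n Φ hΦ
  have hcomp : ∀ {X : Type} [MeasurableSpace X] {a t b c : X → ℝ} {x : X → Fin n → ℝ},
      Measurable a → Measurable t → Measurable b → Measurable c → Measurable x →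
      Measurable (fun z : X => Φ ![a z, t z, b z, c z] (x z)) := by
    intro X _ a t b c x ha ht hb hc hx
    exact hΦ.comp ((meas_vec ha ht hb hc).prodMk hx)
  -- left hand side
  set G : (ℝ × (ℝ × (Fin n → ℝ))) × (ℝ × ℝ) → ℝ≥0∞ := fun z =>
    Φ ![z.1.1, z.1.2.1 + ∑ m, z.1.2.2 m, z.2.1, z.2.2] z.1.2.2 with hG
  have hs : Measurable fun z : (ℝ × (ℝ × (Fin n → ℝ))) × (ℝ × ℝ) => ∑ m, z.1.2.2 m :=
    Finset.measurable_sum _ fun m _ => (measurable_pi_apply m).comp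
      (measurable_snd.comp (measurable_snd.comp measurable_fst))
  have hGm : Measurable G := hcomp (measurable_fst.comp measurable_fst)
    ((measurable_fst.comp (measurable_snd.comp measurable_fst)).add hs)
    (measurable_fst.comp measurable_snd) (measurable_snd.comp measurable_snd)
    (measurable_snd.comp (measurable_snd.comp measurable_fst))
  have h1 : ∫⁻ y : Fin (n + 2) ⊕ Fin 2 → ℝ,
      Φ ![y (Sum.inl 0), ∑ m : Fin (n + 1), y (Sum.inl m.succ),
        y (Sum.inr 0), y (Sum.inr 1)] (fun m => y (Sum.inl m.castSucc.succ)) =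
      ∫⁻ z, G z := by
    rw [← (eL_mp n).lintegral_comp hGm]
    refine lintegral_congr fun y => ?_
    rw [hG]
    simp only [eL_apply]
    rw [Fin.sum_univ_castSucc, add_comm (y (Sum.inl (Fin.last n).succ))]
  have h2 : ∫⁻ z, G z = ∫⁻ a : ℝ, ∫⁻ x : Fin n → ℝ, ∫⁻ t : ℝ, ∫⁻ r : ℝ × ℝ,
      Φ ![a, t, r.1, r.2] x := by
    have e1 : ∫⁻ z, G z = ∫⁻ p : ℝ × (ℝ × (Fin n → ℝ)), ∫⁻ r : ℝ × ℝ, G (p, r) :=
      lintegral_prod _ hGm.aemeasurable
    have hm1 : Measurable fun p : ℝ × (ℝ × (Fin n → ℝ)) => ∫⁻ r : ℝ × ℝ, G (p, r) :=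
      hGm.lintegral_prod_right'
    have e2 : ∫⁻ p : ℝ × (ℝ × (Fin n → ℝ)), ∫⁻ r : ℝ × ℝ, G (p, r) =
        ∫⁻ a : ℝ, ∫⁻ s : ℝ × (Fin n → ℝ), ∫⁻ r : ℝ × ℝ, G ((a, s), r) :=
      lintegral_prod _ hm1.aemeasurable
    rw [e1, e2]
    refine lintegral_congr fun a => ?_
    have hm2 : Measurable fun s : ℝ × (Fin n → ℝ) => ∫⁻ r : ℝ × ℝ, G ((a, s), r) :=
      hm1.comp measurable_prodMk_left
    have e3 : ∫⁻ s : ℝ × (Fin n → ℝ), ∫⁻ r : ℝ × ℝ, G ((a, s), r) =
        ∫⁻ x : Fin n → ℝ, ∫⁻ t : ℝ, ∫⁻ r : ℝ × ℝ, G ((a, (t, x)), r) :=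
      lintegral_prod_symm _ hm2.aemeasurable
    rw [e3]
    refine lintegral_congr fun x => ?_
    have e4 := lintegral_add_right_eq_self (μ := (volume : Measure ℝ))
      (fun t : ℝ => ∫⁻ r : ℝ × ℝ, Φ ![a, t, r.1, r.2] x) (∑ m, x m)
    rw [← e4]
  -- right hand side
  have h3 : ∫⁻ q : Fin 4 → ℝ, ∫⁻ x : Fin n → ℝ, Φ q x =
      ∫⁻ x : Fin n → ℝ, ∫⁻ q : Fin 4 → ℝ, Φ q x :=
    lintegral_lintegral_swap hΦ.aemeasurable
  have h4 : ∀ x : Fin n → ℝ, ∫⁻ q : Fin 4 → ℝ, Φ q x =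
      ∫⁻ a : ℝ, ∫⁻ t : ℝ, ∫⁻ r : ℝ × ℝ, Φ ![a, t, r.1, r.2] x := by
    intro x
    have hK : Measurable (fun w : ℝ × (ℝ × (ℝ × ℝ)) => Φ ![w.1, w.2.1, w.2.2.1, w.2.2.2] x) :=
      hcomp measurable_fst (measurable_fst.comp measurable_snd)
        (measurable_fst.comp (measurable_snd.comp measurable_snd))
        (measurable_snd.comp (measurable_snd.comp measurable_snd)) measurable_const
    have e1 : ∫⁻ q : Fin 4 → ℝ, Φ q x =
        ∫⁻ w : ℝ × (ℝ × (ℝ × ℝ)), Φ ![w.1, w.2.1, w.2.2.1, w.2.2.2] x := by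
      rw [← eR_mp.lintegral_comp hK]
      refine lintegral_congr fun q => ?_
      rw [eR_apply]
      congr 1
      funext i
      fin_cases i <;> rfl
    have e2 : ∫⁻ w : ℝ × (ℝ × (ℝ × ℝ)), Φ ![w.1, w.2.1, w.2.2.1, w.2.2.2] x =
        ∫⁻ a : ℝ, ∫⁻ s : ℝ × (ℝ × ℝ), Φ ![a, s.1, s.2.1, s.2.2] x :=
      lintegral_prod _ hK.aemeasurable
    rw [e1, e2]
    refine lintegral_congr fun a => ?_
    have hK2 : Measurable (fun s : ℝ × (ℝ × ℝ) => Φ ![a, s.1, s.2.1, s.2.2] x) :=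
      hK.comp measurable_prodMk_left
    exact lintegral_prod _ hK2.aemeasurable
  rw [h1, h2, h3]
  simp_rw [h4]
  apply lintegral_lintegral_swap
  apply Measurable.aemeasurable
  have m1 : Measurable (fun w : ((ℝ × (Fin n → ℝ)) × ℝ) × (ℝ × ℝ) =>
      Φ ![w.1.1.1, w.1.2, w.2.1, w.2.2] w.1.1.2) :=
    hcomp (measurable_fst.comp (measurable_fst.comp measurable_fst))
      (measurable_snd.comp measurable_fst) (measurable_fst.comp measurable_snd)
      (measurable_snd.comp measurable_snd)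
      (measurable_snd.comp (measurable_fst.comp measurable_fst))
  have m2 : Measurable (fun u : (ℝ × (Fin n → ℝ)) × ℝ => ∫⁻ r : ℝ × ℝ,
      Φ ![u.1.1, u.2, r.1, r.2] u.1.2) := m1.lintegral_prod_right'
  exact m2.lintegral_prod_right'

end Pool.Agent.Work.MP_122e00_nt.Hyb
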