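import Pool.Agent.Work.MP_122e00_nt.Hyb.Stmts
import Pool.Agent.Work.MP_122e00_nt.Bd.B40

set_option autoImplicit false

/-!
# C2: continuity at `th = 0`
-/

namespace Pool.Agent.Work.MP_122e00_nt.Hyb

open Finset Filter Topology MeasureTheory

open scoped ENNReal

namespace IC2

theorem sum_ad (w : Fin 3 → ℝ) (i : Fin 3) (t : ℝ) : ∑ q, ad w i t q = ∑ q, w q + t := by
  unfold ad
  have h : ∀ q, (if q = i then w q + t else w q) = w q + (if q = i then t else 0) := by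
    intro q
    split_ifs <;> ring
  simp_rw [h]
  rw [Finset.sum_add_distrib, Finset.sum_ite_eq']
  simp

theorem gd_ev (w : Fin 3 → ℝ) (hs : ∑ q, w q = 1) (hw : ∀ q, w q ≠ 1 / 2) :
    ∀ᶠ th in 𝓝[>] (0:ℝ), (Gd th w ↔ Gd 0 w) := by
  by_cases h : Gd 0 w
  · obtain ⟨i, hi⟩ := id h
    rw [hs] at hi
    have hi2 : 0 < w i - 1 / 2 := by
      have h1 : 1 / 2 ≤ w i := by linarith
      have h2 := lt_of_le_of_ne h1 (Ne.symm (hw i))
      linarith
    have h3 : ∀ᶠ th in 𝓝[>] (0:ℝ), th < w i - 1 / 2 :=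
      (eventually_lt_nhds hi2).filter_mono nhdsWithin_le_nhds
    filter_upwards [h3] with th hth
    refine ⟨fun _ => h, fun _ => ⟨i, ?_⟩⟩
    rw [hs]
    linarith
  · filter_upwards [self_mem_nhdsWithin] with th hth
    have hth0 : (0:ℝ) < th := hth
    refine ⟨fun ⟨i, hi⟩ => ⟨i, ?_⟩, fun h' => absurd h' h⟩
    linarith

theorem bi_ev (w : Fin 3 → ℝ) (hs : ∑ q, w q = 1) (hw : ∀ q, w q ≠ 1 / 2) :
    ∀ᶠ th in 𝓝[>] (0:ℝ), bi th w = bi 0 w := by
  filter_upwards [gd_ev w hs hw] with th hth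
  unfold bi
  by_cases h : Gd 0 w
  · rw [if_pos h, if_pos (hth.2 h)]
  · rw [if_neg h, if_neg (fun h' => h (hth.1 h'))]

theorem gi_ev (w : Fin 3 → ℝ) (hs : ∑ q, w q = 1) (hw : ∀ q, w q ≠ 1 / 2) :
    ∀ᶠ th in 𝓝[>] (0:ℝ), gi th w = gi 0 w := by
  filter_upwards [gd_ev w hs hw] with th hth
  unfold gi
  by_cases h : Gd 0 w
  · rw [if_pos h, if_pos (hth.2 h)]
  · rw [if_neg h, if_neg (fun h' => h (hth.1 h'))]

theorem bi_all (x0 D : ℝ) (v : Fin 3 → ℝ) (hs : ∑ q, v q + D + x0 = 1)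
    (hw : ∀ j i q, ad (ad v j D) i x0 q ≠ 1 / 2) :
    ∀ᶠ th in 𝓝[>] (0:ℝ), ∀ j i, bi th (ad (ad v j D) i x0) = bi 0 (ad (ad v j D) i x0) := by
  rw [eventually_all]
  intro j
  rw [eventually_all]
  intro i
  exact bi_ev _ (by rw [sum_ad, sum_ad]; exact hs) (hw j i)

theorem gi_all (x0 D : ℝ) (v : Fin 3 → ℝ) (hs : ∑ q, v q + D + x0 = 1)
    (hw : ∀ j i q, ad (ad v j D) i x0 q ≠ 1 / 2) :
    ∀ᶠ th in 𝓝[>] (0:ℝ), ∀ j i, gi th (ad (ad v j D) i x0) = gi 0 (ad (ad v j D) i x0) := by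
  rw [eventually_all]
  intro j
  rw [eventually_all]
  intro i
  exact gi_ev _ (by rw [sum_ad, sum_ad]; exact hs) (hw j i)

theorem cf_ev (x0 D : ℝ) (v : Fin 3 → ℝ) (hs : ∑ q, v q + D + x0 = 1)
    (hw : ∀ j i q, ad (ad v j D) i x0 q ≠ 1 / 2) :
    ∀ᶠ th in 𝓝[>] (0:ℝ), ∀ i j, cf th x0 D v i j = cf 0 x0 D v i j := by
  filter_upwards [bi_all x0 D v hs hw, gi_all x0 D v hs hw] with th hb hg i j
  unfold cf bt gt nb ng
  simp only [hb, hg]

theorem bi_mem (th : ℝ) (w : Fin 3 → ℝ) : 0 ≤ bi th w ∧ bi th w ≤ 1 := by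
  unfold bi
  split_ifs <;> norm_num

theorem gi_mem (th : ℝ) (w : Fin 3 → ℝ) : 0 ≤ gi th w ∧ gi th w ≤ 1 := by
  unfold gi
  split_ifs <;> norm_num

theorem gi_nat (th : ℝ) (w : Fin 3 → ℝ) : ∃ n : ℕ, gi th w = n := by
  unfold gi
  split_ifs
  · exact ⟨1, by simp⟩
  · exact ⟨0, by simp⟩

theorem nb_mem (th x0 D : ℝ) (v : Fin 3 → ℝ) (j : Fin 3) :
    0 ≤ nb th x0 D v j ∧ nb th x0 D v j ≤ 3 := by
  unfold nb
  refine ⟨Finset.sum_nonneg fun i _ => (bi_mem th _).1, ?_⟩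
  refine (Finset.sum_le_card_nsmul Finset.univ _ 1 fun i _ => (bi_mem th _).2).trans ?_
  simp

theorem ng_mem (th x0 D : ℝ) (v : Fin 3 → ℝ) (j : Fin 3) :
    0 ≤ ng th x0 D v j ∧ ng th x0 D v j ≤ 3 := by
  unfold ng
  refine ⟨Finset.sum_nonneg fun i _ => (gi_mem th _).1, ?_⟩
  refine (Finset.sum_le_card_nsmul Finset.univ _ 1 fun i _ => (gi_mem th _).2).trans ?_
  simp

theorem ng_nat (th x0 D : ℝ) (v : Fin 3 → ℝ) (j : Fin 3) : ∃ n : ℕ, ng th x0 D v j = n := by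
  unfold ng
  choose f hf using fun i => gi_nat th (ad (ad v j D) i x0)
  refine ⟨∑ i, f i, ?_⟩
  push_cast
  exact Finset.sum_congr rfl fun i _ => hf i

theorem bt_mem (th x0 D : ℝ) (v : Fin 3 → ℝ) :
    0 ≤ bt th x0 D v ∧ bt th x0 D v ≤ 9 := by
  classical
  unfold bt
  constructor
  · refine Finset.sum_nonneg fun j _ => ?_
    split_ifs
    · exact (nb_mem th x0 D v j).1
    · exact le_rfl
  · refine (Finset.sum_le_card_nsmul Finset.univ _ 3 fun j _ => ?_).trans ?_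
    · split_ifs
      · exact (nb_mem th x0 D v j).2
      · norm_num
    · simp
      norm_num

theorem gt_nat (th x0 D : ℝ) (v : Fin 3 → ℝ) : ∃ n : ℕ, gt th x0 D v = n := by
  classical
  unfold gt
  choose f hf using fun j => ng_nat th x0 D v j
  refine ⟨∑ j, if am (ad v j D) j then f j else 0, ?_⟩
  push_cast
  refine Finset.sum_congr rfl fun j _ => ?_
  split_ifs
  · exact hf j
  · rfl

theorem cf_mem (th x0 D : ℝ) (v : Fin 3 → ℝ) (i j : Fin 3) :
    0 ≤ cf th x0 D v i j ∧ cf th x0 D v i j ≤ 81 := by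
  unfold cf
  split_ifs
  · obtain ⟨b1, b2⟩ := bt_mem th x0 D v
    obtain ⟨n1, n2⟩ := nb_mem th x0 D v i
    obtain ⟨g1, g2⟩ := ng_mem th x0 D v j
    obtain ⟨n, hn⟩ := gt_nat th x0 D v
    refine ⟨by positivity, ?_⟩
    rw [hn]
    rcases Nat.eq_zero_or_pos n with h0 | h0
    · rw [h0]
      norm_num
    · have h1 : (1:ℝ) ≤ (n:ℝ) ^ 2 := by
        have : (1:ℝ) ≤ n := by exact_mod_cast h0
        nlinarith
      rw [div_le_iff₀ (by linarith)]
      have h2 : bt th x0 D v * nb th x0 D v i ≤ 9 * 3 := mul_le_mul b2 n2 n1 (by norm_num)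
      have h3 : bt th x0 D v * nb th x0 D v i * ng th x0 D v j ≤ 9 * 3 * 3 :=
        mul_le_mul h2 g2 g1 (by norm_num)
      nlinarith
  · exact ⟨le_rfl, by norm_num⟩

/-- the part which carries the block is large -/
theorem am_large (v : Fin 3 → ℝ) (x0 D : ℝ) (hs : ∑ q, v q + D + x0 = 1) (i : Fin 3)
    (h : am (ad v i D) i) : (1 - x0) / 3 ≤ v i + D := by
  have h1 : ∀ q, ad v i D q ≤ ad v i D i := by
    intro q
    rcases h q with h | h
    · exact h.le
    · exact h.1.le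
  have h2 : ad v i D i = v i + D := by
    unfold ad
    rw [if_pos rfl]
  have h3 := sum_ad v i D
  have h4 : ∑ q, ad v i D q ≤ 3 * (v i + D) := by
    rw [← h2]
    refine (Finset.sum_le_card_nsmul Finset.univ _ _ fun q _ => h1 q).trans ?_
    simp
  linarith

theorem v_le (v : Fin 3 → ℝ) (hv : ∀ q, 0 ≤ v q) (j : Fin 3) : v j ≤ ∑ q, v q :=
  Finset.single_le_sum (fun q _ => hv q) (Finset.mem_univ j)

theorem hh_bound (ui uj e : ℝ) (hui : 1 / 20 ≤ ui - e) (he : 0 ≤ e) (_he1 : e ≤ 1) (hui1 : ui ≤ 1)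
    (huj0 : 0 ≤ uj) (huj : uj ≤ 1) : 0 ≤ hh ui uj e ∧ hh ui uj e ≤ 400 * Real.exp 400 := by
  unfold hh
  have h1 : 1 / 20 ≤ ui := by linarith
  have h2 : 1 / 400 ≤ ui * (ui - e) := by nlinarith
  have h3 : 0 < ui * (ui - e) := by linarith
  have h4 : uj / (ui * (ui - e)) ≤ 400 := by
    rw [div_le_iff₀ h3]
    linarith
  have h5 : (uj - ui) * e / (ui * (ui - e)) ≤ 400 := by
    rw [div_le_iff₀ h3]
    nlinarith
  refine ⟨by positivity, ?_⟩
  exact mul_le_mul h4 (Real.exp_le_exp.2 h5) (Real.exp_nonneg _) (by norm_num)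

theorem vec_sum (p : Fin 5 → ℝ) (hs : ∑ q, p q = 1) :
    ∑ q, (![p 2, p 3, p 4] : Fin 3 → ℝ) q + p 1 + p 0 = 1 := by
  simp only [Fin.sum_univ_succ, Fin.sum_univ_zero] at hs ⊢
  simp at hs ⊢
  linarith

theorem vec_nonneg (p : Fin 5 → ℝ) (hp : ∀ q, 0 ≤ p q) :
    ∀ q, 0 ≤ (![p 2, p 3, p 4] : Fin 3 → ℝ) q := by
  intro q
  fin_cases q
  · exact hp 2
  · exact hp 3
  · exact hp 4

theorem H1_bound (th : ℝ) (h0 : 0 < th) (h1 : th ≤ 1 / 100) (p : Fin 5 → ℝ)
    (hp : ∀ q, 0 ≤ p q) (hs : ∑ q, p q = 1) :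
    H1 th (1 / 4 + 2 * th) p ≤ 9 * (81 * (400 * Real.exp 400)) := by
  classical
  unfold H1
  have hE : 0 ≤ 81 * (400 * Real.exp 400) := by positivity
  split_ifs with hc
  · set v : Fin 3 → ℝ := ![p 2, p 3, p 4] with hv
    have hv0 : ∀ q, 0 ≤ v q := vec_nonneg p hp
    have hvs : ∑ q, v q + p 1 + p 0 = 1 := vec_sum p hs
    have key : ∀ i j, cf th (p 0) (p 1) v i j *
        hh (v i + p 1) (v j + p 1) (1 / 4 + 2 * th - p 0) ≤ 81 * (400 * Real.exp 400) := by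
      intro i j
      by_cases ham : am (ad v i (p 1)) i
      · have h2 := am_large v (p 0) (p 1) hvs i ham
        have h3 := v_le v hv0 i
        have h4 := v_le v hv0 j
        have h5 := hp 0
        have h6 := hp 1
        obtain ⟨b1, b2⟩ := hh_bound (v i + p 1) (v j + p 1) (1 / 4 + 2 * th - p 0)
          (by linarith) (by linarith [hc.1]) (by linarith) (by linarith)
          (by linarith [hv0 j]) (by linarith)
        obtain ⟨c1, c2⟩ := cf_mem th (p 0) (p 1) v i j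
        exact mul_le_mul c2 b2 b1 (by norm_num)
      · have : cf th (p 0) (p 1) v i j = 0 := by
          unfold cf
          rw [if_neg (fun h => ham h.1)]
        rw [this, zero_mul]
        exact hE
    calc ∑ i : Fin 3, ∑ j : Fin 3, cf th (p 0) (p 1) v i j *
        hh (v i + p 1) (v j + p 1) (1 / 4 + 2 * th - p 0)
        ≤ ∑ i : Fin 3, ∑ j : Fin 3, 81 * (400 * Real.exp 400) :=
          Finset.sum_le_sum fun i _ => Finset.sum_le_sum fun j _ => key i j
      _ = 9 * (81 * (400 * Real.exp 400)) := by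
          simp only [Finset.sum_const, Finset.card_univ, Fintype.card_fin, nsmul_eq_mul]
          push_cast
          ring
  · positivity

theorem H0_bound (th c : ℝ) (p : Fin 4 → ℝ) : H0 th c p ≤ 9 := by
  unfold H0
  split_ifs
  · obtain ⟨n1, n2⟩ := nb_mem th (p 0) 0 ![p 1, p 2, p 3] 0
    obtain ⟨n, hn⟩ := ng_nat th (p 0) 0 ![p 1, p 2, p 3] 0
    rw [hn]
    rcases Nat.eq_zero_or_pos n with h0 | h0
    · rw [h0]
      norm_num
    · have h1 : (1:ℝ) ≤ n := by exact_mod_cast h0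
      rw [div_le_iff₀ (by linarith)]
      nlinarith
  · norm_num

theorem tends_c : Tendsto (fun th : ℝ => 1 / 4 + 2 * th) (𝓝[>] 0) (𝓝 (1 / 4)) := by
  have h : Tendsto (fun th : ℝ => 1 / 4 + 2 * th) (𝓝 0) (𝓝 (1 / 4 + 2 * 0)) :=
    (tendsto_const_nhds).add (tendsto_id.const_mul 2)
  rw [mul_zero, add_zero] at h
  exact h.mono_left nhdsWithin_le_nhds

theorem lt_ev (a : ℝ) (ha : a ≠ 1 / 4) :
    ∀ᶠ th in 𝓝[>] (0:ℝ), (a < 1 / 4 + 2 * th ↔ a < 1 / 4) := by
  rcases lt_or_gt_of_ne ha with h | h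
  · filter_upwards [tends_c.eventually_const_lt h] with th hth
    exact ⟨fun _ => h, fun _ => hth⟩
  · filter_upwards [tends_c.eventually_lt_const h] with th hth
    exact ⟨fun h' => absurd h' (not_lt.2 hth.le), fun h' => absurd h' (not_lt.2 h.le)⟩

theorem le_ev (a : ℝ) (ha : a ≠ 1 / 4) :
    ∀ᶠ th in 𝓝[>] (0:ℝ), (1 / 4 + 2 * th ≤ a ↔ 1 / 4 ≤ a) := by
  filter_upwards [lt_ev a ha] with th hth
  rw [← not_lt, hth, not_lt]

theorem hh_tendsto (ui uj x0 : ℝ) (h : ui * (ui - (1 / 4 - x0)) ≠ 0) :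
    Tendsto (fun th : ℝ => hh ui uj (1 / 4 + 2 * th - x0)) (𝓝[>] 0)
      (𝓝 (hh ui uj (1 / 4 - x0))) := by
  unfold hh
  have he : Tendsto (fun th : ℝ => 1 / 4 + 2 * th - x0) (𝓝[>] 0) (𝓝 (1 / 4 - x0)) :=
    tends_c.sub_const x0
  have h1 : Tendsto (fun th : ℝ => ui * (ui - (1 / 4 + 2 * th - x0))) (𝓝[>] 0)
      (𝓝 (ui * (ui - (1 / 4 - x0)))) := (he.const_sub ui).const_mul ui
  exact (tendsto_const_nhds.div h1 h).mul
    ((Real.continuous_exp.tendsto _).comp ((he.const_mul (uj - ui)).div h1 h))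

theorem H1_tendsto (p : Fin 5 → ℝ) (hp : ∀ q, 0 ≤ p q) (hs : ∑ q, p q = 1) (h1 : p 0 ≠ 1 / 4)
    (h2 : p 0 + p 1 ≠ 1 / 4)
    (h3 : ∀ j i q, ad (ad ![p 2, p 3, p 4] j (p 1)) i (p 0) q ≠ 1 / 2) :
    Tendsto (fun th => H1 th (1 / 4 + 2 * th) p) (𝓝[>] 0) (𝓝 (H1 0 (1 / 4) p)) := by
  classical
  set v : Fin 3 → ℝ := ![p 2, p 3, p 4] with hv
  have hv0 : ∀ q, 0 ≤ v q := vec_nonneg p hp
  have hvs : ∑ q, v q + p 1 + p 0 = 1 := vec_sum p hs
  have e1 := lt_ev (p 0) h1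
  have e2 := le_ev (p 0 + p 1) h2
  have e3 := cf_ev (p 0) (p 1) v hvs h3
  by_cases hc : p 0 < 1 / 4 ∧ 1 / 4 ≤ p 0 + p 1
  · have hlim : Tendsto (fun th : ℝ => ∑ i : Fin 3, ∑ j : Fin 3, cf 0 (p 0) (p 1) v i j *
        hh (v i + p 1) (v j + p 1) (1 / 4 + 2 * th - p 0)) (𝓝[>] 0)
        (𝓝 (∑ i : Fin 3, ∑ j : Fin 3, cf 0 (p 0) (p 1) v i j *
        hh (v i + p 1) (v j + p 1) (1 / 4 - p 0))) := by
      refine tendsto_finset_sum _ fun i _ => tendsto_finset_sum _ fun j _ => ?_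
      by_cases ham : am (ad v i (p 1)) i
      · refine (hh_tendsto _ _ _ ?_).const_mul _
        have h4 := am_large v (p 0) (p 1) hvs i ham
        have h5 := hp 0
        have h6 : 0 < v i + p 1 := by linarith
        have h7 : 0 < v i + p 1 - (1 / 4 - p 0) := by linarith
        exact (mul_pos h6 h7).ne'
      · have : cf 0 (p 0) (p 1) v i j = 0 := by
          unfold cf
          rw [if_neg (fun h => ham h.1)]
        simp only [this, zero_mul]
        exact tendsto_const_nhds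
    have hval : H1 0 (1 / 4) p = ∑ i : Fin 3, ∑ j : Fin 3, cf 0 (p 0) (p 1) v i j *
        hh (v i + p 1) (v j + p 1) (1 / 4 - p 0) := by
      unfold H1
      rw [if_pos hc]
    rw [hval]
    refine hlim.congr' ?_
    filter_upwards [e1, e2, e3] with th t1 t2 t3
    unfold H1
    rw [if_pos ⟨t1.2 hc.1, t2.2 hc.2⟩]
    simp only [← hv, t3]
  · have hval : H1 0 (1 / 4) p = 0 := by
      unfold H1
      rw [if_neg hc]
    rw [hval]
    refine tendsto_const_nhds.congr' ?_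
    filter_upwards [e1, e2] with th t1 t2
    unfold H1
    rw [if_neg]
    rintro ⟨a, b⟩
    exact hc ⟨t1.1 a, t2.1 b⟩

theorem H0_tendsto (p : Fin 4 → ℝ) (hs : ∑ q, p q = 1) (h1 : p 0 ≠ 1 / 4)
    (h3 : ∀ j i q, ad (ad ![p 1, p 2, p 3] j 0) i (p 0) q ≠ 1 / 2) :
    Tendsto (fun th => H0 th (1 / 4 + 2 * th) p) (𝓝[>] 0) (𝓝 (H0 0 (1 / 4) p)) := by
  classical
  have hvs : ∑ q, (![p 1, p 2, p 3] : Fin 3 → ℝ) q + 0 + p 0 = 1 := by
    simp only [Fin.sum_univ_succ, Fin.sum_univ_zero] at hs ⊢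
    simp at hs ⊢
    linarith
  refine tendsto_const_nhds.congr' ?_
  filter_upwards [le_ev (p 0) h1, bi_all (p 0) 0 ![p 1, p 2, p 3] hvs h3,
    gi_all (p 0) 0 ![p 1, p 2, p 3] hvs h3] with th t1 t2 t3
  unfold H0 nb ng
  simp only [t1, t2, t3]

/-- coordinates of the point of the simplex -/
theorem bar_std (n : ℕ) (y : Fin n → ℝ) :
    (∀ i : Fin n, Chamber.bar (std n) y i.castSucc = y i) ∧
      Chamber.bar (std n) y (Fin.last n) = 1 - ∑ i, y i := by
  unfold Chamber.bar std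
  constructor
  · intro i
    simp only [Pi.add_apply, Finset.sum_apply, Pi.smul_apply, smul_eq_mul, Fin.castSucc_inj,
      mul_ite, mul_one, mul_zero, Finset.sum_ite_eq, Finset.mem_univ, if_true]
    rw [if_neg (Fin.castSucc_lt_last i).ne]
    ring
  · simp only [Pi.add_apply, Finset.sum_apply, Pi.smul_apply, smul_eq_mul, mul_ite, mul_one,
      mul_zero, if_true]
    have : ∀ i : Fin n, (Fin.last n = i.castSucc) = False := by
      intro i
      simp only [eq_iff_iff, iff_false]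
      exact (Fin.castSucc_lt_last i).ne'
    simp only [this, if_false, Finset.sum_const_zero, zero_add]

theorem bar_nonneg (n : ℕ) (y : Fin n → ℝ) (hy : y ∈ Chamber.T (Fin n)) :
    ∀ q, 0 ≤ Chamber.bar (std n) y q := by
  intro q
  refine Fin.lastCases ?_ (fun i => ?_) q
  · rw [(bar_std n y).2]
    linarith [hy.2]
  · rw [(bar_std n y).1]
    exact hy.1 i

theorem bar_sum (n : ℕ) (y : Fin n → ℝ) : ∑ q, Chamber.bar (std n) y q = 1 := by
  rw [Fin.sum_univ_castSucc, (bar_std n y).2]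
  simp only [(bar_std n y).1]
  ring

/-- hyperplanes are null sets -/
theorem ae_ne (n : ℕ) (a : Fin (n + 1) → ℝ) (b : ℝ) (r s : Fin (n + 1)) (hrs : a r ≠ a s) :
    ∀ᵐ y : Fin n → ℝ, ∑ q, a q * Chamber.bar (std n) y q ≠ b := by
  have h := Two.prfL6 (Fin n) (fun i => a i.castSucc - a (Fin.last n)) (b - a (Fin.last n)) (by
    intro h0
    have h1 : ∀ q, a q = a (Fin.last n) := by
      intro q
      refine Fin.lastCases rfl (fun i => ?_) q
      have := congrFun h0 i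
      simp only [Pi.zero_apply] at this
      linarith
    exact hrs (by rw [h1 r, h1 s]))
  rw [ae_iff]
  refine measure_mono_null ?_ h
  intro y hy
  simp only [Set.mem_ofPred_eq, not_not] at hy ⊢
  rw [Fin.sum_univ_castSucc, (bar_std n y).2] at hy
  simp only [(bar_std n y).1] at hy
  have e : ∑ i : Fin n, (a i.castSucc - a (Fin.last n)) * y i =
      ∑ i : Fin n, a i.castSucc * y i - a (Fin.last n) * ∑ i, y i := by
    rw [Finset.mul_sum, ← Finset.sum_sub_distrib]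
    exact Finset.sum_congr rfl fun i _ => by ring
  rw [e]
  linarith

/-- the exceptional hyperplanes, for the cells with a block -/
theorem ae1 : ∀ᵐ y : Fin 4 → ℝ, Chamber.bar (std 4) y 0 ≠ 1 / 4 ∧
    Chamber.bar (std 4) y 0 + Chamber.bar (std 4) y 1 ≠ 1 / 4 ∧
    ∀ j i q, ad (ad ![Chamber.bar (std 4) y 2, Chamber.bar (std 4) y 3,
      Chamber.bar (std 4) y 4] j (Chamber.bar (std 4) y 1)) i (Chamber.bar (std 4) y 0) q ≠
        1 / 2 := by
  have h1 := ae_ne 4 ![1, 0, 0, 0, 0] (1 / 4) 0 1 (by simp)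
  have h2 := ae_ne 4 ![1, 1, 0, 0, 0] (1 / 4) 0 2 (by simp)
  have h3 : ∀ j i q : Fin 3, ∀ᵐ y : Fin 4 → ℝ, ad (ad ![Chamber.bar (std 4) y 2,
      Chamber.bar (std 4) y 3, Chamber.bar (std 4) y 4] j (Chamber.bar (std 4) y 1)) i
      (Chamber.bar (std 4) y 0) q ≠ 1 / 2 := by
    intro j i q
    have h4 := ae_ne 4 ![if q = i then 1 else 0, if q = j then 1 else 0,
      if q = 0 then 1 else 0, if q = 1 then 1 else 0, if q = 2 then 1 else 0] (1 / 2)
      (if q = 0 then 2 else if q = 1 then 3 else 4) (if q = 0 then 3 else 2) (by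
        fin_cases q <;> simp)
    filter_upwards [h4] with y hy
    intro h5
    apply hy
    rw [← h5]
    simp only [Fin.sum_univ_succ, Fin.sum_univ_zero]
    unfold ad
    fin_cases q <;> fin_cases i <;> fin_cases j <;> simp <;> ring
  have h3' : ∀ᵐ y : Fin 4 → ℝ, ∀ j i q, ad (ad ![Chamber.bar (std 4) y 2,
      Chamber.bar (std 4) y 3, Chamber.bar (std 4) y 4] j (Chamber.bar (std 4) y 1)) i
      (Chamber.bar (std 4) y 0) q ≠ 1 / 2 := by
    rw [ae_all_iff]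
    intro j
    rw [ae_all_iff]
    intro i
    rw [ae_all_iff]
    intro q
    exact h3 j i q
  filter_upwards [h1, h2, h3'] with y y1 y2 y3
  refine ⟨?_, ?_, y3⟩
  · intro h5
    apply y1
    rw [← h5]
    simp [Fin.sum_univ_succ]
  · intro h5
    apply y2
    rw [← h5]
    simp [Fin.sum_univ_succ]

/-- the exceptional hyperplanes, for the cells without a block -/
theorem ae0 : ∀ᵐ y : Fin 3 → ℝ, Chamber.bar (std 3) y 0 ≠ 1 / 4 ∧
    ∀ j i q, ad (ad ![Chamber.bar (std 3) y 1, Chamber.bar (std 3) y 2,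
      Chamber.bar (std 3) y 3] j 0) i (Chamber.bar (std 3) y 0) q ≠ 1 / 2 := by
  have h1 := ae_ne 3 ![1, 0, 0, 0] (1 / 4) 0 1 (by simp)
  have h3 : ∀ j i q : Fin 3, ∀ᵐ y : Fin 3 → ℝ, ad (ad ![Chamber.bar (std 3) y 1,
      Chamber.bar (std 3) y 2, Chamber.bar (std 3) y 3] j 0) i
      (Chamber.bar (std 3) y 0) q ≠ 1 / 2 := by
    intro j i q
    have h4 := ae_ne 3 ![if q = i then 1 else 0,
      if q = 0 then 1 else 0, if q = 1 then 1 else 0, if q = 2 then 1 else 0] (1 / 2)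
      (if q = 0 then 1 else if q = 1 then 2 else 3) (if q = 0 then 2 else 1) (by
        fin_cases q <;> simp)
    filter_upwards [h4] with y hy
    intro h5
    apply hy
    rw [← h5]
    simp only [Fin.sum_univ_succ, Fin.sum_univ_zero]
    unfold ad
    fin_cases q <;> fin_cases i <;> fin_cases j <;> simp <;> ring
  have h3' : ∀ᵐ y : Fin 3 → ℝ, ∀ j i q, ad (ad ![Chamber.bar (std 3) y 1,
      Chamber.bar (std 3) y 2, Chamber.bar (std 3) y 3] j 0) i
      (Chamber.bar (std 3) y 0) q ≠ 1 / 2 := by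
    rw [ae_all_iff]
    intro j
    rw [ae_all_iff]
    intro i
    rw [ae_all_iff]
    intro q
    exact h3 j i q
  filter_upwards [h1, h3'] with y y1 y3
  refine ⟨?_, y3⟩
  intro h5
  apply y1
  rw [← h5]
  simp [Fin.sum_univ_succ]

theorem vol_T (n : ℕ) : volume (Chamber.T (Fin n)) < ⊤ := by
  refine lt_of_le_of_lt (measure_mono (t := Set.Icc (fun _ => (0:ℝ)) (fun _ => 1)) ?_) ?_
  · intro y hy
    refine ⟨fun i => hy.1 i, fun i => ?_⟩
    exact (Finset.single_le_sum (fun j _ => hy.1 j) (Finset.mem_univ i)).trans hy.2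
  · exact (isCompact_Icc).measure_lt_top

theorem small_ev : ∀ᶠ th in 𝓝[>] (0:ℝ), 0 < th ∧ th ≤ 1 / 100 := by
  have h1 : ∀ᶠ th in 𝓝[>] (0:ℝ), th < 1 / 100 :=
    (eventually_lt_nhds (by norm_num)).filter_mono nhdsWithin_le_nhds
  filter_upwards [self_mem_nhdsWithin, h1] with th t1 t2
  exact ⟨t1, t2.le⟩

end IC2

open IC2 in
theorem prfC2 (hm : claimC1m) : claimC2 := by
  have hb : ∀ n : ℕ, Measurable (Chamber.bar (std n) : (Fin n → ℝ) → Fin (n + 1) → ℝ) :=
    fun n => Chamber.measurable_bar (std n)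
  have hJ1 : Tendsto (fun th : ℝ => J1 th (1 / 4 + 2 * th)) (𝓝[>] 0) (𝓝 (J1 0 (1 / 4))) := by
    unfold J1 Chamber.EV
    refine tendsto_lintegral_filter_of_dominated_convergence
      (fun _ => ENNReal.ofReal (9 * (81 * (400 * Real.exp 400)))) ?_ ?_ ?_ ?_
    · exact Eventually.of_forall fun th =>
        ((hm.2.1 th (1 / 4 + 2 * th)).comp (hb 4)).ennreal_ofReal
    · filter_upwards [small_ev] with th hth
      filter_upwards [ae_restrict_mem (Chamber.measurableSet_T (Fin 4))] with y hy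
      exact ENNReal.ofReal_le_ofReal (H1_bound th hth.1 hth.2 _ (bar_nonneg 4 y hy) (bar_sum 4 y))
    · rw [setLIntegral_const]
      exact ENNReal.mul_ne_top ENNReal.ofReal_ne_top (vol_T 4).ne
    · filter_upwards [ae_restrict_mem (Chamber.measurableSet_T (Fin 4)),
        ae_restrict_of_ae ae1] with y hy y1
      exact (ENNReal.continuous_ofReal.tendsto _).comp
        (H1_tendsto _ (bar_nonneg 4 y hy) (bar_sum 4 y) y1.1 y1.2.1 y1.2.2)
  have hJ0 : Tendsto (fun th : ℝ => J0 th (1 / 4 + 2 * th)) (𝓝[>] 0) (𝓝 (J0 0 (1 / 4))) := by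
    unfold J0 Chamber.EV
    refine tendsto_lintegral_filter_of_dominated_convergence
      (fun _ => ENNReal.ofReal 9) ?_ ?_ ?_ ?_
    · exact Eventually.of_forall fun th =>
        ((hm.2.2 th (1 / 4 + 2 * th)).comp (hb 3)).ennreal_ofReal
    · filter_upwards [small_ev] with th hth
      filter_upwards with y
      exact ENNReal.ofReal_le_ofReal (H0_bound th _ _)
    · rw [setLIntegral_const]
      exact ENNReal.mul_ne_top ENNReal.ofReal_ne_top (vol_T 3).ne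
    · filter_upwards [ae_restrict_of_ae ae0] with y y1
      exact (ENNReal.continuous_ofReal.tendsto _).comp
        (H0_tendsto _ (bar_sum 3 y) y1.1 y1.2)
  exact hJ0.add hJ1

end Pool.Agent.Work.MP_122e00_nt.Hyb
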