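import Pool.Agent.Work.MP_122e00_nt.Hyb.Stmts

set_option autoImplicit false

/-!
# S6: from `X / log X < n ≤ X` to all `n ≤ X`
-/

namespace Pool.Agent.Work.MP_122e00_nt.Hyb

open Finset Filter Topology MeasureTheory

open scoped ArithmeticFunction.zeta

namespace IS6

private lemma term_nonneg (h n : ℕ) : (0 : ℝ) ≤ (((ζ : ArithmeticFunction ℕ) ^ 3) n : ℝ) *
    (((ζ : ArithmeticFunction ℕ) ^ 3) (n + h) : ℝ) :=
  mul_nonneg (Nat.cast_nonneg _) (Nat.cast_nonneg _)

private lemma DS_nonneg (h a b : ℕ) : 0 ≤ DS h a b :=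
  Finset.sum_nonneg fun n _ => term_nonneg h n

private lemma DS_mono (h : ℕ) {a b : ℕ} (hab : a ≤ b) : DS h 0 a ≤ DS h 0 b :=
  Finset.sum_le_sum_of_subset_of_nonneg (Finset.Ioc_subset_Ioc_right hab)
    fun n _ _ => term_nonneg h n

private lemma DS_add (h : ℕ) {a b : ℕ} (hab : a ≤ b) : DS h 0 b = DS h 0 a + DS h a b := by
  unfold DS
  rw [Finset.sum_Ioc_consecutive _ (Nat.zero_le a) hab]

private lemma step (h : ℕ) {X : ℝ} (hX : 0 ≤ X) (hL : 1 ≤ Real.log X) :
    DS h 0 ⌊X⌋₊ = DS h 0 ⌊X / Real.log X⌋₊ + DS h ⌊X / Real.log X⌋₊ ⌊X⌋₊ :=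
  DS_add h (Nat.floor_le_floor (div_le_self hX hL))

private lemma main_bound (h : ℕ) (E X₀ : ℝ) (hE : 0 ≤ E) (hX₀ : 1 ≤ X₀)
    (hL : ∀ X, X₀ ≤ X → 2 ≤ Real.log X)
    (H : ∀ X, X₀ ≤ X → DS h ⌊X / Real.log X⌋₊ ⌊X⌋₊ ≤ (E + 1) * (X * (Real.log X) ^ 4)) :
    ∃ M : ℝ, 0 ≤ M ∧ ∀ X, X₀ ≤ X → DS h 0 ⌊X⌋₊ ≤ M * (X * (Real.log X) ^ 4) + M := by
  refine ⟨2 * (E + 1) + DS h 0 ⌊X₀⌋₊, ?_, ?_⟩
  · have := DS_nonneg h 0 ⌊X₀⌋₊
    linarith
  · set M := 2 * (E + 1) + DS h 0 ⌊X₀⌋₊ with hM
    have hD := DS_nonneg h 0 ⌊X₀⌋₊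
    have hM0 : 0 ≤ M := by rw [hM]; linarith
    have key : ∀ N : ℕ, ∀ X, X₀ ≤ X → X ≤ 2 ^ N * X₀ →
        DS h 0 ⌊X⌋₊ ≤ M * (X * (Real.log X) ^ 4) + M := by
      intro N
      induction N with
      | zero =>
        intro X hX hX'
        have hXX : X = X₀ := le_antisymm (by simpa using hX') hX
        have hX0 : 0 ≤ X := by linarith
        have : 0 ≤ M * (X * (Real.log X) ^ 4) := by positivity
        rw [hXX] at this ⊢
        linarith
      | succ N ih =>
        intro X hX hX'
        have hX0 : 0 < X := by linarith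
        have hLX := hL X hX
        have hXL : X / Real.log X ≤ X / 2 := by
          apply div_le_div_of_nonneg_left hX0.le (by norm_num) hLX
        have hst := step h hX0.le (by linarith : (1 : ℝ) ≤ Real.log X)
        have hHX := H X hX
        have hP : 0 ≤ X * (Real.log X) ^ 4 := by positivity
        have hsmall : DS h 0 ⌊X / Real.log X⌋₊ ≤ M * (X * (Real.log X) ^ 4) / 2 + M := by
          rcases le_or_gt X₀ (X / Real.log X) with hc | hc
          · have h1 := ih (X / Real.log X) hc (by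
              rw [pow_succ] at hX'
              linarith)
            have hY1 : 1 ≤ X / Real.log X := le_trans hX₀ hc
            have hlog : Real.log (X / Real.log X) ≤ Real.log X :=
              Real.log_le_log (by linarith) (by linarith)
            have hlog0 : 0 ≤ Real.log (X / Real.log X) := Real.log_nonneg hY1
            have h2 : (X / Real.log X) * (Real.log (X / Real.log X)) ^ 4 ≤
                (X / 2) * (Real.log X) ^ 4 := by
              apply mul_le_mul hXL (pow_le_pow_left₀ hlog0 hlog 4) (by positivity) (by positivity)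
            have h3 := mul_le_mul_of_nonneg_left h2 hM0
            have h4 : M * (X / 2 * (Real.log X) ^ 4) = M * (X * (Real.log X) ^ 4) / 2 := by ring
            linarith
          · have h1 : DS h 0 ⌊X / Real.log X⌋₊ ≤ DS h 0 ⌊X₀⌋₊ :=
              DS_mono h (Nat.floor_le_floor hc.le)
            have h5 : 0 ≤ M * (X * (Real.log X) ^ 4) / 2 := by positivity
            linarith
        have h6 : (E + 1) * (X * (Real.log X) ^ 4) ≤ M * (X * (Real.log X) ^ 4) / 2 := by
          have : (E + 1) ≤ M / 2 := by rw [hM]; linarith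
          have := mul_le_mul_of_nonneg_right this hP
          linarith
        linarith
    intro X hX
    obtain ⟨N, hN⟩ := pow_unbounded_of_one_lt (X / X₀) (by norm_num : (1 : ℝ) < 2)
    refine key N X hX ?_
    have hX₀' : 0 < X₀ := by linarith
    rw [div_lt_iff₀ hX₀'] at hN
    exact hN.le

end IS6

open IS6 in
theorem prfS6 : claimS6 := by
  intro h E hE H δ hδ
  have hlog : ∀ᶠ X : ℝ in atTop, 2 ≤ Real.log X := Real.tendsto_log_atTop.eventually_ge_atTop 2
  obtain ⟨X₁, hX₁⟩ := eventually_atTop.1 ((H 1 one_pos).and hlog)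
  obtain ⟨M, hM0, hM⟩ := main_bound h E (max X₁ 1) hE (le_max_right _ _)
    (fun X hX => (hX₁ X (le_trans (le_max_left _ _) hX)).2)
    (fun X hX => (hX₁ X (le_trans (le_max_left _ _) hX)).1)
  have hdiv : Tendsto (fun X : ℝ => X / Real.log X) atTop atTop := by
    have h1 : Tendsto (fun X : ℝ => Real.log X / X) atTop (𝓝[>] 0) := by
      rw [tendsto_nhdsWithin_iff]
      refine ⟨?_, ?_⟩
      · have := Real.isLittleO_log_id_atTop.tendsto_div_nhds_zero
        simpa using this
      · filter_upwards [hlog, eventually_gt_atTop 0] with X h1 h2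
        exact div_pos (by linarith) h2
    have h2 := h1.inv_tendsto_nhdsGT_zero
    refine h2.congr fun X => ?_
    simp [inv_div]
  filter_upwards [H (δ / 2) (by linarith), hlog, eventually_ge_atTop (max X₁ 1),
    hdiv.eventually_ge_atTop (max X₁ 1),
    Real.tendsto_log_atTop.eventually_ge_atTop (4 * M / δ),
    eventually_ge_atTop (4 * M / δ)] with X h1 h2 h3 h4 h5 h6
  have hX1 : 1 ≤ X := le_trans (le_max_right _ _) h3
  have hY1 : 1 ≤ X / Real.log X := le_trans (le_max_right _ _) h4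
  have hst := step h (by linarith : (0 : ℝ) ≤ X) (by linarith : (1 : ℝ) ≤ Real.log X)
  have hb := hM (X / Real.log X) h4
  have hXlog : X / Real.log X ≤ X := div_le_self (by linarith) (by linarith)
  have hl : Real.log (X / Real.log X) ≤ Real.log X := Real.log_le_log (by linarith) hXlog
  have hl0 : 0 ≤ Real.log (X / Real.log X) := Real.log_nonneg hY1
  have hLpos : 0 < Real.log X := by linarith
  have hMd : 4 * M ≤ δ * Real.log X := by
    rw [div_le_iff₀ hδ] at h5
    linarith
  have hMX : 4 * M ≤ δ * X := by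
    rw [div_le_iff₀ hδ] at h6
    linarith
  have hb1 : M * (X / Real.log X * (Real.log (X / Real.log X)) ^ 4) ≤
      δ / 4 * (X * (Real.log X) ^ 4) := by
    calc M * (X / Real.log X * (Real.log (X / Real.log X)) ^ 4)
        ≤ M * (X / Real.log X * (Real.log X) ^ 4) := by
          apply mul_le_mul_of_nonneg_left _ hM0
          apply mul_le_mul_of_nonneg_left (pow_le_pow_left₀ hl0 hl 4) (by linarith)
      _ = (M / Real.log X) * (X * (Real.log X) ^ 4) := by
          field_simp
      _ ≤ δ / 4 * (X * (Real.log X) ^ 4) := by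
          apply mul_le_mul_of_nonneg_right _ (by positivity)
          rw [div_le_iff₀ hLpos]
          linarith
  have hb2 : M ≤ δ / 4 * (X * (Real.log X) ^ 4) := by
    have hp : (1 : ℝ) ≤ (Real.log X) ^ 4 := one_le_pow₀ (by linarith)
    have : δ / 4 * X * 1 ≤ δ / 4 * X * (Real.log X) ^ 4 :=
      mul_le_mul_of_nonneg_left hp (by positivity)
    nlinarith
  calc DS h 0 ⌊X⌋₊ = DS h 0 ⌊X / Real.log X⌋₊ + DS h ⌊X / Real.log X⌋₊ ⌊X⌋₊ := hst
    _ ≤ (M * (X / Real.log X * (Real.log (X / Real.log X)) ^ 4) + M) +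
        (E + δ / 2) * (X * (Real.log X) ^ 4) := add_le_add hb h1
    _ ≤ (E + δ) * (X * (Real.log X) ^ 4) := by nlinarith

end Pool.Agent.Work.MP_122e00_nt.Hyb
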