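import Pool.Agent.Work.MP_122e00_nt.Hyb.ItemC1b
import Pool.Agent.Work.MP_122e00_nt.Hyb.ItemC1c
import Pool.Agent.Work.MP_122e00_nt.Hyb.ItemC0
import Pool.Agent.Work.MP_122e00_nt.Hyb.ItemC1a
import Pool.Agent.Work.MP_122e00_nt.Hyb.ItemC1s
import Pool.Agent.Work.MP_122e00_nt.Hyb.ItemC2
import Pool.Agent.Work.MP_122e00_nt.Hyb.C3a
import Pool.Agent.Work.MP_122e00_nt.Hyb.C3b
import Pool.Agent.Work.MP_122e00_nt.Hyb.ItemS6
import Pool.Agent.Work.MP_122e00_nt.Euler4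

set_option autoImplicit false

/-!
# The hybrid block scheme: assembly
-/

namespace Pool.Agent.Work.MP_122e00_nt.Hyb

open Finset Filter Topology MeasureTheory

open scoped ENNReal

theorem prfC1 (hb : claimC1b) (hc : claimC1c) : claimC1 := by
  intro th c h0 h1 hcc K
  rw [Finset.sum_range_succ', add_comm]
  exact add_le_add (hb th c h0 h1 hcc) (hc th c h0 h1 hcc K)

theorem prfC3 : claimC3 := by
  unfold claimC3
  refine lt_of_le_of_lt (add_le_add prfC3a prfC3b) ?_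
  rw [← ENNReal.ofReal_add (by norm_num) (by norm_num)]
  rw [ENNReal.ofReal_lt_ofReal_iff (by norm_num)]
  norm_num

/-- The sum of the limits for small `th`. -/
theorem exists_th (h1 : claimC1) (h2 : claimC2) : ∃ th : ℝ, 0 < th ∧ th ≤ 1 / 100 ∧
    ∀ K : ℕ, ∑ k ∈ Finset.range (K + 1), IF th (1 / 4 + 2 * th) k ≤ 19 / 72 := by
  have ev1 : ∀ᶠ th : ℝ in 𝓝[>] 0, J0 th (1 / 4 + 2 * th) + J1 th (1 / 4 + 2 * th) <
      ENNReal.ofReal (19 / 72) := h2.eventually (Iio_mem_nhds prfC3)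
  have ev2 : ∀ᶠ th : ℝ in 𝓝[>] 0, 0 < th ∧ th ≤ 1 / 100 := by
    have h1 : ∀ᶠ th in 𝓝[>] (0:ℝ), th < 1 / 100 :=
      (eventually_lt_nhds (by norm_num)).filter_mono nhdsWithin_le_nhds
    filter_upwards [self_mem_nhdsWithin, h1] with th t1 t2
    exact ⟨t1, t2.le⟩
  obtain ⟨th, hth, h0, h01⟩ := (ev1.and ev2).exists
  refine ⟨th, h0, h01, fun K => ?_⟩
  have h3 := (h1 th _ h0 h01 rfl K).trans hth.le
  have h4 : ∑ k ∈ Finset.range (K + 1), IF th (1 / 4 + 2 * th) k ≤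
      (∑ k ∈ Finset.range (K + 1), ENNReal.ofReal (IF th (1 / 4 + 2 * th) k)).toReal := by
    rw [ENNReal.toReal_sum fun k _ => ENNReal.ofReal_ne_top]
    refine Finset.sum_le_sum fun k _ => ?_
    rw [ENNReal.toReal_ofReal']
    exact le_max_left _ _
  refine h4.trans ?_
  have h5 := ENNReal.toReal_mono ENNReal.ofReal_ne_top h3
  rwa [ENNReal.toReal_ofReal (by norm_num)] at h5

theorem prfFinal (h1 : claimC1) (h2 : claimC2) (h5 : claimS5) (h6 : claimS6) : claimFinal := by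
  intro h hh c hc
  obtain ⟨th, t0, t1, hI⟩ := exists_th h1 h2
  have hpos : 0 < Csing 2 h := Csing_pos (by norm_num) h hh
  set q : ℝ := (1 / 2 - th) ^ 2 / 2 with hq
  have hq0 : 0 ≤ q := by positivity
  have hq1 : q ≤ 1 / 8 := by
    rw [hq]
    nlinarith
  have hE : 3 * q - 9 * q ^ 2 + 3 * q * (19 / 72) ≤ 1 / 3 := by
    nlinarith
  have hE0 : 0 ≤ 3 * q - 9 * q ^ 2 + 3 * q * (19 / 72) := by
    nlinarith
  have h7 := h6 h (Csing 2 h * (3 * q - 9 * q ^ 2 + 3 * q * (19 / 72)))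
    (mul_nonneg hpos.le hE0)
    (fun δ hδ => h5 h hh th _ t0 t1 rfl (19 / 72) (by norm_num) hI δ hδ)
    (c - Csing 2 h / 3) (by linarith)
  filter_upwards [h7, eventually_ge_atTop (1 : ℝ)] with X hX hX1
  refine hX.trans ?_
  refine mul_le_mul_of_nonneg_right ?_ ?_
  · have : Csing 2 h * (3 * q - 9 * q ^ 2 + 3 * q * (19 / 72)) ≤ Csing 2 h * (1 / 3) :=
      mul_le_mul_of_nonneg_left hE hpos.le
    linarith
  · have := Real.log_nonneg hX1
    positivity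

end Pool.Agent.Work.MP_122e00_nt.Hyb
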