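import Pool.Agent.Work.MP_122e00_nt.Hyb.Closed

set_option autoImplicit false

/-!
# Reduction to a chamber
-/

namespace Pool.Agent.Work.MP_122e00_nt.Hyb

open Finset Filter Topology MeasureTheory

open scoped ENNReal

namespace Cl

open Chamber

def e0 : Fin 5 → ℝ := ![1, 0, 0, 0, 0]
def e1 : Fin 5 → ℝ := ![0, 1, 0, 0, 0]
def e2 : Fin 5 → ℝ := ![0, 0, 1, 0, 0]
def e3 : Fin 5 → ℝ := ![0, 0, 0, 1, 0]
def e4 : Fin 5 → ℝ := ![0, 0, 0, 0, 1]
noncomputable def e34 : Fin 5 → ℝ := ![0, 0, 0, 1 / 2, 1 / 2]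
noncomputable def e24 : Fin 5 → ℝ := ![0, 0, 1 / 2, 0, 1 / 2]
noncomputable def e23 : Fin 5 → ℝ := ![0, 0, 1 / 2, 1 / 2, 0]
noncomputable def e234 : Fin 5 → ℝ := ![0, 0, 1 / 3, 1 / 3, 1 / 3]

theorem std_eq : std 4 = V5 e0 e1 e2 e3 e4 := by
  apply V5_ext <;>
    (funext q; fin_cases q <;> simp [std, V5, e0, e1, e2, e3, e4, Fin.ext_iff])

theorem bar5 (a b c d e : Fin 5 → ℝ) (y : Fin 4 → ℝ) (q : Fin 5) : bar (V5 a b c d e) y q =
    y 0 * a q + y 1 * b q + y 2 * c q + y 3 * d q + (1 - (y 0 + y 1 + y 2 + y 3)) * e q := by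
  simp only [bar, Fin.sum_univ_four, Pi.add_apply, Pi.smul_apply, smul_eq_mul]
  rfl

theorem bar_std (y : Fin 4 → ℝ) : bar (std 4) y =
    ![y 0, y 1, y 2, y 3, 1 - (y 0 + y 1 + y 2 + y 3)] := by
  rw [std_eq]
  funext q
  rw [bar5]
  fin_cases q <;> simp [e0, e1, e2, e3, e4]

theorem null (c : Fin 4 → ℝ) (b : ℝ) (hc : c ≠ 0) : ∀ᵐ y : Fin 4 → ℝ, ∑ i, c i * y i ≠ b := by
  have h := Two.prfL6 (Fin 4) c b hc
  rw [ae_iff]
  simpa using h

theorem ne4 (a b c d : ℝ) (h : d ≠ 0 ∨ a ≠ 0) : (![a, b, c, d] : Fin 4 → ℝ) ≠ 0 := by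
  intro h'
  rcases h with h | h
  · exact h (by simpa using congrFun h' 3)
  · exact h (by simpa using congrFun h' 0)

theorem J1_ae : J1 0 (1 / 4) = EV (std 4) GC := by
  unfold J1 EV
  refine setLIntegral_congr_fun_ae (measurableSet_T _) ?_
  have h1 := null ![0, 1, 1, -1] 0 (ne4 _ _ _ _ (Or.inl (by norm_num)))
  have h2 := null ![1, 2, 2, 1] 1 (ne4 _ _ _ _ (Or.inl (by norm_num)))
  have h3 := null ![0, 1, -1, 1] 0 (ne4 _ _ _ _ (Or.inl (by norm_num)))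
  have h4 := null ![1, 2, 1, 2] 1 (ne4 _ _ _ _ (Or.inl (by norm_num)))
  have h5 := null ![1, 0, 2, 1] 1 (ne4 _ _ _ _ (Or.inl (by norm_num)))
  have h6 := null ![1, 0, 1, 2] 1 (ne4 _ _ _ _ (Or.inl (by norm_num)))
  filter_upwards [h1, h2, h3, h4, h5, h6] with y h1 h2 h3 h4 h5 h6 _
  unfold GC
  congr 1
  apply H1_eq
  rw [bar_std]
  simp only [Fin.sum_univ_four] at h1 h2 h3 h4 h5 h6
  intro j q hjq
  fin_cases j <;> fin_cases q <;>
    simp at hjq h1 h2 h3 h4 h5 h6 ⊢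
  · intro h; apply h1; linarith
  · intro h; apply h2; linarith
  · intro h; apply h3; linarith
  · intro h; apply h4; linarith
  · intro h; apply h5; linarith
  · intro h; apply h6; linarith

/-! ### the chamber -/

theorem EV5_swap (i : Fin 4) (V W : Option (Fin 4) → Fin 5 → ℝ)
    (h : W = V ∘ Equiv.swap none (some i)) : EV V GC = EV W GC := by
  rw [h]
  exact EV_swap V GC meas_GC i

theorem half_add (x : ℝ≥0∞) : ENNReal.ofReal (1 / 2) * x + ENNReal.ofReal (1 - 1 / 2) * x = x := by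
  rw [← add_mul, ← ENNReal.ofReal_add (by norm_num) (by norm_num)]
  norm_num

theorem third_add (x : ℝ≥0∞) : ENNReal.ofReal (1 / 3) * x + ENNReal.ofReal (1 - 1 / 3) * x = x := by
  rw [← add_mul, ← ENNReal.ofReal_add (by norm_num) (by norm_num)]
  norm_num

theorem s34 (a b c d e : Fin 5 → ℝ) : EV (V5 a b c d e) GC =
    EV (V5 (a ∘ Equiv.swap 3 4) (b ∘ Equiv.swap 3 4) (c ∘ Equiv.swap 3 4) (d ∘ Equiv.swap 3 4)
      (e ∘ Equiv.swap 3 4)) GC := by
  rw [EV_symm (Equiv.swap 3 4) GC (fun p => by unfold GC; rw [HC_swap34])]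
  congr 1
  apply V5_ext <;> rfl

theorem s23 (a b c d e : Fin 5 → ℝ) : EV (V5 a b c d e) GC =
    EV (V5 (a ∘ Equiv.swap 2 3) (b ∘ Equiv.swap 2 3) (c ∘ Equiv.swap 2 3) (d ∘ Equiv.swap 2 3)
      (e ∘ Equiv.swap 2 3)) GC := by
  rw [EV_symm (Equiv.swap 2 3) GC (fun p => by unfold GC; rw [HC_swap23])]
  congr 1
  apply V5_ext <;> rfl

theorem w3 (a b c d e : Fin 5 → ℝ) : EV (V5 a b c d e) GC = EV (V5 a b c e d) GC := by
  apply EV5_swap 3
  apply V5_ext <;> simp [V5, Equiv.swap_apply_def, Function.comp]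

theorem w2 (a b c d e : Fin 5 → ℝ) : EV (V5 a b c d e) GC = EV (V5 a b e d c) GC := by
  apply EV5_swap 2
  apply V5_ext <;> simp [V5, Equiv.swap_apply_def, Function.comp]

theorem cut3n (a b c d e w : Fin 5 → ℝ) (hw : w = (1 / 2 : ℝ) • d + (1 - 1 / 2 : ℝ) • e) :
    EV (V5 a b c d e) GC = ENNReal.ofReal (1 / 2) * EV (V5 a b c w e) GC +
      ENNReal.ofReal (1 - 1 / 2) * EV (V5 a b c d w) GC := by
  rw [EV_bisect (V5 a b c d e) GC meas_GC (some 3) none (by simp) (1 / 2) (by norm_num)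
    (by norm_num)]
  have h1 : Function.update (V5 a b c d e) (some 3)
      ((1 / 2 : ℝ) • V5 a b c d e (some 3) + (1 - 1 / 2 : ℝ) • V5 a b c d e none) =
      V5 a b c w e := by
    apply V5_ext <;> simp [V5, hw]
  have h2 : Function.update (V5 a b c d e) none
      ((1 / 2 : ℝ) • V5 a b c d e (some 3) + (1 - 1 / 2 : ℝ) • V5 a b c d e none) =
      V5 a b c d w := by
    apply V5_ext <;> simp [V5, hw]
  rw [h1, h2]

theorem cut2n (a b c d e w : Fin 5 → ℝ) (hw : w = (1 / 3 : ℝ) • c + (1 - 1 / 3 : ℝ) • e) :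
    EV (V5 a b c d e) GC = ENNReal.ofReal (1 / 3) * EV (V5 a b w d e) GC +
      ENNReal.ofReal (1 - 1 / 3) * EV (V5 a b c d w) GC := by
  rw [EV_bisect (V5 a b c d e) GC meas_GC (some 2) none (by simp) (1 / 3) (by norm_num)
    (by norm_num)]
  have h1 : Function.update (V5 a b c d e) (some 2)
      ((1 / 3 : ℝ) • V5 a b c d e (some 2) + (1 - 1 / 3 : ℝ) • V5 a b c d e none) =
      V5 a b w d e := by
    apply V5_ext <;> simp [V5, hw]
  have h2 : Function.update (V5 a b c d e) none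
      ((1 / 3 : ℝ) • V5 a b c d e (some 2) + (1 - 1 / 3 : ℝ) • V5 a b c d e none) =
      V5 a b c d w := by
    apply V5_ext <;> simp [V5, hw]
  rw [h1, h2]

theorem cut23 (a b c d e w : Fin 5 → ℝ) (hw : w = (1 / 2 : ℝ) • c + (1 - 1 / 2 : ℝ) • d) :
    EV (V5 a b c d e) GC = ENNReal.ofReal (1 / 2) * EV (V5 a b w d e) GC +
      ENNReal.ofReal (1 - 1 / 2) * EV (V5 a b c w e) GC := by
  rw [EV_bisect (V5 a b c d e) GC meas_GC (some 2) (some 3) (by simp) (1 / 2) (by norm_num)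
    (by norm_num)]
  have h1 : Function.update (V5 a b c d e) (some 2)
      ((1 / 2 : ℝ) • V5 a b c d e (some 2) + (1 - 1 / 2 : ℝ) • V5 a b c d e (some 3)) =
      V5 a b w d e := by
    apply V5_ext <;> simp [V5, hw]
  have h2 : Function.update (V5 a b c d e) (some 3)
      ((1 / 2 : ℝ) • V5 a b c d e (some 2) + (1 - 1 / 2 : ℝ) • V5 a b c d e (some 3)) =
      V5 a b c w e := by
    apply V5_ext <;> simp [V5, hw]
  rw [h1, h2]

theorem vec_ext (v w : Fin 5 → ℝ) (h0 : v 0 = w 0) (h1 : v 1 = w 1) (h2 : v 2 = w 2)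
    (h3 : v 3 = w 3) (h4 : v 4 = w 4) : v = w := by
  funext q
  fin_cases q
  · exact h0
  · exact h1
  · exact h2
  · exact h3
  · exact h4

theorem step1 : EV (V5 e0 e1 e2 e3 e4) GC = EV (V5 e0 e1 e2 e3 e34) GC := by
  rw [cut3n e0 e1 e2 e3 e4 e34 (by
    apply vec_ext <;> simp [e3, e4, e34] <;> norm_num)]
  have h : EV (V5 e0 e1 e2 e34 e4) GC = EV (V5 e0 e1 e2 e3 e34) GC := by
    rw [s34, w3]
    congr 1
    apply V5_ext <;> apply vec_ext <;>
      simp [V5, e0, e1, e2, e3, e4, e34, Equiv.swap_apply_def, Function.comp]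
  rw [h, half_add]

theorem step2 : EV (V5 e0 e1 e2 e3 e234) GC = EV (V5 e0 e1 e2 e23 e234) GC := by
  rw [cut23 e0 e1 e2 e3 e234 e23 (by
    apply vec_ext <;> simp [e2, e3, e23] <;> norm_num)]
  have h : EV (V5 e0 e1 e23 e3 e234) GC = EV (V5 e0 e1 e2 e23 e234) GC := by
    rw [s23, w2, w3, w2]
    congr 1
    apply V5_ext <;> apply vec_ext <;>
      simp [V5, e0, e1, e2, e3, e23, e234, Equiv.swap_apply_def, Function.comp]
  rw [h, half_add]

theorem step3 : EV (V5 e0 e1 e2 e3 e34) GC = EV (V5 e0 e1 e2 e23 e234) GC := by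
  rw [cut2n e0 e1 e2 e3 e34 e234 (by
    apply vec_ext <;> simp [e2, e34, e234] <;> norm_num), step2]
  have h : EV (V5 e0 e1 e234 e3 e34) GC = EV (V5 e0 e1 e2 e23 e234) GC := by
    rw [s23, s34, w2, w3, w2, w3]
    congr 1
    apply V5_ext <;> apply vec_ext <;>
      simp [V5, e0, e1, e2, e3, e23, e234, e34, Equiv.swap_apply_def, Function.comp]
  rw [h, third_add]

/-- The integral over the cells with a block, on the chamber. -/
theorem J1_eq : J1 0 (1 / 4) = EV (V5 e0 e1 e2 e23 e234) GC := by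
  rw [J1_ae, std_eq, step1, step3]

end Cl

end Pool.Agent.Work.MP_122e00_nt.Hyb
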