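import Pool.Agent.Work.MP_122e00_nt.Hyb.Stmts

set_option autoImplicit false

/-!
# C1m: measurability
-/

namespace Pool.Agent.Work.MP_122e00_nt.Hyb

open Finset Filter Topology MeasureTheory

open scoped ENNReal

namespace IC1m

variable {α : Type} [MeasurableSpace α]

theorem meas_ad (a : α → Fin 3 → ℝ) (b : α → ℝ) (ha : Measurable a) (hb : Measurable b)
    (i : Fin 3) : Measurable (fun p => ad (a p) i (b p)) := by
  rw [measurable_pi_iff]
  intro q
  unfold ad
  have h1 : Measurable (fun p => a p q) := (measurable_pi_apply q).comp ha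
  by_cases h : q = i
  · simp only [h, if_true]
    rw [h] at h1
    exact h1.add hb
  · simp only [h, if_false]
    exact h1

theorem meas_am (a : α → Fin 3 → ℝ) (ha : Measurable a) (j : Fin 3) :
    MeasurableSet {p | am (a p) j} := by
  have h1 : ∀ q, Measurable (fun p => a p q) := fun q => (measurable_pi_apply q).comp ha
  have h2 : {p | am (a p) j} = ⋂ q, ({p | a p q < a p j} ∪ ({p | a p q = a p j} ∩ {_p | j ≤ q})) := by
    ext p
    simp [am]
  rw [h2]
  refine MeasurableSet.iInter fun q => ?_
  exact (measurableSet_lt (h1 q) (h1 j)).union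
    ((measurableSet_eq_fun (h1 q) (h1 j)).inter (MeasurableSet.const _))

theorem meas_Gd (th : ℝ) (a : α → Fin 3 → ℝ) (ha : Measurable a) :
    MeasurableSet {p | Gd th (a p)} := by
  have h1 : ∀ q, Measurable (fun p => a p q) := fun q => (measurable_pi_apply q).comp ha
  have h2 : {p | Gd th (a p)} = ⋃ i, {p | (∑ q, a p q) - a p i ≤ 1 / 2 - th} := by
    ext p
    simp [Gd]
  rw [h2]
  refine MeasurableSet.iUnion fun i => ?_
  exact measurableSet_le ((Finset.measurable_sum _ fun q _ => h1 q).sub (h1 i)) measurable_const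

theorem meas_gi (th : ℝ) (a : α → Fin 3 → ℝ) (ha : Measurable a) :
    Measurable (fun p => gi th (a p)) := by
  unfold gi
  exact Measurable.ite (meas_Gd th a ha) measurable_const measurable_const

theorem meas_bi (th : ℝ) (a : α → Fin 3 → ℝ) (ha : Measurable a) :
    Measurable (fun p => bi th (a p)) := by
  unfold bi
  exact Measurable.ite (meas_Gd th a ha) measurable_const measurable_const

theorem meas_nb (th : ℝ) (x D : α → ℝ) (a : α → Fin 3 → ℝ) (hx : Measurable x)
    (hD : Measurable D) (ha : Measurable a) (j : Fin 3) :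
    Measurable (fun p => nb th (x p) (D p) (a p) j) := by
  unfold nb
  exact Finset.measurable_sum _ fun i _ =>
    meas_bi th _ (meas_ad _ _ (meas_ad _ _ ha hD j) hx i)

theorem meas_ng (th : ℝ) (x D : α → ℝ) (a : α → Fin 3 → ℝ) (hx : Measurable x)
    (hD : Measurable D) (ha : Measurable a) (j : Fin 3) :
    Measurable (fun p => ng th (x p) (D p) (a p) j) := by
  unfold ng
  exact Finset.measurable_sum _ fun i _ =>
    meas_gi th _ (meas_ad _ _ (meas_ad _ _ ha hD j) hx i)

theorem meas_bt (th : ℝ) (x D : α → ℝ) (a : α → Fin 3 → ℝ) (hx : Measurable x)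
    (hD : Measurable D) (ha : Measurable a) :
    Measurable (fun p => bt th (x p) (D p) (a p)) := by
  unfold bt
  exact Finset.measurable_sum _ fun j _ =>
    Measurable.ite (meas_am _ (meas_ad _ _ ha hD j) j) (meas_nb th x D a hx hD ha j)
      measurable_const

theorem meas_gt (th : ℝ) (x D : α → ℝ) (a : α → Fin 3 → ℝ) (hx : Measurable x)
    (hD : Measurable D) (ha : Measurable a) :
    Measurable (fun p => gt th (x p) (D p) (a p)) := by
  unfold gt
  exact Finset.measurable_sum _ fun j _ =>
    Measurable.ite (meas_am _ (meas_ad _ _ ha hD j) j) (meas_ng th x D a hx hD ha j)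
      measurable_const

theorem meas_cf (th : ℝ) (x D : α → ℝ) (a : α → Fin 3 → ℝ) (hx : Measurable x)
    (hD : Measurable D) (ha : Measurable a) (i j : Fin 3) :
    Measurable (fun p => cf th (x p) (D p) (a p) i j) := by
  unfold cf
  refine Measurable.ite ?_ ?_ measurable_const
  · exact (meas_am _ (meas_ad _ _ ha hD i) i).inter (meas_am _ (meas_ad _ _ ha hD j) j)
  · exact (((meas_bt th x D a hx hD ha).mul (meas_nb th x D a hx hD ha i)).mul
      (meas_ng th x D a hx hD ha j)).div ((meas_gt th x D a hx hD ha).pow_const 2)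

theorem meas_hh (ui uj e : α → ℝ) (hi : Measurable ui) (hj : Measurable uj)
    (he : Measurable e) : Measurable (fun p => hh (ui p) (uj p) (e p)) := by
  unfold hh
  have h1 : Measurable (fun p => ui p * (ui p - e p)) := hi.mul (hi.sub he)
  exact (hj.div h1).mul (((hj.sub hi).mul he).div h1).exp

theorem meas_vec (p0 p1 p2 : α → ℝ) (h0 : Measurable p0) (h1 : Measurable p1)
    (h2 : Measurable p2) : Measurable (fun p => ![p0 p, p1 p, p2 p]) := by
  rw [measurable_pi_iff]
  intro q
  fin_cases q
  · exact h0
  · exact h1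
  · exact h2

end IC1m

open IC1m in
theorem prfC1m : claimC1m := by
  have hm : ∀ {n : ℕ} (q : Fin n), Measurable (fun p : Fin n → ℝ => p q) :=
    fun q => measurable_pi_apply q
  have h1 : ∀ (th : ℝ) (i j : Fin 3),
      Measurable (fun p : Fin 5 → ℝ => cf th (p 0) (p 1) ![p 2, p 3, p 4] i j) := fun th i j =>
    meas_cf th _ _ _ (hm 0) (hm 1) (meas_vec _ _ _ (hm 2) (hm 3) (hm 4)) i j
  refine ⟨h1, ?_, ?_⟩
  · intro th c
    unfold H1
    refine Measurable.ite ?_ ?_ measurable_const
    · exact (measurableSet_lt (hm 0) measurable_const).inter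
        (measurableSet_le measurable_const ((hm 0).add (hm 1)))
    · refine Finset.measurable_sum _ fun i _ => Finset.measurable_sum _ fun j _ => ?_
      refine (h1 th i j).mul (meas_hh _ _ _ ?_ ?_ (measurable_const.sub (hm 0)))
      · exact ((measurable_pi_apply i).comp (meas_vec _ _ _ (hm 2) (hm 3) (hm 4))).add (hm 1)
      · exact ((measurable_pi_apply j).comp (meas_vec _ _ _ (hm 2) (hm 3) (hm 4))).add (hm 1)
  · intro th c
    unfold H0
    refine Measurable.ite (measurableSet_le measurable_const (hm 0)) ?_ measurable_const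
    exact ((meas_nb th _ _ _ (hm 0) measurable_const
      (meas_vec _ _ _ (hm 1) (hm 2) (hm 3)) 0).pow_const 2).div
      (meas_ng th _ _ _ (hm 0) measurable_const (meas_vec _ _ _ (hm 1) (hm 2) (hm 3)) 0)

end Pool.Agent.Work.MP_122e00_nt.Hyb
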