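import Pool.Agent.Work.MP_122e00_nt.Hyb.Stmts
import Pool.Agent.Work.MP_122e00_nt.Hyb.ItemC1m
import Pool.Agent.Work.MP_122e00_nt.Bd.B40

set_option autoImplicit false

/-!
# The symmetric version of the integrand for the cells with a block
-/

namespace Pool.Agent.Work.MP_122e00_nt.Hyb

open Finset Filter Topology MeasureTheory

open scoped ENNReal

namespace Cl

theorem ite_cg (P Q : Prop) (dp : Decidable P) (dq : Decidable Q) (a b c : ℝ) (h : P ↔ Q)
    (hab : a = b) : @ite _ P dp a c = @ite _ Q dq b c := by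
  by_cases hP : P
  · rw [if_pos hP, if_pos (h.1 hP), hab]
  · rw [if_neg hP, if_neg fun hQ => hP (h.2 hQ)]

/-- Part `j` is a largest one. -/
def amc (w : Fin 3 → ℝ) (j : Fin 3) : Prop := ∀ q, w q ≤ w j

open Classical in
/-- Number of bad positions, block on `j`. -/
noncomputable def bb (x D : ℝ) (v : Fin 3 → ℝ) (j : Fin 3) : ℝ :=
  if amc (ad v j D) j then nb 0 x D v j else 0

open Classical in
/-- Number of good positions, block on `j`. -/
noncomputable def gg (x D : ℝ) (v : Fin 3 → ℝ) (j : Fin 3) : ℝ :=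
  if amc (ad v j D) j then ng 0 x D v j else 0

/-- The value. -/
noncomputable def HV (x D : ℝ) (v : Fin 3 → ℝ) : ℝ :=
  (∑ j, bb x D v j) / (∑ j, gg x D v j) ^ 2 *
    ∑ i, ∑ j, bb x D v i * gg x D v j * hh (v i + D) (v j + D) (1 / 4 - x)

open Classical in
/-- The integrand. -/
noncomputable def HC (p : Fin 5 → ℝ) : ℝ :=
  if p 0 < 1 / 4 ∧ 1 / 4 ≤ p 0 + p 1 then HV (p 0) (p 1) ![p 2, p 3, p 4] else 0

theorem am_iff (v : Fin 3 → ℝ) (D : ℝ) (j : Fin 3) (h : ∀ q, q ≠ j → v j + D ≠ v q) :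
    am (ad v j D) j ↔ amc (ad v j D) j := by
  unfold am amc ad
  constructor
  · intro H q
    rcases H q with h1 | h1
    · exact h1.le
    · exact h1.1.le
  · intro H q
    by_cases hq : q = j
    · right
      subst hq
      exact ⟨rfl, le_rfl⟩
    · left
      have h1 := H q
      simp only [hq, if_false, if_true] at h1 ⊢
      exact lt_of_le_of_ne h1 fun h2 => h q hq h2.symm

theorem H1_eq (p : Fin 5 → ℝ)
    (h : ∀ j q : Fin 3, q ≠ j → ![p 2, p 3, p 4] j + p 1 ≠ ![p 2, p 3, p 4] q) :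
    H1 0 (1 / 4) p = HC p := by
  unfold H1 HC HV
  have e : ∀ j, am (ad ![p 2, p 3, p 4] j (p 1)) j ↔ amc (ad ![p 2, p 3, p 4] j (p 1)) j :=
    fun j => am_iff _ _ j (h j)
  set v : Fin 3 → ℝ := ![p 2, p 3, p 4] with hv
  have eb : bt 0 (p 0) (p 1) v = ∑ j, bb (p 0) (p 1) v j := by
    unfold bt bb
    exact Finset.sum_congr rfl fun j _ => ite_cg _ _ _ _ _ _ _ (e j) rfl
  have eg : gt 0 (p 0) (p 1) v = ∑ j, gg (p 0) (p 1) v j := by
    unfold gt gg
    exact Finset.sum_congr rfl fun j _ => ite_cg _ _ _ _ _ _ _ (e j) rfl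
  have ec : ∀ i j, cf 0 (p 0) (p 1) v i j = (∑ j, bb (p 0) (p 1) v j) /
      (∑ j, gg (p 0) (p 1) v j) ^ 2 * (bb (p 0) (p 1) v i * gg (p 0) (p 1) v j) := by
    intro i j
    unfold cf
    rw [eb, eg]
    by_cases hi : amc (ad v i (p 1)) i
    · by_cases hj : amc (ad v j (p 1)) j
      · have h1 : bb (p 0) (p 1) v i = nb 0 (p 0) (p 1) v i := if_pos hi
        have h2 : gg (p 0) (p 1) v j = ng 0 (p 0) (p 1) v j := if_pos hj
        rw [if_pos ⟨(e i).2 hi, (e j).2 hj⟩, h1, h2]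
        ring
      · have h2 : gg (p 0) (p 1) v j = 0 := if_neg hj
        rw [if_neg fun h' => hj ((e j).1 h'.2), h2]
        ring
    · have h1 : bb (p 0) (p 1) v i = 0 := if_neg hi
      rw [if_neg fun h' => hi ((e i).1 h'.1), h1]
      ring
  split_ifs with hc
  · rw [Finset.mul_sum]
    refine Finset.sum_congr rfl fun i _ => ?_
    rw [Finset.mul_sum]
    refine Finset.sum_congr rfl fun j _ => ?_
    rw [ec]
    ring
  · rfl

/-! ### symmetry -/

theorem ad_comp (v : Fin 3 → ℝ) (σ : Equiv.Perm (Fin 3)) (j : Fin 3) (t : ℝ) :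
    ad (v ∘ σ) j t = ad v (σ j) t ∘ σ := by
  funext q
  unfold ad
  simp only [Function.comp, EmbeddingLike.apply_eq_iff_eq]

theorem amc_comp (w : Fin 3 → ℝ) (σ : Equiv.Perm (Fin 3)) (j : Fin 3) :
    amc (w ∘ σ) j ↔ amc w (σ j) := by
  unfold amc
  constructor
  · intro h q
    have := h (σ.symm q)
    simpa using this
  · intro h q
    exact h (σ q)

theorem Gd_comp (w : Fin 3 → ℝ) (σ : Equiv.Perm (Fin 3)) : Gd 0 (w ∘ σ) ↔ Gd 0 w := by
  unfold Gd
  have h1 : ∑ q, (w ∘ σ) q = ∑ q, w q := Equiv.sum_comp σ w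
  rw [h1]
  constructor
  · rintro ⟨i, hi⟩
    exact ⟨σ i, hi⟩
  · rintro ⟨i, hi⟩
    exact ⟨σ.symm i, by simpa using hi⟩

theorem nb_comp (x D : ℝ) (v : Fin 3 → ℝ) (σ : Equiv.Perm (Fin 3)) (j : Fin 3) :
    nb 0 x D (v ∘ σ) j = nb 0 x D v (σ j) := by
  unfold nb
  rw [← Equiv.sum_comp σ (fun i => bi 0 (ad (ad v (σ j) D) i x))]
  refine Finset.sum_congr rfl fun i _ => ?_
  rw [ad_comp, ad_comp]
  unfold bi
  exact ite_cg _ _ _ _ _ _ _ (Gd_comp _ _) rfl

theorem ng_comp (x D : ℝ) (v : Fin 3 → ℝ) (σ : Equiv.Perm (Fin 3)) (j : Fin 3) :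
    ng 0 x D (v ∘ σ) j = ng 0 x D v (σ j) := by
  unfold ng
  rw [← Equiv.sum_comp σ (fun i => gi 0 (ad (ad v (σ j) D) i x))]
  refine Finset.sum_congr rfl fun i _ => ?_
  rw [ad_comp, ad_comp]
  unfold gi
  exact ite_cg _ _ _ _ _ _ _ (Gd_comp _ _) rfl

theorem bb_comp (x D : ℝ) (v : Fin 3 → ℝ) (σ : Equiv.Perm (Fin 3)) (j : Fin 3) :
    bb x D (v ∘ σ) j = bb x D v (σ j) := by
  unfold bb
  rw [ad_comp]
  exact ite_cg _ _ _ _ _ _ _ (amc_comp _ _ _) (nb_comp _ _ _ _ _)

theorem gg_comp (x D : ℝ) (v : Fin 3 → ℝ) (σ : Equiv.Perm (Fin 3)) (j : Fin 3) :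
    gg x D (v ∘ σ) j = gg x D v (σ j) := by
  unfold gg
  rw [ad_comp]
  exact ite_cg _ _ _ _ _ _ _ (amc_comp _ _ _) (ng_comp _ _ _ _ _)

theorem HV_comp (x D : ℝ) (v : Fin 3 → ℝ) (σ : Equiv.Perm (Fin 3)) :
    HV x D (v ∘ σ) = HV x D v := by
  unfold HV
  simp only [bb_comp, gg_comp]
  rw [Equiv.sum_comp σ (fun j => bb x D v j), Equiv.sum_comp σ (fun j => gg x D v j)]
  congr 1
  rw [← Equiv.sum_comp σ (fun i => ∑ j, bb x D v i * gg x D v j *
    hh (v i + D) (v j + D) (1 / 4 - x))]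
  refine Finset.sum_congr rfl fun i _ => ?_
  exact Equiv.sum_comp σ (fun j => bb x D v (σ i) * gg x D v j *
    hh (v (σ i) + D) (v j + D) (1 / 4 - x))

theorem HC_swap34 (p : Fin 5 → ℝ) : HC (p ∘ Equiv.swap 3 4) = HC p := by
  unfold HC
  have e : ![(p ∘ Equiv.swap 3 4) 2, (p ∘ Equiv.swap 3 4) 3, (p ∘ Equiv.swap 3 4) 4] =
      ![p 2, p 3, p 4] ∘ (Equiv.swap (1 : Fin 3) 2) := by
    funext q
    fin_cases q
    · simp [Function.comp, Equiv.swap_apply_def]
    · simp [Function.comp, Equiv.swap_apply_def]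
    · simp [Function.comp, Equiv.swap_apply_def]
  have e0 : (p ∘ Equiv.swap 3 4) 0 = p 0 := by simp [Function.comp, Equiv.swap_apply_def]
  have e1 : (p ∘ Equiv.swap 3 4) 1 = p 1 := by simp [Function.comp, Equiv.swap_apply_def]
  rw [e, HV_comp, e0, e1]

theorem HC_swap23 (p : Fin 5 → ℝ) : HC (p ∘ Equiv.swap 2 3) = HC p := by
  unfold HC
  have e : ![(p ∘ Equiv.swap 2 3) 2, (p ∘ Equiv.swap 2 3) 3, (p ∘ Equiv.swap 2 3) 4] =
      ![p 2, p 3, p 4] ∘ (Equiv.swap (0 : Fin 3) 1) := by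
    funext q
    fin_cases q
    · simp [Function.comp, Equiv.swap_apply_def]
    · simp [Function.comp, Equiv.swap_apply_def]
    · simp [Function.comp, Equiv.swap_apply_def]
  have e0 : (p ∘ Equiv.swap 2 3) 0 = p 0 := by simp [Function.comp, Equiv.swap_apply_def]
  have e1 : (p ∘ Equiv.swap 2 3) 1 = p 1 := by simp [Function.comp, Equiv.swap_apply_def]
  rw [e, HV_comp, e0, e1]

/-! ### measurability -/

theorem meas_amc {α : Type} [MeasurableSpace α] (a : α → Fin 3 → ℝ) (ha : Measurable a)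
    (j : Fin 3) : MeasurableSet {p | amc (a p) j} := by
  have h1 : ∀ q, Measurable (fun p => a p q) := fun q => (measurable_pi_apply q).comp ha
  have h2 : {p | amc (a p) j} = ⋂ q, {p | a p q ≤ a p j} := by
    ext p
    simp [amc]
  rw [h2]
  exact MeasurableSet.iInter fun q => measurableSet_le (h1 q) (h1 j)

theorem meas_HC : Measurable HC := by
  have hm : ∀ {n : ℕ} (q : Fin n), Measurable (fun p : Fin n → ℝ => p q) :=
    fun q => measurable_pi_apply q
  have hv : Measurable (fun p : Fin 5 → ℝ => ![p 2, p 3, p 4]) :=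
    IC1m.meas_vec _ _ _ (hm 2) (hm 3) (hm 4)
  have hb : ∀ j, Measurable (fun p : Fin 5 → ℝ => bb (p 0) (p 1) ![p 2, p 3, p 4] j) := by
    intro j
    unfold bb
    exact Measurable.ite (meas_amc _ (IC1m.meas_ad _ _ hv (hm 1) j) j)
      (IC1m.meas_nb 0 _ _ _ (hm 0) (hm 1) hv j) measurable_const
  have hg : ∀ j, Measurable (fun p : Fin 5 → ℝ => gg (p 0) (p 1) ![p 2, p 3, p 4] j) := by
    intro j
    unfold gg
    exact Measurable.ite (meas_amc _ (IC1m.meas_ad _ _ hv (hm 1) j) j)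
      (IC1m.meas_ng 0 _ _ _ (hm 0) (hm 1) hv j) measurable_const
  unfold HC
  refine Measurable.ite ?_ ?_ measurable_const
  · exact (measurableSet_lt (hm 0) measurable_const).inter
      (measurableSet_le measurable_const ((hm 0).add (hm 1)))
  · unfold HV
    refine Measurable.mul ?_ ?_
    · exact (Finset.measurable_sum _ fun j _ => hb j).div
        ((Finset.measurable_sum _ fun j _ => hg j).pow_const 2)
    · refine Finset.measurable_sum _ fun i _ => Finset.measurable_sum _ fun j _ => ?_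
      refine ((hb i).mul (hg j)).mul (IC1m.meas_hh _ _ _ ?_ ?_ (measurable_const.sub (hm 0)))
      · exact ((measurable_pi_apply i).comp hv).add (hm 1)
      · exact ((measurable_pi_apply j).comp hv).add (hm 1)

/-- The integrand with values in `[0, ∞]`. -/
noncomputable def GC (p : Fin 5 → ℝ) : ℝ≥0∞ := ENNReal.ofReal (HC p)

theorem meas_GC : Measurable GC := ENNReal.measurable_ofReal.comp meas_HC

/-! ### chambers -/

/-- Five vertices. -/
def V5 {E : Type} (a b c d e : E) : Option (Fin 4) → E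
  | some 0 => a
  | some 1 => b
  | some 2 => c
  | some 3 => d
  | none => e

theorem V5_ext {E : Type} (V W : Option (Fin 4) → E) (h0 : V (some 0) = W (some 0))
    (h1 : V (some 1) = W (some 1)) (h2 : V (some 2) = W (some 2)) (h3 : V (some 3) = W (some 3))
    (h4 : V none = W none) : V = W := by
  funext o
  rcases o with _ | i
  · exact h4
  · fin_cases i
    · exact h0
    · exact h1
    · exact h2
    · exact h3

open Chamber in
theorem EV_symm (σ : Equiv.Perm (Fin 5)) (G : (Fin 5 → ℝ) → ℝ≥0∞) (hG : ∀ p, G (p ∘ σ) = G p)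
    (V : Option (Fin 4) → Fin 5 → ℝ) : EV V G = EV (fun o => V o ∘ σ) G := by
  unfold EV
  congr 1
  funext y
  rw [← hG]
  have h : bar V y ∘ σ = bar (fun o => V o ∘ σ) y := by
    funext q
    simp [bar, Function.comp]
  rw [h]

end Cl

end Pool.Agent.Work.MP_122e00_nt.Hyb
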