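import Pool.Agent.Work.MP_122e00_nt.Hyb.Defs

set_option autoImplicit false

/-!
# Convex majorants of `hh`
-/

namespace Pool.Agent.Work.MP_122e00_nt.Hyb

open Finset

namespace Cl

theorem exp_two_le (x : ℝ) (h0 : 0 ≤ x) (h1 : x < 1) : Real.exp (2 * x) ≤ (1 + x) / (1 - x) := by
  have h := Real.hasSum_log_sub_log_of_abs_lt_one (x := x) (by rw [abs_of_nonneg h0]; exact h1)
  have h2 : 2 * x ≤ Real.log (1 + x) - Real.log (1 - x) := by
    have := sum_le_hasSum ({0} : Finset ℕ) (fun i _ => by positivity) h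
    simpa using this
  rw [← Real.log_div (by linarith) (by linarith)] at h2
  have hp : 0 < (1 + x) / (1 - x) := div_pos (by linarith) (by linarith)
  calc Real.exp (2 * x) ≤ Real.exp (Real.log ((1 + x) / (1 - x))) := Real.exp_le_exp.2 h2
    _ = _ := Real.exp_log hp

theorem exp_le_pow (t : ℝ) (h0 : 0 ≤ t) (h8 : t < 8) :
    Real.exp t ≤ ((8 + t) / (8 - t)) ^ 4 := by
  have h := exp_two_le (t / 8) (by linarith) (by linarith)
  have e : (1 + t / 8) / (1 - t / 8) = (8 + t) / (8 - t) := by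
    have h1 : (8 - t) ≠ 0 := by linarith
    have h2 : (1 - t / 8) ≠ 0 := by linarith
    field_simp
  rw [e] at h
  have h2 : Real.exp t = Real.exp (2 * (t / 8)) ^ 4 := by
    rw [← Real.exp_nat_mul]
    congr 1
    push_cast
    ring
  rw [h2]
  exact pow_le_pow_left₀ (Real.exp_pos _).le h 4

/-- The exponential majorant. -/
noncomputable def Mx (l d y : ℝ) : ℝ := Real.exp ((l * d ^ 2 + 1 / (l * y ^ 2)) / 2) / y

theorem hh_le (ui uj e : ℝ) (he : 0 < e) (hy : e < ui) (_hj : 0 ≤ uj) :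
    hh ui uj e ≤ 1 / (ui - e) * Real.exp ((uj - ui) / (ui - e)) := by
  unfold hh
  have hui : 0 < ui := he.trans hy
  have hy' : 0 < ui - e := by linarith
  have h1 : uj / ui ≤ Real.exp (uj / ui - 1) := by
    have := Real.add_one_le_exp (uj / ui - 1)
    linarith
  have h2 : uj / (ui * (ui - e)) = 1 / (ui - e) * (uj / ui) := by
    field_simp
  have h3 : (uj - ui) / (ui - e) = (uj / ui - 1) + (uj - ui) * e / (ui * (ui - e)) := by
    field_simp
    ring
  rw [h2, h3, Real.exp_add, ← mul_assoc]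
  refine mul_le_mul_of_nonneg_right ?_ (Real.exp_pos _).le
  exact mul_le_mul_of_nonneg_left h1 (by positivity)

theorem hh_le_inv (ui uj e : ℝ) (he : 0 < e) (hy : e < ui) (hj : 0 ≤ uj) (hd : uj ≤ ui) :
    hh ui uj e ≤ 1 / (ui - e) := by
  have hy' : 0 < ui - e := by linarith
  refine (hh_le ui uj e he hy hj).trans ?_
  have h1 : Real.exp ((uj - ui) / (ui - e)) ≤ 1 := by
    rw [Real.exp_le_one_iff]
    exact div_nonpos_of_nonpos_of_nonneg (by linarith) hy'.le
  calc 1 / (ui - e) * Real.exp ((uj - ui) / (ui - e)) ≤ 1 / (ui - e) * 1 :=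
        mul_le_mul_of_nonneg_left h1 (by positivity)
    _ = _ := mul_one _

theorem hh_le_exp (ui uj e l : ℝ) (he : 0 < e) (hy : e < ui) (hj : 0 ≤ uj) (hl : 0 < l) :
    hh ui uj e ≤ Mx l (uj - ui) (ui - e) := by
  have hy' : 0 < ui - e := by linarith
  refine (hh_le ui uj e he hy hj).trans ?_
  unfold Mx
  rw [one_div_mul_eq_div]
  refine div_le_div_of_nonneg_right ?_ hy'.le
  rw [Real.exp_le_exp]
  set d := uj - ui
  set y := ui - e
  have h : (l * d ^ 2 + 1 / (l * y ^ 2)) / 2 - d / y = (l * d - 1 / y) ^ 2 / (2 * l) := by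
    field_simp
    ring
  have h2 : 0 ≤ (l * d - 1 / y) ^ 2 / (2 * l) := by positivity
  linarith

/-! ### Jensen -/

variable {ι : Type} [Fintype ι]

theorem jen_inv (w y : ι → ℝ) (hw : ∀ o, 0 ≤ w o) (h1 : ∑ o, w o = 1) (hy : ∀ o, 0 < y o) :
    1 / (∑ o, w o * y o) ≤ ∑ o, w o * (1 / y o) := by
  have h := (convexOn_zpow (-1) : ConvexOn ℝ (Set.Ioi (0 : ℝ)) fun x => x ^ (-1 : ℤ)).map_sum_le
    (t := Finset.univ) (w := w) (p := y) (fun o _ => hw o) h1 (fun o _ => hy o)
  simpa [zpow_neg, smul_eq_mul] using h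

theorem jen_exp (w y d : ι → ℝ) (l : ℝ) (hl : 0 < l) (hw : ∀ o, 0 ≤ w o) (h1 : ∑ o, w o = 1)
    (hy : ∀ o, 0 < y o) :
    Mx l (∑ o, w o * d o) (∑ o, w o * y o) ≤ ∑ o, w o * Mx l (d o) (y o) := by
  have hne : (Finset.univ : Finset ι).Nonempty := by
    by_contra hne
    rw [Finset.not_nonempty_iff_eq_empty] at hne
    rw [hne] at h1
    simp at h1
  have hY : 0 < ∑ o, w o * y o := by
    have h2 : ∃ o, 0 < w o := by
      by_contra hcon
      push Not at hcon
      have : ∑ o, w o ≤ 0 := Finset.sum_nonpos fun o _ => hcon o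
      linarith
    obtain ⟨o, ho⟩ := h2
    exact lt_of_lt_of_le (mul_pos ho (hy o)) (Finset.single_le_sum (f := fun o => w o * y o)
      (fun o _ => mul_nonneg (hw o) (hy o).le) (Finset.mem_univ o))
  have key : ∀ a b : ℝ, 0 < b → Mx l a b = Real.exp ((l * a ^ 2 + 1 / (l * b ^ 2)) / 2 -
      Real.log b) := by
    intro a b hb
    unfold Mx
    rw [Real.exp_sub, Real.exp_log hb]
  have hsq := (even_two.convexOn_pow : ConvexOn ℝ Set.univ fun x : ℝ => x ^ 2).map_sum_le
    (t := Finset.univ) (w := w) (p := d) (fun o _ => hw o) h1 (fun o _ => Set.mem_univ _)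
  have hin := (convexOn_zpow (-2) : ConvexOn ℝ (Set.Ioi (0 : ℝ)) fun x => x ^ (-2 : ℤ)).map_sum_le
    (t := Finset.univ) (w := w) (p := y) (fun o _ => hw o) h1 (fun o _ => hy o)
  have hlog := strictConcaveOn_log_Ioi.concaveOn.le_map_sum
    (t := Finset.univ) (w := w) (p := y) (fun o _ => hw o) h1 (fun o _ => hy o)
  have hexp := convexOn_exp.map_sum_le
    (t := Finset.univ) (w := w) (p := fun o => (l * d o ^ 2 + 1 / (l * y o ^ 2)) / 2 -
      Real.log (y o)) (fun o _ => hw o) h1 (fun o _ => Set.mem_univ _)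
  simp only [smul_eq_mul] at hsq hin hlog hexp
  have hz : ∀ b : ℝ, b ^ (-2 : ℤ) = 1 / b ^ 2 := by
    intro b
    rw [zpow_neg, one_div]
    norm_cast
  simp only [hz] at hin
  rw [key _ _ hY]
  calc _ ≤ Real.exp (∑ o, w o * ((l * d o ^ 2 + 1 / (l * y o ^ 2)) / 2 - Real.log (y o))) := by
        rw [Real.exp_le_exp]
        have e : ∑ o, w o * ((l * d o ^ 2 + 1 / (l * y o ^ 2)) / 2 - Real.log (y o)) =
            l / 2 * ∑ o, w o * d o ^ 2 + 1 / (2 * l) * ∑ o, w o * (1 / y o ^ 2) -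
              ∑ o, w o * Real.log (y o) := by
          rw [Finset.mul_sum, Finset.mul_sum, ← Finset.sum_add_distrib, ← Finset.sum_sub_distrib]
          refine Finset.sum_congr rfl fun o _ => ?_
          have := (hy o).ne'
          field_simp
        rw [e]
        have e2 : (l * (∑ o, w o * d o) ^ 2 + 1 / (l * (∑ o, w o * y o) ^ 2)) / 2 -
            Real.log (∑ o, w o * y o) = l / 2 * (∑ o, w o * d o) ^ 2 +
              1 / (2 * l) * (1 / (∑ o, w o * y o) ^ 2) - Real.log (∑ o, w o * y o) := by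
          have := hY.ne'
          field_simp
        rw [e2]
        have h3 : l / 2 * (∑ o, w o * d o) ^ 2 ≤ l / 2 * ∑ o, w o * d o ^ 2 :=
          mul_le_mul_of_nonneg_left hsq (by positivity)
        have h4 : 1 / (2 * l) * (1 / (∑ o, w o * y o) ^ 2) ≤
            1 / (2 * l) * ∑ o, w o * (1 / y o ^ 2) :=
          mul_le_mul_of_nonneg_left hin (by positivity)
        linarith
    _ ≤ ∑ o, w o * Real.exp ((l * d o ^ 2 + 1 / (l * y o ^ 2)) / 2 - Real.log (y o)) := hexp
    _ = _ := Finset.sum_congr rfl fun o _ => by rw [key _ _ (hy o)]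

end Cl

end Pool.Agent.Work.MP_122e00_nt.Hyb
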