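import Pool.Agent.Work.MP_122e00_nt.Two.StmtsTail
import Pool.Agent.Work.MP_122e00_nt.Chamber.Basic

set_option autoImplicit false

/-!
# The hybrid block scheme: definitions

`th` is the loss in the level of distribution, `c` the threshold for the total size of the marks
(`c = 1 / 4 + 2 * th`).  A factorisation has three parts; `w : Fin 3 → ℝ` are their logarithmic
sizes.  Marks: `x 0` is placed anywhere, `x 1, …, x k` form one block of size `blk x` which is
placed on the part which is then the largest unmarked one.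
-/

namespace Pool.Agent.Work.MP_122e00_nt.Hyb

open Finset Filter Topology MeasureTheory

open scoped ENNReal

/-- Add `t` to part `i`. -/
noncomputable def ad (w : Fin 3 → ℝ) (i : Fin 3) (t : ℝ) : Fin 3 → ℝ :=
  fun q => if q = i then w q + t else w q

/-- Part `j` is the largest one (the first one in case of equality). -/
def am (w : Fin 3 → ℝ) (j : Fin 3) : Prop := ∀ q, w q < w j ∨ (w q = w j ∧ j ≤ q)

/-- Good factorisations: two of the parts have total size at most `1 / 2 - th`. -/
def Gd (th : ℝ) (w : Fin 3 → ℝ) : Prop := ∃ i, (∑ q, w q) - w i ≤ 1 / 2 - th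

open Classical in
/-- Indicator of the good factorisations. -/
noncomputable def gi (th : ℝ) (w : Fin 3 → ℝ) : ℝ := if Gd th w then 1 else 0

open Classical in
/-- Indicator of the bad factorisations. -/
noncomputable def bi (th : ℝ) (w : Fin 3 → ℝ) : ℝ := if Gd th w then 0 else 1

/-- The size of the block. -/
noncomputable def blk {k : ℕ} (x : Fin (k + 1) → ℝ) : ℝ := ∑ m : Fin k, x m.succ

/-- The size of the part of the block before mark `m`. -/
noncomputable def bef {k : ℕ} (x : Fin (k + 1) → ℝ) (m : Fin k) : ℝ :=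
  ∑ m' ∈ Finset.univ.filter (fun m' : Fin k => m' < m), x m'.succ

open Classical in
/-- The weight of the position `j` of the block, relative to the weight of the marks. -/
noncomputable def wj {k : ℕ} (x : Fin (k + 1) → ℝ) (v : Fin 3 → ℝ) (j : Fin 3) : ℝ :=
  if am (ad v j (blk x)) j then
    ∏ m : Fin k, ((∑ i, v i + blk x - bef x m) / (v j + blk x - bef x m)) else 0

/-- The sum of `g` over the members of a cell, with weights. -/
noncomputable def Pk {k : ℕ} (g : (Fin 3 → ℝ) → ℝ) (x : Fin (k + 1) → ℝ) (v : Fin 3 → ℝ) : ℝ :=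
  ∑ j, wj x v j * ∑ i, g (ad (ad v j (blk x)) i (x 0))

/-- The chain of marks stops. -/
def stp {k : ℕ} (c : ℝ) (x : Fin (k + 1) → ℝ) : Prop :=
  c ≤ x 0 + blk x ∧ ∀ m : Fin k, x 0 + bef x m < c

/-- The chain of marks has not stopped. -/
def lft {k : ℕ} (c : ℝ) (x : Fin (k + 1) → ℝ) : Prop := x 0 + blk x < c

/-- The relevant positions. -/
def Reg {k : ℕ} (th : ℝ) (x : Fin k → ℝ) (v : Fin 3 → ℝ) : Prop :=
  (∀ m, 0 ≤ x m) ∧ (∀ i, 0 ≤ v i) ∧ 9 / 10 ≤ ∑ m, x m + ∑ i, v i ∧
    ∑ m, x m + ∑ i, v i ≤ 1 + th / 2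

/-- The number of bad positions of the first mark, when the block is on part `j`. -/
noncomputable def nb (th x0 D : ℝ) (v : Fin 3 → ℝ) (j : Fin 3) : ℝ :=
  ∑ i, bi th (ad (ad v j D) i x0)

/-- The number of good positions of the first mark, when the block is on part `j`. -/
noncomputable def ng (th x0 D : ℝ) (v : Fin 3 → ℝ) (j : Fin 3) : ℝ :=
  ∑ i, gi th (ad (ad v j D) i x0)

open Classical in
/-- The number of bad members of a cell. -/
noncomputable def bt (th x0 D : ℝ) (v : Fin 3 → ℝ) : ℝ :=
  ∑ j, if am (ad v j D) j then nb th x0 D v j else 0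

open Classical in
/-- The number of good members of a cell. -/
noncomputable def gt (th x0 D : ℝ) (v : Fin 3 → ℝ) : ℝ :=
  ∑ j, if am (ad v j D) j then ng th x0 D v j else 0

open Classical in
/-- The coefficients of the diagonal bound. -/
noncomputable def cf (th x0 D : ℝ) (v : Fin 3 → ℝ) (i j : Fin 3) : ℝ :=
  if am (ad v i D) i ∧ am (ad v j D) j then
    bt th x0 D v * nb th x0 D v i * ng th x0 D v j / gt th x0 D v ^ 2 else 0

open Classical in
/-- The weighted number of bad members of a cell. -/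
noncomputable def NN (th c : ℝ) (k : ℕ) (x : Fin (k + 1) → ℝ) (v : Fin 3 → ℝ) : ℝ :=
  if Reg th x v ∧ stp c x then Pk (bi th) x v else 0

open Classical in
/-- The weighted number of good members of a cell. -/
noncomputable def GG (th c : ℝ) (k : ℕ) (x : Fin (k + 1) → ℝ) (v : Fin 3 → ℝ) : ℝ :=
  if Reg th x v ∧ stp c x then Pk (gi th) x v else 0

open Classical in
/-- The upper bound for `NN ^ 2 / GG`. -/
noncomputable def FF (th c : ℝ) (k : ℕ) (x : Fin (k + 1) → ℝ) (v : Fin 3 → ℝ) : ℝ :=
  if Reg th x v ∧ stp c x then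
    ∑ i, ∑ j, cf th (x 0) (blk x) v i j * ∏ m : Fin k,
      ((∑ q, v q + blk x - bef x m) * (v j + blk x - bef x m) / (v i + blk x - bef x m) ^ 2)
  else 0

open Classical in
/-- The part of the bad factorisations for which the chain has not stopped. -/
noncomputable def LL (th c : ℝ) (k : ℕ) (g : (Fin 3 → ℝ) → ℝ) (x : Fin (k + 1) → ℝ)
    (v : Fin 3 → ℝ) : ℝ :=
  if Reg th x v ∧ lft c x then Pk g x v else 0

/-- The number of good factorisations. -/
noncomputable def AA (th L : ℝ) (n : ℕ) : ℝ := Two.TS L 2 0 n (fun _ v => gi th v)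

/-- The number of bad factorisations. -/
noncomputable def BB (th L : ℝ) (n : ℕ) : ℝ := Two.TS L 2 0 n (fun _ v => bi th v)

/-- The upper bound for `BB ^ 2 / AA`, with at most `K` marks in the block. -/
noncomputable def Hs (th c L : ℝ) (K n : ℕ) : ℝ :=
  ∑ k ∈ Finset.range (K + 1), Two.TS L 2 (k + 1) n (FF th c k)

/-- The weight `1` on the level `1 / 2 - th`. -/
noncomputable def ps (th : ℝ) (y : Fin 2 → ℝ) : ℝ :=
  ({y : Fin 2 → ℝ | (∀ i, 0 ≤ y i) ∧ ∑ i, y i ≤ 1 / 2 - th}.indicator fun _ => 1) y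

/-! ### The limit functionals -/

/-- The closed form of the sum over the lengths of the chain. -/
noncomputable def hh (ui uj e : ℝ) : ℝ :=
  uj / (ui * (ui - e)) * Real.exp ((uj - ui) * e / (ui * (ui - e)))

/-- `IF th c k`: the limit of the mean value of the structure sum of `FF th c k`. -/
noncomputable def IF (th c : ℝ) (k : ℕ) : ℝ :=
  ∫ y in Two.Sim (k + 1) 2, Two.ext (FF th c k) (y, 1 - ∑ i, y i) * Two.den y

open Classical in
/-- The integrand for the cells with a block; `p = (x0, D, v0, v1, v2)`. -/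
noncomputable def H1 (th c : ℝ) (p : Fin 5 → ℝ) : ℝ :=
  if p 0 < c ∧ c ≤ p 0 + p 1 then
    ∑ i : Fin 3, ∑ j : Fin 3, cf th (p 0) (p 1) ![p 2, p 3, p 4] i j *
      hh (![p 2, p 3, p 4] i + p 1) (![p 2, p 3, p 4] j + p 1) (c - p 0)
  else 0

open Classical in
/-- The integrand for the cells without a block; `p = (x0, v0, v1, v2)`. -/
noncomputable def H0 (th c : ℝ) (p : Fin 4 → ℝ) : ℝ :=
  if c ≤ p 0 then nb th (p 0) 0 ![p 1, p 2, p 3] 0 ^ 2 / ng th (p 0) 0 ![p 1, p 2, p 3] 0 else 0

/-- The vertices of the standard simplex. -/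
def std (n : ℕ) : Option (Fin n) → Fin (n + 1) → ℝ
  | some i => fun q => if q = i.castSucc then 1 else 0
  | none => fun q => if q = Fin.last n then 1 else 0

/-- The integral over the cells with a block. -/
noncomputable def J1 (th c : ℝ) : ℝ≥0∞ :=
  Chamber.EV (std 4) fun p => ENNReal.ofReal (H1 th c p)

/-- The integral over the cells without a block. -/
noncomputable def J0 (th c : ℝ) : ℝ≥0∞ :=
  Chamber.EV (std 3) fun p => ENNReal.ofReal (H0 th c p)

end Pool.Agent.Work.MP_122e00_nt.Hyb
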