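import Mathlib

set_option autoImplicit false

/-!
# Evaluation of the certificate for the cells with a block
-/

namespace Pool.Agent.Work.MP_122e00_nt.Hyb.Cert

/-- A vertex: homogeneous coordinates of `(x0, D, v0, v1, v2)`. -/
structure Vx where
  x : ℕ
  D : ℕ
  p : ℕ
  q : ℕ
  r : ℕ

/-- The sum of the coordinates. -/
def Vx.T (v : Vx) : ℕ := v.x + v.D + v.p + v.q + v.r

/-- A simplex. -/
structure Sx where
  a : Vx
  b : Vx
  c : Vx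
  d : Vx
  e : Vx

/-- A vertex of a simplex. -/
def Sx.get (s : Sx) : ℕ → Vx
  | 0 => s.a
  | 1 => s.b
  | 2 => s.c
  | 3 => s.d
  | _ => s.e

/-- Replace a vertex. -/
def Sx.set (s : Sx) (i : ℕ) (w : Vx) : Sx :=
  match i with
  | 0 => ⟨w, s.b, s.c, s.d, s.e⟩
  | 1 => ⟨s.a, w, s.c, s.d, s.e⟩
  | 2 => ⟨s.a, s.b, w, s.d, s.e⟩
  | 3 => ⟨s.a, s.b, s.c, w, s.e⟩
  | _ => ⟨s.a, s.b, s.c, s.d, w⟩

/-- All vertices. -/
def Sx.all (s : Sx) (f : Vx → Bool) : Bool := f s.a && (f s.b && (f s.c && (f s.d && f s.e)))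

/-- Status of `f ≥ g`: `1` true, `0` false, `2` undecided. -/
def st (f g : Vx → ℕ) (s : Sx) : ℕ :=
  bif s.all (fun v => Nat.ble (g v) (f v)) then 1 else
    bif s.all (fun v => Nat.ble (f v) (g v)) then 0 else 2

def hx (f : Vx → ℕ) (s : Sx) : ℕ := st (fun v => 2 * f v) Vx.T s

def isSure (a b c : ℕ) : ℕ := bif Nat.beq a 1 || (Nat.beq b 1 || Nat.beq c 1) then 1 else 0
def isPoss (a b c : ℕ) : ℕ := bif Nat.beq a 0 && (Nat.beq b 0 && Nat.beq c 0) then 0 else 1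

/-- Rounded up quotient. -/
def cdiv (a b : ℕ) : ℕ := (a + (b - 1)) / b

/-- The scale. -/
def S : ℕ := 1000000

/-- `1 / y` -/
def inv (v : Vx) (u : ℕ) : ℕ := cdiv (S * (4 * v.T)) (4 * (u + v.D + v.x) - v.T)

/-- Numerator and denominator of `t / 8`. -/
def nu (l T Y d : ℕ) : ℕ := l * l * (d * d) * (Y * Y) + 16 * (T * T) * (T * T)
def de (l T Y : ℕ) : ℕ := 16 * (l * (T * T) * (Y * Y))

/-- The exponential majorant. -/
def ex (l T Y d : ℕ) : ℕ :=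
  cdiv (S * (4 * T) * (de l T Y + nu l T Y d) ^ 4) (Y * (de l T Y - nu l T Y d) ^ 4)

/-- `4 T y` for a part of size `u`. -/
def yy (v : Vx) (u : ℕ) : ℕ := 4 * (u + v.D + v.x) - v.T

def mx (f : ℕ → ℕ) (lo : ℕ) : ℕ → ℕ
  | 0 => f lo
  | n + 1 => max (f lo) (mx f (lo + 1) n)

def opt (al lo hi : ℕ) (f : ℕ → ℕ → ℕ) : ℕ :=
  match al with
  | 0 => f 0 0
  | 1 => mx (fun g => f (3 - g) g) lo (hi - lo)
  | _ => max (f 0 0) (mx (fun g => f (3 - g) g) lo (hi - lo))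

def vl (i0 i1 i2 e1 e2 e3 b0 g0 b1 g1 b2 g2 : ℕ) : ℕ :=
  cdiv ((b0 + b1 + b2) * (b0 * (g0 + g1 + g2) * i0 + b1 * (g0 * e1 + (g1 + g2) * i1) +
    b2 * (g0 * e2 + g1 * e3 + g2 * i2))) ((g0 + g1 + g2) * (g0 + g1 + g2))

def vm (al1 al2 lo0 hi0 lo1 hi1 lo2 hi2 i0 i1 i2 e1 e2 e3 : ℕ) : ℕ :=
  opt 1 lo0 hi0 fun b0 g0 => opt al1 lo1 hi1 fun b1 g1 => opt al2 lo2 hi2 fun b2 g2 =>
    vl i0 i1 i2 e1 e2 e3 b0 g0 b1 g1 b2 g2

/-- The value at a vertex. -/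
def fv (l1 l2 l3 al1 al2 lo0 hi0 lo1 hi1 lo2 hi2 : ℕ) (v : Vx) : ℕ :=
  vm al1 al2 lo0 hi0 lo1 hi1 lo2 hi2 (inv v v.p) (inv v v.q) (inv v v.r)
    (ex l1 v.T (yy v v.q) (v.p - v.q)) (ex l2 v.T (yy v v.r) (v.p - v.r))
    (ex l3 v.T (yy v v.r) (v.q - v.r))

/-- The conditions for a leaf. -/
def okl (l1 l2 l3 : ℕ) (z1 z2 : Bool) (v : Vx) : Bool :=
  Nat.blt v.T (4 * (v.p + v.D + v.x)) && (Nat.ble v.q v.p && (Nat.ble v.r v.q &&
  ((z1 || (Nat.blt v.T (4 * (v.q + v.D + v.x)) &&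
    Nat.blt (nu l1 v.T (yy v v.q) (v.p - v.q)) (de l1 v.T (yy v v.q)))) &&
  (z2 || (Nat.blt v.T (4 * (v.r + v.D + v.x)) &&
    (Nat.blt (nu l2 v.T (yy v v.r) (v.p - v.r)) (de l2 v.T (yy v v.r)) &&
    Nat.blt (nu l3 v.T (yy v v.r) (v.q - v.r)) (de l3 v.T (yy v v.r))))))))

/-- The main case of a leaf. -/
def leafm (l1 l2 l3 al1 al2 lo0 hi0 lo1 hi1 lo2 hi2 : ℕ) (z1 z2 : Bool) (s : Sx) : Option ℕ :=
  bif Nat.beq lo0 3 && (z1 && z2) then some 0 else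
  bif s.all (okl l1 l2 l3 z1 z2) then
    some (cdiv (fv l1 l2 l3 al1 al2 lo0 hi0 lo1 hi1 lo2 hi2 s.a +
      fv l1 l2 l3 al1 al2 lo0 hi0 lo1 hi1 lo2 hi2 s.b +
      fv l1 l2 l3 al1 al2 lo0 hi0 lo1 hi1 lo2 hi2 s.c +
      fv l1 l2 l3 al1 al2 lo0 hi0 lo1 hi1 lo2 hi2 s.d +
      fv l1 l2 l3 al1 al2 lo0 hi0 lo1 hi1 lo2 hi2 s.e) 5)
  else none

/-- A leaf, with the statuses of the linear forms. -/
def leaf2 (l1 l2 l3 s00 s01 s02 s03 s10 s11 s12 s13 s20 s21 s22 s23 al1 al2 : ℕ) (s : Sx) :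
    Option ℕ :=
  leafm l1 l2 l3 al1 al2
    (isSure s03 s10 s20 + isSure s01 s12 s20 + isSure s01 s10 s22)
    (isPoss s03 s10 s20 + isPoss s01 s12 s20 + isPoss s01 s10 s22)
    (isSure s02 s11 s20 + isSure s00 s13 s20 + isSure s00 s11 s22)
    (isPoss s02 s11 s20 + isPoss s00 s13 s20 + isPoss s00 s11 s22)
    (isSure s02 s10 s21 + isSure s00 s12 s21 + isSure s00 s10 s23)
    (isPoss s02 s10 s21 + isPoss s00 s12 s21 + isPoss s00 s10 s23)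
    (Nat.beq al1 0 || Nat.beq (isSure s02 s11 s20 + isSure s00 s13 s20 + isSure s00 s11 s22) 3)
    (Nat.beq al2 0 || Nat.beq (isSure s02 s10 s21 + isSure s00 s12 s21 + isSure s00 s10 s23) 3)
    s

/-- A leaf. -/
def leaf (l1 l2 l3 : ℕ) (s : Sx) : Option ℕ :=
  bif s.all (fun v => Nat.blt 0 v.T) then
    bif Nat.beq (st (fun v => 4 * v.x) Vx.T s) 1 || Nat.beq (st (fun v => 4 * (v.x + v.D)) Vx.T s) 0
    then some 0
    else
      leaf2 l1 l2 l3 (hx (fun v => v.p) s) (hx (fun v => v.p + v.D) s)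
        (hx (fun v => v.p + v.x) s) (hx (fun v => v.p + v.D + v.x) s) (hx (fun v => v.q) s)
        (hx (fun v => v.q + v.D) s) (hx (fun v => v.q + v.x) s) (hx (fun v => v.q + v.D + v.x) s)
        (hx (fun v => v.r) s) (hx (fun v => v.r + v.D) s) (hx (fun v => v.r + v.x) s)
        (hx (fun v => v.r + v.D + v.x) s) (st (fun v => v.q + v.D) (fun v => v.p) s)
        (st (fun v => v.r + v.D) (fun v => v.p) s) s
  else none

inductive Ct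
  | lf (l1 l2 l3 : ℕ)
  | ct (i j A B g : ℕ) (w : Vx) (l r : Ct)

def chk (A B g : ℕ) (P Q w : Vx) : Bool :=
  Nat.beq (A * P.x + B * Q.x) (g * w.x) && (Nat.beq (A * P.D + B * Q.D) (g * w.D) &&
  (Nat.beq (A * P.p + B * Q.p) (g * w.p) && (Nat.beq (A * P.q + B * Q.q) (g * w.q) &&
  Nat.beq (A * P.r + B * Q.r) (g * w.r))))

def avg (a b : ℕ) : Option ℕ → Option ℕ → Option ℕ
  | some x, some y => some (cdiv (a * x + b * y) (a + b))
  | _, _ => none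

def run : Ct → Sx → Option ℕ
  | .lf l1 l2 l3, s => leaf l1 l2 l3 s
  | .ct i j A B g w l r, s =>
    bif (Nat.blt i j && Nat.ble j 4) && (Nat.blt 0 (A * (s.get i).T) && (Nat.blt 0 (B * (s.get j).T)
        && chk A B g (s.get i) (s.get j) w)) then
      avg (A * (s.get i).T) (B * (s.get j).T) (run l (s.set i w)) (run r (s.set j w))
    else none

def le (o : Option ℕ) (n : ℕ) : Bool :=
  match o with
  | some x => Nat.ble x n
  | none => false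

end Pool.Agent.Work.MP_122e00_nt.Hyb.Cert
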