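import Pool.Agent.Work.MP_122e00_nt.Hyb.Stmts

set_option autoImplicit false

/-!
# C1b: the cells without a block
-/

namespace Pool.Agent.Work.MP_122e00_nt.Hyb

open Finset Filter Topology MeasureTheory

open scoped ENNReal

namespace IC1b

theorem ad_zero (v : Fin 3 → ℝ) (i : Fin 3) : ad v i 0 = v := by
  funext q
  unfold ad
  split_ifs <;> simp

theorem am_exists (v : Fin 3 → ℝ) : ∃ j, am v j := by
  obtain ⟨j, _, hj⟩ := Finset.exists_max_image (Finset.univ : Finset (Fin 3)) v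
    Finset.univ_nonempty
  have hne : (Finset.univ.filter fun q : Fin 3 => v q = v j).Nonempty := ⟨j, by simp⟩
  refine ⟨(Finset.univ.filter fun q : Fin 3 => v q = v j).min' hne, ?_⟩
  have hmem := Finset.min'_mem _ hne
  rw [Finset.mem_filter] at hmem
  intro q
  rw [hmem.2]
  rcases (hj q (Finset.mem_univ q)).lt_or_eq with h | h
  · exact Or.inl h
  · refine Or.inr ⟨h, Finset.min'_le _ _ ?_⟩
    simp [h]

theorem am_unique (v : Fin 3 → ℝ) (i j : Fin 3) (hi : am v i) (hj : am v j) : i = j := by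
  rcases hi j with h | ⟨h, h'⟩
  · rcases hj i with h2 | ⟨h2, _⟩
    · linarith
    · linarith
  · rcases hj i with h2 | ⟨_, h2'⟩
    · linarith
    · exact le_antisymm h' h2'

theorem nb_const (th x0 : ℝ) (v : Fin 3 → ℝ) (j : Fin 3) : nb th x0 0 v j = nb th x0 0 v 0 := by
  unfold nb
  simp only [ad_zero]

theorem ng_const (th x0 : ℝ) (v : Fin 3 → ℝ) (j : Fin 3) : ng th x0 0 v j = ng th x0 0 v 0 := by
  unfold ng
  simp only [ad_zero]

theorem bt_eq (th x0 : ℝ) (v : Fin 3 → ℝ) : bt th x0 0 v = nb th x0 0 v 0 := by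
  classical
  obtain ⟨j, hj⟩ := am_exists v
  unfold bt
  rw [Finset.sum_eq_single j]
  · rw [ad_zero, if_pos hj, nb_const]
  · intro q _ hq
    rw [ad_zero, if_neg]
    exact fun h => hq (am_unique v q j h hj)
  · simp

theorem gt_eq (th x0 : ℝ) (v : Fin 3 → ℝ) : gt th x0 0 v = ng th x0 0 v 0 := by
  classical
  obtain ⟨j, hj⟩ := am_exists v
  unfold gt
  rw [Finset.sum_eq_single j]
  · rw [ad_zero, if_pos hj, ng_const]
  · intro q _ hq
    rw [ad_zero, if_neg]
    exact fun h => hq (am_unique v q j h hj)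
  · simp

theorem sum_cf (th x0 : ℝ) (v : Fin 3 → ℝ) :
    ∑ i, ∑ j, cf th x0 0 v i j = nb th x0 0 v 0 ^ 2 / ng th x0 0 v 0 := by
  classical
  obtain ⟨j, hj⟩ := am_exists v
  rw [Finset.sum_eq_single j]
  · rw [Finset.sum_eq_single j]
    · unfold cf
      rw [ad_zero, if_pos ⟨hj, hj⟩, bt_eq, gt_eq, nb_const th x0 v j, ng_const th x0 v j]
      rcases eq_or_ne (ng th x0 0 v 0) 0 with h | h
      · rw [h]
        simp
      · field_simp
    · intro q _ hq
      unfold cf
      rw [ad_zero, ad_zero, if_neg]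
      exact fun h => hq (am_unique v q j h.2 hj)
    · simp
  · intro q _ hq
    refine Finset.sum_eq_zero fun i _ => ?_
    unfold cf
    rw [ad_zero, ad_zero, if_neg]
    exact fun h => hq (am_unique v q j h.1 hj)
  · simp

theorem ng_nonneg (th x0 D : ℝ) (v : Fin 3 → ℝ) (j : Fin 3) : 0 ≤ ng th x0 D v j := by
  classical
  unfold ng gi
  refine Finset.sum_nonneg fun i _ => ?_
  split_ifs <;> norm_num

theorem H0_nonneg (th c : ℝ) (p : Fin 4 → ℝ) : 0 ≤ H0 th c p := by
  unfold H0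
  split_ifs
  · exact div_nonneg (sq_nonneg _) (ng_nonneg _ _ _ _ _)
  · exact le_rfl

/-- The reindexing. -/
noncomputable def re : (Fin 1 ⊕ Fin 2 → ℝ) ≃ᵐ (Fin 3 → ℝ) :=
  MeasurableEquiv.piCongrLeft (fun _ : Fin 3 => ℝ) (finSumFinEquiv (m := 1) (n := 2))

theorem re_mp : MeasurePreserving re volume volume :=
  volume_measurePreserving_piCongrLeft (fun _ : Fin 3 => ℝ) (finSumFinEquiv (m := 1) (n := 2))

theorem re_zero (z : Fin 1 ⊕ Fin 2 → ℝ) : re z 0 = z (Sum.inl 0) :=
  Equiv.piCongrLeft_apply_apply (fun _ : Fin 3 => ℝ) (finSumFinEquiv (m := 1) (n := 2)) z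
    (Sum.inl 0)

theorem re_one (z : Fin 1 ⊕ Fin 2 → ℝ) : re z 1 = z (Sum.inr 0) :=
  Equiv.piCongrLeft_apply_apply (fun _ : Fin 3 => ℝ) (finSumFinEquiv (m := 1) (n := 2)) z
    (Sum.inr 0)

theorem re_two (z : Fin 1 ⊕ Fin 2 → ℝ) : re z 2 = z (Sum.inr 1) :=
  Equiv.piCongrLeft_apply_apply (fun _ : Fin 3 => ℝ) (finSumFinEquiv (m := 1) (n := 2)) z
    (Sum.inr 1)

theorem sum_re (z : Fin 1 ⊕ Fin 2 → ℝ) : ∑ i, re z i = ∑ i, z i := by
  rw [Fin.sum_univ_three, re_zero, re_one, re_two, Fintype.sum_sum_type, Fin.sum_univ_two,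
    Fin.sum_univ_one, add_assoc]

theorem bar_std (y : Fin 3 → ℝ) :
    Chamber.bar (std 3) y = ![y 0, y 1, y 2, 1 - ∑ i, y i] := by
  unfold Chamber.bar std
  funext q
  simp only [Pi.add_apply, Finset.sum_apply, Pi.smul_apply, smul_eq_mul]
  rw [Fin.sum_univ_three]
  fin_cases q <;> simp [Fin.ext_iff]

theorem ptw (th c : ℝ) (h0 : 0 < th) (z : Fin 1 ⊕ Fin 2 → ℝ)
    (hz : z ∈ Two.Sim (0 + 1) 2) :
    Two.ext (FF th c 0) (z, 1 - ∑ i, z i) * Two.den (k := 0 + 1) (s := 2) z =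
      H0 th c (Chamber.bar (std 3) (re z)) := by
  classical
  have hden : Two.den (k := 0 + 1) (s := 2) z = 1 := by
    unfold Two.den
    refine Finset.prod_eq_one fun j _ => ?_
    rw [Finset.filter_eq_empty_iff.2]
    · simp
    · intro i _
      have hi := i.2
      have hj := j.2
      rw [Fin.lt_def]
      omega
  rw [hden, mul_one, bar_std, re_zero, re_one, re_two, sum_re]
  have hv : (Fin.snoc (fun i : Fin 2 => z (Sum.inr i)) (1 - ∑ i, z i) : Fin 3 → ℝ) =
      ![z (Sum.inr 0), z (Sum.inr 1), 1 - ∑ i, z i] := by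
    funext q
    fin_cases q <;> rfl
  have hs : ∑ i, z i = z (Sum.inl 0) + (z (Sum.inr 0) + z (Sum.inr 1)) := by
    rw [Fintype.sum_sum_type, Fin.sum_univ_two, Fin.sum_univ_one]
  have hR : Reg th (fun i : Fin (0 + 1) => z (Sum.inl i))
      ![z (Sum.inr 0), z (Sum.inr 1), 1 - ∑ i, z i] := by
    refine ⟨fun m => (hz.1 _).le, ?_, ?_, ?_⟩
    · intro i
      fin_cases i
      · exact (hz.1 _).le
      · exact (hz.1 _).le
      · exact sub_nonneg.2 hz.2.le
    · rw [Fin.sum_univ_three, Fin.sum_univ_one, hs]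
      simp only [Matrix.cons_val_zero, Matrix.cons_val_one, Matrix.cons_val_two, Matrix.head_cons,
        Matrix.tail_cons]
      linarith
    · rw [Fin.sum_univ_three, Fin.sum_univ_one, hs]
      simp only [Matrix.cons_val_zero, Matrix.cons_val_one, Matrix.cons_val_two, Matrix.head_cons,
        Matrix.tail_cons]
      linarith
  have hblk : blk (fun i : Fin (0 + 1) => z (Sum.inl i)) = 0 := by
    unfold blk
    simp
  unfold Two.ext FF H0
  dsimp only
  rw [hv]
  have hst : stp c (fun i : Fin (0 + 1) => z (Sum.inl i)) ↔ c ≤ z (Sum.inl 0) := by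
    unfold stp
    rw [hblk, add_zero]
    constructor
    · exact fun h => h.1
    · exact fun h => ⟨h, fun m => m.elim0⟩
  by_cases hc : c ≤ z (Sum.inl 0)
  · rw [if_pos ⟨hR, hst.2 hc⟩, if_pos (by simpa using hc), hblk]
    have := sum_cf th (z (Sum.inl 0)) ![z (Sum.inr 0), z (Sum.inr 1), 1 - ∑ i, z i]
    simp only [Finset.univ_eq_empty, Finset.prod_empty, mul_one]
    exact this
  · rw [if_neg (fun h => hc (hst.1 h.2)), if_neg (by simpa using hc)]

theorem ofReal_integral_le {α : Type*} [MeasurableSpace α] (μ : Measure α) (f : α → ℝ)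
    (hf : 0 ≤ᵐ[μ] f) : ENNReal.ofReal (∫ x, f x ∂μ) ≤ ∫⁻ x, ENNReal.ofReal (f x) ∂μ := by
  by_cases h : Integrable f μ
  · rw [ofReal_integral_eq_lintegral_ofReal h hf]
  · rw [integral_undef h]
    simp

theorem meas_Sim (k s : ℕ) : MeasurableSet (Two.Sim k s) := by
  unfold Two.Sim
  have h1 : MeasurableSet {y : Fin k ⊕ Fin s → ℝ | ∀ i, 0 < y i} := by
    rw [show {y : Fin k ⊕ Fin s → ℝ | ∀ i, 0 < y i} = ⋂ i, {y | 0 < y i} by ext; simp]
    exact MeasurableSet.iInter fun i => measurableSet_lt measurable_const (measurable_pi_apply i)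
  have h2 : MeasurableSet {y : Fin k ⊕ Fin s → ℝ | ∑ i, y i < 1} := by
    refine measurableSet_lt ?_ measurable_const
    exact Finset.measurable_sum _ fun i _ => measurable_pi_apply i
  exact h1.inter h2

end IC1b

open IC1b in
theorem prfC1b : claimC1b := by
  intro th c h0 _ _
  unfold IF J0 Chamber.EV
  refine (ofReal_integral_le _ _ ?_).trans ?_
  · refine (ae_restrict_iff' (meas_Sim _ _)).2 (Eventually.of_forall fun z hz => ?_)
    show 0 ≤ Two.ext (FF th c 0) (z, 1 - ∑ i, z i) * Two.den z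
    rw [ptw th c h0 z hz]
    exact H0_nonneg _ _ _
  · have h1 : ∫⁻ y in Two.Sim (0 + 1) 2, ENNReal.ofReal
        (Two.ext (FF th c 0) (y, 1 - ∑ i, y i) * Two.den y) =
        ∫⁻ y in Two.Sim (0 + 1) 2, (fun y' => ENNReal.ofReal
          (H0 th c (Chamber.bar (std 3) y'))) (re y) := by
      refine setLIntegral_congr_fun (meas_Sim _ _) fun z hz => ?_
      show ENNReal.ofReal (Two.ext (FF th c 0) (z, 1 - ∑ i, z i) * Two.den z) = _
      rw [ptw th c h0 z hz]
    rw [h1, ← re_mp.setLIntegral_comp_preimage_emb re.measurableEmbedding]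
    refine lintegral_mono_set fun z hz => ?_
    show re z ∈ Chamber.T (Fin 3)
    refine ⟨fun i => ?_, ?_⟩
    · fin_cases i
      · exact (re_zero z).symm ▸ (hz.1 _).le
      · exact (re_one z).symm ▸ (hz.1 _).le
      · exact (re_two z).symm ▸ (hz.1 _).le
    · rw [sum_re]
      exact hz.2.le

end Pool.Agent.Work.MP_122e00_nt.Hyb
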