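import Pool.Agent.Work.MP_122e00_nt.Hyb.Stmts

set_option autoImplicit false

/-!
# Item F1: bounds for the structure functions
-/

namespace Pool.Agent.Work.MP_122e00_nt.Hyb

open Finset Filter Topology MeasureTheory

namespace IF1

theorem bi_nonneg (th : ℝ) (w : Fin 3 → ℝ) : 0 ≤ bi th w := by
  unfold bi
  split_ifs <;> norm_num

theorem bi_le (th : ℝ) (w : Fin 3 → ℝ) : bi th w ≤ 1 := by
  unfold bi
  split_ifs <;> norm_num

theorem gi_nonneg (th : ℝ) (w : Fin 3 → ℝ) : 0 ≤ gi th w := by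
  unfold gi
  split_ifs <;> norm_num

theorem gi_le (th : ℝ) (w : Fin 3 → ℝ) : gi th w ≤ 1 := by
  unfold gi
  split_ifs <;> norm_num

theorem sum3_le (f : Fin 3 → ℝ) (a : ℝ) (h : ∀ i, f i ≤ a) : ∑ i, f i ≤ 3 * a := by
  rw [Fin.sum_univ_three]
  linarith [h 0, h 1, h 2]

theorem nb_nonneg (th x0 D : ℝ) (v : Fin 3 → ℝ) (j : Fin 3) : 0 ≤ nb th x0 D v j :=
  Finset.sum_nonneg (fun _ _ => bi_nonneg _ _)

theorem nb_le (th x0 D : ℝ) (v : Fin 3 → ℝ) (j : Fin 3) : nb th x0 D v j ≤ 3 := by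
  have := sum3_le (fun i => bi th (ad (ad v j D) i x0)) 1 (fun i => bi_le _ _)
  unfold nb
  linarith

theorem ng_nonneg (th x0 D : ℝ) (v : Fin 3 → ℝ) (j : Fin 3) : 0 ≤ ng th x0 D v j :=
  Finset.sum_nonneg (fun _ _ => gi_nonneg _ _)

theorem ng_le (th x0 D : ℝ) (v : Fin 3 → ℝ) (j : Fin 3) : ng th x0 D v j ≤ 3 := by
  have := sum3_le (fun i => gi th (ad (ad v j D) i x0)) 1 (fun i => gi_le _ _)
  unfold ng
  linarith

theorem bt_nonneg (th x0 D : ℝ) (v : Fin 3 → ℝ) : 0 ≤ bt th x0 D v := by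
  unfold bt
  apply Finset.sum_nonneg
  intro j _
  split_ifs
  · exact nb_nonneg _ _ _ _ _
  · exact le_refl _

theorem bt_le (th x0 D : ℝ) (v : Fin 3 → ℝ) : bt th x0 D v ≤ 9 := by
  classical
  have := sum3_le (fun j => if am (ad v j D) j then nb th x0 D v j else 0) 3 (by
    intro j
    split_ifs
    · exact nb_le _ _ _ _ _
    · norm_num)
  unfold bt
  linarith

theorem gt_nat (th x0 D : ℝ) (v : Fin 3 → ℝ) : ∃ n : ℕ, gt th x0 D v = n := by
  classical
  refine ⟨∑ j : Fin 3, if am (ad v j D) j then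
    (∑ i : Fin 3, if Gd th (ad (ad v j D) i x0) then 1 else 0) else 0, ?_⟩
  unfold gt ng gi
  push_cast
  rfl

theorem cf_bd (th x0 D : ℝ) (v : Fin 3 → ℝ) (i j : Fin 3) :
    0 ≤ cf th x0 D v i j ∧ cf th x0 D v i j ≤ 81 := by
  unfold cf
  split_ifs with h
  · have h1 := bt_nonneg th x0 D v
    have h2 := nb_nonneg th x0 D v i
    have h3 := ng_nonneg th x0 D v j
    have h4 := bt_le th x0 D v
    have h5 := nb_le th x0 D v i
    have h6 := ng_le th x0 D v j
    refine ⟨by positivity, ?_⟩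
    have h7 : bt th x0 D v * nb th x0 D v i * ng th x0 D v j ≤ 81 := by
      calc bt th x0 D v * nb th x0 D v i * ng th x0 D v j ≤ 9 * 3 * 3 :=
            mul_le_mul (mul_le_mul h4 h5 h2 (by norm_num)) h6 h3 (by norm_num)
        _ = 81 := by norm_num
    obtain ⟨n, hn⟩ := gt_nat th x0 D v
    rw [hn]
    rcases Nat.eq_zero_or_pos n with h0 | h0
    · rw [h0]
      norm_num
    · have h8 : (1:ℝ) ≤ (n:ℝ) ^ 2 := by
        have : (1:ℝ) ≤ n := by exact_mod_cast h0
        nlinarith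
      rw [div_le_iff₀ (by linarith)]
      nlinarith
  · exact ⟨le_refl _, by norm_num⟩

theorem sum_castSucc (k : ℕ) (x : Fin (k + 1) → ℝ) (c : ℝ) (hc : 0 < c) (h : stp c x) :
    ∑ m : Fin k, x m.castSucc < c := by
  rcases k with _ | k
  · simpa using hc
  · have h1 := h.2 (Fin.last k)
    have h2 : bef x (Fin.last k) = ∑ m : Fin k, x m.castSucc.succ := by
      unfold bef
      rw [Finset.sum_filter, Fin.sum_univ_castSucc]
      simp [Fin.castSucc_lt_last]
    rw [h2] at h1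
    rw [Fin.sum_univ_succ]
    have e : ∀ m : Fin k, x (m.succ).castSucc = x m.castSucc.succ := fun m => by
      rw [Fin.succ_castSucc]
    simp only [e, Fin.castSucc_zero]
    exact h1

theorem frac_bd (R uj ui : ℝ) (hR : 0 ≤ R) (hR2 : R ≤ 11 / 10) (hj : 1 / 40 ≤ uj)
    (hj2 : uj ≤ 11 / 10) (hi : 1 / 40 ≤ ui) :
    0 ≤ R * uj / ui ^ 2 ∧ R * uj / ui ^ 2 ≤ 2000 := by
  have h1 : (0:ℝ) < ui ^ 2 := by positivity
  refine ⟨div_nonneg (mul_nonneg hR (by linarith)) h1.le, ?_⟩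
  rw [div_le_iff₀ h1]
  have h2 : (1 / 40 : ℝ) ^ 2 ≤ ui ^ 2 := pow_le_pow_left₀ (by norm_num) hi 2
  have h3 : R * uj ≤ (11 / 10) * (11 / 10) := mul_le_mul hR2 hj2 (by linarith) (by norm_num)
  nlinarith

theorem frac_bd2 (R uj : ℝ) (hR : 0 ≤ R) (hR2 : R ≤ 11 / 10) (hj : 1 / 40 ≤ uj) :
    0 ≤ R / uj ∧ R / uj ≤ 44 := by
  have h1 : (0:ℝ) < uj := by linarith
  refine ⟨div_nonneg hR h1.le, ?_⟩
  rw [div_le_iff₀ h1]
  linarith

theorem prod_bd {k : ℕ} (f : Fin k → ℝ) (a : ℝ) (h : ∀ m, 0 ≤ f m ∧ f m ≤ a) :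
    0 ≤ ∏ m, f m ∧ ∏ m, f m ≤ a ^ k := by
  refine ⟨Finset.prod_nonneg (fun m _ => (h m).1), ?_⟩
  calc ∏ m, f m ≤ ∏ _m : Fin k, a :=
        Finset.prod_le_prod (fun m _ => (h m).1) (fun m _ => (h m).2)
    _ = a ^ k := by simp

end IF1

open IF1 in
theorem prfF1 (hb : claimP4b) : claimF1 := by
  classical
  refine ⟨10 ^ 4, by norm_num, ?_⟩
  intro th c hth hth2 hc k x v
  have hc0 : 0 < c := by rw [hc]; linarith
  have hbig : ∀ a : ℝ, 0 ≤ a → a ≤ 10 ^ 4 → a ^ k ≤ (10 ^ 4 : ℝ) ^ k := fun a h1 h2 =>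
    pow_le_pow_left₀ h1 h2 k
  have hF : 0 ≤ FF th c k x v ∧ FF th c k x v ≤ 729 * 2000 ^ k := by
    unfold FF
    split_ifs with h
    · have hterm : ∀ i j : Fin 3,
          0 ≤ cf th (x 0) (blk x) v i j * ∏ m : Fin k,
            ((∑ q, v q + blk x - bef x m) * (v j + blk x - bef x m) /
              (v i + blk x - bef x m) ^ 2) ∧
          cf th (x 0) (blk x) v i j * ∏ m : Fin k,
            ((∑ q, v q + blk x - bef x m) * (v j + blk x - bef x m) /
              (v i + blk x - bef x m) ^ 2) ≤ 81 * 2000 ^ k := by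
        intro i j
        by_cases ham : am (ad v i (blk x)) i ∧ am (ad v j (blk x)) j
        · obtain ⟨c1, c2⟩ := cf_bd th (x 0) (blk x) v i j
          obtain ⟨p1, p2⟩ := prod_bd (fun m : Fin k =>
            (∑ q, v q + blk x - bef x m) * (v j + blk x - bef x m) /
              (v i + blk x - bef x m) ^ 2) 2000 (by
            intro m
            obtain ⟨a1, a2, a3, a4⟩ := hb th c hth hth2 hc k x v h.1 (Or.inl h.2) j ham.2 m
            obtain ⟨b1, -, -, -⟩ := hb th c hth hth2 hc k x v h.1 (Or.inl h.2) i ham.1 m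
            exact frac_bd _ _ _ a2 a3 a1 a4 b1)
          exact ⟨mul_nonneg c1 p1, mul_le_mul c2 p2 p1 (by norm_num)⟩
        · have h0 : cf th (x 0) (blk x) v i j = 0 := by
            unfold cf
            rw [if_neg ham]
          rw [h0, zero_mul]
          exact ⟨le_refl _, by positivity⟩
      refine ⟨Finset.sum_nonneg (fun i _ => Finset.sum_nonneg (fun j _ => (hterm i j).1)), ?_⟩
      have h1 := sum3_le _ _ (fun i => sum3_le _ _ (fun j => (hterm i j).2))
      refine h1.trans (le_of_eq ?_)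
      ring
    · exact ⟨le_refl _, by positivity⟩
  have hL : 0 ≤ LL th c k (bi th) x v ∧ LL th c k (bi th) x v ≤ 27 * 44 ^ k := by
    unfold LL
    split_ifs with h
    · have hterm : ∀ j : Fin 3,
          0 ≤ wj x v j * ∑ i, bi th (ad (ad v j (blk x)) i (x 0)) ∧
          wj x v j * ∑ i, bi th (ad (ad v j (blk x)) i (x 0)) ≤ 3 * 44 ^ k := by
        intro j
        have s0 : 0 ≤ ∑ i, bi th (ad (ad v j (blk x)) i (x 0)) :=
          Finset.sum_nonneg (fun _ _ => bi_nonneg _ _)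
        have s1 : ∑ i, bi th (ad (ad v j (blk x)) i (x 0)) ≤ 3 * 1 :=
          sum3_le _ _ (fun _ => bi_le _ _)
        unfold wj
        split_ifs with ham
        · obtain ⟨p1, p2⟩ := prod_bd (fun m : Fin k =>
            ((∑ i, v i + blk x - bef x m) / (v j + blk x - bef x m))) 44 (by
            intro m
            obtain ⟨a1, a2, a3, a4⟩ := hb th c hth hth2 hc k x v h.1 (Or.inr h.2) j ham m
            exact frac_bd2 _ _ a2 a3 a1)
          refine ⟨mul_nonneg p1 s0, ?_⟩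
          calc _ ≤ (44:ℝ) ^ k * (3 * 1) := mul_le_mul p2 s1 s0 (by positivity)
            _ = 3 * 44 ^ k := by ring
        · rw [zero_mul]
          exact ⟨le_refl _, by positivity⟩
      unfold Pk
      refine ⟨Finset.sum_nonneg (fun j _ => (hterm j).1), ?_⟩
      have h1 := sum3_le _ _ (fun j => (hterm j).2)
      refine h1.trans ?_
      have : (0:ℝ) ≤ 44 ^ k := by positivity
      linarith
    · exact ⟨le_refl _, by positivity⟩
  refine ⟨hF.1, ?_, hL.1, ?_⟩
  · by_cases h : Reg th x v ∧ stp c x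
    · rw [if_pos (sum_castSucc k x c hc0 h.2), mul_one, pow_succ]
      refine hF.2.trans ?_
      have h1 := hbig 2000 (by norm_num) (by norm_num)
      have h2 : (0:ℝ) ≤ 2000 ^ k := by positivity
      calc (729:ℝ) * 2000 ^ k ≤ 10 ^ 4 * (10 ^ 4) ^ k :=
            mul_le_mul (by norm_num) h1 h2 (by norm_num)
        _ = _ := by ring
    · have h0 : FF th c k x v = 0 := by
        unfold FF
        rw [if_neg h]
      rw [h0]
      split_ifs <;> positivity
  · refine hL.2.trans ?_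
    rw [pow_succ]
    have h1 := hbig 44 (by norm_num) (by norm_num)
    have h2 : (0:ℝ) ≤ 44 ^ k := by positivity
    calc (27:ℝ) * 44 ^ k ≤ 10 ^ 4 * (10 ^ 4) ^ k :=
          mul_le_mul (by norm_num) h1 h2 (by norm_num)
      _ = _ := by ring

end Pool.Agent.Work.MP_122e00_nt.Hyb
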