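import Pool.Agent.Work.MP_122e00_nt.Hyb.Stmts
import Pool.Agent.Work.MP_122e00_nt.Bd.B40
import Pool.Agent.Work.MP_122e00_nt.Two.ItemT8

set_option autoImplicit false

namespace Pool.Agent.Work.MP_122e00_nt.Hyb

open Finset Filter Topology MeasureTheory

namespace IF2

/-- A linear form which does not vanish takes a given value almost nowhere. -/
lemma ae_ne {ι : Type} [Fintype ι] (L : (ι → ℝ) →ₗ[ℝ] ℝ) (u : ι → ℝ) (hu : L u ≠ 0) (b : ℝ) :
    ∀ᵐ y : ι → ℝ, L y ≠ b := by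
  classical
  have hL : ∀ y, L y = ∑ i, L (fun j => if i = j then 1 else 0) * y i := by
    intro y
    rw [LinearMap.pi_apply_eq_sum_univ L y]
    exact Finset.sum_congr rfl fun i _ => by rw [smul_eq_mul, mul_comm]
  have h := Two.prfL6 ι (fun i => L (fun j => if i = j then 1 else 0)) b ?_
  · rw [ae_iff]
    have e : {y : ι → ℝ | ¬ L y ≠ b} =
        {y | ∑ i, L (fun j => if i = j then 1 else 0) * y i = b} := by
      ext y
      simp only [Set.mem_ofPred_eq, not_not]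
      rw [hL y]
    rw [e]
    exact h
  · intro h0
    apply hu
    rw [hL u]
    refine Finset.sum_eq_zero fun i _ => ?_
    have := congrFun h0 i
    simp only [Pi.zero_apply] at this
    rw [this, zero_mul]

variable {P : Type*} [TopologicalSpace P]

lemma ev_lt {f g : P → ℝ} {p0 : P} (hf : ContinuousAt f p0) (hg : ContinuousAt g p0)
    (h : f p0 ≠ g p0) : ∀ᶠ p in 𝓝 p0, (f p < g p ↔ f p0 < g p0) ∧ f p ≠ g p := by
  rcases lt_or_gt_of_ne h with h1 | h1
  · filter_upwards [hf.eventually_lt hg h1] with p hp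
    exact ⟨⟨fun _ => h1, fun _ => hp⟩, hp.ne⟩
  · filter_upwards [hg.eventually_lt hf h1] with p hp
    exact ⟨⟨fun h2 => absurd h2 (not_lt.2 hp.le), fun h2 => absurd h2 (not_lt.2 h1.le)⟩, hp.ne'⟩

lemma cont_ad {v : P → Fin 3 → ℝ} {t : P → ℝ} {p0 : P} (hv : ∀ q, ContinuousAt (fun p => v p q) p0)
    (ht : ContinuousAt t p0) (i q : Fin 3) : ContinuousAt (fun p => ad (v p) i (t p) q) p0 := by
  unfold ad
  by_cases h : q = i
  · simp only [h, if_true]
    exact (hv i).add ht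
  · simp only [h, if_false]
    exact hv q

lemma ev_am {v : P → Fin 3 → ℝ} {D : P → ℝ} {p0 : P} (j : Fin 3)
    (hv : ∀ q, ContinuousAt (fun p => v p q) p0) (hD : ContinuousAt D p0)
    (hne : ∀ q, q ≠ j → v p0 q ≠ v p0 j + D p0) :
    ∀ᶠ p in 𝓝 p0, (am (ad (v p) j (D p)) j ↔ am (ad (v p0) j (D p0)) j) := by
  have key : ∀ q, ∀ᶠ p in 𝓝 p0,
      ((ad (v p) j (D p) q < ad (v p) j (D p) j ∨
        (ad (v p) j (D p) q = ad (v p) j (D p) j ∧ j ≤ q)) ↔
      (ad (v p0) j (D p0) q < ad (v p0) j (D p0) j ∨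
        (ad (v p0) j (D p0) q = ad (v p0) j (D p0) j ∧ j ≤ q))) := by
    intro q
    by_cases hq : q = j
    · subst hq
      exact Eventually.of_forall fun p => by simp
    · have h0 : ad (v p0) j (D p0) q ≠ ad (v p0) j (D p0) j := by
        have := hne q hq
        simp only [ad, hq, if_false, if_true]
        exact this
      filter_upwards [ev_lt (cont_ad hv hD j q) (cont_ad hv hD j j) h0] with p hp
      simp only [hp.1, hp.2, h0, false_and, or_false]
  filter_upwards [eventually_all.2 key] with p hp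
  unfold am
  exact forall_congr' hp

lemma ev_Gd {w : P → Fin 3 → ℝ} {p0 : P} (th : ℝ)
    (hw : ∀ q, ContinuousAt (fun p => w p q) p0)
    (hne : ∀ i, (∑ q, w p0 q) - w p0 i ≠ 1 / 2 - th) :
    ∀ᶠ p in 𝓝 p0, (Gd th (w p) ↔ Gd th (w p0)) := by
  have key : ∀ i, ∀ᶠ p in 𝓝 p0,
      ((∑ q, w p q) - w p i ≤ 1 / 2 - th ↔ (∑ q, w p0 q) - w p0 i ≤ 1 / 2 - th) := by
    intro i
    have hc : ContinuousAt (fun p => (∑ q, w p q) - w p i) p0 :=
      (tendsto_finsetSum _ fun q _ => hw q).sub (hw i)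
    filter_upwards [ev_lt (continuousAt_const (y := 1 / 2 - th)) hc (hne i).symm] with p hp
    rw [← not_lt, ← not_lt, hp.1]
  filter_upwards [eventually_all.2 key] with p hp
  unfold Gd
  exact exists_congr hp

lemma cf_congr {th x0 x0' D D' : ℝ} {v v' : Fin 3 → ℝ}
    (h1 : ∀ j, am (ad v j D) j ↔ am (ad v' j D') j)
    (h2 : ∀ i j, Gd th (ad (ad v j D) i x0) ↔ Gd th (ad (ad v' j D') i x0')) (i j : Fin 3) :
    cf th x0 D v i j = cf th x0' D' v' i j := by
  classical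
  have hb : ∀ i j, bi th (ad (ad v j D) i x0) = bi th (ad (ad v' j D') i x0') := by
    intro i j
    unfold bi
    by_cases h : Gd th (ad (ad v j D) i x0)
    · rw [if_pos h, if_pos ((h2 i j).1 h)]
    · rw [if_neg h, if_neg fun h' => h ((h2 i j).2 h')]
  have hg : ∀ i j, gi th (ad (ad v j D) i x0) = gi th (ad (ad v' j D') i x0') := by
    intro i j
    unfold gi
    by_cases h : Gd th (ad (ad v j D) i x0)
    · rw [if_pos h, if_pos ((h2 i j).1 h)]
    · rw [if_neg h, if_neg fun h' => h ((h2 i j).2 h')]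
  have hnb : ∀ j, nb th x0 D v j = nb th x0' D' v' j := fun j => by
    unfold nb
    exact Finset.sum_congr rfl fun i _ => hb i j
  have hng : ∀ j, ng th x0 D v j = ng th x0' D' v' j := fun j => by
    unfold ng
    exact Finset.sum_congr rfl fun i _ => hg i j
  have hbt : bt th x0 D v = bt th x0' D' v' := by
    unfold bt
    refine Finset.sum_congr rfl fun j _ => ?_
    by_cases h : am (ad v j D) j
    · rw [if_pos h, if_pos ((h1 j).1 h), hnb]
    · rw [if_neg h, if_neg fun h' => h ((h1 j).2 h')]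
  have hgt : gt th x0 D v = gt th x0' D' v' := by
    unfold gt
    refine Finset.sum_congr rfl fun j _ => ?_
    by_cases h : am (ad v j D) j
    · rw [if_pos h, if_pos ((h1 j).1 h), hng]
    · rw [if_neg h, if_neg fun h' => h ((h1 j).2 h')]
  unfold cf
  rw [hbt, hgt, hnb, hng]
  by_cases h : am (ad v i D) i ∧ am (ad v j D) j
  · rw [if_pos h, if_pos ⟨(h1 i).1 h.1, (h1 j).1 h.2⟩]
  · rw [if_neg h, if_neg fun h' => h ⟨(h1 i).2 h'.1, (h1 j).2 h'.2⟩]

lemma am_of_cf {th x0 D : ℝ} {v : Fin 3 → ℝ} {i j : Fin 3} (h : cf th x0 D v i j ≠ 0) :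
    am (ad v i D) i := by
  classical
  by_contra h1
  apply h
  unfold cf
  rw [if_neg]
  exact fun h2 => h1 h2.1

/-- The linear forms. -/
noncomputable def lx {k : ℕ} (m : Fin (k + 1)) : (Fin (k + 1) ⊕ Fin 2 → ℝ) →ₗ[ℝ] ℝ :=
  LinearMap.proj (Sum.inl m)

noncomputable def lD (k : ℕ) : (Fin (k + 1) ⊕ Fin 2 → ℝ) →ₗ[ℝ] ℝ := ∑ m : Fin k, lx m.succ

noncomputable def lB {k : ℕ} (m : Fin k) : (Fin (k + 1) ⊕ Fin 2 → ℝ) →ₗ[ℝ] ℝ :=
  ∑ m' ∈ Finset.univ.filter (fun m' : Fin k => m' < m), lx m'.succ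

noncomputable def lv {k : ℕ} (q : Fin 3) : (Fin (k + 1) ⊕ Fin 2 → ℝ) →ₗ[ℝ] ℝ :=
  if q = 0 then LinearMap.proj (Sum.inr 0) else
    if q = 1 then LinearMap.proj (Sum.inr 1) else -∑ i, LinearMap.proj i

/-- The last coordinates. -/
noncomputable def vv {k : ℕ} (p : (Fin (k + 1) ⊕ Fin 2 → ℝ) × ℝ) : Fin 3 → ℝ :=
  Fin.snoc (α := fun _ => ℝ) (fun i : Fin 2 => p.1 (Sum.inr i)) p.2

lemma vv_eq {k : ℕ} (y : Fin (k + 1) ⊕ Fin 2 → ℝ) (q : Fin 3) :
    vv (y, 1 - ∑ i, y i) q = lv q y + if q = 2 then 1 else 0 := by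
  have h0 : vv (y, 1 - ∑ i, y i) 0 = y (Sum.inr 0) := rfl
  have h1 : vv (y, 1 - ∑ i, y i) 1 = y (Sum.inr 1) := rfl
  have h2 : vv (y, 1 - ∑ i, y i) 2 = 1 - ∑ i, y i := rfl
  fin_cases q
  · refine h0.trans ?_
    simp [lv]
  · refine h1.trans ?_
    simp [lv]
  · refine h2.trans ?_
    simp [lv, LinearMap.sum_apply]
    ring

lemma lD_apply {k : ℕ} (y : Fin (k + 1) ⊕ Fin 2 → ℝ) :
    lD k y = ∑ m : Fin k, y (Sum.inl m.succ) := by
  simp [lD, lx, LinearMap.sum_apply]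

lemma lB_apply {k : ℕ} (m : Fin k) (y : Fin (k + 1) ⊕ Fin 2 → ℝ) :
    lB m y = ∑ m' ∈ Finset.univ.filter (fun m' : Fin k => m' < m), y (Sum.inl m'.succ) := by
  simp [lB, lx, LinearMap.sum_apply]

/-- A test point for all linear forms. -/
noncomputable def tp (k : ℕ) : Fin (k + 1) ⊕ Fin 2 → ℝ :=
  Sum.elim (fun m => if m = 0 then 4 else 0) (fun q => if q = 0 then 1 else 2)

lemma lv_tp (k : ℕ) : lv (k := k) 0 (tp k) = 1 ∧ lv (k := k) 1 (tp k) = 2 ∧
    lv (k := k) 2 (tp k) = -7 := by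
  refine ⟨by simp [lv, tp], by simp [lv, tp], ?_⟩
  simp [lv, tp, LinearMap.sum_apply]
  norm_num

lemma lx_tp (k : ℕ) : lx (k := k) 0 (tp k) = 4 := by simp [lx, tp]

lemma lD_tp (k : ℕ) : lD k (tp k) = 0 := by
  rw [lD_apply]
  exact Finset.sum_eq_zero fun m _ => by simp [tp]

lemma lB_tp {k : ℕ} (m : Fin k) : lB m (tp k) = 0 := by
  rw [lB_apply]
  exact Finset.sum_eq_zero fun m _ => by simp [tp]

lemma aeA (k : ℕ) (j q : Fin 3) (hq : q ≠ j) : ∀ᵐ y : Fin (k + 1) ⊕ Fin 2 → ℝ,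
    vv (y, 1 - ∑ i, y i) q ≠ vv (y, 1 - ∑ i, y i) j + ∑ m : Fin k, y (Sum.inl m.succ) := by
  have h := ae_ne (lv q - lv j - lD k) (tp k) ?_
    ((if j = 2 then 1 else 0) - (if q = 2 then 1 else 0))
  · filter_upwards [h] with y hy e
    apply hy
    rw [vv_eq, vv_eq, ← lD_apply] at e
    simp only [LinearMap.sub_apply]
    linarith
  · obtain ⟨h0, h1, h2⟩ := lv_tp k
    simp only [LinearMap.sub_apply, lD_tp]
    fin_cases q <;> fin_cases j <;> simp_all <;> norm_num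

lemma aeB (k : ℕ) (th : ℝ) (i j i' : Fin 3) : ∀ᵐ y : Fin (k + 1) ⊕ Fin 2 → ℝ,
    ad (ad (vv (y, 1 - ∑ i, y i)) j (∑ m : Fin k, y (Sum.inl m.succ))) i' (y (Sum.inl 0)) i ≠
      1 / 2 + th := by
  have h := ae_ne (lv i + (if i = j then 1 else 0 : ℝ) • lD k + (if i = i' then 1 else 0 : ℝ) • lx 0)
    (tp k) ?_ (1 / 2 + th - (if i = 2 then 1 else 0))
  · filter_upwards [h] with y hy e
    apply hy
    have e0 : y (Sum.inl 0) = lx 0 y := rfl
    simp only [ad] at e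
    rw [vv_eq, ← lD_apply, e0] at e
    simp only [LinearMap.add_apply, LinearMap.smul_apply, smul_eq_mul]
    split_ifs at e ⊢ <;> linarith
  · obtain ⟨h0, h1, h2⟩ := lv_tp k
    simp only [LinearMap.add_apply, LinearMap.smul_apply, smul_eq_mul, lD_tp, lx_tp, mul_zero,
      add_zero]
    fin_cases i <;> fin_cases i' <;> simp_all <;> norm_num

lemma aeC (k : ℕ) (c : ℝ) : ∀ᵐ y : Fin (k + 1) ⊕ Fin 2 → ℝ,
    y (Sum.inl 0) + ∑ m : Fin k, y (Sum.inl m.succ) ≠ c := by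
  have h := ae_ne (lx 0 + lD k) (tp k) ?_ c
  · filter_upwards [h] with y hy e
    apply hy
    rw [LinearMap.add_apply, lD_apply]
    exact e
  · rw [LinearMap.add_apply, lD_tp, lx_tp]
    norm_num

lemma aeD (k : ℕ) (c : ℝ) (m : Fin k) : ∀ᵐ y : Fin (k + 1) ⊕ Fin 2 → ℝ,
    y (Sum.inl 0) + ∑ m' ∈ Finset.univ.filter (fun m' : Fin k => m' < m), y (Sum.inl m'.succ) ≠
      c := by
  have h := ae_ne (lx 0 + lB m) (tp k) ?_ c
  · filter_upwards [h] with y hy e
    apply hy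
    rw [LinearMap.add_apply, lB_apply]
    exact e
  · rw [LinearMap.add_apply, lB_tp, lx_tp]
    norm_num

lemma sum_ad (w : Fin 3 → ℝ) (i : Fin 3) (t : ℝ) : ∑ q, ad w i t q = ∑ q, w q + t := by
  simp only [ad, Fin.sum_univ_three]
  fin_cases i <;> simp <;> ring

lemma vv_cont (k : ℕ) (q : Fin 3) :
    Continuous (fun p : (Fin (k + 1) ⊕ Fin 2 → ℝ) × ℝ => vv p q) := by
  fin_cases q
  · show Continuous (fun p : (Fin (k + 1) ⊕ Fin 2 → ℝ) × ℝ => p.1 (Sum.inr 0))
    fun_prop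
  · show Continuous (fun p : (Fin (k + 1) ⊕ Fin 2 → ℝ) × ℝ => p.1 (Sum.inr 1))
    fun_prop
  · show Continuous (fun p : (Fin (k + 1) ⊕ Fin 2 → ℝ) × ℝ => p.2)
    fun_prop

end IF2

theorem prfF2 (hb : claimP4b) : claimF2 := by
  classical
  intro th c hth hth1 hc k
  have hA := ae_all_iff.2 fun j => ae_all_iff.2 fun q => ae_all_iff.2 fun hq => IF2.aeA k j q hq
  have hB := ae_all_iff.2 fun i => ae_all_iff.2 fun j => ae_all_iff.2 fun i' => IF2.aeB k th i j i'
  have hC := IF2.aeC k c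
  have hD := ae_all_iff.2 fun m => IF2.aeD k c m
  filter_upwards [ae_restrict_mem (Two.IT8.Sim_meas (k + 1) 2), ae_restrict_of_ae hA,
    ae_restrict_of_ae hB, ae_restrict_of_ae hC, ae_restrict_of_ae hD] with y hy hA hB hC hD
  obtain ⟨hpos, hsum⟩ := hy
  set p0 : (Fin (k + 1) ⊕ Fin 2 → ℝ) × ℝ := (y, 1 - ∑ i, y i) with hp0
  set X : (Fin (k + 1) ⊕ Fin 2 → ℝ) × ℝ → Fin (k + 1) → ℝ := fun p i => p.1 (Sum.inl i) with hX'
  set D : (Fin (k + 1) ⊕ Fin 2 → ℝ) × ℝ → ℝ := fun p => blk (X p) with hD'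
  set B : Fin k → (Fin (k + 1) ⊕ Fin 2 → ℝ) × ℝ → ℝ := fun m p => bef (X p) m with hB'
  have cX : ∀ m, ContinuousAt (fun p => X p m) p0 := fun m => by
    have : Continuous (fun p => X p m) := by
      simp only [hX']
      fun_prop
    exact this.continuousAt
  have cV : ∀ q, ContinuousAt (fun p => IF2.vv (k := k) p q) p0 := fun q =>
    (IF2.vv_cont k q).continuousAt
  have cD : ContinuousAt D p0 := tendsto_finsetSum _ fun m _ => cX m.succ
  have cB : ∀ m, ContinuousAt (B m) p0 := fun m => tendsto_finsetSum _ fun m' _ => cX m'.succ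
  have cS : ContinuousAt (fun p => ∑ q, IF2.vv (k := k) p q) p0 := tendsto_finsetSum _ fun q _ => cV q
  have cSX : ContinuousAt (fun p => ∑ m, X p m) p0 := tendsto_finsetSum _ fun q _ => cX q
  have x0pos : ∀ m, 0 < X p0 m := fun m => hpos (Sum.inl m)
  have v0pos : ∀ q, 0 < IF2.vv (k := k) p0 q := by
    intro q
    fin_cases q
    · exact hpos (Sum.inr 0)
    · exact hpos (Sum.inr 1)
    · exact sub_pos.2 hsum
  have hs1 : ∑ m, X p0 m + ∑ q, IF2.vv (k := k) p0 q = 1 := by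
    have e1 : ∑ q, IF2.vv (k := k) p0 q = y (Sum.inr 0) + y (Sum.inr 1) + (1 - ∑ i, y i) := by
      rw [Fin.sum_univ_three]
      rfl
    have e2 : ∑ i, y i = ∑ m, X p0 m + (y (Sum.inr 0) + y (Sum.inr 1)) := by
      rw [Fintype.sum_sum_type, Fin.sum_univ_two]
    rw [e1, e2]
    ring
  have hs2 : ∑ m, X p0 m = X p0 0 + D p0 := Fin.sum_univ_succ _
  -- the conditions are stable
  have E1 : ∀ᶠ p in 𝓝 p0, Reg th (X p) (IF2.vv p) := by
    have a1 := eventually_all.2 fun m => (continuousAt_const (y := (0 : ℝ))).eventually_lt (cX m) (x0pos m)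
    have a2 := eventually_all.2 fun q => (continuousAt_const (y := (0 : ℝ))).eventually_lt (cV q) (v0pos q)
    have a3 := (continuousAt_const (y := (9 / 10 : ℝ))).eventually_lt (cSX.add cS)
      (show (9 / 10 : ℝ) < ∑ m, X p0 m + ∑ q, IF2.vv (k := k) p0 q by rw [hs1]; norm_num)
    have a4 := (cSX.add cS).eventually_lt (continuousAt_const (y := 1 + th / 2))
      (show ∑ m, X p0 m + ∑ q, IF2.vv (k := k) p0 q < 1 + th / 2 by rw [hs1]; linarith)
    filter_upwards [a1, a2, a3, a4] with p h1 h2 h3 h4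
    exact ⟨fun m => (h1 m).le, fun q => (h2 q).le, h3.le, h4.le⟩
  have E2 : ∀ᶠ p in 𝓝 p0, (stp c (X p) ↔ stp c (X p0)) := by
    have a1 := IF2.ev_lt ((cX 0).add cD) (continuousAt_const (y := c)) hC
    have a2 := eventually_all.2 fun m => IF2.ev_lt ((cX 0).add (cB m)) (continuousAt_const (y := c)) (hD m)
    filter_upwards [a1, a2] with p h1 h2
    unfold stp
    refine and_congr ?_ (forall_congr' fun m => (h2 m).1)
    rw [← not_lt, ← not_lt]
    exact not_congr h1.1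
  have E3 : ∀ᶠ p in 𝓝 p0, ∀ j, (am (ad (IF2.vv p) j (D p)) j ↔ am (ad (IF2.vv p0) j (D p0)) j) :=
    eventually_all.2 fun j => IF2.ev_am j cV cD (fun q hq => hA j q hq)
  have E4 : ∀ᶠ p in 𝓝 p0, ∀ i j, (Gd th (ad (ad (IF2.vv p) j (D p)) i (X p 0)) ↔
      Gd th (ad (ad (IF2.vv p0) j (D p0)) i (X p0 0))) := by
    refine eventually_all.2 fun i => eventually_all.2 fun j => ?_
    refine IF2.ev_Gd th (IF2.cont_ad (IF2.cont_ad cV cD j) (cX 0) i) fun i1 e => ?_
    rw [IF2.sum_ad, IF2.sum_ad] at e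
    apply hB i1 j i
    have : ad (ad (IF2.vv p0) j (D p0)) i (X p0 0) i1 = 1 / 2 + th := by linarith
    exact this
  by_cases hs : stp c (X p0)
  · have hG : ContinuousAt (fun p : (Fin (k + 1) ⊕ Fin 2 → ℝ) × ℝ => ∑ i, ∑ j,
        cf th (X p0 0) (D p0) (IF2.vv p0) i j * ∏ m : Fin k,
        ((∑ q, IF2.vv p q + D p - B m p) * (IF2.vv p j + D p - B m p) /
          (IF2.vv p i + D p - B m p) ^ 2)) p0 := by
      refine tendsto_finsetSum _ fun i _ => tendsto_finsetSum _ fun j _ => ?_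
      by_cases h0 : cf th (X p0 0) (D p0) (IF2.vv p0) i j = 0
      · simp only [h0, zero_mul]
        exact tendsto_const_nhds
      · have ham := IF2.am_of_cf h0
        refine ContinuousAt.mul continuousAt_const ?_
        refine tendsto_finsetProd _ fun m _ => ?_
        have hden : 1 / 40 ≤ IF2.vv p0 i + D p0 - B m p0 :=
          (hb th c hth hth1 hc k (X p0) (IF2.vv p0) E1.self_of_nhds (Or.inl hs) i ham m).1
        refine ContinuousAt.div ?_ ?_ ?_
        · exact ((cS.add cD).sub (cB m)).mul (((cV j).add cD).sub (cB m))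
        · exact (((cV i).add cD).sub (cB m)).pow 2
        · exact pow_ne_zero 2 (by linarith)
    refine hG.congr ?_
    filter_upwards [E1, E2, E3, E4] with p h1 h2 h3 h4
    show _ = FF th c k (X p) (IF2.vv p)
    unfold FF
    rw [if_pos ⟨h1, h2.2 hs⟩]
    refine Finset.sum_congr rfl fun i _ => Finset.sum_congr rfl fun j _ => ?_
    rw [IF2.cf_congr (x0 := X p 0) (x0' := X p0 0) (D := blk (X p)) (D' := blk (X p0)) h3 h4 i j]
  · have hz : ContinuousAt (fun _ : (Fin (k + 1) ⊕ Fin 2 → ℝ) × ℝ => (0 : ℝ)) p0 :=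
      continuousAt_const
    refine hz.congr ?_
    filter_upwards [E2] with p h2
    show _ = FF th c k (X p) (IF2.vv p)
    unfold FF
    rw [if_neg fun h => hs (h2.1 h.2)]

end Pool.Agent.Work.MP_122e00_nt.Hyb
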