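import Pool.Agent.Work.MP_122e00_nt.Hyb.Stmts
import Pool.Agent.Work.MP_122e00_nt.Bd.B40

set_option autoImplicit false

/-!
# Item F3: continuity of the indicator of the good factorisations
-/

namespace Pool.Agent.Work.MP_122e00_nt.Hyb

open Finset Filter Topology MeasureTheory

open scoped ENNReal ArithmeticFunction.vonMangoldt ArithmeticFunction.zeta

namespace IF3

theorem ae_ne {c : Fin 0 ⊕ Fin 2 → ℝ} (hc : c ≠ 0) (b : ℝ) :
    ∀ᵐ y ∂(volume.restrict (Two.Sim 0 2)), ∑ i, c i * y i ≠ b := by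
  refine ae_restrict_of_ae ?_
  rw [ae_iff]
  have h := Two.prfL6 (Fin 0 ⊕ Fin 2) c b hc
  simpa using h

theorem ev_iff {α : Type} [TopologicalSpace α] {G : α → ℝ} {p : α} (hG : ContinuousAt G p)
    {a : ℝ} (h : G p ≠ a) : ∀ᶠ q in 𝓝 p, (G q ≤ a ↔ G p ≤ a) := by
  rcases lt_or_gt_of_ne h with h1 | h1
  · filter_upwards [hG.eventually_lt_const h1] with q hq
    exact ⟨fun _ => h1.le, fun _ => hq.le⟩
  · filter_upwards [hG.eventually_const_lt h1] with q hq
    exact ⟨fun h2 => absurd h2 (not_le.2 hq), fun h2 => absurd h2 (not_le.2 h1)⟩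

/-- the three sizes -/
noncomputable def w (p : (Fin 0 ⊕ Fin 2 → ℝ) × ℝ) : Fin 3 → ℝ :=
  Fin.snoc (fun i : Fin 2 => p.1 (Sum.inr i)) p.2

theorem w_cont (i : Fin 3) : Continuous fun p => w p i := by
  fin_cases i
  · exact (continuous_apply (Sum.inr (0 : Fin 2))).comp continuous_fst
  · exact (continuous_apply (Sum.inr (1 : Fin 2))).comp continuous_fst
  · exact continuous_snd

end IF3

open IF3 in
theorem prfF3 : claimF3 := by
  classical
  intro th _ _
  have n0 : (Pi.single (Sum.inr 0) 1 : Fin 0 ⊕ Fin 2 → ℝ) ≠ 0 := by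
    intro h
    have := congrFun h (Sum.inr 0)
    simp at this
  have n1 : (Pi.single (Sum.inr 1) 1 : Fin 0 ⊕ Fin 2 → ℝ) ≠ 0 := by
    intro h
    have := congrFun h (Sum.inr 1)
    simp at this
  have n2 : (1 : Fin 0 ⊕ Fin 2 → ℝ) ≠ 0 := by
    intro h
    have := congrFun h (Sum.inr 1)
    simp at this
  filter_upwards [ae_ne n0 (1 / 2 + th), ae_ne n1 (1 / 2 + th), ae_ne n2 (1 / 2 - th)] with y e0 e1 e2
  simp only [Fintype.sum_sum_type, Finset.univ_eq_empty, Finset.sum_empty, Fin.sum_univ_two,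
    zero_add] at e0 e1 e2
  simp at e0 e1 e2
  set p₀ : (Fin 0 ⊕ Fin 2 → ℝ) × ℝ := (y, 1 - ∑ i, y i) with hp₀
  have hG : ∀ i : Fin 3, Continuous fun p => (∑ q, w p q) - w p i := fun i =>
    (continuous_finsetSum _ fun q _ => w_cont q).sub (w_cont i)
  have w0 : w p₀ 0 = y (Sum.inr 0) := rfl
  have w1 : w p₀ 1 = y (Sum.inr 1) := rfl
  have w2 : w p₀ 2 = 1 - (y (Sum.inr 0) + y (Sum.inr 1)) := by
    have : w p₀ 2 = 1 - ∑ i, y i := rfl
    rw [this]
    simp [Fintype.sum_sum_type]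
  have hne : ∀ i : Fin 3, (∑ q, w p₀ q) - w p₀ i ≠ 1 / 2 - th := by
    intro i
    have hs : ∑ q, w p₀ q = 1 := by
      rw [Fin.sum_univ_three, w0, w1, w2]
      ring
    rw [hs]
    fin_cases i
    · change 1 - w p₀ 0 ≠ _
      rw [w0]
      intro h
      apply e0
      linarith
    · change 1 - w p₀ 1 ≠ _
      rw [w1]
      intro h
      apply e1
      linarith
    · change 1 - w p₀ 2 ≠ _
      rw [w2]
      intro h
      apply e2
      linarith
  have hev : ∀ᶠ p in 𝓝 p₀, ∀ i : Fin 3, ((∑ q, w p q) - w p i ≤ 1 / 2 - th ↔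
      (∑ q, w p₀ q) - w p₀ i ≤ 1 / 2 - th) :=
    eventually_all.2 fun i => ev_iff (hG i).continuousAt (hne i)
  have hev2 : (fun _ => gi th (w p₀)) =ᶠ[𝓝 p₀]
      Two.ext (k := 0) (s := 2) (fun _ v => gi th v) := by
    filter_upwards [hev] with p hp
    have h1 : Gd th (w p) ↔ Gd th (w p₀) := by
      unfold Gd
      exact exists_congr fun i => hp i
    change gi th (w p₀) = gi th (w p)
    unfold gi
    by_cases h2 : Gd th (w p₀)
    · rw [if_pos h2, if_pos (h1.2 h2)]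
    · rw [if_neg h2, if_neg (fun h3 => h2 (h1.1 h3))]
  exact continuousAt_const.congr hev2

end Pool.Agent.Work.MP_122e00_nt.Hyb
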