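import Pool.Agent.Work.MP_122e00_nt.Hyb.Stmts
import Pool.Agent.Work.MP_122e00_nt.Bd.B40

set_option autoImplicit false

/-!
# Item F4: the weight `ps`
-/

namespace Pool.Agent.Work.MP_122e00_nt.Hyb

open Finset Filter Topology MeasureTheory

open scoped ENNReal

namespace IF4

theorem ae_ne (i : Fin 2) : ∀ᵐ y : Fin 2 → ℝ, y i ≠ 0 := by
  have h := Two.prfL6 (Fin 2) (Pi.single i 1) 0 (by
    intro h0
    have := congrFun h0 i
    simp at this)
  rw [ae_iff]
  refine measure_mono_null ?_ h
  intro y hy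
  simp only [ne_eq, Set.mem_ofPred_eq, not_not] at hy ⊢
  fin_cases i
  · simp [Fin.sum_univ_two] at hy ⊢
    exact hy
  · simp [Fin.sum_univ_two] at hy ⊢
    exact hy

theorem ae_sum_ne (a : ℝ) : ∀ᵐ y : Fin 2 → ℝ, ∑ i, y i ≠ a := by
  have h := Two.prfL6 (Fin 2) (fun _ => 1) a (by
    intro h0
    have := congrFun h0 0
    simp at this)
  rw [ae_iff]
  refine measure_mono_null ?_ h
  intro y hy
  simp only [ne_eq, Set.mem_ofPred_eq, not_not] at hy ⊢
  simpa using hy

/-- the triangle in the product -/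
def T (a : ℝ) : Set (ℝ × ℝ) := {p | 0 ≤ p.1 ∧ 0 ≤ p.2 ∧ p.1 + p.2 ≤ a}

theorem T_meas (a : ℝ) : MeasurableSet (T a) := by
  have h1 : IsClosed {p : ℝ × ℝ | 0 ≤ p.1} := isClosed_le continuous_const continuous_fst
  have h2 : IsClosed {p : ℝ × ℝ | 0 ≤ p.2} := isClosed_le continuous_const continuous_snd
  have h3 : IsClosed {p : ℝ × ℝ | p.1 + p.2 ≤ a} :=
    isClosed_le (continuous_fst.add continuous_snd) continuous_const
  exact (h1.inter (h2.inter h3)).measurableSet

theorem T_vol (a : ℝ) (ha : 0 < a) : volume (T a) = ENNReal.ofReal (a ^ 2 / 2) := by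
  rw [Measure.volume_eq_prod, Measure.prod_apply (T_meas a)]
  have h1 : ∀ x : ℝ, volume (Prod.mk x ⁻¹' T a) =
      (Set.Icc 0 a).indicator (fun x => ENNReal.ofReal (a - x)) x := by
    intro x
    by_cases hx : x ∈ Set.Icc 0 a
    · rw [Set.indicator_of_mem hx]
      have : Prod.mk x ⁻¹' T a = Set.Icc 0 (a - x) := by
        ext y
        simp only [T, Set.mem_preimage, Set.mem_ofPred_eq, Set.mem_Icc]
        constructor
        · rintro ⟨_, h2, h3⟩
          exact ⟨h2, by linarith⟩
        · rintro ⟨h2, h3⟩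
          exact ⟨hx.1, h2, by linarith⟩
      rw [this, Real.volume_Icc, sub_zero]
    · rw [Set.indicator_of_notMem hx]
      have : Prod.mk x ⁻¹' T a = ∅ := by
        ext y
        simp only [T, Set.mem_preimage, Set.mem_ofPred_eq, Set.mem_empty_iff_false, iff_false]
        rintro ⟨h1, h2, h3⟩
        exact hx ⟨h1, by linarith⟩
      rw [this, measure_empty]
  simp_rw [h1]
  rw [lintegral_indicator measurableSet_Icc,
    ← ofReal_integral_eq_lintegral_ofReal]
  · congr 1
    rw [integral_Icc_eq_integral_Ioc, ← intervalIntegral.integral_of_le ha.le]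
    rw [intervalIntegral.integral_sub (by simp) (by simp)]
    simp
    ring
  · exact (continuous_const.sub continuous_id).continuousOn.integrableOn_Icc
  · refine (ae_restrict_iff' measurableSet_Icc).2 (Filter.Eventually.of_forall fun x hx => ?_)
    simp only [Pi.zero_apply, sub_nonneg]
    exact hx.2

theorem S_vol (a : ℝ) (ha : 0 < a) :
    volume {y : Fin 2 → ℝ | (∀ i, 0 ≤ y i) ∧ ∑ i, y i ≤ a} = ENNReal.ofReal (a ^ 2 / 2) := by
  have h := volume_preserving_finTwoArrow ℝ
  have h2 : {y : Fin 2 → ℝ | (∀ i, 0 ≤ y i) ∧ ∑ i, y i ≤ a} =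
      (MeasurableEquiv.finTwoArrow : (Fin 2 → ℝ) ≃ᵐ ℝ × ℝ) ⁻¹' T a := by
    ext y
    simp [T, MeasurableEquiv.finTwoArrow, Fin.sum_univ_two, Fin.forall_fin_two, and_assoc]
  rw [h2, h.measure_preimage (T_meas a).nullMeasurableSet, T_vol a ha]

end IF4

theorem prfF4 : claimF4 := by
  intro th hth hth1
  have ha : (0:ℝ) < 1 / 2 - th := by linarith
  refine ⟨⟨?_, ⟨1, ?_⟩, ?_, ?_⟩, ?_⟩
  · intro y
    exact Set.indicator_nonneg (fun _ _ => zero_le_one) y
  · intro y
    unfold ps
    exact Set.indicator_le_self' (fun _ _ => zero_le_one) y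
  · intro y hy
    by_contra hcon
    apply hy
    have hcon' : y ∉ {y : Fin 2 → ℝ | (∀ i, 0 ≤ y i) ∧ ∑ i, y i ≤ 1 / 2 - th} := hcon
    unfold ps
    rw [Set.indicator_of_notMem hcon']
  · filter_upwards [IF4.ae_ne 0, IF4.ae_ne 1, IF4.ae_sum_ne (1 / 2 - th)] with y h0 h1 h2
    have hc0 : Continuous fun y : Fin 2 → ℝ => y 0 := continuous_apply 0
    have hc1 : Continuous fun y : Fin 2 → ℝ => y 1 := continuous_apply 1
    have hcs : Continuous fun y : Fin 2 → ℝ => ∑ i, y i :=
      continuous_finsetSum _ fun i _ => continuous_apply i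
    have key : ∀ c : ℝ, (∀ᶠ z in 𝓝 y, ps th z = c) → ContinuousAt (ps th) y := by
      intro c hc
      exact (continuousAt_const (y := c)).congr (hc.mono fun z hz => hz.symm)
    rcases lt_or_gt_of_ne h0 with h | h
    · apply key 0
      filter_upwards [hc0.continuousAt.eventually_lt continuousAt_const h] with z hz
      unfold ps
      apply Set.indicator_of_notMem
      rintro ⟨h3, _⟩
      exact absurd (h3 0) (not_le.2 hz)
    rcases lt_or_gt_of_ne h1 with h' | h'
    · apply key 0
      filter_upwards [hc1.continuousAt.eventually_lt continuousAt_const h'] with z hz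
      unfold ps
      apply Set.indicator_of_notMem
      rintro ⟨h3, _⟩
      exact absurd (h3 1) (not_le.2 hz)
    rcases lt_or_gt_of_ne h2 with h'' | h''
    · apply key 1
      filter_upwards [hcs.continuousAt.eventually_lt continuousAt_const h'',
        continuousAt_const.eventually_lt hc0.continuousAt h,
        continuousAt_const.eventually_lt hc1.continuousAt h'] with z hz hz0 hz1
      unfold ps
      apply Set.indicator_of_mem
      refine ⟨?_, hz.le⟩
      rw [Fin.forall_fin_two]
      exact ⟨hz0.le, hz1.le⟩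
    · apply key 0
      filter_upwards [continuousAt_const.eventually_lt hcs.continuousAt h''] with z hz
      unfold ps
      apply Set.indicator_of_notMem
      rintro ⟨_, h3⟩
      exact absurd h3 (not_le.2 hz)
  · have hm : MeasurableSet {y : Fin 2 → ℝ | (∀ i, 0 ≤ y i) ∧ ∑ i, y i ≤ 1 / 2 - th} := by
      have h1 : IsClosed {y : Fin 2 → ℝ | ∀ i, 0 ≤ y i} := by
        simp only [Set.ofPred_forall]
        exact isClosed_iInter fun i => isClosed_le continuous_const (continuous_apply i)
      have h3 : IsClosed {y : Fin 2 → ℝ | ∑ i, y i ≤ 1 / 2 - th} :=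
        isClosed_le (continuous_finsetSum _ fun i _ => continuous_apply i) continuous_const
      exact (h1.inter h3).measurableSet
    have : ∫ y, ps th y = (volume {y : Fin 2 → ℝ | (∀ i, 0 ≤ y i) ∧
        ∑ i, y i ≤ 1 / 2 - th}).toReal := by
      have h5 := integral_indicator_one (μ := (volume : Measure (Fin 2 → ℝ))) hm
      exact h5
    rw [this, IF4.S_vol _ ha, ENNReal.toReal_ofReal (by positivity)]

end Pool.Agent.Work.MP_122e00_nt.Hyb
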