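import Pool.Agent.Work.MP_122e00_nt.Hyb.Stmts
import Pool.Agent.Work.MP_122e00_nt.Two.ItemT8

set_option autoImplicit false

/-!
# F5: two integrals over the simplex of factorisations
-/

namespace Pool.Agent.Work.MP_122e00_nt.Hyb

open Finset Filter Topology MeasureTheory

open scoped ENNReal ArithmeticFunction.vonMangoldt ArithmeticFunction.zeta

namespace IF5

/-- The point with the coordinates `x0`, `x1`. -/
def pt (x0 x1 : ℝ) : Fin 0 ⊕ Fin 2 → ℝ := Sum.elim isEmptyElim ![x0, x1]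

lemma toFin2 (f : (Fin 0 ⊕ Fin 2 → ℝ) → ℝ≥0∞) (hf : Measurable f) :
    ∫⁻ y, f y = ∫⁻ x0 : ℝ, ∫⁻ x1 : ℝ, f (pt x0 x1) := by
  have h := volume_measurePreserving_sumPiEquivProdPi_symm (fun _ : Fin 0 ⊕ Fin 2 => ℝ)
  rw [← h.lintegral_comp hf]
  rw [show (volume : Measure ((Fin 0 → ℝ) × (Fin 2 → ℝ))) = volume.prod volume from rfl]
  have hg : Measurable (fun p : (Fin 0 → ℝ) × (Fin 2 → ℝ) =>
      f ((MeasurableEquiv.sumPiEquivProdPi fun _ : Fin 0 ⊕ Fin 2 => ℝ).symm p)) :=
    hf.comp (MeasurableEquiv.measurable _)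
  rw [lintegral_prod _ hg.aemeasurable]
  rw [Two.IT8.lintegral_fin0]
  have hg2 : Measurable (fun v : Fin 2 → ℝ =>
      f ((MeasurableEquiv.sumPiEquivProdPi fun _ : Fin 0 ⊕ Fin 2 => ℝ).symm
        ((isEmptyElim : Fin 0 → ℝ), v))) := hg.comp (measurable_const.prodMk measurable_id)
  rw [Two.IT8.lintegral_cons _ hg2]
  refine lintegral_congr (fun x0 => ?_)
  have hg3 : Measurable (fun v : Fin 1 → ℝ =>
      f ((MeasurableEquiv.sumPiEquivProdPi fun _ : Fin 0 ⊕ Fin 2 => ℝ).symm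
        ((isEmptyElim : Fin 0 → ℝ), (Fin.cons x0 v : Fin 2 → ℝ)))) := by
    refine hg2.comp ?_
    refine measurable_pi_lambda _ (fun i => ?_)
    refine Fin.cases ?_ (fun j => ?_) i
    · exact measurable_const
    · exact measurable_pi_apply j
  rw [Two.IT8.lintegral_cons _ hg3]
  refine lintegral_congr (fun x1 => ?_)
  rw [Two.IT8.lintegral_fin0]
  refine congrArg f ?_
  funext i
  rcases i with i | i
  · exact i.elim0
  · fin_cases i <;> rfl

lemma sum_pt (x0 x1 : ℝ) : ∑ i, pt x0 x1 i = x0 + x1 := by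
  rw [Fintype.sum_sum_type]
  simp [pt]

lemma mem_pt (x0 x1 : ℝ) : pt x0 x1 ∈ Two.Sim 0 2 ↔ 0 < x0 ∧ 0 < x1 ∧ x0 + x1 < 1 := by
  unfold Two.Sim
  rw [Set.mem_ofPred_eq, sum_pt]
  constructor
  · rintro ⟨h1, h2⟩
    exact ⟨h1 (Sum.inr 0), h1 (Sum.inr 1), h2⟩
  · rintro ⟨h1, h2, h3⟩
    refine ⟨?_, h3⟩
    rintro (i | i)
    · exact i.elim0
    · fin_cases i
      · exact h1
      · exact h2

/-- first region -/
def A0 (a : ℝ) : Set (Fin 0 ⊕ Fin 2 → ℝ) := Two.Sim 0 2 ∩ {y | 1 - a ≤ y (Sum.inr 0)}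

/-- second region -/
def A1 (a : ℝ) : Set (Fin 0 ⊕ Fin 2 → ℝ) := Two.Sim 0 2 ∩ {y | 1 - a ≤ y (Sum.inr 1)}

/-- third region -/
def A2 (a : ℝ) : Set (Fin 0 ⊕ Fin 2 → ℝ) :=
  Two.Sim 0 2 ∩ {y | y (Sum.inr 0) + y (Sum.inr 1) ≤ a}

lemma A0_meas (a : ℝ) : MeasurableSet (A0 a) :=
  (Two.IT8.Sim_meas 0 2).inter (measurableSet_le measurable_const (measurable_pi_apply _))

lemma A1_meas (a : ℝ) : MeasurableSet (A1 a) :=
  (Two.IT8.Sim_meas 0 2).inter (measurableSet_le measurable_const (measurable_pi_apply _))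

lemma A2_meas (a : ℝ) : MeasurableSet (A2 a) :=
  (Two.IT8.Sim_meas 0 2).inter (measurableSet_le
    ((measurable_pi_apply (Sum.inr 0)).add (measurable_pi_apply (Sum.inr 1))) measurable_const)

lemma G2 (a : ℝ) (ha : 0 < a) :
    ∫⁻ x : ℝ, (if 0 < x then Two.IT8.G 1 1 (a - x) else 0) = ENNReal.ofReal (a ^ 2 / 2) := by
  rw [Two.IT8.G_int 1 1 a zero_le_one]
  unfold Two.IT8.G
  rw [if_pos ha]
  congr 1
  norm_num
  ring

lemma vol_slice (A : Set (Fin 0 ⊕ Fin 2 → ℝ)) (hA : MeasurableSet A) :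
    volume A = ∫⁻ x0 : ℝ, volume {x1 : ℝ | pt x0 x1 ∈ A} := by
  rw [← lintegral_indicator_one hA, toFin2 _ (measurable_one.indicator hA)]
  refine lintegral_congr (fun x0 => ?_)
  have hm : MeasurableSet {x1 : ℝ | pt x0 x1 ∈ A} := by
    have h : Measurable (fun x1 : ℝ => pt x0 x1) := by
      refine measurable_pi_lambda _ (fun i => ?_)
      rcases i with i | i
      · exact i.elim0
      · fin_cases i
        · exact measurable_const
        · exact measurable_id
    exact h hA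
  rw [← lintegral_indicator_one hm]
  rfl

lemma G_eq (r : ℝ) : ENNReal.ofReal r = Two.IT8.G 1 1 r := by
  unfold Two.IT8.G
  split_ifs with h
  · rw [pow_one, one_mul]
  · exact ENNReal.ofReal_of_nonpos (not_lt.mp h)

lemma vol_A2 (a : ℝ) (ha : 0 < a) (ha1 : a < 1) : volume (A2 a) = ENNReal.ofReal (a ^ 2 / 2) := by
  rw [vol_slice _ (A2_meas a), ← G2 a ha]
  refine lintegral_congr (fun x0 => ?_)
  by_cases h0 : 0 < x0
  · rw [if_pos h0, ← G_eq]
    have e : {x1 : ℝ | pt x0 x1 ∈ A2 a} = Set.Ioc 0 (a - x0) := by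
      ext x1
      simp only [A2, Set.mem_ofPred_eq, Set.mem_inter_iff, mem_pt, Set.mem_Ioc]
      have e1 : pt x0 x1 (Sum.inr 0) = x0 := rfl
      have e2 : pt x0 x1 (Sum.inr 1) = x1 := rfl
      rw [e1, e2]
      constructor
      · rintro ⟨⟨_, h2, _⟩, h4⟩
        exact ⟨h2, by linarith⟩
      · rintro ⟨h1, h2⟩
        exact ⟨⟨h0, h1, by linarith⟩, by linarith⟩
    rw [e, Real.volume_Ioc, sub_zero]
  · rw [if_neg h0]
    have e : {x1 : ℝ | pt x0 x1 ∈ A2 a} = ∅ := by
      refine Set.eq_empty_of_forall_notMem (fun x1 hx => h0 ?_)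
      exact ((mem_pt x0 x1).mp hx.1).1
    rw [e, measure_empty]

lemma vol_A1 (a : ℝ) (ha : 0 < a) (ha1 : a < 1) : volume (A1 a) = ENNReal.ofReal (a ^ 2 / 2) := by
  rw [vol_slice _ (A1_meas a), ← G2 a ha]
  refine lintegral_congr (fun x0 => ?_)
  by_cases h0 : 0 < x0
  · rw [if_pos h0, ← G_eq]
    have e : {x1 : ℝ | pt x0 x1 ∈ A1 a} = Set.Ico (1 - a) (1 - x0) := by
      ext x1
      simp only [A1, Set.mem_ofPred_eq, Set.mem_inter_iff, mem_pt, Set.mem_Ico]
      have e2 : pt x0 x1 (Sum.inr 1) = x1 := rfl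
      rw [e2]
      constructor
      · rintro ⟨⟨_, h2, _⟩, h4⟩
        exact ⟨h4, by linarith⟩
      · rintro ⟨h1, h2⟩
        exact ⟨⟨h0, by linarith, by linarith⟩, by linarith⟩
    rw [e, Real.volume_Ico]
    congr 1
    ring
  · rw [if_neg h0]
    have e : {x1 : ℝ | pt x0 x1 ∈ A1 a} = ∅ := by
      refine Set.eq_empty_of_forall_notMem (fun x1 hx => h0 ?_)
      exact ((mem_pt x0 x1).mp hx.1).1
    rw [e, measure_empty]

lemma vol_A0 (a : ℝ) (ha : 0 < a) (ha1 : a < 1) : volume (A0 a) = ENNReal.ofReal (a ^ 2 / 2) := by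
  rw [vol_slice _ (A0_meas a), ← G2 a ha]
  rw [← lintegral_sub_right_eq_self (fun x : ℝ => if 0 < x then Two.IT8.G 1 1 (a - x) else 0)
    (1 - a)]
  refine lintegral_congr_ae ?_
  have hne : ∀ᵐ x : ℝ, x ≠ 1 - a := by
    have : (volume : Measure ℝ) {1 - a} = 0 := by simp
    exact compl_mem_ae_iff.mpr this
  filter_upwards [hne] with x0 hx
  by_cases h0 : 1 - a < x0
  · rw [if_pos (by linarith), ← G_eq]
    have e : {x1 : ℝ | pt x0 x1 ∈ A0 a} = Set.Ioo 0 (1 - x0) := by
      ext x1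
      simp only [A0, Set.mem_ofPred_eq, Set.mem_inter_iff, mem_pt, Set.mem_Ioo]
      have e2 : pt x0 x1 (Sum.inr 0) = x0 := rfl
      rw [e2]
      constructor
      · rintro ⟨⟨_, h2, _⟩, h4⟩
        exact ⟨h2, by linarith⟩
      · rintro ⟨h1, h2⟩
        exact ⟨⟨by linarith, h1, by linarith⟩, by linarith⟩
    rw [e, Real.volume_Ioo]
    congr 1
    ring
  · rw [if_neg (by linarith)]
    have e : {x1 : ℝ | pt x0 x1 ∈ A0 a} = ∅ := by
      refine Set.eq_empty_of_forall_notMem (fun x1 hx' => ?_)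
      have h3 : 1 - a ≤ x0 := hx'.2
      rcases lt_or_eq_of_le h3 with h4 | h4
      · exact h0 h4
      · exact hx h4.symm
    rw [e, measure_empty]

lemma den_one (y : Fin 0 ⊕ Fin 2 → ℝ) : Two.den y = 1 := by
  unfold Two.den
  simp

end IF5

open IF5 in
theorem prfF5 : claimF5 := by
  intro th h0 h1
  have ha : 0 < 1 / 2 - th := by linarith
  have ha1 : 1 / 2 - th < 1 := by linarith
  constructor
  · have h2 := (Two.prfT8 0 2).2
    have e : ∀ y : Fin 0 ⊕ Fin 2 → ℝ,
        Two.ext (k := 0) (s := 2) (fun _ _ => (1 : ℝ)) (y, 1 - ∑ i, y i) * Two.den y =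
          Two.den y := by
      intro y
      unfold Two.ext
      rw [one_mul]
    simp_rw [e]
    rw [h2]
    norm_num
  · set a : ℝ := 1 / 2 - th with haa
    have hd12 : Disjoint (A0 a) (A1 a) := by
      rw [Set.disjoint_left]
      rintro y ⟨hy, hy0⟩ ⟨_, hy1⟩
      have h2 : ∑ i, y i < 1 := hy.2
      rw [Fintype.sum_sum_type] at h2
      simp only [Finset.univ_eq_empty, Finset.sum_empty, Fin.sum_univ_two, zero_add] at h2
      have hy0' : 1 - a ≤ y (Sum.inr 0) := hy0
      have hy1' : 1 - a ≤ y (Sum.inr 1) := hy1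
      linarith
    have hd3 : Disjoint (A0 a ∪ A1 a) (A2 a) := by
      rw [Set.disjoint_left]
      rintro y hy ⟨_, hy2⟩
      have hy2' : y (Sum.inr 0) + y (Sum.inr 1) ≤ a := hy2
      rcases hy with ⟨hy, hy0⟩ | ⟨hy, hy1⟩
      · have h3 := hy.1 (Sum.inr 1)
        have hy0' : 1 - a ≤ y (Sum.inr 0) := hy0
        linarith
      · have h3 := hy.1 (Sum.inr 0)
        have hy1' : 1 - a ≤ y (Sum.inr 1) := hy1
        linarith
    have hUm : MeasurableSet (A0 a ∪ A1 a ∪ A2 a) :=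
      ((A0_meas a).union (A1_meas a)).union (A2_meas a)
    have hU : volume (A0 a ∪ A1 a ∪ A2 a) = ENNReal.ofReal (3 * (a ^ 2 / 2)) := by
      rw [measure_union hd3 (A2_meas a), measure_union hd12 (A1_meas a), vol_A0 a ha ha1,
        vol_A1 a ha ha1, vol_A2 a ha ha1, ← ENNReal.ofReal_add (by positivity) (by positivity),
        ← ENNReal.ofReal_add (by positivity) (by positivity)]
      congr 1
      ring
    have hsub : A0 a ∪ A1 a ∪ A2 a ⊆ Two.Sim 0 2 := by
      rintro y ((hy | hy) | hy)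
      · exact hy.1
      · exact hy.1
      · exact hy.1
    have key : Set.EqOn (fun y : Fin 0 ⊕ Fin 2 → ℝ =>
        Two.ext (k := 0) (s := 2) (fun _ v => gi th v) (y, 1 - ∑ i, y i) * Two.den y)
        ((A0 a ∪ A1 a ∪ A2 a).indicator (fun _ => (1 : ℝ))) (Two.Sim 0 2) := by
      intro y hy
      have hs : ∑ i, y i = y (Sum.inr 0) + y (Sum.inr 1) := by
        rw [Fintype.sum_sum_type]
        simp
      have hg : Gd th (Fin.snoc (α := fun _ => ℝ) (fun i : Fin 2 => y (Sum.inr i))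
          (1 - ∑ i, y i)) ↔ y ∈ A0 a ∪ A1 a ∪ A2 a := by
        set w : Fin 3 → ℝ := Fin.snoc (α := fun _ => ℝ) (fun i : Fin 2 => y (Sum.inr i))
          (1 - ∑ i, y i) with hw
        have w0 : w 0 = y (Sum.inr 0) := rfl
        have w1 : w 1 = y (Sum.inr 1) := rfl
        have w2 : w 2 = 1 - (y (Sum.inr 0) + y (Sum.inr 1)) := by
          rw [← hs]
          rfl
        have hws : ∑ q, w q = 1 := by
          rw [Fin.sum_univ_three, w0, w1, w2]
          ring
        unfold Gd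
        rw [hws]
        constructor
        · rintro ⟨i, hi⟩
          fin_cases i
          · left; left
            refine ⟨hy, ?_⟩
            have hi' : 1 - w 0 ≤ 1 / 2 - th := hi
            rw [w0] at hi'
            change 1 - a ≤ y (Sum.inr 0)
            linarith
          · left; right
            refine ⟨hy, ?_⟩
            have hi' : 1 - w 1 ≤ 1 / 2 - th := hi
            rw [w1] at hi'
            change 1 - a ≤ y (Sum.inr 1)
            linarith
          · right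
            refine ⟨hy, ?_⟩
            have hi' : 1 - w 2 ≤ 1 / 2 - th := hi
            rw [w2] at hi'
            change y (Sum.inr 0) + y (Sum.inr 1) ≤ a
            linarith
        · rintro ((⟨_, h3⟩ | ⟨_, h3⟩) | ⟨_, h3⟩)
          · refine ⟨0, ?_⟩
            have h3' : 1 - a ≤ y (Sum.inr 0) := h3
            rw [w0]
            linarith
          · refine ⟨1, ?_⟩
            have h3' : 1 - a ≤ y (Sum.inr 1) := h3
            rw [w1]
            linarith
          · refine ⟨2, ?_⟩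
            have h3' : y (Sum.inr 0) + y (Sum.inr 1) ≤ a := h3
            rw [w2]
            linarith
      change gi th (Fin.snoc (α := fun _ => ℝ) (fun i : Fin 2 => y (Sum.inr i))
          (1 - ∑ i, y i)) * Two.den y = _
      rw [den_one, mul_one]
      unfold gi
      by_cases hm : y ∈ A0 a ∪ A1 a ∪ A2 a
      · rw [if_pos (hg.mpr hm), Set.indicator_of_mem hm]
      · rw [if_neg (fun h => hm (hg.mp h)), Set.indicator_of_notMem hm]
    rw [setIntegral_congr_fun (Two.IT8.Sim_meas 0 2) key, setIntegral_indicator hUm,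
      Set.inter_eq_self_of_subset_right hsub, setIntegral_const, smul_eq_mul, mul_one,
      measureReal_def, hU, ENNReal.toReal_ofReal (by positivity)]

end Pool.Agent.Work.MP_122e00_nt.Hyb
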