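import Pool.Agent.Work.MP_122e00_nt.Hyb.Stmts

set_option autoImplicit false

/-!
# P0: monotonicity of `TS`
-/

namespace Pool.Agent.Work.MP_122e00_nt.Hyb

open Finset Filter Topology MeasureTheory

open scoped ArithmeticFunction.vonMangoldt ArithmeticFunction.zeta

theorem prfP0 : claimP0 := by
  intro L k
  induction k with
  | zero =>
    intro n F G hL hn hF
    simp only [Two.TS]
    refine Finset.sum_le_sum fun v hv => ?_
    rw [Nat.mem_finMulAntidiag] at hv
    have hv0 : ∀ i, v i ≠ 0 := by
      intro i hi
      apply hv.2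
      rw [← hv.1]
      exact Finset.prod_eq_zero (Finset.mem_univ i) hi
    refine hF _ _ (fun j => j.elim0) (fun i => ?_) ?_
    · exact div_nonneg (Real.log_natCast_nonneg _) hL.le
    · simp only [Finset.univ_eq_empty, Finset.sum_empty, zero_add]
      rw [← Finset.sum_div]
      congr 1
      rw [← hv.1]
      push_cast
      rw [Real.log_prod]
      intro i _
      exact_mod_cast hv0 i
  | succ k ih =>
    intro n F G hL hn hF
    simp only [Two.TS]
    refine Finset.sum_le_sum fun d hd => ?_
    have hdn : d ∣ n := Nat.dvd_of_mem_divisors hd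
    have hd0 : d ≠ 0 := fun h => hn (by rw [h] at hdn; exact Nat.eq_zero_of_zero_dvd hdn)
    obtain ⟨e, rfl⟩ := hdn
    have he0 : e ≠ 0 := fun h => hn (by rw [h, mul_zero])
    have hdiv : d * e / d = e := Nat.mul_div_cancel_left e (Nat.pos_of_ne_zero hd0)
    rw [hdiv]
    by_cases hd1 : d = 1
    · subst hd1
      simp
    have hd2 : (1 : ℝ) < (d : ℝ) := by
      have : 2 ≤ d := by omega
      exact_mod_cast this
    refine mul_le_mul_of_nonneg_left ?_ (div_nonneg ArithmeticFunction.vonMangoldt_nonneg
      (Real.log_natCast_nonneg _))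
    refine ih e _ _ hL he0 ?_
    intro x v hx hv hsum
    refine hF _ _ ?_ hv ?_
    · intro j
      refine Fin.cases ?_ ?_ j
      · rw [Fin.cons_zero]
        exact div_pos (Real.log_pos hd2) hL
      · intro i
        rw [Fin.cons_succ]
        exact hx i
    · rw [Fin.sum_univ_succ]
      simp only [Fin.cons_zero, Fin.cons_succ]
      rw [add_assoc, hsum]
      push_cast
      rw [Real.log_mul (by exact_mod_cast hd0) (by exact_mod_cast he0)]
      ring

end Pool.Agent.Work.MP_122e00_nt.Hyb
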