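import Pool.Agent.Work.MP_122e00_nt.Hyb.Stmts

set_option autoImplicit false

/-!
# P1: the mark step: one more mark, taken out of part `j`
-/

namespace Pool.Agent.Work.MP_122e00_nt.Hyb

open Finset Filter Topology MeasureTheory

open scoped ArithmeticFunction.vonMangoldt ArithmeticFunction.zeta

namespace IP1

theorem sum_log {m : ℕ} {n : ℕ} (v : Fin m → ℕ) (hv : v ∈ Nat.finMulAntidiag m n) (L : ℝ) :
    ∑ i, Real.log (v i) / L = Real.log n / L := by
  rw [Nat.mem_finMulAntidiag] at hv
  have hv0 : ∀ i, v i ≠ 0 := by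
    intro i hi
    apply hv.2
    rw [← hv.1]
    exact Finset.prod_eq_zero (Finset.mem_univ i) hi
  rw [← Finset.sum_div]
  congr 1
  rw [← hv.1]
  push_cast
  rw [Real.log_prod]
  intro i _
  exact_mod_cast hv0 i

/-- the bijection `(d, v) ↔ (y, d)` with `y = v d e_j`. -/
theorem reindex (n : ℕ) (hn : n ≠ 0) (j : Fin 3) (A : ℕ → (Fin 3 → ℕ) → ℝ) :
    ∑ d ∈ n.divisors, ∑ v ∈ Nat.finMulAntidiag 3 (n / d),
      A d (Function.update v j (v j * d)) =
    ∑ y ∈ Nat.finMulAntidiag 3 n, ∑ d ∈ (y j).divisors, A d y := by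
  rw [Finset.sum_sigma', Finset.sum_sigma']
  refine Finset.sum_bij' (fun p _ => ⟨Function.update p.2 j (p.2 j * p.1), p.1⟩)
    (fun p _ => ⟨p.2, Function.update p.1 j (p.1 j / p.2)⟩) ?_ ?_ ?_ ?_ ?_
  · rintro ⟨d, v⟩ h
    simp only [Finset.mem_sigma, Nat.mem_divisors, Nat.mem_finMulAntidiag] at h ⊢
    obtain ⟨⟨h1, _⟩, h2, h3⟩ := h
    refine ⟨⟨?_, hn⟩, ?_, ?_⟩
    · rw [Finset.prod_update_of_mem (Finset.mem_univ j)]
      have h4 : ∏ x, v x = v j * ∏ x ∈ Finset.univ \ {j}, v x := by
        rw [← Finset.prod_sdiff (Finset.subset_univ {j}), Finset.prod_singleton, mul_comm]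
      have h5 : v j * d * ∏ x ∈ Finset.univ \ {j}, v x = d * ∏ x, v x := by
        rw [h4]
        ring
      rw [h5, h2]
      exact Nat.mul_div_cancel' h1
    · rw [Function.update_self]
      exact dvd_mul_left _ _
    · rw [Function.update_self]
      intro h
      rcases Nat.mul_eq_zero.1 h with h6 | h6
      · apply h3
        rw [← h2]
        exact Finset.prod_eq_zero (Finset.mem_univ j) h6
      · rw [h6] at h1
        exact hn (Nat.eq_zero_of_zero_dvd h1)
  · rintro ⟨y, d⟩ h
    simp only [Finset.mem_sigma, Nat.mem_divisors, Nat.mem_finMulAntidiag] at h ⊢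
    obtain ⟨⟨h1, _⟩, h2, h3⟩ := h
    have h4 : ∏ x, y x = y j * ∏ x ∈ Finset.univ \ {j}, y x := by
      rw [← Finset.prod_sdiff (Finset.subset_univ {j}), Finset.prod_singleton, mul_comm]
    have hdn : d ∣ n := by
      rw [← h1, h4]
      exact Dvd.dvd.mul_right h2 _
    have hd0 : d ≠ 0 := fun h => hn (by rw [h] at hdn; exact Nat.eq_zero_of_zero_dvd hdn)
    refine ⟨⟨hdn, hn⟩, ?_, ?_⟩
    · rw [Finset.prod_update_of_mem (Finset.mem_univ j)]
      obtain ⟨e, he⟩ := h2
      rw [he, Nat.mul_div_cancel_left e (Nat.pos_of_ne_zero hd0), ← h1, h4, he, mul_assoc,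
        Nat.mul_div_cancel_left _ (Nat.pos_of_ne_zero hd0)]
    · exact (Nat.div_pos (Nat.le_of_dvd (Nat.pos_of_ne_zero hn) hdn)
        (Nat.pos_of_ne_zero hd0)).ne'
  · rintro ⟨d, v⟩ h
    simp only [Finset.mem_sigma, Nat.mem_divisors, Nat.mem_finMulAntidiag] at h ⊢
    obtain ⟨⟨h1, _⟩, h2, h3⟩ := h
    have hd0 : d ≠ 0 := fun h => hn (by rw [h] at h1; exact Nat.eq_zero_of_zero_dvd h1)
    congr 1
    rw [Function.update_idem, Function.update_self,
      Nat.mul_div_cancel _ (Nat.pos_of_ne_zero hd0), Function.update_eq_self]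
  · rintro ⟨y, d⟩ h
    simp only [Finset.mem_sigma, Nat.mem_divisors, Nat.mem_finMulAntidiag] at h ⊢
    obtain ⟨⟨h1, _⟩, h2, h3⟩ := h
    congr 1
    rw [Function.update_idem, Function.update_self, Nat.div_mul_cancel h2,
      Function.update_eq_self]
  · rintro ⟨d, v⟩ h
    rfl

end IP1

theorem prfP1 : claimP1 := by
  intro L k
  induction k with
  | zero =>
    intro n j F hL hn hF
    have hLHS : Two.TS L 2 0 n F =
        ∑ v ∈ Nat.finMulAntidiag 3 n, F Fin.elim0 (fun i => Real.log (v i) / L) := rfl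
    have hzero : ∀ v ∈ Nat.finMulAntidiag 3 n, v j = 1 →
        F Fin.elim0 (fun i => Real.log (v i) / L) = 0 := by
      intro v hv hj
      refine hF _ _ (fun m => m.elim0) (fun i => ?_) ?_ ?_
      · exact div_nonneg (Real.log_natCast_nonneg _) hL.le
      · simp only [Finset.univ_eq_empty, Finset.sum_empty, zero_add]
        exact IP1.sum_log v hv L
      · show Real.log (v j) / L = 0
        rw [hj]
        simp
    have hRHS : Two.TS L 2 (0 + 1) n (fun x v =>
      F (Fin.init x) (ad v j (x (Fin.last 0))) *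
        ((∑ i, v i + x (Fin.last 0)) / (v j + x (Fin.last 0)))) =
        ∑ d ∈ n.divisors, ∑ v ∈ Nat.finMulAntidiag 3 (n / d),
          (fun (d : ℕ) (y : Fin 3 → ℕ) => Λ d / Real.log (y j) *
            F Fin.elim0 (fun i => Real.log (y i) / L)) d (Function.update v j (v j * d)) := by
      show ∑ d ∈ n.divisors, (Λ d / Real.log n) * _ = _
      refine Finset.sum_congr rfl fun d hd => ?_
      show (Λ d / Real.log n) * (∑ v ∈ Nat.finMulAntidiag 3 (n / d), _) = _
      rw [Finset.mul_sum]
      refine Finset.sum_congr rfl fun v hv => ?_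
      have hdn : d ∣ n := Nat.dvd_of_mem_divisors hd
      have hd0 : d ≠ 0 := fun h => hn (by rw [h] at hdn; exact Nat.eq_zero_of_zero_dvd hdn)
      have hd0' : (d : ℝ) ≠ 0 := by exact_mod_cast hd0
      have hv' := hv
      rw [Nat.mem_finMulAntidiag] at hv'
      have hv0 : ∀ i, v i ≠ 0 := by
        intro i hi
        apply hv'.2
        rw [← hv'.1]
        exact Finset.prod_eq_zero (Finset.mem_univ i) hi
      have hvj : ((v j : ℕ) : ℝ) ≠ 0 := by exact_mod_cast hv0 j
      have e1 : (ad (fun i => Real.log (v i) / L) j (Real.log d / L)) =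
          (fun i => Real.log ((Function.update v j (v j * d) i : ℕ) : ℝ) / L) := by
        funext i
        unfold ad
        by_cases hij : i = j
        · subst hij
          rw [if_pos rfl, Function.update_self]
          push_cast
          rw [Real.log_mul hvj hd0', add_div]
        · rw [if_neg hij, Function.update_of_ne hij]
      have e2 : (Fin.init (Fin.cons (Real.log d / L) (Fin.elim0 : Fin 0 → ℝ) : Fin 1 → ℝ) :
          Fin 0 → ℝ) = Fin.elim0 := by
        funext i
        exact i.elim0
      have e3 : (Fin.cons (Real.log d / L) (Fin.elim0 : Fin 0 → ℝ) : Fin 1 → ℝ) (Fin.last 0) =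
          Real.log d / L := rfl
      have e4 : ∑ i, Real.log (v i) / L + Real.log d / L = Real.log n / L := by
        rw [IP1.sum_log v hv L]
        have h7 : (n : ℝ) = ((n / d : ℕ) : ℝ) * (d : ℝ) := by
          rw [← Nat.cast_mul, Nat.div_mul_cancel hdn]
        have h8 : ((n / d : ℕ) : ℝ) ≠ 0 := by exact_mod_cast hv'.2
        rw [h7, Real.log_mul h8 hd0', ← add_div]
      have e5 : Real.log (v j) / L + Real.log d / L = Real.log ((v j * d : ℕ) : ℝ) / L := by
        push_cast
        rw [Real.log_mul hvj hd0', add_div]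
      show (Λ d / Real.log n) * (F (Fin.init (Fin.cons (Real.log d / L) (Fin.elim0 : Fin 0 → ℝ) :
          Fin 1 → ℝ)) (ad (fun i => Real.log (v i) / L) j ((Fin.cons (Real.log d / L)
            (Fin.elim0 : Fin 0 → ℝ) : Fin 1 → ℝ) (Fin.last 0))) *
          ((∑ i, Real.log (v i) / L + (Fin.cons (Real.log d / L)
            (Fin.elim0 : Fin 0 → ℝ) : Fin 1 → ℝ) (Fin.last 0)) /
          (Real.log (v j) / L + (Fin.cons (Real.log d / L)
            (Fin.elim0 : Fin 0 → ℝ) : Fin 1 → ℝ) (Fin.last 0)))) =
        Λ d / Real.log ((Function.update v j (v j * d) j : ℕ) : ℝ) *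
          F Fin.elim0 (fun i => Real.log ((Function.update v j (v j * d) i : ℕ) : ℝ) / L)
      rw [e2, e3, e1, e4, e5, Function.update_self]
      by_cases hn1 : n = 1
      · subst hn1
        have h9 : d = 1 := Nat.dvd_one.1 hdn
        subst h9
        simp
      · have h10 : Real.log n ≠ 0 := by
          have : (1 : ℝ) < n := by
            have : 2 ≤ n := by omega
            exact_mod_cast this
          exact (Real.log_pos this).ne'
        by_cases h11 : Real.log ((v j * d : ℕ) : ℝ) = 0
        · rw [h11]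
          simp
        · field_simp
    rw [hLHS, hRHS]
    refine Eq.trans ?_ (IP1.reindex n hn j (fun (d : ℕ) (y : Fin 3 → ℕ) =>
      Λ d / Real.log (y j) * F Fin.elim0 (fun i => Real.log (y i) / L))).symm
    refine Finset.sum_congr rfl fun y hy => ?_
    show _ = ∑ d ∈ (y j).divisors, Λ d / Real.log (y j) *
            F Fin.elim0 (fun i => Real.log (y i) / L)
    rw [← Finset.sum_mul, ← Finset.sum_div, ArithmeticFunction.vonMangoldt_sum]
    by_cases hy1 : y j = 1
    · rw [hzero y hy hy1, mul_zero]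
    · have h12 : y j ≠ 0 := by
        rw [Nat.mem_finMulAntidiag] at hy
        intro hi
        apply hy.2
        rw [← hy.1]
        exact Finset.prod_eq_zero (Finset.mem_univ j) hi
      have h13 : Real.log (y j) ≠ 0 := by
        have : (1 : ℝ) < y j := by
          have : 2 ≤ y j := by omega
          exact_mod_cast this
        exact (Real.log_pos this).ne'
      rw [div_self h13, one_mul]
  | succ k ih =>
    intro n j F hL hn hF
    show ∑ d ∈ n.divisors, (Λ d / Real.log n) *
        Two.TS L 2 k (n / d) (fun x v => F (Fin.cons (Real.log d / L) x) v) =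
      ∑ d ∈ n.divisors, (Λ d / Real.log n) *
        Two.TS L 2 (k + 1) (n / d) _
    refine Finset.sum_congr rfl fun d hd => ?_
    have hdn : d ∣ n := Nat.dvd_of_mem_divisors hd
    have hd0 : d ≠ 0 := fun h => hn (by rw [h] at hdn; exact Nat.eq_zero_of_zero_dvd hdn)
    have hd0' : (d : ℝ) ≠ 0 := by exact_mod_cast hd0
    have hnd : n / d ≠ 0 := (Nat.div_pos (Nat.le_of_dvd (Nat.pos_of_ne_zero hn) hdn)
        (Nat.pos_of_ne_zero hd0)).ne'
    congr 1
    rw [ih (n / d) j (fun x v => F (Fin.cons (Real.log d / L) x) v) hL hnd]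
    · congr 1
      funext x v
      have e1 : (Fin.init (Fin.cons (Real.log d / L) x : Fin (k + 2) → ℝ) : Fin (k + 1) → ℝ) =
          Fin.cons (Real.log d / L) (Fin.init x) := by
        funext m
        refine Fin.cases ?_ ?_ m
        · rfl
        · intro i
          rfl
      have e2 : (Fin.cons (Real.log d / L) x : Fin (k + 2) → ℝ) (Fin.last (k + 1)) =
          x (Fin.last k) := rfl
      show _ = F (Fin.init (Fin.cons (Real.log d / L) x : Fin (k + 2) → ℝ))
        (ad v j ((Fin.cons (Real.log d / L) x : Fin (k + 2) → ℝ) (Fin.last (k + 1)))) *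
        ((∑ i, v i + (Fin.cons (Real.log d / L) x : Fin (k + 2) → ℝ) (Fin.last (k + 1))) /
          (v j + (Fin.cons (Real.log d / L) x : Fin (k + 2) → ℝ) (Fin.last (k + 1))))
      rw [e1, e2]
    · intro x v hx hv hsum hj
      refine hF _ _ ?_ hv ?_ hj
      · intro m
        refine Fin.cases ?_ ?_ m
        · rw [Fin.cons_zero]
          exact div_nonneg (Real.log_natCast_nonneg _) hL.le
        · intro i
          rw [Fin.cons_succ]
          exact hx i
      · rw [Fin.sum_univ_succ]
        simp only [Fin.cons_zero, Fin.cons_succ]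
        rw [add_assoc, hsum]
        have h7 : (n : ℝ) = ((n / d : ℕ) : ℝ) * (d : ℝ) := by
          rw [← Nat.cast_mul, Nat.div_mul_cancel hdn]
        have h8 : ((n / d : ℕ) : ℝ) ≠ 0 := by exact_mod_cast hnd
        have h9 : Real.log n = Real.log ((n / d : ℕ) : ℝ) + Real.log d := by
          rw [h7, Real.log_mul h8 hd0']
        rw [h9]
        ring

end Pool.Agent.Work.MP_122e00_nt.Hyb
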