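import Pool.Agent.Work.MP_122e00_nt.Hyb.Stmts
import Pool.Agent.Work.MP_122e00_nt.Bd.B40

set_option autoImplicit false

/-!
# P2: the first mark
-/

namespace Pool.Agent.Work.MP_122e00_nt.Hyb

open Finset Filter Topology MeasureTheory

namespace IP2

/-- the structure sum depends on the relevant positions only -/
theorem eq0 (h0 : claimP0) (L : ℝ) (k n : ℕ) (F G : (Fin k → ℝ) → (Fin 3 → ℝ) → ℝ) (hL : 0 < L)
    (hn : n ≠ 0) (h : ∀ x v, (∀ m, 0 < x m) → (∀ i, 0 ≤ v i) →
      ∑ m, x m + ∑ i, v i = Real.log n / L → F x v = G x v) :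
    Two.TS L 2 k n F = Two.TS L 2 k n G :=
  le_antisymm (h0 L k n F G hL hn fun x v a b c => (h x v a b c).le)
    (h0 L k n G F hL hn fun x v a b c => (h x v a b c).ge)

theorem tsum (L : ℝ) (k n : ℕ) (F : Fin 3 → (Fin k → ℝ) → (Fin 3 → ℝ) → ℝ) :
    Two.TS L 2 k n (fun x v => ∑ j, F j x v) = ∑ j, Two.TS L 2 k n (F j) := by
  have h1 := (Two.prfT1 L 2 k n (fun x v => F 0 x v + F 1 x v) (fun x v => F 2 x v) 0).1
  have h2 := (Two.prfT1 L 2 k n (fun x v => F 0 x v) (fun x v => F 1 x v) 0).1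
  simp only [Fin.sum_univ_three]
  rw [h2] at h1
  exact h1

theorem sum_ad (v : Fin 3 → ℝ) (j : Fin 3) (t : ℝ) : ∑ i, ad v j t i = ∑ i, v i + t := by
  have h : ∀ q, ad v j t q = v q + if q = j then t else 0 := by
    intro q
    unfold ad
    split_ifs
    · rfl
    · rw [add_zero]
  rw [Finset.sum_congr rfl fun q _ => h q, Finset.sum_add_distrib, Finset.sum_ite_eq' univ j,
    if_pos (Finset.mem_univ j)]

end IP2

theorem prfP2 (h0 : claimP0) (h1 : claimP1) : claimP2 := by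
  intro L n g hL hn
  have hn0 : n ≠ 0 := by omega
  have hlog : 0 < Real.log n / L := div_pos (Real.log_pos (by exact_mod_cast hn)) hL
  have e1 : Two.TS L 2 0 n (fun _ v => g v) =
      Two.TS L 2 0 n (fun _ v => ∑ j, g v * (v j / ∑ i, v i)) := by
    refine IP2.eq0 h0 L 0 n _ _ hL hn0 fun x v hx hv hs => ?_
    have hs2 : ∑ i, v i = Real.log n / L := by
      rw [← hs, Finset.univ_eq_empty (α := Fin 0), Finset.sum_empty, zero_add]
    rw [← Finset.mul_sum, ← Finset.sum_div, div_self (by rw [hs2]; exact hlog.ne'), mul_one]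
  have e2 : ∀ j, Two.TS L 2 0 n (fun _ v => g v * (v j / ∑ i, v i)) =
      Two.TS L 2 1 n (fun x v => g (ad v j (x 0))) := by
    intro j
    rw [h1 L 0 n j (fun _ v => g v * (v j / ∑ i, v i)) hL hn0
      (fun x v _ _ _ hvj => by simp only [hvj, zero_div, mul_zero])]
    refine IP2.eq0 h0 L 1 n _ _ hL hn0 fun x v hx hv hs => ?_
    have hx0 : 0 < x 0 := hx 0
    have hl : x (Fin.last 0) = x 0 := rfl
    have ha : ad v j (x 0) j = v j + x 0 := by unfold ad; rw [if_pos rfl]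
    have hv0 : 0 ≤ ∑ i, v i := Finset.sum_nonneg fun i _ => hv i
    have hvj := hv j
    simp only [hl, IP2.sum_ad, ha]
    have p1 : ∑ i, v i + x 0 ≠ 0 := by positivity
    have p2 : v j + x 0 ≠ 0 := by positivity
    field_simp
  rw [e1, IP2.tsum L 0 n (fun j _ v => g v * (v j / ∑ i, v i)),
    IP2.tsum L 1 n (fun j x v => g (ad v j (x 0)))]
  exact Finset.sum_congr rfl fun j _ => e2 j

end Pool.Agent.Work.MP_122e00_nt.Hyb
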