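import Pool.Agent.Work.MP_122e00_nt.Hyb.Stmts

set_option autoImplicit false

/-!
# The hybrid block scheme: the identity of the scheme
-/

namespace Pool.Agent.Work.MP_122e00_nt.Hyb

open Finset Filter Topology MeasureTheory

namespace IP3

theorem congr (h0 : claimP0) (L : ℝ) (k n : ℕ) (F G : (Fin k → ℝ) → (Fin 3 → ℝ) → ℝ)
    (hL : 0 < L) (hn : n ≠ 0)
    (h : ∀ x v, (∀ m, 0 < x m) → (∀ i, 0 ≤ v i) → ∑ m, x m + ∑ i, v i = Real.log n / L →
      F x v = G x v) : Two.TS L 2 k n F = Two.TS L 2 k n G := by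
  apply le_antisymm
  · exact h0 L k n F G hL hn fun x v h1 h2 h3 => (h x v h1 h2 h3).le
  · exact h0 L k n G F hL hn fun x v h1 h2 h3 => (h x v h1 h2 h3).ge

theorem sum3 (hT1 : Two.claimT1) (L : ℝ) (k n : ℕ)
    (F : Fin 3 → (Fin k → ℝ) → (Fin 3 → ℝ) → ℝ) :
    Two.TS L 2 k n (fun x v => ∑ j, F j x v) = ∑ j, Two.TS L 2 k n (F j) := by
  rw [Fin.sum_univ_three]
  simp only [Fin.sum_univ_three]
  have h1 := (hT1 L 2 k n (fun x v => F 0 x v + F 1 x v) (F 2) 0).1
  have h2 := (hT1 L 2 k n (F 0) (F 1) 0).1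
  rw [← h2, ← h1]

open Classical in
theorem am_sum (w : Fin 3 → ℝ) : ∑ j, (if am w j then (1 : ℝ) else 0) = 1 := by
  have e0 : am w 0 ↔ w 1 ≤ w 0 ∧ w 2 ≤ w 0 := by
    unfold am
    constructor
    · intro h
      exact ⟨(h 1).elim le_of_lt fun h => h.1.le, (h 2).elim le_of_lt fun h => h.1.le⟩
    · rintro ⟨h1, h2⟩ q
      fin_cases q
      · exact Or.inr ⟨rfl, le_refl _⟩
      · exact (lt_or_eq_of_le h1).imp id fun h => ⟨h, by decide⟩
      · exact (lt_or_eq_of_le h2).imp id fun h => ⟨h, by decide⟩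
  have e1 : am w 1 ↔ w 0 < w 1 ∧ w 2 ≤ w 1 := by
    unfold am
    constructor
    · intro h
      refine ⟨(h 0).elim id fun h => absurd h.2 (by decide), (h 2).elim le_of_lt fun h => h.1.le⟩
    · rintro ⟨h1, h2⟩ q
      fin_cases q
      · exact Or.inl h1
      · exact Or.inr ⟨rfl, le_refl _⟩
      · exact (lt_or_eq_of_le h2).imp id fun h => ⟨h, by decide⟩
  have e2 : am w 2 ↔ w 0 < w 2 ∧ w 1 < w 2 := by
    unfold am
    constructor
    · intro h
      refine ⟨(h 0).elim id fun h => absurd h.2 (by decide),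
        (h 1).elim id fun h => absurd h.2 (by decide)⟩
    · rintro ⟨h1, h2⟩ q
      fin_cases q
      · exact Or.inl h1
      · exact Or.inl h2
      · exact Or.inr ⟨rfl, le_refl _⟩
  rw [Fin.sum_univ_three]
  simp only [e0, e1, e2]
  by_cases h01 : w 1 ≤ w 0 <;> by_cases h02 : w 2 ≤ w 0 <;> by_cases h12 : w 2 ≤ w 1 <;>
    simp [h01, h02, h12, not_lt.2, not_le.1] <;> linarith

theorem sum_ad (w : Fin 3 → ℝ) (j : Fin 3) (t : ℝ) : ∑ i, ad w j t i = ∑ i, w i + t := by
  unfold ad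
  fin_cases j <;> simp [Fin.sum_univ_three] <;> ring

theorem ad_self (w : Fin 3 → ℝ) (j : Fin 3) (t : ℝ) : ad w j t j = w j + t := by
  simp [ad]

theorem ad_ad (w : Fin 3 → ℝ) (j : Fin 3) (s t : ℝ) : ad (ad w j s) j t = ad w j (s + t) := by
  funext q
  unfold ad
  by_cases h : q = j
  · simp only [h, if_true]
    ring
  · simp only [h, if_false]

theorem ad_zero (w : Fin 3 → ℝ) (j : Fin 3) : ad w j 0 = w := by
  funext q
  simp [ad]

theorem blk_init {K : ℕ} (x : Fin (K + 2) → ℝ) :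
    blk x = blk (Fin.init x : Fin (K + 1) → ℝ) + x (Fin.last (K + 1)) := by
  unfold blk
  rw [Fin.sum_univ_castSucc]
  congr 1

theorem bef_init {K : ℕ} (x : Fin (K + 2) → ℝ) (m : Fin K) :
    bef x m.castSucc = bef (Fin.init x : Fin (K + 1) → ℝ) m := by
  unfold bef
  rw [Finset.sum_filter, Finset.sum_filter, Fin.sum_univ_castSucc,
    if_neg (not_lt.2 (Fin.le_last _)), add_zero]
  apply Finset.sum_congr rfl
  intro q _
  simp only [Fin.castSucc_lt_castSucc_iff]
  rfl

theorem bef_last {K : ℕ} (x : Fin (K + 2) → ℝ) :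
    bef x (Fin.last K) = blk (Fin.init x : Fin (K + 1) → ℝ) := by
  unfold bef blk
  rw [Finset.sum_filter, Fin.sum_univ_castSucc, if_neg (lt_irrefl _), add_zero]
  apply Finset.sum_congr rfl
  intro q _
  rw [if_pos (Fin.castSucc_lt_last q)]
  rfl

theorem bef_le {K : ℕ} (x : Fin (K + 2) → ℝ) (hx : ∀ m, 0 ≤ x m) (m : Fin (K + 1)) :
    bef x m ≤ bef x (Fin.last K) := by
  unfold bef
  apply Finset.sum_le_sum_of_subset_of_nonneg
  · intro q hq
    rw [Finset.mem_filter] at hq ⊢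
    exact ⟨hq.1, lt_of_lt_of_le hq.2 (Fin.le_last _)⟩
  · intro q _ _
    exact hx _

theorem sum_blk {k : ℕ} (x : Fin (k + 1) → ℝ) : ∑ m, x m = x 0 + blk x := by
  rw [Fin.sum_univ_succ]
  rfl

theorem wj_init {K : ℕ} (x : Fin (K + 2) → ℝ) (v : Fin 3 → ℝ) (j : Fin 3) :
    wj x v j = wj (Fin.init x : Fin (K + 1) → ℝ) (ad v j (x (Fin.last (K + 1)))) j *
      ((∑ i, v i + x (Fin.last (K + 1))) / (v j + x (Fin.last (K + 1)))) := by
  unfold wj
  rw [ad_ad, sum_ad, ad_self, add_comm (x (Fin.last (K + 1))), ← blk_init]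
  split_ifs with h
  · rw [Fin.prod_univ_castSucc]
    congr 1
    · apply Finset.prod_congr rfl
      intro m _
      rw [bef_init, blk_init]
      congr 1 <;> ring
    · rw [bef_last, blk_init]
      congr 1 <;> ring
  · rw [zero_mul]

open Classical in
theorem vanish {k : ℕ} (th c T : ℝ) (hth : th ≤ 1 / 100) (hc : c = 1 / 4 + 2 * th)
    (hT : 9 / 10 ≤ T) (x : Fin (k + 1) → ℝ) (v : Fin 3 → ℝ) (hx : ∀ m, 0 ≤ x m)
    (hs : ∑ m, x m + ∑ i, v i = T) (j : Fin 3) (hj : v j = 0) (hl : lft c x) :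
    wj x v j = 0 := by
  unfold wj
  rw [if_neg]
  intro ham
  have h1 : ∀ q, v q ≤ v j + blk x := by
    intro q
    by_cases hq : q = j
    · subst hq
      have : 0 ≤ blk x := Finset.sum_nonneg fun m _ => hx _
      linarith
    · have h2 : ad v j (blk x) q ≤ ad v j (blk x) j := (ham q).elim le_of_lt fun h => h.1.le
      rw [ad_self] at h2
      simpa [ad, hq] using h2
  have h2 : ∑ i, v i ≤ 2 * (v j + blk x) + v j := by
    rw [Fin.sum_univ_three]
    have h3 := h1 0
    have h4 := h1 1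
    have h5 := h1 2
    fin_cases j
    · change v 0 = 0 at hj
      change v 0 + v 1 + v 2 ≤ 2 * (v 0 + blk x) + v 0
      change v 1 ≤ v 0 + blk x at h4
      change v 2 ≤ v 0 + blk x at h5
      linarith
    · change v 1 = 0 at hj
      change v 0 + v 1 + v 2 ≤ 2 * (v 1 + blk x) + v 1
      change v 0 ≤ v 1 + blk x at h3
      change v 2 ≤ v 1 + blk x at h5
      linarith
    · change v 2 = 0 at hj
      change v 0 + v 1 + v 2 ≤ 2 * (v 2 + blk x) + v 2
      change v 0 ≤ v 2 + blk x at h3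
      change v 1 ≤ v 2 + blk x at h4
      linarith
  rw [sum_blk] at hs
  have h3 := hx 0
  unfold lft at hl
  linarith

/-- one summand of the left over part -/
noncomputable def Fj (th c : ℝ) (k : ℕ) (g : (Fin 3 → ℝ) → ℝ) (j : Fin 3) (x : Fin (k + 1) → ℝ)
    (v : Fin 3 → ℝ) : ℝ := by
  classical
  exact if Reg th x v ∧ lft c x then wj x v j * ∑ i, g (ad (ad v j (blk x)) i (x 0)) else 0

theorem LL_eq (th c : ℝ) (k : ℕ) (g : (Fin 3 → ℝ) → ℝ) :
    LL th c k g = fun x v => ∑ j, Fj th c k g j x v := by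
  funext x v
  unfold LL Fj Pk
  split_ifs with h
  · rfl
  · simp

theorem step (h0 : claimP0) (h1 : claimP1) (hT1 : Two.claimT1) (L th c : ℝ) (n K : ℕ)
    (g : (Fin 3 → ℝ) → ℝ) (hL : 0 < L) (hth : th ≤ 1 / 100)
    (hc : c = 1 / 4 + 2 * th) (hn : 2 ≤ n) (hlo : 9 / 10 ≤ Real.log n / L)
    (hhi : Real.log n / L ≤ 1 + th / 2) :
    Two.TS L 2 (K + 1) n (LL th c K g) =
      Two.TS L 2 (K + 1 + 1) n (fun x v => by
        classical exact if Reg th x v ∧ stp c x then Pk g x v else 0) +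
      Two.TS L 2 (K + 1 + 1) n (LL th c (K + 1) g) := by
  classical
  have hn0 : n ≠ 0 := by omega
  rw [LL_eq, sum3 hT1]
  have e1 : ∀ j, Two.TS L 2 (K + 1) n (Fj th c K g j) = Two.TS L 2 (K + 1 + 1) n (fun x v =>
      Fj th c K g j (Fin.init x) (ad v j (x (Fin.last (K + 1)))) *
        ((∑ i, v i + x (Fin.last (K + 1))) / (v j + x (Fin.last (K + 1))))) := by
    intro j
    apply h1 L (K + 1) n j (Fj th c K g j) hL hn0
    intro x v hx hv hs hj
    unfold Fj
    split_ifs with h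
    · rw [vanish th c _ hth hc hlo x v hx hs j hj h.2, zero_mul]
    · rfl
  rw [Finset.sum_congr rfl fun j _ => e1 j, ← sum3 hT1, ← (hT1 L 2 (K + 1 + 1) n _ _ 0).1]
  apply congr h0 _ _ _ _ _ hL hn0
  intro x v hx hv hs
  set t := x (Fin.last (K + 1)) with ht
  have hR : Reg th x v := ⟨fun m => (hx m).le, hv, by rw [hs]; exact hlo, by rw [hs]; exact hhi⟩
  have hR2 : ∀ j, Reg th (Fin.init x : Fin (K + 1) → ℝ) (ad v j t) := by
    intro j
    have h2 : ∑ m : Fin (K + 1), (Fin.init x : Fin (K + 1) → ℝ) m + ∑ i, ad v j t i =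
        Real.log n / L := by
      have h3 : ∑ m, x m = ∑ m : Fin (K + 1), (Fin.init x : Fin (K + 1) → ℝ) m + t :=
        Fin.sum_univ_castSucc x
      rw [sum_ad, ← hs, h3]
      ring
    refine ⟨fun m => (hx _).le, ?_, by rw [h2]; exact hlo, by rw [h2]; exact hhi⟩
    intro i
    unfold ad
    have := hx (Fin.last (K + 1))
    split_ifs
    · have := hv i
      linarith
    · exact hv i
  have hP : ∑ j, (if lft c (Fin.init x : Fin (K + 1) → ℝ) then
      wj x v j * ∑ i, g (ad (ad v j (blk x)) i (x 0)) else 0) =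
      if lft c (Fin.init x : Fin (K + 1) → ℝ) then Pk g x v else 0 := by
    split_ifs
    · rfl
    · simp
  have hL1 : ∑ j, Fj th c K g j (Fin.init x) (ad v j t) * ((∑ i, v i + t) / (v j + t)) =
      if lft c (Fin.init x : Fin (K + 1) → ℝ) then Pk g x v else 0 := by
    rw [← hP]
    apply Finset.sum_congr rfl
    intro j _
    unfold Fj
    have e2 : (Reg th (Fin.init x : Fin (K + 1) → ℝ) (ad v j t) ∧
        lft c (Fin.init x : Fin (K + 1) → ℝ)) ↔ lft c (Fin.init x : Fin (K + 1) → ℝ) :=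
      ⟨fun h => h.2, fun h => ⟨hR2 j, h⟩⟩
    simp only [e2]
    split_ifs with h
    · rw [wj_init x v j, ad_ad, blk_init x, add_comm t]
      simp only [← ht]
      have e3 : (Fin.init x : Fin (K + 1) → ℝ) 0 = x 0 := rfl
      rw [e3]
      ring
    · rw [zero_mul]
  rw [hL1]
  unfold LL
  simp only [hR, true_and]
  have hbl : blk x = blk (Fin.init x : Fin (K + 1) → ℝ) + t := blk_init x
  have ht0 : 0 < t := hx _
  by_cases hl : lft c (Fin.init x : Fin (K + 1) → ℝ)
  · rw [if_pos hl]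
    have hl' := hl
    unfold lft at hl'
    have e3 : (Fin.init x : Fin (K + 1) → ℝ) 0 = x 0 := rfl
    rw [e3] at hl'
    by_cases h2 : lft c x
    · rw [if_pos h2, if_neg, zero_add]
      rintro ⟨h3, -⟩
      unfold lft at h2
      linarith
    · rw [if_neg h2, if_pos, add_zero]
      refine ⟨not_lt.1 h2, fun m => ?_⟩
      have := bef_le x (fun m => (hx m).le) m
      rw [bef_last] at this
      linarith
  · rw [if_neg hl, if_neg, if_neg, add_zero]
    · intro h2
      apply hl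
      unfold lft at h2 ⊢
      have e3 : (Fin.init x : Fin (K + 1) → ℝ) 0 = x 0 := rfl
      rw [e3]
      linarith
    · rintro ⟨-, h2⟩
      apply hl
      have h3 := h2 (Fin.last K)
      rw [bef_last] at h3
      exact h3

theorem base (h0 : claimP0) (h2 : claimP2) (hT1 : Two.claimT1) (L th c : ℝ) (n : ℕ)
    (g : (Fin 3 → ℝ) → ℝ) (hL : 0 < L) (hn : 2 ≤ n) (hlo : 9 / 10 ≤ Real.log n / L)
    (hhi : Real.log n / L ≤ 1 + th / 2) :
    Two.TS L 2 0 n (fun _ v => g v) =
      Two.TS L 2 1 n (fun x v => by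
        classical exact if Reg th x v ∧ stp c x then Pk g x v else 0) +
      Two.TS L 2 1 n (LL th c 0 g) := by
  classical
  have hn0 : n ≠ 0 := by omega
  rw [h2 L n g hL hn, ← (hT1 L 2 1 n _ _ 0).1]
  apply congr h0 _ _ _ _ _ hL hn0
  intro x v hx hv hs
  have hR : Reg th x v := ⟨fun m => (hx m).le, hv, by rw [hs]; exact hlo, by rw [hs]; exact hhi⟩
  have hb : blk x = 0 := by
    unfold blk
    exact Finset.sum_eq_zero fun m _ => m.elim0
  have hP : Pk g x v = ∑ i, g (ad v i (x 0)) := by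
    unfold Pk
    simp only [hb, ad_zero, ← Finset.sum_mul]
    have h3 : ∑ j, wj x v j = 1 := by
      rw [← am_sum v]
      apply Finset.sum_congr rfl
      intro j _
      unfold wj
      rw [hb, ad_zero]
      simp
    rw [h3, one_mul]
  unfold LL
  simp only [hR, true_and, hP]
  by_cases hl : lft c x
  · rw [if_pos hl, if_neg, zero_add]
    rintro ⟨h3, -⟩
    unfold lft at hl
    linarith
  · rw [if_neg hl, if_pos, add_zero]
    exact ⟨not_lt.1 hl, fun m => m.elim0⟩

end IP3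

theorem prfP3 (h0 : claimP0) (h1 : claimP1) (h2 : claimP2) (hT1 : Two.claimT1) : claimP3 := by
  intro L th c n K g hL hth0 hth hc hn hlo hhi
  induction K with
  | zero =>
    rw [Finset.sum_range_succ, Finset.sum_range_zero, zero_add]
    exact IP3.base h0 h2 hT1 L th c n g hL hn hlo hhi
  | succ K ih =>
    rw [ih, IP3.step h0 h1 hT1 L th c n K g hL hth hc hn hlo hhi,
      Finset.sum_range_succ _ (K + 1)]
    ring

end Pool.Agent.Work.MP_122e00_nt.Hyb
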