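import Pool.Agent.Work.MP_122e00_nt.Hyb.ItemP4a

set_option autoImplicit false

/-!
# P4: the inequality between the structure functions
-/

namespace Pool.Agent.Work.MP_122e00_nt.Hyb

open Finset Filter Topology MeasureTheory

theorem bi_nonneg' (th : ℝ) (w : Fin 3 → ℝ) : 0 ≤ bi th w := by
  unfold bi; split_ifs <;> norm_num

theorem nb_nonneg' (th x D : ℝ) (v : Fin 3 → ℝ) (j : Fin 3) : 0 ≤ nb th x D v j :=
  Finset.sum_nonneg fun _ _ => bi_nonneg' th _

/-- The abstract inequality. -/
theorem cs_ineq (w b g : Fin 3 → ℝ) (A : Fin 3 → Prop) [DecidablePred A] (hw : ∀ j, A j → 0 < w j)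
    (hb : ∀ j, 0 ≤ b j) (hg : ∀ j, 0 ≤ g j)
    (h1 : 0 < ∑ j, if A j then g j else 0) :
    (∑ j, (if A j then w j else 0) * b j) ^ 2 ≤
      (∑ i, ∑ j, (if A i ∧ A j then (∑ l, if A l then b l else 0) * b i * g j /
        (∑ l, if A l then g l else 0) ^ 2 else 0) * (w i ^ 2 / w j)) *
      (∑ j, (if A j then w j else 0) * g j) := by
  set bt' : ℝ := ∑ l, if A l then b l else 0 with hbt
  set gt' : ℝ := ∑ l, if A l then g l else 0 with hgt
  -- first Cauchy-Schwarz
  have c1 : (∑ j, (if A j then w j else 0) * b j) ^ 2 ≤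
      bt' * ∑ j, (if A j then b j * w j ^ 2 else 0) := by
    have h := Finset.sum_mul_sq_le_sq_mul_sq Finset.univ
      (fun j => if A j then Real.sqrt (b j) else 0)
      (fun j => if A j then Real.sqrt (b j) * w j else 0)
    have e1 : ∑ j, (if A j then Real.sqrt (b j) else 0) *
        (if A j then Real.sqrt (b j) * w j else 0) = ∑ j, (if A j then w j else 0) * b j := by
      refine Finset.sum_congr rfl fun j _ => ?_
      by_cases hj : A j
      · rw [if_pos hj, if_pos hj, if_pos hj, ← mul_assoc, Real.mul_self_sqrt (hb j)]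
        ring
      · rw [if_neg hj, if_neg hj, if_neg hj]
        ring
    have e2 : ∑ j, (if A j then Real.sqrt (b j) else 0) ^ 2 = bt' := by
      rw [hbt]
      refine Finset.sum_congr rfl fun j _ => ?_
      by_cases hj : A j
      · rw [if_pos hj, if_pos hj, Real.sq_sqrt (hb j)]
      · rw [if_neg hj, if_neg hj]
        ring
    have e3 : ∑ j, (if A j then Real.sqrt (b j) * w j else 0) ^ 2 =
        ∑ j, (if A j then b j * w j ^ 2 else 0) := by
      refine Finset.sum_congr rfl fun j _ => ?_
      by_cases hj : A j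
      · rw [if_pos hj, if_pos hj, mul_pow, Real.sq_sqrt (hb j)]
      · rw [if_neg hj, if_neg hj]
        ring
    rw [e1, e2, e3] at h
    exact h
  -- second Cauchy-Schwarz
  have c2 : gt' ^ 2 ≤ (∑ j, (if A j then g j / w j else 0)) *
      ∑ j, (if A j then w j else 0) * g j := by
    have h := Finset.sum_mul_sq_le_sq_mul_sq Finset.univ
      (fun j => if A j then Real.sqrt (g j / w j) else 0)
      (fun j => if A j then Real.sqrt (w j * g j) else 0)
    have e1 : ∑ j, (if A j then Real.sqrt (g j / w j) else 0) *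
        (if A j then Real.sqrt (w j * g j) else 0) = gt' := by
      rw [hgt]
      refine Finset.sum_congr rfl fun j _ => ?_
      by_cases hj : A j
      · have hwj := hw j hj
        rw [if_pos hj, if_pos hj, if_pos hj, ← Real.sqrt_mul (div_nonneg (hg j) hwj.le)]
        have : g j / w j * (w j * g j) = g j ^ 2 := by
          field_simp
        rw [this, Real.sqrt_sq (hg j)]
      · rw [if_neg hj, if_neg hj, if_neg hj]
        ring
    have e2 : ∑ j, (if A j then Real.sqrt (g j / w j) else 0) ^ 2 =
        ∑ j, (if A j then g j / w j else 0) := by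
      refine Finset.sum_congr rfl fun j _ => ?_
      by_cases hj : A j
      · rw [if_pos hj, if_pos hj, Real.sq_sqrt (div_nonneg (hg j) (hw j hj).le)]
      · rw [if_neg hj, if_neg hj]
        ring
    have e3 : ∑ j, (if A j then Real.sqrt (w j * g j) else 0) ^ 2 =
        ∑ j, (if A j then w j else 0) * g j := by
      refine Finset.sum_congr rfl fun j _ => ?_
      by_cases hj : A j
      · rw [if_pos hj, if_pos hj, Real.sq_sqrt (mul_nonneg (hw j hj).le (hg j))]
      · rw [if_neg hj, if_neg hj]
        ring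
    rw [e1, e2, e3] at h
    exact h
  set P : ℝ := ∑ j, (if A j then b j * w j ^ 2 else 0) with hP
  set Q : ℝ := ∑ j, (if A j then g j / w j else 0) with hQ
  set R : ℝ := ∑ j, (if A j then w j else 0) * g j with hR
  have e : ∑ i, ∑ j, (if A i ∧ A j then bt' * b i * g j / gt' ^ 2 else 0) * (w i ^ 2 / w j) =
      bt' * P * Q / gt' ^ 2 := by
    have e0 : bt' * P * Q / gt' ^ 2 = ∑ i, ∑ j, bt' * (if A i then b i * w i ^ 2 else 0) *
        (if A j then g j / w j else 0) / gt' ^ 2 := by
      rw [hP, hQ]
      simp only [Finset.mul_sum, Finset.sum_mul, Finset.sum_div]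
      rw [Finset.sum_comm]
    rw [e0]
    refine Finset.sum_congr rfl fun i _ => Finset.sum_congr rfl fun j _ => ?_
    by_cases hi : A i
    · by_cases hj : A j
      · rw [if_pos ⟨hi, hj⟩, if_pos hi, if_pos hj]
        ring
      · rw [if_neg fun h => hj h.2, if_neg hj]
        ring
    · rw [if_neg fun h => hi h.1, if_neg hi]
      ring
  rw [e]
  have hbt0 : 0 ≤ bt' := Finset.sum_nonneg fun j _ => by
    split_ifs
    · exact hb j
    · exact le_rfl
  have hP0 : 0 ≤ P := Finset.sum_nonneg fun j _ => by
    split_ifs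
    · exact mul_nonneg (hb j) (sq_nonneg _)
    · exact le_rfl
  refine c1.trans ?_
  have h2 : bt' * P * Q / gt' ^ 2 * R = bt' * P * (Q * R / gt' ^ 2) := by ring
  rw [h2]
  have h3 : 1 ≤ Q * R / gt' ^ 2 := by
    rw [le_div_iff₀ (by positivity), one_mul]
    exact c2
  calc bt' * P = bt' * P * 1 := by ring
    _ ≤ _ := mul_le_mul_of_nonneg_left h3 (mul_nonneg hbt0 hP0)

/-- The product of the relative weights. -/
noncomputable def wp {k : ℕ} (x : Fin (k + 1) → ℝ) (v : Fin 3 → ℝ) (j : Fin 3) : ℝ :=
  ∏ m : Fin k, ((∑ i, v i + blk x - bef x m) / (v j + blk x - bef x m))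

open Classical in
theorem wj_eq {k : ℕ} (x : Fin (k + 1) → ℝ) (v : Fin 3 → ℝ) (j : Fin 3) :
    wj x v j = if am (ad v j (blk x)) j then wp x v j else 0 := rfl

theorem prfP4 (ha : claimP4a) (hb : claimP4b) : claimP4 := by
  classical
  intro th c h0 h1 hc k x v
  by_cases hRs : Reg th x v ∧ stp c x
  · have hN : NN th c k x v = ∑ j, (if am (ad v j (blk x)) j then wp x v j else 0) *
        nb th (x 0) (blk x) v j := by
      unfold NN
      rw [if_pos hRs]
      rfl
    have hG : GG th c k x v = ∑ j, (if am (ad v j (blk x)) j then wp x v j else 0) *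
        ng th (x 0) (blk x) v j := by
      unfold GG
      rw [if_pos hRs]
      rfl
    have hpos := fun j hj m => hb th c h0 h1 hc k x v hRs.1 (Or.inl hRs.2) j hj m
    have hD0 : ∀ j, am (ad v j (blk x)) j → ∀ m : Fin k, 0 < v j + blk x - bef x m := by
      intro j hj m
      have := (hpos j hj m).1
      linarith
    have hS0 : ∀ j, am (ad v j (blk x)) j → ∀ m : Fin k, 0 < ∑ i, v i + blk x - bef x m := by
      intro j hj m
      have h2 := hD0 j hj m
      have h3 : v j ≤ ∑ i, v i :=
        Finset.single_le_sum (fun i _ => hRs.1.2.1 i) (Finset.mem_univ j)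
      linarith
    have hw : ∀ j, am (ad v j (blk x)) j → 0 < wp x v j := fun j hj =>
      Finset.prod_pos fun m _ => div_pos (hS0 j hj m) (hD0 j hj m)
    have hF : FF th c k x v = ∑ i, ∑ j, (if am (ad v i (blk x)) i ∧ am (ad v j (blk x)) j then
        (∑ l, if am (ad v l (blk x)) l then nb th (x 0) (blk x) v l else 0) *
          nb th (x 0) (blk x) v i * ng th (x 0) (blk x) v j /
        (∑ l, if am (ad v l (blk x)) l then ng th (x 0) (blk x) v l else 0) ^ 2 else 0) *
        (wp x v i ^ 2 / wp x v j) := by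
      unfold FF
      rw [if_pos hRs]
      refine Finset.sum_congr rfl fun i _ => Finset.sum_congr rfl fun j _ => ?_
      by_cases hij : am (ad v i (blk x)) i ∧ am (ad v j (blk x)) j
      · have e : ∏ m : Fin k, ((∑ q, v q + blk x - bef x m) * (v j + blk x - bef x m) /
            (v i + blk x - bef x m) ^ 2) = wp x v i ^ 2 / wp x v j := by
          unfold wp
          rw [← Finset.prod_pow, ← Finset.prod_div_distrib]
          refine Finset.prod_congr rfl fun m _ => ?_
          have a1 := (hD0 i hij.1 m).ne'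
          have a2 := (hD0 j hij.2 m).ne'
          have a3 := (hS0 i hij.1 m).ne'
          field_simp
        rw [e]
        rfl
      · unfold cf
        rw [if_neg hij, if_neg hij, zero_mul, zero_mul]
    have hgt : 1 ≤ gt th (x 0) (blk x) v := ha th c h0 h1 hc k x v hRs.1 hRs.2
    have hgt' : 0 < ∑ l, if am (ad v l (blk x)) l then ng th (x 0) (blk x) v l else 0 := by
      have : gt th (x 0) (blk x) v =
        ∑ l, if am (ad v l (blk x)) l then ng th (x 0) (blk x) v l else 0 := rfl
      rw [← this]
      linarith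
    rw [hN, hG, hF]
    refine ⟨?_, ?_, ?_, ?_⟩
    · refine Finset.sum_nonneg fun j _ => mul_nonneg ?_ (nb_nonneg' _ _ _ _ _)
      split_ifs with hj
      · exact (hw j hj).le
      · exact le_rfl
    · refine Finset.sum_nonneg fun j _ => mul_nonneg ?_ (ng_nonneg' _ _ _ _ _)
      split_ifs with hj
      · exact (hw j hj).le
      · exact le_rfl
    · refine Finset.sum_nonneg fun i _ => Finset.sum_nonneg fun j _ => ?_
      by_cases hij : am (ad v i (blk x)) i ∧ am (ad v j (blk x)) j
      · rw [if_pos hij]
        refine mul_nonneg (div_nonneg (mul_nonneg (mul_nonneg ?_ (nb_nonneg' _ _ _ _ _))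
          (ng_nonneg' _ _ _ _ _)) (sq_nonneg _)) (div_nonneg (sq_nonneg _) (hw j hij.2).le)
        refine Finset.sum_nonneg fun l _ => ?_
        split_ifs
        · exact nb_nonneg' _ _ _ _ _
        · exact le_rfl
      · rw [if_neg hij, zero_mul]
    · exact cs_ineq (wp x v) (nb th (x 0) (blk x) v) (ng th (x 0) (blk x) v)
        (fun j => am (ad v j (blk x)) j) hw (nb_nonneg' _ _ _ _) (ng_nonneg' _ _ _ _) hgt'
  · unfold NN GG FF
    rw [if_neg hRs, if_neg hRs, if_neg hRs]
    simp

end Pool.Agent.Work.MP_122e00_nt.Hyb
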