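import Pool.Agent.Work.MP_122e00_nt.Hyb.ItemP4b

set_option autoImplicit false

/-!
# P4a: a good member exists
-/

namespace Pool.Agent.Work.MP_122e00_nt.Hyb

open Finset Filter Topology MeasureTheory

/-- The first largest part. -/
theorem exists_first (v : Fin 3 → ℝ) : ∃ j, ∀ q, v q < v j ∨ (v q = v j ∧ j ≤ q) := by
  by_cases h01 : v 1 ≤ v 0
  · by_cases h02 : v 2 ≤ v 0
    · refine ⟨0, fun q => ?_⟩
      have : v q ≤ v 0 := by
        fin_cases q
        · exact le_rfl
        · exact h01
        · exact h02
      rcases this.lt_or_eq with h | h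
      · exact Or.inl h
      · exact Or.inr ⟨h, Fin.zero_le _⟩
    · refine ⟨2, fun q => ?_⟩
      fin_cases q
      · left; exact not_le.1 h02
      · left; exact lt_of_le_of_lt h01 (not_le.1 h02)
      · right; exact ⟨rfl, le_rfl⟩
  · have h10 := not_le.1 h01
    by_cases h12 : v 2 ≤ v 1
    · refine ⟨1, fun q => ?_⟩
      fin_cases q
      · left; exact h10
      · right; exact ⟨rfl, le_rfl⟩
      · rcases h12.lt_or_eq with h | h
        · exact Or.inl h
        · exact Or.inr ⟨h, by decide⟩
    · refine ⟨2, fun q => ?_⟩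
      fin_cases q
      · left; exact h10.trans (not_le.1 h12)
      · left; exact not_le.1 h12
      · right; exact ⟨rfl, le_rfl⟩

theorem gi_nonneg' (th : ℝ) (w : Fin 3 → ℝ) : 0 ≤ gi th w := by
  unfold gi; split_ifs <;> norm_num

theorem ng_nonneg' (th x D : ℝ) (v : Fin 3 → ℝ) (j : Fin 3) : 0 ≤ ng th x D v j :=
  Finset.sum_nonneg fun i _ => gi_nonneg' th _

theorem prfP4a : claimP4a := by
  classical
  intro th c h0 h1 hc k x v hR hs
  obtain ⟨hx, hv, hS, hS'⟩ := hR
  rw [sum_eq_blk] at hS hS'
  obtain ⟨j, hj⟩ := exists_first v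
  have hD : 0 ≤ blk x := Finset.sum_nonneg fun i _ => hx _
  have hx0 := hx 0
  have ham : am (ad v j (blk x)) j := by
    intro q
    by_cases hq : q = j
    · right
      subst hq
      exact ⟨rfl, le_rfl⟩
    · simp only [ad, hq, if_false, if_true]
      rcases hj q with h | h
      · left; linarith
      · rcases hD.lt_or_eq with h' | h'
        · left; linarith [h.1]
        · right
          exact ⟨by linarith [h.1], h.2⟩
  have hle : ∀ q, v q ≤ v j := by
    intro q
    rcases hj q with h | h
    · exact h.le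
    · exact h.1.le
  have hgood : Gd th (ad (ad v j (blk x)) j (x 0)) := by
    refine ⟨j, ?_⟩
    have e : (∑ q, ad (ad v j (blk x)) j (x 0) q) - ad (ad v j (blk x)) j (x 0) j =
        ∑ q, v q - v j := by
      fin_cases j <;> simp [ad, Fin.sum_univ_three] <;> ring
    rw [e]
    have h2 : ∑ q, v q - v j ≤ 2 * v j := by
      rw [Fin.sum_univ_three]
      have a0 := hle 0
      have a1 := hle 1
      have a2 := hle 2
      fin_cases j
      · simp only [Fin.zero_eta] at a0 a1 a2 ⊢
        linarith
      · simp only [Fin.mk_one] at a0 a1 a2 ⊢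
        linarith
      · simp only [Fin.reduceFinMk] at a0 a1 a2 ⊢
        linarith
    have h3 := hs.1
    by_contra hcon
    push Not at hcon
    linarith
  have hng : 1 ≤ ng th (x 0) (blk x) v j := by
    have h4 : gi th (ad (ad v j (blk x)) j (x 0)) = 1 := if_pos hgood
    calc (1 : ℝ) = gi th (ad (ad v j (blk x)) j (x 0)) := h4.symm
      _ ≤ _ := Finset.single_le_sum (f := fun i => gi th (ad (ad v j (blk x)) i (x 0)))
        (fun i _ => gi_nonneg' th _) (Finset.mem_univ j)
  refine hng.trans ?_
  unfold gt
  have h5 := Finset.single_le_sum (f := fun j => if am (ad v j (blk x)) j then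
    ng th (x 0) (blk x) v j else 0) (fun i _ => by
      split_ifs
      · exact ng_nonneg' _ _ _ _ _
      · exact le_rfl) (Finset.mem_univ j)
  simp only [if_pos ham] at h5
  exact h5

end Pool.Agent.Work.MP_122e00_nt.Hyb
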