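import Pool.Agent.Work.MP_122e00_nt.Hyb.Stmts

set_option autoImplicit false

/-!
# P4b: positivity of the denominators
-/

namespace Pool.Agent.Work.MP_122e00_nt.Hyb

open Finset Filter Topology MeasureTheory

theorem sum_eq_blk {k : ℕ} (x : Fin (k + 1) → ℝ) : ∑ m, x m = x 0 + blk x := by
  rw [Fin.sum_univ_succ]
  rfl

theorem bef_nonneg {k : ℕ} (x : Fin (k + 1) → ℝ) (hx : ∀ m, 0 ≤ x m) (m : Fin k) :
    0 ≤ bef x m := Finset.sum_nonneg fun i _ => hx _

theorem bef_le_blk {k : ℕ} (x : Fin (k + 1) → ℝ) (hx : ∀ m, 0 ≤ x m) (m : Fin k) :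
    bef x m ≤ blk x :=
  Finset.sum_le_sum_of_subset_of_nonneg (Finset.filter_subset _ _) fun i _ _ => hx _

theorem am_le (v : Fin 3 → ℝ) (D : ℝ) (hD : 0 ≤ D) (j : Fin 3) (h : am (ad v j D) j) (q : Fin 3) :
    v q ≤ v j + D := by
  have h1 : ad v j D q ≤ ad v j D j := by
    rcases h q with h | h
    · exact h.le
    · exact h.1.le
  by_cases hq : q = j
  · rw [hq]; linarith
  · simpa [ad, hq] using h1

theorem prfP4b : claimP4b := by
  intro th c h0 h1 hc k x v hR hs j hj m
  obtain ⟨hx, hv, hS, hS'⟩ := hR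
  rw [sum_eq_blk] at hS hS'
  have hb0 := bef_nonneg x hx m
  have hb1 := bef_le_blk x hx m
  have hx0 := hx 0
  have hD : 0 ≤ blk x := hb0.trans hb1
  have hlt : x 0 + bef x m < c := by
    rcases hs with hs | hs
    · exact hs.2 m
    · unfold lft at hs
      linarith
  have ha := am_le v (blk x) hD j hj
  have h3 : ∑ i, v i + blk x ≤ 3 * (v j + blk x) := by
    rw [Fin.sum_univ_three]
    fin_cases j
    · have a1 := ha 1
      have a2 := ha 2
      simp only [Fin.zero_eta] at a1 a2 ⊢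
      linarith
    · have a1 := ha 0
      have a2 := ha 2
      simp only [Fin.mk_one] at a1 a2 ⊢
      linarith
    · have a1 := ha 0
      have a2 := ha 1
      simp only [Fin.reduceFinMk] at a1 a2 ⊢
      linarith
  have hvj : v j ≤ ∑ i, v i := Finset.single_le_sum (fun i _ => hv i) (Finset.mem_univ j)
  have hv0 := hv j
  refine ⟨?_, ?_, ?_, ?_⟩
  · linarith
  · linarith
  · linarith
  · linarith

end Pool.Agent.Work.MP_122e00_nt.Hyb
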