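import Pool.Agent.Work.MP_122e00_nt.Hyb.Stmts

set_option autoImplicit false

/-!
# P5: Cauchy-Schwarz for structure sums
-/

namespace Pool.Agent.Work.MP_122e00_nt.Hyb

open Finset Filter Topology MeasureTheory

namespace IP5

theorem cs_real {a b s : ℝ} (ha : 0 ≤ a) (hb : 0 ≤ b) (hs : 0 ≤ s)
    (h : ∀ t : ℝ, 0 < t → 2 * s ≤ t * a + t⁻¹ * b) : s ^ 2 ≤ a * b := by
  rcases hs.eq_or_lt with hs0 | hs0
  · rw [← hs0]; simpa using mul_nonneg ha hb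
  rcases ha.eq_or_lt with ha0 | ha0
  · exfalso
    have h1 := h ((b + 1) / s) (by positivity)
    rw [← ha0, mul_zero, zero_add, inv_div, div_mul_eq_mul_div] at h1
    rw [le_div_iff₀ (by positivity)] at h1
    nlinarith
  · have h1 := h (s / a) (by positivity)
    rw [inv_div, div_mul_cancel₀ _ ha0.ne', div_mul_eq_mul_div] at h1
    have h2 : s ≤ a * b / s := by linarith
    rw [le_div_iff₀ hs0] at h2
    nlinarith

theorem amgm {N F G t : ℝ} (ht : 0 < t) (hN : 0 ≤ N) (hF : 0 ≤ F) (hG : 0 ≤ G)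
    (h : N ^ 2 ≤ F * G) : 2 * N ≤ t * F + t⁻¹ * G := by
  have h1 : (2 * N) ^ 2 ≤ (t * F + t⁻¹ * G) ^ 2 := by
    have e : t * t⁻¹ = 1 := mul_inv_cancel₀ ht.ne'
    have e2 : (t * F + t⁻¹ * G) ^ 2 = (t * F - t⁻¹ * G) ^ 2 + 4 * (t * t⁻¹) * (F * G) := by ring
    rw [e2, e]
    nlinarith [sq_nonneg (t * F - t⁻¹ * G)]
  have h2 : 0 ≤ t * F + t⁻¹ * G := by positivity
  exact (pow_le_pow_iff_left₀ (by positivity) h2 (by norm_num)).mp h1

theorem TS_nonneg (h0 : claimP0) (h1 : Two.claimT1) (L : ℝ) (k n : ℕ)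
    (F : (Fin k → ℝ) → (Fin 3 → ℝ) → ℝ) (hL : 0 < L) (hn : n ≠ 0) (hF : ∀ x v, 0 ≤ F x v) :
    0 ≤ Two.TS L 2 k n F := by
  have e := (h1 L 2 k n F F 0).2
  rw [zero_mul] at e
  rw [← e]
  refine h0 L k n _ _ hL hn ?_
  intro x v _ _ _
  rw [zero_mul]
  exact hF x v

end IP5

theorem prfP5 (h0 : claimP0) (h1 : Two.claimT1) : claimP5 := by
  intro L n K F G N hL hn hNFG
  refine IP5.cs_real ?_ ?_ ?_ ?_
  · exact Finset.sum_nonneg fun k _ => IP5.TS_nonneg h0 h1 L (k + 1) n (F k) hL hn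
      fun x v => (hNFG k x v).2.1
  · exact Finset.sum_nonneg fun k _ => IP5.TS_nonneg h0 h1 L (k + 1) n (G k) hL hn
      fun x v => (hNFG k x v).2.2.1
  · exact Finset.sum_nonneg fun k _ => IP5.TS_nonneg h0 h1 L (k + 1) n (N k) hL hn
      fun x v => (hNFG k x v).1
  · intro t ht
    rw [Finset.mul_sum, Finset.mul_sum, Finset.mul_sum, ← Finset.sum_add_distrib]
    refine Finset.sum_le_sum ?_
    intro k _
    rw [← (h1 L 2 (k + 1) n (N k) (N k) 2).2, ← (h1 L 2 (k + 1) n (F k) (F k) t).2,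
      ← (h1 L 2 (k + 1) n (G k) (G k) t⁻¹).2, ← (h1 L 2 (k + 1) n _ _ 0).1]
    refine h0 L (k + 1) n _ _ hL hn ?_
    intro x v _ _ _
    obtain ⟨a1, a2, a3, a4⟩ := hNFG k x v
    exact IP5.amgm ht a1 a2 a3 a4

end Pool.Agent.Work.MP_122e00_nt.Hyb
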