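import Pool.Agent.Work.MP_122e00_nt.Hyb.Stmts

set_option autoImplicit false

/-!
# P6: the pointwise inequality
-/

namespace Pool.Agent.Work.MP_122e00_nt.Hyb

open Finset Filter Topology MeasureTheory

namespace IP6

theorem TS_zero (h1 : Two.claimT1) (L : ℝ) (k n : ℕ) :
    Two.TS L 2 k n (fun _ _ => 0) = 0 := by
  have := (h1 L 2 k n (fun _ _ => 0) (fun _ _ => 0) 0).2
  simpa using this

theorem TS_nonneg (h0 : claimP0) (h1 : Two.claimT1) (L : ℝ) (k n : ℕ)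
    (F : (Fin k → ℝ) → (Fin 3 → ℝ) → ℝ) (hL : 0 < L) (hn : n ≠ 0)
    (h : ∀ x v, (∀ m, 0 < x m) → (∀ i, 0 ≤ v i) → ∑ m, x m + ∑ i, v i = Real.log n / L →
      0 ≤ F x v) : 0 ≤ Two.TS L 2 k n F := by
  rw [← TS_zero h1 L k n]
  exact h0 L k n _ _ hL hn h

theorem bi_nonneg (th : ℝ) (w : Fin 3 → ℝ) : 0 ≤ bi th w := by
  unfold bi
  split_ifs <;> norm_num

theorem gi_nonneg (th : ℝ) (w : Fin 3 → ℝ) : 0 ≤ gi th w := by
  unfold gi
  split_ifs <;> norm_num

theorem LL_nonneg (h4b : claimP4b) (th c : ℝ) (hth : 0 < th) (hth' : th ≤ 1 / 100)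
    (hc : c = 1 / 4 + 2 * th) (k : ℕ) (g : (Fin 3 → ℝ) → ℝ) (hg : ∀ w, 0 ≤ g w)
    (x : Fin (k + 1) → ℝ) (v : Fin 3 → ℝ) : 0 ≤ LL th c k g x v := by
  unfold LL
  split_ifs with h
  · unfold Pk
    apply Finset.sum_nonneg
    intro j _
    apply mul_nonneg
    · unfold wj
      split_ifs with hj
      · apply Finset.prod_nonneg
        intro m _
        obtain ⟨h1, h2, _, _⟩ := h4b th c hth hth' hc k x v h.1 (Or.inr h.2) j hj m
        apply div_nonneg h2
        linarith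
      · exact le_refl _
    · exact Finset.sum_nonneg (fun i _ => hg _)
  · exact le_refl _

end IP6

theorem prfP6 (h0 : claimP0) (h1 : Two.claimT1) (h3 : claimP3) (h4 : claimP4)
    (h4b : claimP4b) (h5 : claimP5) : claimP6 := by
  intro L th c n K hL hth hth' hc hn hlo hhi
  have hn0 : n ≠ 0 := by omega
  have eB : BB th L n = ∑ k ∈ Finset.range (K + 1), Two.TS L 2 (k + 1) n (NN th c k) +
      Two.TS L 2 (K + 1) n (LL th c K (bi th)) := by
    unfold BB
    rw [h3 L th c n K (bi th) hL hth hth' hc hn hlo hhi]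
    congr 1
  have eA : AA th L n = ∑ k ∈ Finset.range (K + 1), Two.TS L 2 (k + 1) n (GG th c k) +
      Two.TS L 2 (K + 1) n (LL th c K (gi th)) := by
    unfold AA
    rw [h3 L th c n K (gi th) hL hth hth' hc hn hlo hhi]
    congr 1
  have lB : 0 ≤ Two.TS L 2 (K + 1) n (LL th c K (bi th)) :=
    IP6.TS_nonneg h0 h1 L (K + 1) n _ hL hn0 (fun x v _ _ _ =>
      IP6.LL_nonneg h4b th c hth hth' hc K (bi th) (IP6.bi_nonneg th) x v)
  have lA : 0 ≤ Two.TS L 2 (K + 1) n (LL th c K (gi th)) :=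
    IP6.TS_nonneg h0 h1 L (K + 1) n _ hL hn0 (fun x v _ _ _ =>
      IP6.LL_nonneg h4b th c hth hth' hc K (gi th) (IP6.gi_nonneg th) x v)
  have nN : 0 ≤ ∑ k ∈ Finset.range (K + 1), Two.TS L 2 (k + 1) n (NN th c k) :=
    Finset.sum_nonneg (fun k _ => IP6.TS_nonneg h0 h1 L (k + 1) n _ hL hn0
      (fun x v _ _ _ => (h4 th c hth hth' hc k x v).1))
  have nH : 0 ≤ Hs th c L K n :=
    Finset.sum_nonneg (fun k _ => IP6.TS_nonneg h0 h1 L (k + 1) n _ hL hn0
      (fun x v _ _ _ => (h4 th c hth hth' hc k x v).2.2.1))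
  have cs := h5 L n K (FF th c) (GG th c) (NN th c) hL hn0 (fun k x v =>
    ⟨(h4 th c hth hth' hc k x v).1, (h4 th c hth hth' hc k x v).2.2.1,
      (h4 th c hth hth' hc k x v).2.1, (h4 th c hth hth' hc k x v).2.2.2⟩)
  refine ⟨lB, by linarith, nH, ?_⟩
  have e1 : BB th L n - Two.TS L 2 (K + 1) n (LL th c K (bi th)) =
      ∑ k ∈ Finset.range (K + 1), Two.TS L 2 (k + 1) n (NN th c k) := by linarith
  rw [e1]
  refine le_trans cs ?_
  exact mul_le_mul_of_nonneg_left (by linarith) nH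

end Pool.Agent.Work.MP_122e00_nt.Hyb
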