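import Pool.Agent.Work.MP_122e00_nt.Hyb.Stmts
import Pool.Agent.Work.MP_122e00_nt.Count

set_option autoImplicit false

/-!
# Item P7: good and bad factorisations
-/

namespace Pool.Agent.Work.MP_122e00_nt.Hyb

open Finset Filter Topology MeasureTheory

open scoped ENNReal ArithmeticFunction.vonMangoldt ArithmeticFunction.zeta

namespace IP7

theorem gi_add_bi (th : ℝ) (w : Fin 3 → ℝ) : gi th w + bi th w = 1 := by
  classical
  unfold gi bi
  split_ifs <;> norm_num

theorem gi_nonneg (th : ℝ) (w : Fin 3 → ℝ) : 0 ≤ gi th w := by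
  classical
  unfold gi
  split_ifs <;> norm_num

theorem bi_nonneg (th : ℝ) (w : Fin 3 → ℝ) : 0 ≤ bi th w := by
  classical
  unfold bi
  split_ifs <;> norm_num

theorem TS_one (L : ℝ) (n : ℕ) :
    Two.TS L 2 0 n (fun _ _ => 1) = (((ζ : ArithmeticFunction ℕ) ^ 3) n : ℝ) := by
  rw [zeta_pow_apply]
  simp [Two.TS]

end IP7

theorem prfP7 : claimP7 := by
  intro th L n _
  refine ⟨⟨?_, ?_, ?_⟩, IP7.TS_one L n⟩
  · rw [← IP7.TS_one L n]
    unfold AA BB
    simp only [Two.TS]
    rw [← Finset.sum_add_distrib]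
    exact Finset.sum_congr rfl fun v _ => IP7.gi_add_bi th _
  · unfold AA
    simp only [Two.TS]
    exact Finset.sum_nonneg fun v _ => IP7.gi_nonneg th _
  · unfold BB
    simp only [Two.TS]
    exact Finset.sum_nonneg fun v _ => IP7.bi_nonneg th _

end Pool.Agent.Work.MP_122e00_nt.Hyb
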