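import Pool.Agent.Work.MP_122e00_nt.Hyb.Stmts

set_option autoImplicit false

/-!
# P8: the number of good factorisations is a divisor sum
-/

namespace Pool.Agent.Work.MP_122e00_nt.Hyb

open Finset Filter Topology MeasureTheory

namespace IP8

lemma pointwise (th : ℝ) (w : Fin 3 → ℝ) (hw : ∀ i, 0 ≤ w i) (hs : 1 - 2 * th < ∑ i, w i) :
    gi th w = ∑ i : Fin 3, if ∑ j : Fin 2, w (i.succAbove j) ≤ 1 / 2 - th then (1 : ℝ) else 0 := by
  classical
  have hsum : ∀ i : Fin 3, ∑ j : Fin 2, w (i.succAbove j) = (∑ q, w q) - w i := by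
    intro i
    rw [Fin.sum_univ_succAbove w i]
    ring
  have hle : ∀ i i' : Fin 3, i ≠ i' → w i' ≤ (∑ q, w q) - w i := by
    intro i i' hne
    rw [← hsum i]
    obtain ⟨j, hj⟩ := Fin.exists_succAbove_eq (Ne.symm hne)
    rw [← hj]
    exact Finset.single_le_sum (f := fun j : Fin 2 => w (i.succAbove j))
      (fun j _ => hw _) (Finset.mem_univ j)
  unfold gi
  by_cases hG : Gd th w
  · rw [if_pos hG]
    obtain ⟨i, hi⟩ := hG
    rw [Finset.sum_eq_single i]
    · rw [if_pos]
      rw [hsum i]
      exact hi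
    · intro i' _ hne
      rw [if_neg]
      rw [hsum i', not_le]
      have h1 := hle i i' (Ne.symm hne)
      linarith
    · intro h
      exact absurd (Finset.mem_univ i) h
  · rw [if_neg hG]
    symm
    apply Finset.sum_eq_zero
    intro i _
    rw [if_neg]
    intro h
    apply hG
    refine ⟨i, ?_⟩
    rw [← hsum i]
    exact h

end IP8

open IP8 in
theorem prfP8 : claimP8 := by
  classical
  intro th X m n z hX hth hth2 hn hmz hlog
  have hL0 : 0 < Real.log X := Real.log_pos hX
  unfold AA Two.Apsi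
  simp only [Two.TS]
  have hpos : ∀ y ∈ Nat.finMulAntidiag 3 n, ∀ i, y i ≠ 0 := by
    intro y hy i hi
    rw [Nat.mem_finMulAntidiag] at hy
    apply hy.2
    rw [← hy.1]
    exact Finset.prod_eq_zero (Finset.mem_univ i) hi
  have hA : ∀ y ∈ Nat.finMulAntidiag 3 n, gi th (fun i => Real.log (y i) / Real.log X) =
      ∑ i : Fin 3, if ∑ j : Fin 2, Real.log (y (i.succAbove j)) / Real.log X ≤ 1 / 2 - th
        then (1 : ℝ) else 0 := by
    intro y hy
    have h0 := hpos y hy
    rw [Nat.mem_finMulAntidiag] at hy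
    refine pointwise th (fun i => Real.log (y i) / Real.log X)
      (fun i => div_nonneg (Real.log_natCast_nonneg _) hL0.le) ?_
    rw [← Finset.sum_div, ← Real.log_prod (fun i _ => by exact_mod_cast h0 i)]
    have h1 : ∏ i, ((y i : ℕ) : ℝ) = (n : ℝ) := by
      rw [← hy.1]
      push_cast
      rfl
    rw [h1]
    exact hlog
  rw [Finset.sum_congr rfl hA, Finset.sum_comm]
  have hB : ∀ i : Fin 3, ∑ y ∈ Nat.finMulAntidiag 3 n,
      (if ∑ j : Fin 2, Real.log (y (i.succAbove j)) / Real.log X ≤ 1 / 2 - th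
        then (1 : ℝ) else 0) =
      ∑ b ∈ Two.tup 2 X, if ((∏ i, b i : ℕ) : ℤ) ∣ (m : ℤ) - z then ps th (Two.lg X b) else 0 := by
    intro i
    have hps : ∀ b ∈ Two.tup 2 X,
        (if ((∏ i, b i : ℕ) : ℤ) ∣ (m : ℤ) - z then ps th (Two.lg X b) else 0) =
        if (∏ i, b i) ∣ n ∧ ∑ j : Fin 2, Real.log (b j) / Real.log X ≤ 1 / 2 - th
          then (1 : ℝ) else 0 := by
      intro b _
      rw [hmz]
      by_cases h1 : (∏ i, b i) ∣ n
      · rw [if_pos (Int.natCast_dvd_natCast.2 h1)]
        unfold ps Two.lg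
        by_cases h2 : ∑ j : Fin 2, Real.log (b j) / Real.log X ≤ 1 / 2 - th
        · rw [if_pos ⟨h1, h2⟩, Set.indicator_of_mem]
          exact ⟨fun j => div_nonneg (Real.log_natCast_nonneg _) hL0.le, h2⟩
        · rw [if_neg (fun h => h2 h.2), Set.indicator_of_notMem]
          intro h
          exact h2 h.2
      · rw [if_neg (fun h => h1 (Int.natCast_dvd_natCast.1 h)), if_neg (fun h => h1 h.1)]
    rw [Finset.sum_congr rfl hps, ← Finset.sum_filter, ← Finset.sum_filter]
    refine Finset.sum_nbij' (fun y => fun j => y (i.succAbove j))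
      (fun b => i.insertNth (α := fun _ => ℕ) (n / ∏ j, b j) b) ?_ ?_ ?_ ?_ ?_
    · intro y hy
      rw [Finset.mem_filter] at hy
      obtain ⟨hy1, hy2⟩ := hy
      have h0 := hpos y hy1
      rw [Nat.mem_finMulAntidiag] at hy1
      rw [Finset.mem_filter]
      refine ⟨?_, ?_, hy2⟩
      · rw [Two.tup, Fintype.mem_piFinset]
        intro j
        rw [Finset.mem_Icc]
        refine ⟨Nat.one_le_iff_ne_zero.2 (h0 _), ?_⟩
        apply Nat.le_floor
        have h3 : Real.log (y (i.succAbove j)) / Real.log X ≤ 1 / 2 - th :=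
          (Finset.single_le_sum (f := fun j : Fin 2 => Real.log (y (i.succAbove j)) / Real.log X)
            (fun j _ => div_nonneg (Real.log_natCast_nonneg _) hL0.le)
            (Finset.mem_univ j)).trans hy2
        have h4 : Real.log (y (i.succAbove j)) ≤ Real.log X := by
          rw [div_le_iff₀ hL0] at h3
          nlinarith
        have h5 : (0 : ℝ) < (y (i.succAbove j) : ℝ) := by
          exact_mod_cast Nat.pos_of_ne_zero (h0 _)
        exact (Real.log_le_log_iff h5 (by linarith)).1 h4
      · rw [← hy1.1, Fin.prod_univ_succAbove _ i]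
        exact dvd_mul_left _ _
    · intro b hb
      rw [Finset.mem_filter] at hb
      obtain ⟨hb1, hb2, hb3⟩ := hb
      rw [Finset.mem_filter, Nat.mem_finMulAntidiag]
      refine ⟨⟨?_, hn⟩, ?_⟩
      · rw [Fin.prod_univ_succAbove _ i]
        simp only [Fin.insertNth_apply_same, Fin.insertNth_apply_succAbove]
        exact Nat.div_mul_cancel hb2
      · simp only [Fin.insertNth_apply_succAbove]
        exact hb3
    · intro y hy
      rw [Finset.mem_filter] at hy
      obtain ⟨hy1, hy2⟩ := hy
      have h0 := hpos y hy1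
      rw [Nat.mem_finMulAntidiag] at hy1
      have h1 : n / ∏ j, y (i.succAbove j) = y i := by
        rw [← hy1.1, Fin.prod_univ_succAbove _ i]
        apply Nat.mul_div_cancel
        apply Nat.pos_of_ne_zero
        exact Finset.prod_ne_zero_iff.2 (fun j _ => h0 _)
      funext q
      rcases Fin.eq_self_or_eq_succAbove i q with h | ⟨j, h⟩
      · rw [h]
        simp only [Fin.insertNth_apply_same]
        exact h1
      · rw [h]
        simp only [Fin.insertNth_apply_succAbove]
    · intro b hb
      funext j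
      simp only [Fin.insertNth_apply_succAbove]
    · intro y hy
      rfl
  rw [Finset.sum_congr rfl (fun i _ => hB i)]
  simp

end Pool.Agent.Work.MP_122e00_nt.Hyb
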