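import Pool.Agent.Work.MP_122e00_nt.Hyb.Stmts
import Pool.Agent.Work.MP_122e00_nt.Bd.B45

set_option autoImplicit false

/-!
# Item S1: the three limits
-/

namespace Pool.Agent.Work.MP_122e00_nt.Hyb

open Finset Filter Topology MeasureTheory

open scoped ENNReal ArithmeticFunction.vonMangoldt ArithmeticFunction.zeta

namespace IS1

theorem ae_ne (i : Fin 2) : ∀ᵐ y : Fin 2 → ℝ, y i ≠ 0 := by
  have h := Two.prfL6 (Fin 2) (Pi.single i 1) 0 (by
    intro h0
    have := congrFun h0 i
    simp at this)
  rw [ae_iff]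
  refine measure_mono_null ?_ h
  intro y hy
  simp only [ne_eq, Set.mem_ofPred_eq, not_not] at hy ⊢
  fin_cases i
  · simp [Fin.sum_univ_two] at hy ⊢
    exact hy
  · simp [Fin.sum_univ_two] at hy ⊢
    exact hy

theorem int_O1 (th : ℝ) (hth : 0 < th) : ∫ y in Two.O1 2, ps th y = ∫ y, ps th y := by
  have hm : MeasurableSet (Two.O1 2) := MeasurableSet.univ_pi fun _ => measurableSet_Ioo
  rw [← integral_indicator hm]
  apply integral_congr_ae
  filter_upwards [ae_ne 0, ae_ne 1] with y h0 h1
  by_cases hy : y ∈ Two.O1 2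
  · rw [Set.indicator_of_mem hy]
  · rw [Set.indicator_of_notMem hy]
    symm
    unfold ps
    apply Set.indicator_of_notMem
    rintro ⟨ha, hb⟩
    apply hy
    rw [Fin.sum_univ_two] at hb
    have ha0 := ha 0
    have ha1 := ha 1
    intro i _
    rw [Set.mem_Ioo]
    have p0 : 0 < y 0 := lt_of_le_of_ne ha0 (Ne.symm h0)
    have p1 : 0 < y 1 := lt_of_le_of_ne ha1 (Ne.symm h1)
    fin_cases i
    · exact ⟨p0, by simp only [Fin.zero_eta]; linarith⟩
    · exact ⟨p1, by simp only [Fin.mk_one]; linarith⟩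

end IS1

theorem prfS1 (hF1 : claimF1) (hF2 : claimF2) (hF3 : claimF3) (hF4 : claimF4) (hF5 : claimF5)
    (hP7 : claimP7) : claimS1 := by
  intro h hh0 th c hth hth1 hc z hz
  obtain ⟨hW, hI⟩ := hF4 th hth hth1
  obtain ⟨hI1, hI2⟩ := hF5 th hth hth1
  obtain ⟨C₀, hC₀, hF⟩ := hF1
  have hI' := (IS1.int_O1 th hth).trans hI
  refine ⟨?_, ?_, ?_⟩
  · have := Two.asy 2 0 h (by norm_num) hh0 th hth (by linarith) (ps th) hW z hz
      (fun _ _ => 1) 1 (by intro x v; simp)
      (by
        refine Filter.Eventually.of_forall fun y => ?_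
        exact continuousAt_const)
    rw [hI', hI1] at this
    refine this.congr fun X => ?_
    congr 1
    refine Finset.sum_congr rfl fun n hn => ?_
    rw [(hP7 th (Real.log X) n (by rw [Finset.mem_Icc] at hn; omega)).2]
  · have := Two.asy 2 0 h (by norm_num) hh0 th hth (by linarith) (ps th) hW z hz
      (fun _ v => gi th v) 1 (by
        intro x v
        unfold gi
        split_ifs <;> simp) (hF3 th hth hth1)
    rw [hI', hI2] at this
    exact this
  · intro k
    have := Two.asy 2 (k + 1) h (by norm_num) hh0 th hth (by linarith) (ps th) hW z hz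
      (FF th c k) (C₀ ^ (k + 1)) (by
        intro x v
        obtain ⟨h1, h2, -, -⟩ := hF th c hth hth1 hc k x v
        rw [abs_of_nonneg h1]
        refine h2.trans ?_
        have : (0:ℝ) ≤ C₀ ^ (k + 1) := by positivity
        split_ifs
        · simp
        · simpa using this) (hF2 th c hth hth1 hc k)
    rw [hI'] at this
    exact this

end Pool.Agent.Work.MP_122e00_nt.Hyb
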