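import Pool.Agent.Work.MP_122e00_nt.Hyb.Stmts
import Pool.Agent.Work.MP_122e00_nt.Bd.B40
import Pool.Agent.Work.MP_122e00_nt.Euler4

set_option autoImplicit false

/-!
# Item S2: the mean value of `Hs`, with the tail
-/

namespace Pool.Agent.Work.MP_122e00_nt.Hyb

open Finset Filter Topology MeasureTheory

open scoped ENNReal ArithmeticFunction.vonMangoldt ArithmeticFunction.zeta

namespace IS2

theorem Apsi_nonneg {s : ℕ} {ψ : (Fin s → ℝ) → ℝ} (h : ∀ y, 0 ≤ ψ y) (X : ℝ) (z : ℤ) (n : ℕ) :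
    0 ≤ Two.Apsi ψ X z n := by
  unfold Two.Apsi
  refine Finset.sum_nonneg fun b _ => ?_
  split_ifs
  · exact h _
  · exact le_rfl

/-- The bounds of F1. -/
def FB (C₀ th c : ℝ) : Prop := ∀ (k : ℕ) (x : Fin (k + 1) → ℝ) (v : Fin 3 → ℝ),
    0 ≤ FF th c k x v ∧
    FF th c k x v ≤ C₀ ^ (k + 1) * (if ∑ m : Fin k, x m.castSucc < c then 1 else 0)

theorem TS_FF_nonneg {C₀ th c : ℝ} (hF : FB C₀ th c) {L : ℝ} (hL : 0 < L) {n : ℕ} (hn : n ≠ 0)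
    (k : ℕ) : 0 ≤ Two.TS L 2 (k + 1) n (FF th c k) :=
  Two.prfT2 L 2 (k + 1) n hL hn _ fun x v _ _ _ => (hF k x v).1

theorem TS_FF_le (hP0 : claimP0) (hU2 : Two.claimU2) {C₀ th c : ℝ} (hC0 : 1 ≤ C₀)
    (hF : FB C₀ th c) {L : ℝ} (hL : 0 < L) {n : ℕ} (hn : n ≠ 0) (k : ℕ) :
    Two.TS L 2 (k + 1) n (FF th c k) ≤ C₀ * (C₀ ^ k * Two.TS L 2 k n (Two.FT k c)) := by
  have h1 : Two.TS L 2 (k + 1) n (FF th c k) ≤
      Two.TS L 2 (k + 1) n (fun x v => C₀ ^ (k + 1) * Two.FL (s := 2) k c x v) :=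
    hP0 L (k + 1) n _ _ hL hn fun x v _ _ _ => (hF k x v).2
  have h2 := (Two.prfT1 L 2 (k + 1) n (Two.FL k c) (Two.FL k c) (C₀ ^ (k + 1))).2
  rw [h2] at h1
  have h3 := hU2 2 k n L c hL hn
  have h4 : 0 ≤ Two.TS L 2 k n (Two.FT k c) := by
    refine Two.prfT2 L 2 k n hL hn _ fun x v _ _ _ => ?_
    unfold Two.FT
    split_ifs
    · exact zero_le_one
    · exact le_rfl
  have h5 : Two.TS L 2 (k + 1) n (Two.FL k c) ≤ Two.TS L 2 k n (Two.FT k c) := by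
    refine h3.trans ?_
    push_cast
    linarith
  calc Two.TS L 2 (k + 1) n (FF th c k) ≤ C₀ ^ (k + 1) * Two.TS L 2 (k + 1) n (Two.FL k c) := h1
    _ ≤ C₀ ^ (k + 1) * Two.TS L 2 k n (Two.FT k c) :=
        mul_le_mul_of_nonneg_left h5 (by positivity)
    _ = _ := by rw [pow_succ]; ring

/-- The sum is split at `K`. -/
theorem Hs_le (hP0 : claimP0) (hU2 : Two.claimU2) {C₀ th c : ℝ} (hC0 : 1 ≤ C₀)
    (hF : FB C₀ th c) {L : ℝ} (hL : 0 < L) {n : ℕ} (hn : n ≠ 0) (K K1 : ℕ) :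
    Hs th c L K1 n ≤ ∑ k ∈ Finset.range (K + 1), Two.TS L 2 (k + 1) n (FF th c k) +
      C₀ * ∑ k ∈ Finset.Ioc K K1, C₀ ^ k * Two.TS L 2 k n (Two.FT k c) := by
  unfold Hs
  have hnn : ∀ k, 0 ≤ Two.TS L 2 (k + 1) n (FF th c k) := TS_FF_nonneg hF hL hn
  have h1 : Finset.range (K1 + 1) ⊆ Finset.range (K + 1) ∪ Finset.Ioc K K1 := by
    intro k hk
    rw [Finset.mem_range] at hk
    rw [Finset.mem_union, Finset.mem_range, Finset.mem_Ioc]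
    omega
  have h2 : Disjoint (Finset.range (K + 1)) (Finset.Ioc K K1) := by
    rw [Finset.disjoint_left]
    intro k hk hk'
    rw [Finset.mem_range] at hk
    rw [Finset.mem_Ioc] at hk'
    omega
  calc ∑ k ∈ Finset.range (K1 + 1), Two.TS L 2 (k + 1) n (FF th c k)
      ≤ ∑ k ∈ Finset.range (K + 1) ∪ Finset.Ioc K K1, Two.TS L 2 (k + 1) n (FF th c k) :=
        Finset.sum_le_sum_of_subset_of_nonneg h1 fun k _ _ => hnn k
    _ = ∑ k ∈ Finset.range (K + 1), Two.TS L 2 (k + 1) n (FF th c k) +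
        ∑ k ∈ Finset.Ioc K K1, Two.TS L 2 (k + 1) n (FF th c k) := Finset.sum_union h2
    _ ≤ _ := by
        rw [Finset.mul_sum]
        exact add_le_add le_rfl (Finset.sum_le_sum fun k _ => TS_FF_le hP0 hU2 hC0 hF hL hn k)

/-- The first part: the limit for fixed `K`. -/
theorem first_part (hS1 : claimS1) {h : ℕ} (hh : h ≠ 0) {th c : ℝ} (hth0 : 0 < th)
    (hth1 : th ≤ 1 / 100) (hc : c = 1 / 4 + 2 * th) {I₀ : ℝ}
    (hI₀ : ∀ K : ℕ, ∑ k ∈ Finset.range (K + 1), IF th c k ≤ I₀) (K : ℕ) {δ : ℝ} (hδ : 0 < δ)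
    {z : ℤ} (hz : z.natAbs = h) :
    ∀ᶠ X : ℝ in atTop, ∑ n ∈ Finset.Icc 1 ⌊X⌋₊, Two.Apsi (ps th) X z n *
        (∑ k ∈ Finset.range (K + 1), Two.TS (Real.log X) 2 (k + 1) n (FF th c k)) ≤
      (Csing 2 h * ((1 / 2 - th) ^ 2 / 2) * I₀ + δ) * (X * (Real.log X) ^ 4) := by
  have h1 := (hS1 h hh th c hth0 hth1 hc z hz).2.2
  have h2 : Tendsto (fun X : ℝ => ∑ k ∈ Finset.range (K + 1), (∑ n ∈ Finset.Icc 1 ⌊X⌋₊,
        Two.Apsi (ps th) X z n * Two.TS (Real.log X) 2 (k + 1) n (FF th c k)) /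
          (X * (Real.log X) ^ 4)) atTop
      (𝓝 (∑ k ∈ Finset.range (K + 1), Csing 2 h * ((1 / 2 - th) ^ 2 / 2) * IF th c k)) :=
    tendsto_finsetSum _ fun k _ => h1 k
  have hA : 0 ≤ Csing 2 h * ((1 / 2 - th) ^ 2 / 2) :=
    mul_nonneg (Csing_pos (by norm_num) h hh).le (by positivity)
  have h3 : ∑ k ∈ Finset.range (K + 1), Csing 2 h * ((1 / 2 - th) ^ 2 / 2) * IF th c k <
      Csing 2 h * ((1 / 2 - th) ^ 2 / 2) * I₀ + δ := by
    rw [← Finset.mul_sum]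
    have := mul_le_mul_of_nonneg_left (hI₀ K) hA
    linarith
  filter_upwards [h2.eventually_lt_const h3, eventually_gt_atTop (1 : ℝ)] with X hX hX1
  have hL : 0 < Real.log X := Real.log_pos hX1
  have hpos : 0 < X * (Real.log X) ^ 4 := by positivity
  rw [← Finset.sum_div, div_lt_iff₀ hpos] at hX
  refine le_trans (le_of_eq ?_) hX.le
  rw [Finset.sum_comm]
  exact Finset.sum_congr rfl fun n _ => Finset.mul_sum _ _ _

end IS2

open IS2 in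
/-- S2: the mean value of `Hs`, with a chain of length up to a constant times `log X`. -/
theorem prfS2 (hF1 : claimF1) (hS1 : claimS1) (hP0 : claimP0) (hU7 : Two.claimU7)
    (hU2 : Two.claimU2) (hF4 : claimF4) : claimS2 := by
  intro h hh th c hth0 hth1 hc I₀ hI₀
  obtain ⟨C₀, hC0, hF⟩ := hF1
  have hFB : FB C₀ th c := fun k x v =>
    ⟨(hF th c hth0 hth1 hc k x v).1, (hF th c hth0 hth1 hc k x v).2.1⟩
  have hW := (hF4 th hth0 hth1).1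
  obtain ⟨c₁, hc1, hU⟩ := hU7 2 h (by norm_num) hh th hth0 (by linarith) (ps th) hW c
    (by rw [hc]; linarith) (by rw [hc]; linarith) C₀ hC0
  refine ⟨c₁, hc1, fun δ hδ => ?_⟩
  obtain ⟨K, hK⟩ := hU (δ / (2 * C₀)) (by positivity)
  have hp := first_part hS1 hh hth0 hth1 hc hI₀ K (half_pos hδ) (z := (h : ℤ))
    (Int.natAbs_natCast h)
  have hm := first_part hS1 hh hth0 hth1 hc hI₀ K (half_pos hδ) (z := -(h : ℤ))
    (by rw [Int.natAbs_neg, Int.natAbs_natCast])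
  filter_upwards [hK, hp, hm, eventually_gt_atTop (1 : ℝ)] with X hKX hpX hmX hX1 z hz
  have hL : 0 < Real.log X := Real.log_pos hX1
  have hX0 : 0 < X := by linarith
  set K1 : ℕ := ⌊c₁ * Real.log X⌋₊ with hK1
  have hzX : ∑ n ∈ Finset.Icc 1 ⌊X⌋₊, Two.Apsi (ps th) X z n *
        (∑ k ∈ Finset.range (K + 1), Two.TS (Real.log X) 2 (k + 1) n (FF th c k)) ≤
      (Csing 2 h * ((1 / 2 - th) ^ 2 / 2) * I₀ + δ / 2) * (X * (Real.log X) ^ 4) := by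
    rcases Int.natAbs_eq z with h1 | h1
    · rw [h1, hz]
      exact hpX
    · rw [h1, hz]
      exact hmX
  have hA0 : ∀ n, 0 ≤ Two.Apsi (ps th) X z n := Apsi_nonneg hW.nonneg X z
  have hsub : Finset.Ioc ⌊X / Real.log X⌋₊ ⌊X⌋₊ ⊆ Finset.Icc 1 ⌊X⌋₊ := by
    intro n hn
    rw [Finset.mem_Ioc] at hn
    rw [Finset.mem_Icc]
    exact ⟨by omega, hn.2⟩
  have hn0 : ∀ n ∈ Finset.Icc 1 ⌊X⌋₊, n ≠ 0 := by
    intro n hn
    rw [Finset.mem_Icc] at hn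
    omega
  have h1 : ∑ n ∈ Finset.Ioc ⌊X / Real.log X⌋₊ ⌊X⌋₊, Two.Apsi (ps th) X z n *
        Hs th c (Real.log X) K1 n ≤
      ∑ n ∈ Finset.Ioc ⌊X / Real.log X⌋₊ ⌊X⌋₊, Two.Apsi (ps th) X z n *
        (∑ k ∈ Finset.range (K + 1), Two.TS (Real.log X) 2 (k + 1) n (FF th c k)) +
      C₀ * ∑ n ∈ Finset.Ioc ⌊X / Real.log X⌋₊ ⌊X⌋₊, Two.Apsi (ps th) X z n *
        (∑ k ∈ Finset.Ioc K K1, C₀ ^ k * Two.TS (Real.log X) 2 k n (Two.FT k c)) := by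
    rw [Finset.mul_sum, ← Finset.sum_add_distrib]
    refine Finset.sum_le_sum fun n hn => ?_
    have h2 := mul_le_mul_of_nonneg_left
      (Hs_le hP0 hU2 hC0 hFB hL (hn0 n (hsub hn)) K K1) (hA0 n)
    refine h2.trans (le_of_eq ?_)
    ring
  have h2 : ∑ n ∈ Finset.Ioc ⌊X / Real.log X⌋₊ ⌊X⌋₊, Two.Apsi (ps th) X z n *
        (∑ k ∈ Finset.range (K + 1), Two.TS (Real.log X) 2 (k + 1) n (FF th c k)) ≤
      ∑ n ∈ Finset.Icc 1 ⌊X⌋₊, Two.Apsi (ps th) X z n *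
        (∑ k ∈ Finset.range (K + 1), Two.TS (Real.log X) 2 (k + 1) n (FF th c k)) :=
    Finset.sum_le_sum_of_subset_of_nonneg hsub fun n hn _ =>
      mul_nonneg (hA0 n) (Finset.sum_nonneg fun k _ => TS_FF_nonneg hFB hL (hn0 n hn) k)
  have h3 := mul_le_mul_of_nonneg_left (hKX z hz) (show 0 ≤ C₀ by linarith)
  have h4 : C₀ * (δ / (2 * C₀) * (X * (Real.log X) ^ (2 * 2))) =
      δ / 2 * (X * (Real.log X) ^ 4) := by
    have : C₀ ≠ 0 := by linarith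
    norm_num
    field_simp
  rw [h4] at h3
  refine h1.trans ((add_le_add (h2.trans hzX) h3).trans (le_of_eq ?_))
  ring

end Pool.Agent.Work.MP_122e00_nt.Hyb
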