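import Pool.Agent.Work.MP_122e00_nt.Hyb.Stmts

set_option autoImplicit false

/-!
# Item S4: the product at `n` and `n + h`
-/

namespace Pool.Agent.Work.MP_122e00_nt.Hyb

open Finset Filter Topology MeasureTheory

open scoped ENNReal ArithmeticFunction.vonMangoldt ArithmeticFunction.zeta

namespace IS4

/-- The elementary inequality behind the item. -/
lemma key (d d' A A' B B' H H' l l' x : ℝ) (hd : A + B = d) (hd' : A' + B' = d')
    (hA : 0 ≤ A) (hA' : 0 ≤ A') (hH : 0 ≤ H) (hH' : 0 ≤ H')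
    (hl0 : 0 ≤ l) (hl0' : 0 ≤ l') (hlx : l ≤ x) (hlx' : l' ≤ x)
    (hlB : l ≤ B) (hlB' : l' ≤ B') (hb : (B - l) ^ 2 ≤ H * A) (hb' : (B' - l') ^ 2 ≤ H' * A') :
    d * d' ≤ A' * d + A * d' - A' * A + 1 / 2 * A' * H + 1 / 2 * A * H' + x * (d + d') := by
  have hx : 0 ≤ x := le_trans hl0 hlx
  have hb0 : 0 ≤ B - l := by linarith
  have hb0' : 0 ≤ B' - l' := by linarith
  have h1 : (B - l) * (B' - l') ≤ (H * A' + H' * A) / 2 := by
    have hs : ((B - l) * (B' - l')) ^ 2 ≤ (H * A') * (H' * A) := by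
      calc ((B - l) * (B' - l')) ^ 2 = (B - l) ^ 2 * (B' - l') ^ 2 := by ring
        _ ≤ (H * A) * (H' * A') := mul_le_mul hb hb' (sq_nonneg _) (mul_nonneg hH hA)
        _ = (H * A') * (H' * A) := by ring
    have hp : 0 ≤ H * A' := mul_nonneg hH hA'
    have hq : 0 ≤ H' * A := mul_nonneg hH' hA
    have h4 : ((B - l) * (B' - l')) ^ 2 ≤ ((H * A' + H' * A) / 2) ^ 2 := by
      nlinarith [sq_nonneg (H * A' - H' * A)]
    exact le_of_sq_le_sq h4 (by linarith)
  have h2 : l * B' ≤ x * B' := mul_le_mul_of_nonneg_right hlx (le_trans hl0' hlB')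
  have h3 : l' * (B - l) ≤ x * B := by
    calc l' * (B - l) ≤ x * (B - l) := mul_le_mul_of_nonneg_right hlx' hb0
      _ ≤ x * B := mul_le_mul_of_nonneg_left (by linarith) hx
  have h5 : B * B' = (B - l) * (B' - l') + l * B' + l' * (B - l) := by ring
  have h6 : 0 ≤ x * A := mul_nonneg hx hA
  have h7 : 0 ≤ x * A' := mul_nonneg hx hA'
  subst hd hd'
  nlinarith
where
  le_of_sq_le_sq {a b : ℝ} (h : a ^ 2 ≤ b ^ 2) (hb : 0 ≤ b) : a ≤ b :=
    abs_le_of_sq_le_sq' h hb |>.2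

end IS4

theorem prfS4 (hP6 : claimP6) (hP7 : claimP7) (hP8 : claimP8) (hS3 : claimS3) : claimS4 := by
  intro th c hth hth1 hc c₁ hc₁ h hh
  have hloglog : Tendsto (fun X : ℝ => Real.log (Real.log X) / Real.log X) atTop (𝓝 0) := by
    have h0 : Tendsto (fun x : ℝ => Real.log x / x) atTop (𝓝 0) :=
      Real.isLittleO_log_id_atTop.tendsto_div_nhds_zero
    exact h0.comp Real.tendsto_log_atTop
  filter_upwards [hS3 th c hth hth1 hc c₁ hc₁, eventually_gt_atTop (Real.exp 1),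
    hloglog.eventually (gt_mem_nhds (show (0 : ℝ) < 2 * th by linarith))] with X hX3 hXe hXl
  intro n hn hnX
  have he1 : (1 : ℝ) < Real.exp 1 := by
    have := Real.add_one_lt_exp (one_ne_zero)
    linarith
  have hX1 : 1 < X := lt_trans he1 hXe
  have hX0 : 0 < X := by linarith
  have hL1 : 1 < Real.log X := by
    rw [Real.lt_log_iff_exp_lt hX0]; exact hXe
  have hL0 : 0 < Real.log X := by linarith
  have hn0 : (0 : ℝ) < n := lt_of_lt_of_le (div_pos hX0 hL0) hn
  have hnn : n ≠ 0 := by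
    rintro rfl
    simp at hn0
  have hle : (n : ℝ) ≤ ((n + h : ℕ) : ℝ) := by
    push_cast
    linarith [Nat.cast_nonneg (α := ℝ) h]
  have hlogn : 1 - 2 * th < Real.log n / Real.log X := by
    have h1 : Real.log X - Real.log (Real.log X) ≤ Real.log n := by
      rw [← Real.log_div hX0.ne' hL0.ne']
      exact Real.log_le_log (div_pos hX0 hL0) hn
    rw [lt_div_iff₀ hL0]
    rw [div_lt_iff₀ hL0] at hXl
    linarith
  have hlogn' : 1 - 2 * th < Real.log (n + h : ℕ) / Real.log X := by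
    refine lt_of_lt_of_le hlogn ?_
    exact div_le_div_of_nonneg_right (Real.log_le_log hn0 hle) hL0.le
  have hup' : Real.log (n + h : ℕ) / Real.log X ≤ 1 := by
    rw [div_le_one hL0]
    exact Real.log_le_log (lt_of_lt_of_le hn0 hle) hnX
  have hup : Real.log n / Real.log X ≤ 1 := by
    refine le_trans ?_ hup'
    exact div_le_div_of_nonneg_right (Real.log_le_log hn0 hle) hL0.le
  have h2 : 2 ≤ n := by
    by_contra hcon
    have : n = 1 := by omega
    subst this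
    simp at hlogn
    linarith
  have h2' : 2 ≤ n + h := by omega
  obtain ⟨p1, p2, p3, p4⟩ := hP6 (Real.log X) th c n ⌊c₁ * Real.log X⌋₊ hL0 hth hth1 hc h2
    (by linarith) (by linarith)
  obtain ⟨q1, q2, q3, q4⟩ := hP6 (Real.log X) th c (n + h) ⌊c₁ * Real.log X⌋₊ hL0 hth hth1 hc h2'
    (by linarith) (by linarith)
  obtain ⟨⟨a1, a2, a3⟩, -⟩ := hP7 th (Real.log X) n hnn
  obtain ⟨⟨b1, b2, b3⟩, -⟩ := hP7 th (Real.log X) (n + h) (by omega)
  have e1 : AA th (Real.log X) n = 3 * Two.Apsi (ps th) X h (n + h) :=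
    hP8 th X (n + h) n h hX1 hth (by linarith) hnn (by push_cast; ring) hlogn
  have e2 : AA th (Real.log X) (n + h) = 3 * Two.Apsi (ps th) X (-h) n :=
    hP8 th X n (n + h) (-h) hX1 hth (by linarith) (by omega) (by push_cast; ring) hlogn'
  have s1 := hX3 n hnn (le_trans hle hnX)
  have s2 := hX3 (n + h) (by omega) hnX
  have hkey := IS4.key _ _ _ _ _ _ _ _ _ _ X⁻¹ a1 b1 a2 b2 p3 q3 p1 q1 s1 s2 p2 q2 p4 q4
  rw [e2] at hkey
  have e3 : ∀ t : ℝ, AA th (Real.log X) n * t = 3 * Two.Apsi (ps th) X h (n + h) * t := by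
    intro t; rw [e1]
  have e4 : 1 / 2 * AA th (Real.log X) n *
      Hs th c (Real.log X) ⌊c₁ * Real.log X⌋₊ (n + h) = 3 / 2 * Two.Apsi (ps th) X h (n + h) *
      Hs th c (Real.log X) ⌊c₁ * Real.log X⌋₊ (n + h) := by
    rw [e1]; ring
  rw [e3, e4] at hkey
  linarith

end Pool.Agent.Work.MP_122e00_nt.Hyb
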