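import Pool.Agent.Work.MP_122e00_nt.Hyb.Stmts
import Pool.Agent.Work.MP_122e00_nt.Bd.B40
import Pool.Agent.Work.MP_122e00_nt.Bd.B42

set_option autoImplicit false

/-!
# Item S5: the sum over `X / log X < n ≤ X`
-/

namespace Pool.Agent.Work.MP_122e00_nt.Hyb

open Finset Filter Topology MeasureTheory

open scoped ArithmeticFunction.vonMangoldt ArithmeticFunction.zeta

namespace IS5

theorem Apsi_nonneg {s : ℕ} {ψ : (Fin s → ℝ) → ℝ} (h : ∀ y, 0 ≤ ψ y) (X : ℝ) (z : ℤ) (n : ℕ) :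
    0 ≤ Two.Apsi ψ X z n := by
  unfold Two.Apsi
  refine Finset.sum_nonneg fun b _ => ?_
  split_ifs
  · exact h _
  · exact le_rfl

theorem Apsi_le {s : ℕ} {ψ : (Fin s → ℝ) → ℝ} (hψ : ∀ y, ψ y ≤ 1) (X : ℝ) (z : ℤ) (n m : ℕ)
    (hm : m ≠ 0) (hz : (n : ℤ) - z = m) :
    Two.Apsi ψ X z n ≤ (m.divisors.card : ℝ) ^ s := by
  unfold Two.Apsi
  rw [hz]
  have h1 : ∀ b ∈ Two.tup s X, (if ((∏ i, b i : ℕ) : ℤ) ∣ (m : ℤ) then ψ (Two.lg X b) else 0) ≤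
      (if (∏ i, b i) ∣ m then (1 : ℝ) else 0) := by
    intro b _
    by_cases hb : (∏ i, b i) ∣ m
    · rw [if_pos (Int.natCast_dvd_natCast.mpr hb), if_pos hb]
      exact hψ _
    · rw [if_neg (fun h => hb (Int.natCast_dvd_natCast.mp h)), if_neg hb]
  refine (Finset.sum_le_sum h1).trans ?_
  rw [Finset.sum_ite, Finset.sum_const_zero, add_zero, Finset.sum_const, nsmul_eq_mul, mul_one]
  have h2 : ((Two.tup s X).filter (fun b => (∏ i, b i) ∣ m)).card ≤ m.divisors.card ^ s := by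
    calc ((Two.tup s X).filter (fun b => (∏ i, b i) ∣ m)).card
        ≤ (Fintype.piFinset (fun _ : Fin s => m.divisors)).card := by
          apply Finset.card_le_card
          intro b hb
          rw [Finset.mem_filter] at hb
          rw [Fintype.mem_piFinset]
          intro i
          rw [Nat.mem_divisors]
          exact ⟨(Finset.dvd_prod_of_mem b (Finset.mem_univ i)).trans hb.2, hm⟩
      _ = m.divisors.card ^ s := by simp
  exact_mod_cast h2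

theorem cover (f : ℕ → ℝ) (hf : ∀ n, 0 ≤ f n) (A M N : ℕ) :
    ∑ n ∈ Ioc A N, f n ≤ ∑ n ∈ Ioc A M, f n + ∑ n ∈ Ioc M N, f n := by
  rw [← Finset.sum_union_inter]
  have h1 : ∑ n ∈ Ioc A N, f n ≤ ∑ n ∈ Ioc A M ∪ Ioc M N, f n := by
    refine Finset.sum_le_sum_of_subset_of_nonneg ?_ (fun n _ _ => hf n)
    intro n hn
    simp only [Finset.mem_union, Finset.mem_Ioc] at hn ⊢
    omega
  have h2 : 0 ≤ ∑ n ∈ Ioc A M ∩ Ioc M N, f n := Finset.sum_nonneg fun n _ => hf n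
  linarith

theorem cover0 (f : ℕ → ℝ) (hf : ∀ n, 0 ≤ f n) (A N : ℕ) :
    ∑ n ∈ Icc 1 N, f n ≤ ∑ n ∈ Icc 1 A, f n + ∑ n ∈ Ioc A N, f n := by
  have h := cover f hf 0 A N
  have e : ∀ M : ℕ, Icc 1 M = Ioc 0 M := by
    intro M
    ext n
    simp only [Finset.mem_Icc, Finset.mem_Ioc]
    omega
  rw [e, e]
  exact h

theorem sub1 (f : ℕ → ℝ) (hf : ∀ n, 0 ≤ f n) (A N h : ℕ) :
    ∑ n ∈ Ioc A (N - h), f n ≤ ∑ n ∈ Ioc A N, f n := by
  refine Finset.sum_le_sum_of_subset_of_nonneg ?_ (fun n _ _ => hf n)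
  intro n hn
  simp only [Finset.mem_Ioc] at hn ⊢
  omega

theorem sub2 (f : ℕ → ℝ) (hf : ∀ n, 0 ≤ f n) (A N : ℕ) :
    ∑ n ∈ Ioc A N, f n ≤ ∑ n ∈ Icc 1 N, f n := by
  refine Finset.sum_le_sum_of_subset_of_nonneg ?_ (fun n _ _ => hf n)
  intro n hn
  simp only [Finset.mem_Ioc, Finset.mem_Icc] at hn ⊢
  omega

theorem shift (g : ℕ → ℝ) (hg : ∀ n, 0 ≤ g n) (A N h : ℕ) :
    ∑ n ∈ Ioc A (N - h), g (n + h) ≤ ∑ n ∈ Ioc A N, g n := by
  have h1 : ∑ n ∈ Ioc A (N - h), g (n + h) =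
      ∑ m ∈ (Ioc A (N - h)).map (addRightEmbedding h), g m := by
    rw [Finset.sum_map]
    rfl
  rw [h1]
  refine Finset.sum_le_sum_of_subset_of_nonneg ?_ (fun n _ _ => hg n)
  intro m hm
  rw [Finset.mem_map] at hm
  obtain ⟨n, hn, rfl⟩ := hm
  simp only [Finset.mem_Ioc, addRightEmbedding_apply] at hn ⊢
  omega

theorem ps_nonneg (th : ℝ) (y : Fin 2 → ℝ) : 0 ≤ ps th y := by
  unfold ps
  exact Set.indicator_nonneg (fun _ _ => zero_le_one) _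

theorem ps_le (th : ℝ) (y : Fin 2 → ℝ) : ps th y ≤ 1 := by
  unfold ps
  exact Set.indicator_le_self' (fun _ _ => zero_le_one) _

/-- the final arithmetic -/
theorem arith {Y C q I₀ δ D S1 S2 S3 S4 S5 S6 E1 E2 T F : ℝ} (hδ : 0 < δ) (hY : 0 < Y)
    (h0 : D ≤ 3 * S1 + 3 * S2 - 3 * S3 + 3 / 2 * S4 + 3 / 2 * S5 + S6 + E1)
    (h1 : S1 ≤ (C * q * (1 / 2) + δ / 40) * Y) (h2 : S2 ≤ (C * q * (1 / 2) + δ / 40) * Y)
    (h3 : (C * q * (3 * q) - δ / 40) * Y ≤ F) (h3' : F ≤ T + S3 + E2) (h3'' : T ≤ δ / 40 * Y)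
    (h4 : S4 ≤ (C * q * I₀ + δ / 40) * Y) (h5 : S5 ≤ (C * q * I₀ + δ / 40) * Y)
    (h6 : S6 + E1 + 3 * E2 ≤ δ / 40 * Y) :
    D ≤ (C * (3 * q - 9 * q ^ 2 + 3 * q * I₀) + δ) * Y := by
  have h7 : 0 < δ * Y := mul_pos hδ hY
  nlinarith [h7]

end IS5

open IS5 in
theorem prfS5 (hS1 : claimS1) (hS2 : claimS2) (hS4 : claimS4) (hTM : Two.claimTM)
    (hF4 : claimF4) (hF1 : claimF1) (hP7 : claimP7) : claimS5 := by
  intro h hh th c hth0 hth1 hc I₀ hI₀ hI δ hδ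
  obtain ⟨C₀, -, hF1'⟩ := hF1
  obtain ⟨c₁, hc₁, hS2'⟩ := hS2 h hh th c hth0 hth1 hc I₀ hI
  have hd40 : 0 < δ / 40 := by positivity
  have hzn : (-(h : ℤ)).natAbs = h := by simp
  have hzp : ((h : ℤ)).natAbs = h := by simp
  -- abbreviations
  obtain ⟨q, hq⟩ : ∃ q : ℝ, q = (1 / 2 - th) ^ 2 / 2 := ⟨_, rfl⟩
  obtain ⟨Cs, hCs⟩ : ∃ Cs : ℝ, Cs = Csing 2 h := ⟨_, rfl⟩
  obtain ⟨hl1n, hl2n, -⟩ := hS1 h hh th c hth0 hth1 hc (-(h : ℤ)) hzn
  obtain ⟨hl1p, -, -⟩ := hS1 h hh th c hth0 hth1 hc (h : ℤ) hzp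
  rw [← hq, ← hCs] at hl1n hl2n hl1p
  -- total mass for small `n`
  obtain ⟨Km, hKm⟩ : ∃ Km : ℝ, Km = Csing 2 h * (((((2 : ℕ) : ℝ) + 1) *
    volume.real (Two.Rs 2 ∩ Two.O1 2)) * ∫ y in Two.O1 2, ps th y) := ⟨_, rfl⟩
  obtain ⟨η, hη0, hη1, hηK⟩ : ∃ η : ℝ, 0 < η ∧ η ≤ 1 ∧ η * Km < δ / 40 := by
    refine ⟨min 1 (δ / 40 / (2 * (|Km| + 1))), lt_min one_pos (by positivity),
      min_le_left _ _, ?_⟩
    have h1 : min 1 (δ / 40 / (2 * (|Km| + 1))) * Km ≤ (δ / 40 / (2 * (|Km| + 1))) * |Km| :=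
      (mul_le_mul_of_nonneg_left (le_abs_self Km) (le_min zero_le_one (by positivity))).trans
        (mul_le_mul_of_nonneg_right (min_le_right _ _) (abs_nonneg _))
    refine h1.trans_lt ?_
    rw [div_mul_eq_mul_div, div_lt_iff₀ (by positivity)]
    nlinarith [abs_nonneg Km, mul_nonneg hd40.le (abs_nonneg Km)]
  have htm := hTM 2 h (by norm_num) hh th hth0 (by linarith) (ps th) (hF4 th hth0 hth1).1
    (-(h : ℤ)) hzn η hη0 hη1 (δ / 40) (by rw [← hKm]; exact hηK)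
  -- limits
  have e1 := hl1n.eventually (ge_mem_nhds (show Cs * q * (1 / 2) < Cs * q * (1 / 2) + δ / 40 by
    linarith))
  have e2 := hl1p.eventually (ge_mem_nhds (show Cs * q * (1 / 2) < Cs * q * (1 / 2) + δ / 40 by
    linarith))
  have e3 := hl2n.eventually (le_mem_nhds (show Cs * q * (3 * q) - δ / 40 < Cs * q * (3 * q) by
    linarith))
  have e4 := hS2' (δ / 40) hd40
  have e5 := hS4 th c hth0 hth1 hc c₁ hc₁ h hh
  have h2X : Tendsto (fun X : ℝ => 2 * X) atTop atTop :=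
    Filter.Tendsto.const_mul_atTop (by norm_num) tendsto_id
  have e6 := Two.IU9.zeta_pow_le 2 (δ := 1 / 4) (by norm_num)
  have e7 := h2X.eventually (divisor_bound 2 (κ := 1 / 16) (by norm_num))
  have hlogT : Tendsto (fun X : ℝ => Real.log X) atTop atTop := Real.tendsto_log_atTop
  have e8 := hlogT.eventually (eventually_ge_atTop (1 / η))
  have e9 := hlogT.eventually (eventually_ge_atTop (1 : ℝ))
  have e10 : ∀ᶠ X : ℝ in atTop, (2 + 4 * h) * X ^ (1 / 4 : ℝ) ≤ δ / 40 * X := by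
    have h1 : ∀ᶠ X : ℝ in atTop, (2 + 4 * (h : ℝ)) / (δ / 40) ≤ X ^ (3 / 4 : ℝ) :=
      (tendsto_rpow_atTop (by norm_num)).eventually_ge_atTop _
    filter_upwards [h1, eventually_gt_atTop (0 : ℝ)] with X hX hX0
    rw [div_le_iff₀ hd40] at hX
    calc (2 + 4 * (h : ℝ)) * X ^ (1 / 4 : ℝ) ≤ (X ^ (3 / 4 : ℝ) * (δ / 40)) * X ^ (1 / 4 : ℝ) :=
          mul_le_mul_of_nonneg_right hX (by positivity)
      _ = δ / 40 * (X ^ (3 / 4 : ℝ) * X ^ (1 / 4 : ℝ)) := by ring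
      _ = δ / 40 * X := by
          rw [← Real.rpow_add hX0]
          norm_num
  filter_upwards [e1, e2, e3, e4, e5, e6, e7, e8, e9, e10, htm, eventually_ge_atTop (2 : ℝ),
    eventually_ge_atTop (h : ℝ)] with X h1 h2 h3 h4 h5 h6 h7 h8 h9 h10 h11 hX2 hXh
  rw [← hq, ← hCs] at h4 ⊢
  have hX0 : 0 < X := by linarith
  obtain ⟨L, hL⟩ : ∃ L : ℝ, L = Real.log X := ⟨_, rfl⟩
  rw [← hL] at h1 h2 h3 h4 h5 h8 h9 h11 ⊢
  have hL0 : 0 < L := by linarith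
  have hY : 0 < X * L ^ 4 := by positivity
  have hYX : X ≤ X * L ^ 4 := by
    have : 1 ≤ L ^ 4 := one_le_pow₀ h9
    nlinarith
  rw [div_le_iff₀ hY] at h1 h2
  rw [le_div_iff₀ hY] at h3
  obtain ⟨N, hN⟩ : ∃ N : ℕ, N = ⌊X⌋₊ := ⟨_, rfl⟩
  obtain ⟨A, hA⟩ : ∃ A : ℕ, A = ⌊X / L⌋₊ := ⟨_, rfl⟩
  obtain ⟨K, hK⟩ : ∃ K : ℕ, K = ⌊c₁ * L⌋₊ := ⟨_, rfl⟩
  rw [← hN] at h1 h2 h3 h4 ⊢
  rw [← hA] at h4 ⊢
  rw [← hK] at h4 h5
  have hNX : (N : ℝ) ≤ X := by rw [hN]; exact Nat.floor_le hX0.le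
  have hAX : X / L < (A : ℝ) + 1 := by rw [hA]; exact Nat.lt_floor_add_one _
  obtain ⟨d, hd⟩ : ∃ d : ℕ → ℝ, ∀ n, (((ζ : ArithmeticFunction ℕ) ^ 3) n : ℝ) = d n :=
    ⟨_, fun _ => rfl⟩
  have hd' : ∀ n, (((ζ : ArithmeticFunction ℕ) ^ (2 + 1)) n : ℝ) = d n := hd
  have hd0 : ∀ n, 0 ≤ d n := fun n => by rw [← hd]; exact Nat.cast_nonneg _
  simp only [hd] at h1 h2 h5
  simp only [hd'] at h6 h11
  obtain ⟨a, ha⟩ : ∃ a : ℕ → ℝ, ∀ n, Two.Apsi (ps th) X (-(h : ℤ)) n = a n := ⟨_, fun _ => rfl⟩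
  obtain ⟨b, hb⟩ : ∃ b : ℕ → ℝ, ∀ n, Two.Apsi (ps th) X (h : ℤ) n = b n := ⟨_, fun _ => rfl⟩
  obtain ⟨H, hH⟩ : ∃ H : ℕ → ℝ, ∀ n, Hs th c L K n = H n := ⟨_, fun _ => rfl⟩
  obtain ⟨g, hg⟩ : ∃ g : ℕ → ℝ, ∀ n, AA th L n = g n := ⟨_, fun _ => rfl⟩
  have ha0 : ∀ n, 0 ≤ a n := fun n => by
    rw [← ha]; exact Apsi_nonneg (ps_nonneg th) _ _ _
  have hb0 : ∀ n, 0 ≤ b n := fun n => by
    rw [← hb]; exact Apsi_nonneg (ps_nonneg th) _ _ _
  have hg00 : g 0 = 0 := by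
    rw [← hg]
    unfold AA
    simp [Two.TS]
  have hg0 : ∀ n, 0 ≤ g n := fun n => by
    rcases eq_or_ne n 0 with rfl | hn
    · rw [hg00]
    · rw [← hg]; exact (hP7 th L n hn).1.2.1
  have hgd : ∀ n, g n ≤ d n := fun n => by
    rcases eq_or_ne n 0 with rfl | hn
    · rw [hg00]; exact hd0 0
    · have h12 := (hP7 th L n hn).1
      rw [hg, hd] at h12
      linarith [h12.1, h12.2.2]
  have hH0 : ∀ n, 0 ≤ H n := fun n => by
    rw [← hH]
    unfold Hs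
    refine Finset.sum_nonneg fun k _ => ?_
    rcases eq_or_ne n 0 with rfl | hn
    · simp [Two.TS]
    · exact Two.prfT2 _ _ _ _ hL0 hn _ fun x v _ _ _ => (hF1' th c hth0 hth1 hc k x v).1
  simp only [ha, hb, hH, hg] at h1 h2 h3 h5 h11
  have h4n : ∑ n ∈ Ioc A N, a n * H n ≤ (Cs * q * I₀ + δ / 40) * (X * L ^ 4) := by
    have h := h4 (-(h : ℤ)) hzn
    simp only [ha, hH] at h
    exact h
  have h4p : ∑ n ∈ Ioc A N, b n * H n ≤ (Cs * q * I₀ + δ / 40) * (X * L ^ 4) := by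
    have h := h4 (h : ℤ) hzp
    simp only [hb, hH] at h
    exact h
  -- the pointwise inequality
  have hmain : ∀ n ∈ Ioc A (N - h), d n * d (n + h) ≤
      3 * (a n * d n) + 3 * (b (n + h) * d (n + h)) - 3 * (a n * g n) + 3 / 2 * (a n * H n) +
        3 / 2 * (b (n + h) * H (n + h)) + X⁻¹ * (d n + d (n + h)) := by
    intro n hn
    rw [Finset.mem_Ioc] at hn
    have hn1 : X / L ≤ (n : ℝ) := by
      have : (A : ℝ) + 1 ≤ n := by exact_mod_cast hn.1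
      linarith
    have hn2 : ((n + h : ℕ) : ℝ) ≤ X := by
      have : n + h ≤ N := by omega
      have h13 : ((n + h : ℕ) : ℝ) ≤ (N : ℝ) := by exact_mod_cast this
      linarith
    have h14 := h5 n hn1 hn2
    linarith
  have hsum : ∑ n ∈ Ioc A (N - h), d n * d (n + h) ≤
      3 * ∑ n ∈ Ioc A (N - h), a n * d n + 3 * ∑ n ∈ Ioc A (N - h), b (n + h) * d (n + h) -
      3 * ∑ n ∈ Ioc A (N - h), a n * g n + 3 / 2 * ∑ n ∈ Ioc A (N - h), a n * H n +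
      3 / 2 * ∑ n ∈ Ioc A (N - h), b (n + h) * H (n + h) +
      X⁻¹ * (∑ n ∈ Ioc A (N - h), d n + ∑ n ∈ Ioc A (N - h), d (n + h)) := by
    refine (Finset.sum_le_sum hmain).trans (le_of_eq ?_)
    simp only [Finset.sum_add_distrib, Finset.sum_sub_distrib, ← Finset.mul_sum]
  -- the divisor bound
  obtain ⟨y, hy⟩ : ∃ y : ℝ, y = X ^ (1 / 8 : ℝ) := ⟨_, rfl⟩
  have hy1 : 1 ≤ y := by
    rw [hy]
    exact Real.one_le_rpow (by linarith) (by norm_num)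
  have hyy : y * y = X ^ (1 / 4 : ℝ) := by
    rw [hy, ← Real.rpow_add hX0]
    norm_num
  have hdy : ∀ n : ℕ, (n : ℝ) ≤ 2 * X → d n ≤ y := by
    intro n hn
    have h15 := h6 n hn
    have e : (1 / 4 / 2 : ℝ) = 1 / 8 := by norm_num
    rw [e, ← hy] at h15
    exact h15
  have hay : ∀ n : ℕ, (n : ℝ) ≤ X → a n ≤ y := by
    intro n hn
    have h16 : Two.Apsi (ps th) X (-(h : ℤ)) n ≤ (((n + h).divisors.card : ℕ) : ℝ) ^ 2 :=
      Apsi_le (ps_le th) X (-(h : ℤ)) n (n + h) (by omega) (by push_cast; ring)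
    rw [ha] at h16
    have h17 := h7 (n + h) (by omega) (by push_cast; linarith)
    refine h16.trans (h17.trans ?_)
    rw [hy]
    calc (2 * X) ^ (1 / 16 : ℝ) ≤ (X * X) ^ (1 / 16 : ℝ) := by
          apply Real.rpow_le_rpow (by linarith) _ (by norm_num)
          nlinarith
      _ = X ^ (1 / 8 : ℝ) := by
          rw [Real.mul_rpow (by linarith) (by linarith), ← Real.rpow_add (by linarith)]
          norm_num
  have hE : ∀ f : ℕ → ℝ, (∀ n ∈ Ioc (N - h) N, f n ≤ y * y) →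
      ∑ n ∈ Ioc (N - h) N, f n ≤ h * (y * y) := by
    intro f hf
    calc ∑ n ∈ Ioc (N - h) N, f n ≤ ∑ n ∈ Ioc (N - h) N, y * y := Finset.sum_le_sum hf
      _ = ((N - (N - h) : ℕ) : ℝ) * (y * y) := by
          rw [Finset.sum_const, Nat.card_Ioc, nsmul_eq_mul]
      _ ≤ h * (y * y) := by
          apply mul_le_mul_of_nonneg_right _ (by positivity)
          have : N - (N - h) ≤ h := by omega
          exact_mod_cast this
  have hE1 : ∑ n ∈ Ioc (N - h) N, d n * d (n + h) ≤ h * (y * y) := by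
    apply hE
    intro n hn
    rw [Finset.mem_Ioc] at hn
    have hn' : (n : ℝ) ≤ N := by exact_mod_cast hn.2
    exact mul_le_mul (hdy n (by linarith)) (hdy (n + h) (by push_cast; linarith)) (hd0 _)
      (by linarith)
  have hE2 : ∑ n ∈ Ioc (N - h) N, a n * g n ≤ h * (y * y) := by
    apply hE
    intro n hn
    rw [Finset.mem_Ioc] at hn
    have hn' : (n : ℝ) ≤ N := by exact_mod_cast hn.2
    exact mul_le_mul (hay n (by linarith)) ((hgd n).trans (hdy n (by linarith))) (hg0 _)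
      (by linarith)
  have hS6 : X⁻¹ * (∑ n ∈ Ioc A (N - h), d n + ∑ n ∈ Ioc A (N - h), d (n + h)) ≤ 2 * (y * y) := by
    have hc1 : ((Ioc A (N - h)).card : ℝ) ≤ X := by
      refine le_trans ?_ hNX
      rw [Nat.card_Ioc]
      have : N - h - A ≤ N := by omega
      exact_mod_cast this
    have h18 : ∀ m : ℕ, m ≤ h → ∑ n ∈ Ioc A (N - h), d (n + m) ≤ X * y := by
      intro m hm
      calc ∑ n ∈ Ioc A (N - h), d (n + m) ≤ ∑ n ∈ Ioc A (N - h), y := by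
            apply Finset.sum_le_sum
            intro n hn
            rw [Finset.mem_Ioc] at hn
            apply hdy
            have : n + m ≤ N := by omega
            have h19 : ((n + m : ℕ) : ℝ) ≤ (N : ℝ) := by exact_mod_cast this
            linarith
        _ = ((Ioc A (N - h)).card : ℝ) * y := by rw [Finset.sum_const, nsmul_eq_mul]
        _ ≤ X * y := mul_le_mul_of_nonneg_right hc1 (by linarith)
    have h20 := h18 0 (by omega)
    have h21 := h18 h le_rfl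
    simp only [add_zero] at h20
    rw [inv_mul_le_iff₀ hX0]
    nlinarith [mul_pos hX0 (lt_of_lt_of_le one_pos hy1)]
  have hAη : A ≤ ⌊η * X⌋₊ := by
    rw [hA]
    apply Nat.floor_mono
    rw [div_le_iff₀ hL0]
    rw [div_le_iff₀ hη0] at h8
    nlinarith
  have hT : ∑ n ∈ Icc 1 A, a n * g n ≤ δ / 40 * (X * L ^ 4) := by
    calc ∑ n ∈ Icc 1 A, a n * g n ≤ ∑ n ∈ Icc 1 ⌊η * X⌋₊, a n * d n := by
          refine (Finset.sum_le_sum fun n _ => mul_le_mul_of_nonneg_left (hgd n) (ha0 n)).trans ?_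
          refine Finset.sum_le_sum_of_subset_of_nonneg ?_
            (fun n _ _ => mul_nonneg (ha0 n) (hd0 n))
          exact Finset.Icc_subset_Icc_right hAη
      _ ≤ δ / 40 * (X * L ^ 4) := by
          have e : (2 * 2 : ℕ) = 4 := rfl
          rw [e] at h11
          exact h11
  have hag : ∀ n, 0 ≤ a n * g n := fun n => mul_nonneg (ha0 n) (hg0 n)
  have had : ∀ n, 0 ≤ a n * d n := fun n => mul_nonneg (ha0 n) (hd0 n)
  have hbd : ∀ n, 0 ≤ b n * d n := fun n => mul_nonneg (hb0 n) (hd0 n)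
  have haH : ∀ n, 0 ≤ a n * H n := fun n => mul_nonneg (ha0 n) (hH0 n)
  have hbH : ∀ n, 0 ≤ b n * H n := fun n => mul_nonneg (hb0 n) (hH0 n)
  have hdd : ∀ n, 0 ≤ d n * d (n + h) := fun n => mul_nonneg (hd0 n) (hd0 _)
  have hDS : DS h A N = ∑ n ∈ Ioc A N, d n * d (n + h) := by
    unfold DS
    simp only [hd]
  rw [hDS]
  refine arith (S1 := ∑ n ∈ Icc 1 N, a n * d n) (S2 := ∑ n ∈ Icc 1 N, b n * d n)
    (S3 := ∑ n ∈ Ioc A (N - h), a n * g n) (S4 := ∑ n ∈ Ioc A N, a n * H n)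
    (S5 := ∑ n ∈ Ioc A N, b n * H n)
    (S6 := X⁻¹ * (∑ n ∈ Ioc A (N - h), d n + ∑ n ∈ Ioc A (N - h), d (n + h)))
    (E1 := ∑ n ∈ Ioc (N - h) N, d n * d (n + h)) (E2 := ∑ n ∈ Ioc (N - h) N, a n * g n)
    (T := ∑ n ∈ Icc 1 A, a n * g n) (F := ∑ n ∈ Icc 1 N, a n * g n) hδ hY
    ?_ h1 h2 h3 ?_ hT h4n h4p ?_
  · have c1 := cover (fun n => d n * d (n + h)) hdd A (N - h) N
    have c2 := (sub1 (fun n => a n * d n) had A N h).trans (sub2 _ had A N)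
    have c3 := (shift (fun n => b n * d n) hbd A N h).trans (sub2 _ hbd A N)
    have c4 := sub1 (fun n => a n * H n) haH A N h
    have c5 := shift (fun n => b n * H n) hbH A N h
    linarith
  · have c1 := cover0 (fun n => a n * g n) hag A N
    have c2 := cover (fun n => a n * g n) hag A (N - h) N
    linarith
  · rw [← hyy] at h10
    have h22 : δ / 40 * X ≤ δ / 40 * (X * L ^ 4) := mul_le_mul_of_nonneg_left hYX hd40.le
    linarith

end Pool.Agent.Work.MP_122e00_nt.Hyb
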