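import Pool.Agent.Work.MP_122e00_nt.Hyb.Asm
import Pool.Agent.Work.MP_122e00_nt.Hyb.ItemP0
import Pool.Agent.Work.MP_122e00_nt.Hyb.ItemP1
import Pool.Agent.Work.MP_122e00_nt.Hyb.ItemP2
import Pool.Agent.Work.MP_122e00_nt.Hyb.ItemP3
import Pool.Agent.Work.MP_122e00_nt.Hyb.ItemP4a
import Pool.Agent.Work.MP_122e00_nt.Hyb.ItemP4b
import Pool.Agent.Work.MP_122e00_nt.Hyb.ItemP4
import Pool.Agent.Work.MP_122e00_nt.Hyb.ItemP5
import Pool.Agent.Work.MP_122e00_nt.Hyb.ItemP6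
import Pool.Agent.Work.MP_122e00_nt.Hyb.ItemP7
import Pool.Agent.Work.MP_122e00_nt.Hyb.ItemP8
import Pool.Agent.Work.MP_122e00_nt.Hyb.ItemF1
import Pool.Agent.Work.MP_122e00_nt.Hyb.ItemF2
import Pool.Agent.Work.MP_122e00_nt.Hyb.ItemF3
import Pool.Agent.Work.MP_122e00_nt.Hyb.ItemF4
import Pool.Agent.Work.MP_122e00_nt.Hyb.ItemF5
import Pool.Agent.Work.MP_122e00_nt.Hyb.ItemS1
import Pool.Agent.Work.MP_122e00_nt.Hyb.ItemS2
import Pool.Agent.Work.MP_122e00_nt.Bd.B45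
import Pool.Agent.Work.MP_122e00_nt.Hyb.ItemS4
import Pool.Agent.Work.MP_122e00_nt.Hyb.ItemS5
import Pool.Agent.Work.MP_122e00_nt.Two.ItemU1
import Pool.Agent.Work.MP_122e00_nt.Bd.B41
import Pool.Agent.Work.MP_122e00_nt.Two.ItemU7

set_option autoImplicit false

/-!
# The upper bound for `r = 3`
-/

namespace Pool.Agent.Work.MP_122e00_nt.Hyb

theorem mP4b : claimP4b := prfP4b

theorem mP2 : claimP2 := prfP2 prfP0 prfP1

theorem mP3 : claimP3 := prfP3 prfP0 prfP1 mP2 Two.prfT1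

theorem mP4 : claimP4 := prfP4 prfP4a prfP4b

theorem mP5 : claimP5 := prfP5 prfP0 Two.prfT1

theorem mP6 : claimP6 := prfP6 prfP0 Two.prfT1 mP3 mP4 mP4b mP5

theorem mF1 : claimF1 := prfF1 mP4b

theorem mF2 : claimF2 := prfF2 mP4b

theorem mU7 : Two.claimU7 :=
  Two.prfU7 Two.prfU1 Two.prfU3 (Two.prfU5 Two.prfU4) Two.cr Two.prfT5

theorem mS1 : claimS1 := prfS1 mF1 mF2 prfF3 prfF4 prfF5 prfP7

theorem mS2 : claimS2 := prfS2 mF1 mS1 prfP0 mU7 Two.prfU2 prfF4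

theorem mS3 : claimS3 := prfS3 mF1 Two.prfU1 prfP0

theorem mS4 : claimS4 := prfS4 mP6 prfP7 prfP8 mS3

theorem mS5 : claimS5 := prfS5 mS1 mS2 mS4 Two.tm prfF4 mF1 prfP7

theorem mC1c : claimC1c := prfC1c prfC0 prfC1a prfC1s prfC1m mP4b

theorem mC1 : claimC1 := prfC1 prfC1b mC1c

theorem mC2 : claimC2 := prfC2 prfC1m

theorem mFinal : claimFinal := prfFinal mC1 mC2 mS5 prfS6

end Pool.Agent.Work.MP_122e00_nt.Hyb
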