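import Pool.Agent.Work.MP_122e00_nt.Hyb.Chm
import Pool.Agent.Work.MP_122e00_nt.Hyb.Conv
import Pool.Agent.Work.MP_122e00_nt.Hyb.Eval

set_option autoImplicit false

/-!
# Soundness of the evaluation
-/

namespace Pool.Agent.Work.MP_122e00_nt.Hyb

open Finset Filter Topology MeasureTheory

open scoped ENNReal

namespace Cl

open Chamber Cert

/-- The point with homogeneous coordinates `v`. -/
noncomputable def pt (v : Vx) : Fin 5 → ℝ :=
  ![v.x / v.T, v.D / v.T, v.p / v.T, v.q / v.T, v.r / v.T]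

/-- The vertices. -/
noncomputable def pts (s : Sx) : Option (Fin 4) → Fin 5 → ℝ :=
  V5 (pt s.a) (pt s.b) (pt s.c) (pt s.d) (pt s.e)

/-- The vertices, as `Vx`. -/
def vx (s : Sx) : Option (Fin 4) → Vx := V5 s.a s.b s.c s.d s.e

theorem pts_eq (s : Sx) (o : Option (Fin 4)) : pts s o = pt (vx s o) := by
  have : pts s = fun o => pt (vx s o) := V5_ext _ _ rfl rfl rfl rfl rfl
  rw [this]

theorem all_spec (s : Sx) (f : Vx → Bool) : s.all f = true ↔ ∀ o, f (vx s o) = true := by
  unfold Sx.all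
  simp only [Bool.and_eq_true]
  constructor
  · rintro ⟨ha, hb, hc, hd, he⟩ o
    rcases o with _ | i
    · exact he
    · fin_cases i
      · exact ha
      · exact hb
      · exact hc
      · exact hd
  · intro h
    exact ⟨h (some 0), h (some 1), h (some 2), h (some 3), h none⟩

/-- The barycentric weights. -/
noncomputable def wt (y : Fin 4 → ℝ) : Option (Fin 4) → ℝ
  | some i => y i
  | none => 1 - ∑ i, y i

theorem wt_sum (y : Fin 4 → ℝ) : ∑ o, wt y o = 1 := by
  rw [Fintype.sum_option]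
  simp [wt]

theorem bar_wt (V : Option (Fin 4) → Fin 5 → ℝ) (y : Fin 4 → ℝ) (q : Fin 5) :
    bar V y q = ∑ o, wt y o * V o q := by
  rw [Fintype.sum_option]
  simp only [bar, wt, Pi.add_apply, Finset.sum_apply, Pi.smul_apply, smul_eq_mul]
  ring

theorem wt_pos (y : Fin 4 → ℝ) (hy : y ∈ T (Fin 4)) (h : ∀ i, y i ≠ 0)
    (h1 : ∑ i, y i ≠ 1) (o : Option (Fin 4)) : 0 < wt y o := by
  rcases o with _ | i
  · have := hy.2
    exact sub_pos.2 (lt_of_le_of_ne this h1)
  · exact lt_of_le_of_ne (hy.1 i) (h i).symm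

/-- Almost all points are interior. -/
theorem ae_int : ∀ᵐ y ∂(volume.restrict (T (Fin 4))), ∀ o, 0 < wt y o := by
  rw [ae_restrict_iff' (measurableSet_T _)]
  have h0 := null ![1, 0, 0, 0] 0 (ne4 _ _ _ _ (Or.inr (by norm_num)))
  have h3 := null ![0, 0, 0, 1] 0 (ne4 _ _ _ _ (Or.inl (by norm_num)))
  have h4 := null ![1, 1, 1, 1] 1 (ne4 _ _ _ _ (Or.inl (by norm_num)))
  have h1 := null ![0, 1, 0, 0] 0 (by
    intro h; simpa using congrFun h 1)
  have h2 := null ![0, 0, 1, 0] 0 (by
    intro h; simpa using congrFun h 2)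
  filter_upwards [h0, h1, h2, h3, h4] with y h0 h1 h2 h3 h4 hy
  refine wt_pos y hy ?_ ?_
  · intro i
    simp only [Fin.sum_univ_four] at h0 h1 h2 h3
    fin_cases i
    · simpa using h0
    · simpa using h1
    · simpa using h2
    · simpa using h3
  · simpa [Fin.sum_univ_four] using h4

/-! ### linear forms -/

section lin

variable (w : Option (Fin 4) → ℝ) (hw : ∀ o, 0 < w o) (hs : ∑ o, w o = 1)

include hw hs

theorem avg_ge (a : Option (Fin 4) → ℝ) (c : ℝ) (h : ∀ o, c ≤ a o) : c ≤ ∑ o, w o * a o := by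
  calc c = ∑ o, w o * c := by rw [← Finset.sum_mul, hs, one_mul]
    _ ≤ _ := Finset.sum_le_sum fun o _ => mul_le_mul_of_nonneg_left (h o) (hw o).le

theorem avg_le (a : Option (Fin 4) → ℝ) (c : ℝ) (h : ∀ o, a o ≤ c) : ∑ o, w o * a o ≤ c := by
  calc _ ≤ ∑ o, w o * c := Finset.sum_le_sum fun o _ => mul_le_mul_of_nonneg_left (h o) (hw o).le
    _ = c := by rw [← Finset.sum_mul, hs, one_mul]

theorem avg_lt (a : Option (Fin 4) → ℝ) (c : ℝ) (h : ∀ o, a o ≤ c) (h2 : ∃ o, a o < c) :
    ∑ o, w o * a o < c := by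
  obtain ⟨o, ho⟩ := h2
  calc _ < ∑ o, w o * c := Finset.sum_lt_sum
        (fun o _ => mul_le_mul_of_nonneg_left (h o) (hw o).le)
        ⟨o, Finset.mem_univ o, mul_lt_mul_of_pos_left ho (hw o)⟩
    _ = c := by rw [← Finset.sum_mul, hs, one_mul]

end lin

theorem st_one (f g : Vx → ℕ) (s : Sx) (h : st f g s = 1) : ∀ o, g (vx s o) ≤ f (vx s o) := by
  unfold st at h
  cases h1 : s.all (fun v => Nat.ble (g v) (f v)) with
  | true =>
    intro o
    exact Nat.le_of_ble_eq_true ((all_spec s _).1 h1 o)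
  | false =>
    rw [h1] at h
    simp only [cond_false] at h
    cases h2 : s.all (fun v => Nat.ble (f v) (g v)) with
    | true => rw [h2] at h; simp at h
    | false => rw [h2] at h; simp at h

theorem st_zero (f g : Vx → ℕ) (s : Sx) (h : st f g s = 0) :
    (∀ o, f (vx s o) ≤ g (vx s o)) ∧ ∃ o, f (vx s o) < g (vx s o) := by
  unfold st at h
  cases h1 : s.all (fun v => Nat.ble (g v) (f v)) with
  | true => rw [h1] at h; simp at h
  | false =>
    rw [h1] at h
    simp only [cond_false] at h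
    cases h2 : s.all (fun v => Nat.ble (f v) (g v)) with
    | true =>
      refine ⟨fun o => Nat.le_of_ble_eq_true ((all_spec s _).1 h2 o), ?_⟩
      by_contra hcon
      push Not at hcon
      have : s.all (fun v => Nat.ble (g v) (f v)) = true :=
        (all_spec s _).2 fun o => Nat.ble_eq_true_of_le (hcon o)
      rw [this] at h1
      exact absurd h1 (by simp)
    | false => rw [h2] at h; simp at h

/-- Values of linear forms. -/
theorem form_avg (s : Sx) (y : Fin 4 → ℝ) (a b : ℝ) (q r : Fin 5) :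
    a * bar (pts s) y q + b * bar (pts s) y r =
      ∑ o, wt y o * (a * pt (vx s o) q + b * pt (vx s o) r) := by
  rw [bar_wt, bar_wt, Finset.mul_sum, Finset.mul_sum, ← Finset.sum_add_distrib]
  refine Finset.sum_congr rfl fun o _ => ?_
  rw [pts_eq]
  ring

end Cl

end Pool.Agent.Work.MP_122e00_nt.Hyb
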