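import Pool.Agent.Work.MP_122e00_nt.Hyb.Sound

set_option autoImplicit false

/-!
# Soundness of the evaluation: arithmetic
-/

namespace Pool.Agent.Work.MP_122e00_nt.Hyb

open Finset

namespace Cl

open Chamber Cert

theorem cdiv_ge (A B : ℕ) : (A : ℝ) / B ≤ (cdiv A B : ℕ) := by
  rcases Nat.eq_zero_or_pos B with rfl | hB
  · simp
  · have h := Nat.lt_mul_div_succ (A + (B - 1)) hB
    have h2 : A ≤ B * cdiv A B := by
      unfold cdiv
      have : B * ((A + (B - 1)) / B + 1) = B * ((A + (B - 1)) / B) + B := by ring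
      rw [this] at h
      omega
    rw [div_le_iff₀ (by exact_mod_cast hB)]
    have h3 : (A : ℝ) ≤ ((B * cdiv A B : ℕ) : ℝ) := by exact_mod_cast h2
    push_cast at h3
    linarith

theorem S_pos : (0 : ℝ) < (S : ℕ) := by
  unfold S
  norm_num

theorem mx_le (f : ℕ → ℕ) (n : ℕ) : ∀ (lo g : ℕ), lo ≤ g → g ≤ lo + n → f g ≤ mx f lo n := by
  induction n with
  | zero =>
    intro lo g h1 h2
    have : g = lo := by omega
    rw [this]
    exact le_rfl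
  | succ n ih =>
    intro lo g h1 h2
    unfold mx
    rcases Nat.eq_or_lt_of_le h1 with rfl | h
    · exact le_max_left _ _
    · exact (ih (lo + 1) g h (by omega)).trans (le_max_right _ _)

/-- The status `t` is correct for `P`. -/
def Fm (t : ℕ) (P : Prop) : Prop := (t = 1 → P) ∧ (t = 0 → ¬P)

theorem opt_le (al lo hi : ℕ) (f : ℕ → ℕ → ℕ) (A : Prop) (hA : Fm al A) (G : ℕ) (h1 : lo ≤ G)
    (h2 : G ≤ hi) : (A → f (3 - G) G ≤ opt al lo hi f) ∧ (¬A → f 0 0 ≤ opt al lo hi f) := by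
  have hm : f (3 - G) G ≤ mx (fun g => f (3 - g) g) lo (hi - lo) :=
    mx_le (fun g => f (3 - g) g) (hi - lo) lo G h1 (by omega)
  rcases al with _ | _ | al
  · constructor
    · intro h
      exact absurd h (hA.2 rfl)
    · intro _
      exact le_rfl
  · constructor
    · intro _
      exact hm
    · intro h
      exact absurd (hA.1 rfl) h
  · constructor
    · intro _
      exact hm.trans (le_max_right _ _)
    · intro _
      exact le_max_left _ _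

open Classical in
theorem sure_le (a b c : ℕ) (A B C : Prop) (ha : Fm a A) (hb : Fm b B) (hc : Fm c C) :
    isSure a b c ≤ (if A ∨ B ∨ C then 1 else 0) ∧
      (if A ∨ B ∨ C then 1 else 0) ≤ isPoss a b c := by
  constructor
  · unfold isSure
    by_cases h1 : a = 1
    · rw [if_pos (Or.inl (ha.1 h1))]
      cases (Nat.beq a 1 || (Nat.beq b 1 || Nat.beq c 1)) <;> simp
    · by_cases h2 : b = 1
      · rw [if_pos (Or.inr (Or.inl (hb.1 h2)))]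
        cases (Nat.beq a 1 || (Nat.beq b 1 || Nat.beq c 1)) <;> simp
      · by_cases h3 : c = 1
        · rw [if_pos (Or.inr (Or.inr (hc.1 h3)))]
          cases (Nat.beq a 1 || (Nat.beq b 1 || Nat.beq c 1)) <;> simp
        · have e1 : Nat.beq a 1 = false := by
            rw [← Bool.not_eq_true, Nat.beq_eq]; exact h1
          have e2 : Nat.beq b 1 = false := by
            rw [← Bool.not_eq_true, Nat.beq_eq]; exact h2
          have e3 : Nat.beq c 1 = false := by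
            rw [← Bool.not_eq_true, Nat.beq_eq]; exact h3
          rw [e1, e2, e3]
          simp
  · unfold isPoss
    by_cases h : A ∨ B ∨ C
    · have : (Nat.beq a 0 && (Nat.beq b 0 && Nat.beq c 0)) = false := by
        rw [← Bool.not_eq_true]
        simp only [Bool.and_eq_true, Nat.beq_eq]
        rintro ⟨h1, h2, h3⟩
        rcases h with h | h | h
        · exact ha.2 h1 h
        · exact hb.2 h2 h
        · exact hc.2 h3 h
      rw [if_pos h, this]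
      simp
    · rw [if_neg h]
      exact Nat.zero_le _

theorem Tcast (v : Vx) : (v.T : ℝ) = v.x + v.D + v.p + v.q + v.r := by
  unfold Vx.T
  push_cast
  ring

theorem inv_spec (v : Vx) (u : ℕ) (hT : 0 < v.T) (h : v.T < 4 * (u + v.D + v.x)) :
    1 / ((u + v.D + v.x : ℝ) / v.T - 1 / 4) ≤ (inv v u : ℕ) / (S : ℕ) := by
  have h1 := cdiv_ge (S * (4 * v.T)) (4 * (u + v.D + v.x) - v.T)
  unfold inv
  rw [le_div_iff₀ S_pos]
  refine le_trans (le_of_eq ?_) h1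
  rw [Nat.cast_sub h.le]
  push_cast
  have hT' : (0 : ℝ) < v.T := by exact_mod_cast hT
  have h' : (v.T : ℝ) < 4 * (u + v.D + v.x) := by exact_mod_cast h
  have e : (u + v.D + v.x : ℝ) / v.T - 1 / 4 = (4 * (u + v.D + v.x) - v.T) / (4 * v.T) := by
    field_simp
  rw [e]
  have h2 : (4 * (u + v.D + v.x) - v.T : ℝ) ≠ 0 := by linarith
  field_simp

theorem ex_spec (l T Y d : ℕ) (hT : 0 < T) (hY : 0 < Y) (h : nu l T Y d < de l T Y) :
    0 < l ∧ Mx l ((d : ℝ) / T) ((Y : ℝ) / (4 * T)) ≤ (ex l T Y d : ℕ) / (S : ℕ) := by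
  have hl : 0 < l := by
    rcases Nat.eq_zero_or_pos l with rfl | hl
    · simp [de] at h
    · exact hl
  refine ⟨hl, ?_⟩
  have h1 := cdiv_ge (S * (4 * T) * (de l T Y + nu l T Y d) ^ 4) (Y * (de l T Y - nu l T Y d) ^ 4)
  unfold ex
  rw [le_div_iff₀ S_pos]
  refine le_trans ?_ h1
  push_cast
  rw [Nat.cast_sub h.le]
  have hl' : (0 : ℝ) < l := by exact_mod_cast hl
  have hT' : (0 : ℝ) < T := by exact_mod_cast hT
  have hY' : (0 : ℝ) < Y := by exact_mod_cast hY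
  have hn : (nu l T Y d : ℝ) = l ^ 2 * d ^ 2 * Y ^ 2 + 16 * T ^ 4 := by
    unfold nu; push_cast; ring
  have hd : (de l T Y : ℝ) = 16 * l * T ^ 2 * Y ^ 2 := by
    unfold de; push_cast; ring
  have hnd : (nu l T Y d : ℝ) < de l T Y := by exact_mod_cast h
  have hn0 : (0 : ℝ) < nu l T Y d := by rw [hn]; positivity
  set n : ℝ := (nu l T Y d : ℝ) with hnn
  set m : ℝ := (de l T Y : ℝ) with hmm
  have hm0 : 0 < m := hn0.trans hnd
  unfold Mx
  set t : ℝ := (l * ((d : ℝ) / T) ^ 2 + 1 / (l * ((Y : ℝ) / (4 * T)) ^ 2)) / 2 with ht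
  have et : t = 8 * n / m := by
    rw [ht, hn, hd]
    field_simp
    ring
  have ht0 : 0 ≤ t := by rw [et]; positivity
  have ht8 : t < 8 := by
    rw [et, div_lt_iff₀ hm0]
    linarith
  have hexp := exp_le_pow t ht0 ht8
  have e2 : (8 + t) / (8 - t) = (m + n) / (m - n) := by
    rw [et]
    have : (m - n) ≠ 0 := by linarith
    have h3 : 8 - 8 * n / m ≠ 0 := by
      rw [← et]; linarith
    field_simp
  rw [e2] at hexp
  have hmn : 0 < m - n := by linarith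
  calc Real.exp t / ((Y : ℝ) / (4 * T)) * (S : ℕ) ≤
        ((m + n) / (m - n)) ^ 4 / ((Y : ℝ) / (4 * T)) * (S : ℕ) := by
        refine mul_le_mul_of_nonneg_right ?_ S_pos.le
        exact div_le_div_of_nonneg_right hexp (by positivity)
    _ = _ := by
        rw [div_pow]
        field_simp

/-- The combination of the bounds. -/
theorem combine (w : Option (Fin 4) → ℝ) (hw : ∀ o, 0 < w o)
    (b0 b1 b2 g0 g1 g2 : ℕ) (h : Fin 3 → Fin 3 → ℝ)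
    (I0 I1 I2 E1 E2 E3 : Option (Fin 4) → ℕ)
    (H0 : ∀ j, h 0 j ≤ ∑ o, w o * ((I0 o : ℝ) / (S : ℕ)))
    (H1 : b1 = 0 ∨ (h 1 0 ≤ ∑ o, w o * ((E1 o : ℝ) / (S : ℕ)) ∧
      h 1 1 ≤ ∑ o, w o * ((I1 o : ℝ) / (S : ℕ)) ∧ h 1 2 ≤ ∑ o, w o * ((I1 o : ℝ) / (S : ℕ))))
    (H2 : b2 = 0 ∨ (h 2 0 ≤ ∑ o, w o * ((E2 o : ℝ) / (S : ℕ)) ∧
      h 2 1 ≤ ∑ o, w o * ((E3 o : ℝ) / (S : ℕ)) ∧ h 2 2 ≤ ∑ o, w o * ((I2 o : ℝ) / (S : ℕ)))) :
    ((b0 + b1 + b2 : ℕ) : ℝ) / ((g0 + g1 + g2 : ℕ) : ℝ) ^ 2 *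
      ((b0 : ℝ) * (g0 * h 0 0 + g1 * h 0 1 + g2 * h 0 2) +
       b1 * (g0 * h 1 0 + g1 * h 1 1 + g2 * h 1 2) +
       b2 * (g0 * h 2 0 + g1 * h 2 1 + g2 * h 2 2)) ≤
    ∑ o, w o * ((vl (I0 o) (I1 o) (I2 o) (E1 o) (E2 o) (E3 o) b0 g0 b1 g1 b2 g2 : ℝ) /
      (S : ℕ)) := by
  set C : ℝ := ((b0 + b1 + b2 : ℕ) : ℝ) / ((g0 + g1 + g2 : ℕ) : ℝ) ^ 2 with hC
  have hC0 : 0 ≤ C := by positivity
  -- the value at a vertex
  have hv : ∀ o, C * ((b0 : ℝ) * (g0 + g1 + g2) * ((I0 o : ℝ) / (S : ℕ)) +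
      b1 * (g0 * ((E1 o : ℝ) / (S : ℕ)) + (g1 + g2) * ((I1 o : ℝ) / (S : ℕ))) +
      b2 * (g0 * ((E2 o : ℝ) / (S : ℕ)) + g1 * ((E3 o : ℝ) / (S : ℕ)) +
        g2 * ((I2 o : ℝ) / (S : ℕ)))) ≤
      (vl (I0 o) (I1 o) (I2 o) (E1 o) (E2 o) (E3 o) b0 g0 b1 g1 b2 g2 : ℝ) / (S : ℕ) := by
    intro o
    have h1 := cdiv_ge ((b0 + b1 + b2) * (b0 * (g0 + g1 + g2) * I0 o +
      b1 * (g0 * E1 o + (g1 + g2) * I1 o) + b2 * (g0 * E2 o + g1 * E3 o + g2 * I2 o)))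
      ((g0 + g1 + g2) * (g0 + g1 + g2))
    rw [le_div_iff₀ S_pos]
    unfold vl
    refine le_trans (le_of_eq ?_) h1
    rw [hC]
    push_cast
    have := S_pos.ne'
    field_simp
  have hsum : ((b0 : ℝ) * (g0 * h 0 0 + g1 * h 0 1 + g2 * h 0 2) +
       b1 * (g0 * h 1 0 + g1 * h 1 1 + g2 * h 1 2) +
       b2 * (g0 * h 2 0 + g1 * h 2 1 + g2 * h 2 2)) ≤
      ∑ o, w o * ((b0 : ℝ) * (g0 + g1 + g2) * ((I0 o : ℝ) / (S : ℕ)) +
      b1 * (g0 * ((E1 o : ℝ) / (S : ℕ)) + (g1 + g2) * ((I1 o : ℝ) / (S : ℕ))) +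
      b2 * (g0 * ((E2 o : ℝ) / (S : ℕ)) + g1 * ((E3 o : ℝ) / (S : ℕ)) +
        g2 * ((I2 o : ℝ) / (S : ℕ)))) := by
    have e : ∑ o, w o * ((b0 : ℝ) * (g0 + g1 + g2) * ((I0 o : ℝ) / (S : ℕ)) +
      b1 * (g0 * ((E1 o : ℝ) / (S : ℕ)) + (g1 + g2) * ((I1 o : ℝ) / (S : ℕ))) +
      b2 * (g0 * ((E2 o : ℝ) / (S : ℕ)) + g1 * ((E3 o : ℝ) / (S : ℕ)) +
        g2 * ((I2 o : ℝ) / (S : ℕ)))) =
      (b0 : ℝ) * (g0 + g1 + g2) * (∑ o, w o * ((I0 o : ℝ) / (S : ℕ))) +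
      b1 * (g0 * (∑ o, w o * ((E1 o : ℝ) / (S : ℕ))) +
        (g1 + g2) * (∑ o, w o * ((I1 o : ℝ) / (S : ℕ)))) +
      b2 * (g0 * (∑ o, w o * ((E2 o : ℝ) / (S : ℕ))) + g1 * (∑ o, w o * ((E3 o : ℝ) / (S : ℕ))) +
        g2 * (∑ o, w o * ((I2 o : ℝ) / (S : ℕ)))) := by
      simp only [Finset.mul_sum, ← Finset.sum_add_distrib]
      exact Finset.sum_congr rfl fun o _ => by ring
    rw [e]
    have hb0 : (0 : ℝ) ≤ b0 := Nat.cast_nonneg _
    have hb1 : (0 : ℝ) ≤ b1 := Nat.cast_nonneg _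
    have hb2 : (0 : ℝ) ≤ b2 := Nat.cast_nonneg _
    have hg0 : (0 : ℝ) ≤ g0 := Nat.cast_nonneg _
    have hg1 : (0 : ℝ) ≤ g1 := Nat.cast_nonneg _
    have hg2 : (0 : ℝ) ≤ g2 := Nat.cast_nonneg _
    have t0 : (b0 : ℝ) * (g0 * h 0 0 + g1 * h 0 1 + g2 * h 0 2) ≤
        (b0 : ℝ) * (g0 + g1 + g2) * (∑ o, w o * ((I0 o : ℝ) / (S : ℕ))) := by
      rw [mul_assoc]
      refine mul_le_mul_of_nonneg_left ?_ hb0
      have a0 := mul_le_mul_of_nonneg_left (H0 0) hg0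
      have a1 := mul_le_mul_of_nonneg_left (H0 1) hg1
      have a2 := mul_le_mul_of_nonneg_left (H0 2) hg2
      linarith
    have t1 : (b1 : ℝ) * (g0 * h 1 0 + g1 * h 1 1 + g2 * h 1 2) ≤
        b1 * (g0 * (∑ o, w o * ((E1 o : ℝ) / (S : ℕ))) +
        (g1 + g2) * (∑ o, w o * ((I1 o : ℝ) / (S : ℕ)))) := by
      rcases H1 with H1 | ⟨c0, c1, c2⟩
      · rw [H1]; simp
      · refine mul_le_mul_of_nonneg_left ?_ hb1
        have a0 := mul_le_mul_of_nonneg_left c0 hg0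
        have a1 := mul_le_mul_of_nonneg_left c1 hg1
        have a2 := mul_le_mul_of_nonneg_left c2 hg2
        linarith
    have t2 : (b2 : ℝ) * (g0 * h 2 0 + g1 * h 2 1 + g2 * h 2 2) ≤
        b2 * (g0 * (∑ o, w o * ((E2 o : ℝ) / (S : ℕ))) + g1 * (∑ o, w o * ((E3 o : ℝ) / (S : ℕ))) +
        g2 * (∑ o, w o * ((I2 o : ℝ) / (S : ℕ)))) := by
      rcases H2 with H2 | ⟨c0, c1, c2⟩
      · rw [H2]; simp
      · refine mul_le_mul_of_nonneg_left ?_ hb2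
        have a0 := mul_le_mul_of_nonneg_left c0 hg0
        have a1 := mul_le_mul_of_nonneg_left c1 hg1
        have a2 := mul_le_mul_of_nonneg_left c2 hg2
        linarith
    linarith
  calc _ ≤ C * ∑ o, w o * ((b0 : ℝ) * (g0 + g1 + g2) * ((I0 o : ℝ) / (S : ℕ)) +
      b1 * (g0 * ((E1 o : ℝ) / (S : ℕ)) + (g1 + g2) * ((I1 o : ℝ) / (S : ℕ))) +
      b2 * (g0 * ((E2 o : ℝ) / (S : ℕ)) + g1 * ((E3 o : ℝ) / (S : ℕ)) +
        g2 * ((I2 o : ℝ) / (S : ℕ)))) := mul_le_mul_of_nonneg_left hsum hC0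
    _ ≤ _ := by
      rw [Finset.mul_sum]
      refine Finset.sum_le_sum fun o _ => ?_
      rw [mul_left_comm]
      exact mul_le_mul_of_nonneg_left (hv o) (hw o).le

end Cl

end Pool.Agent.Work.MP_122e00_nt.Hyb
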