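import Pool.Agent.Work.MP_122e00_nt.Hyb.Sound2

set_option autoImplicit false

/-!
# Soundness of the evaluation: the leaves
-/

namespace Pool.Agent.Work.MP_122e00_nt.Hyb

open Finset Filter Topology MeasureTheory

open scoped ENNReal

namespace Cl

open Chamber Cert

/-- A linear form. -/
def lin (c p : Fin 5 → ℝ) : ℝ :=
  c 0 * p 0 + c 1 * p 1 + c 2 * p 2 + c 3 * p 3 + c 4 * p 4

theorem lin_bar (c : Fin 5 → ℝ) (s : Sx) (y : Fin 4 → ℝ) :
    lin c (bar (pts s) y) = ∑ o, wt y o * lin c (pt (vx s o)) := by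
  unfold lin
  simp only [bar_wt, Finset.mul_sum, ← Finset.sum_add_distrib]
  refine Finset.sum_congr rfl fun o _ => ?_
  rw [pts_eq]
  ring

theorem lin_pt (c : Fin 5 → ℝ) (v : Vx) : lin c (pt v) =
    (c 0 * v.x + c 1 * v.D + c 2 * v.p + c 3 * v.q + c 4 * v.r) / v.T := by
  simp only [lin, pt, Matrix.cons_val_zero, Matrix.cons_val_one, Matrix.cons_val]
  ring

section pointwise

variable (s : Sx) (y : Fin 4 → ℝ) (hw : ∀ o, 0 < wt y o) (hT : ∀ o, 0 < (vx s o).T)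

include hw hT

theorem fm_st (c c' : Fin 5 → ℝ) (f g : Vx → ℕ) (hf : ∀ v, lin c (pt v) = (f v : ℝ) / v.T)
    (hg : ∀ v, lin c' (pt v) = (g v : ℝ) / v.T) :
    Fm (st f g s) (lin c' (bar (pts s) y) ≤ lin c (bar (pts s) y)) := by
  have hT' : ∀ o, (0 : ℝ) < (vx s o).T := fun o => by exact_mod_cast hT o
  rw [lin_bar, lin_bar]
  constructor
  · intro h
    have h1 := st_one f g s h
    refine Finset.sum_le_sum fun o _ => mul_le_mul_of_nonneg_left ?_ (hw o).le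
    rw [hf, hg]
    exact div_le_div_of_nonneg_right (by exact_mod_cast h1 o) (hT' o).le
  · intro h
    obtain ⟨h1, o, ho⟩ := st_zero f g s h
    rw [not_le]
    refine Finset.sum_lt_sum (fun o _ => mul_le_mul_of_nonneg_left ?_ (hw o).le)
      ⟨o, Finset.mem_univ o, mul_lt_mul_of_pos_left ?_ (hw o)⟩
    · rw [hf, hg]
      exact div_le_div_of_nonneg_right (by exact_mod_cast h1 o) (hT' o).le
    · rw [hf, hg]
      exact div_lt_div_of_pos_right (by exact_mod_cast ho) (hT' o)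

omit hw in
theorem sum_one : lin ![1, 1, 1, 1, 1] (bar (pts s) y) = 1 := by
  rw [lin_bar]
  refine Eq.trans (Finset.sum_congr rfl fun o _ => ?_) (wt_sum y)
  rw [lin_pt]
  have hT' : (0 : ℝ) < (vx s o).T := by exact_mod_cast hT o
  have := Tcast (vx s o)
  simp only [Matrix.cons_val_zero, Matrix.cons_val_one, Matrix.cons_val]
  rw [this] at hT' ⊢
  field_simp

theorem fm_hx (c : Fin 5 → ℝ) (f : Vx → ℕ) (hf : ∀ v, lin c (pt v) = (f v : ℝ) / v.T) :
    Fm (hx f s) (1 / 2 ≤ lin c (bar (pts s) y)) := by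
  have h := fm_st s y hw hT (fun q => 2 * c q) ![1, 1, 1, 1, 1] (fun v => 2 * f v) Vx.T
    (by
      intro v
      have := hf v
      rw [lin_pt] at this ⊢
      push_cast
      rw [mul_div_assoc, ← this]
      ring)
    (by
      intro v
      rw [lin_pt, Tcast]
      simp)
  rw [sum_one s y hT] at h
  have e : lin (fun q => 2 * c q) (bar (pts s) y) = 2 * lin c (bar (pts s) y) := by
    unfold lin; ring
  rw [e] at h
  unfold hx
  refine ⟨fun h' => ?_, fun h' => ?_⟩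
  · have := h.1 h'; linarith
  · have := h.2 h'
    intro h''
    apply this
    linarith

omit hT in
theorem p_nonneg (q : Fin 5) : 0 ≤ bar (pts s) y q := by
  rw [bar_wt]
  refine Finset.sum_nonneg fun o _ => mul_nonneg (hw o).le ?_
  rw [pts_eq]
  fin_cases q <;> simp [pt] <;> positivity

end pointwise

theorem Gd_iff (w : Fin 3 → ℝ) (h : w 0 + w 1 + w 2 = 1) :
    Gd 0 w ↔ 1 / 2 ≤ w 0 ∨ 1 / 2 ≤ w 1 ∨ 1 / 2 ≤ w 2 := by
  unfold Gd
  rw [Fin.sum_univ_three, h]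
  constructor
  · rintro ⟨i, hi⟩
    fin_cases i
    · left
      have : (1 : ℝ) - w 0 ≤ 1 / 2 - 0 := hi
      linarith
    · right; left
      have : (1 : ℝ) - w 1 ≤ 1 / 2 - 0 := hi
      linarith
    · right; right
      have : (1 : ℝ) - w 2 ≤ 1 / 2 - 0 := hi
      linarith
  · rintro (h | h | h)
    · exact ⟨0, by linarith⟩
    · exact ⟨1, by linarith⟩
    · exact ⟨2, by linarith⟩

open Classical in
/-- The number of good positions, as a natural number. -/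
noncomputable def GN (x D : ℝ) (v : Fin 3 → ℝ) (j : Fin 3) : ℕ :=
  ∑ i, if Gd 0 (ad (ad v j D) i x) then 1 else 0

theorem ng_eq (x D : ℝ) (v : Fin 3 → ℝ) (j : Fin 3) : ng 0 x D v j = (GN x D v j : ℝ) := by
  unfold ng GN gi
  push_cast
  rfl

theorem GN_le (x D : ℝ) (v : Fin 3 → ℝ) (j : Fin 3) : GN x D v j ≤ 3 := by
  classical
  unfold GN
  calc _ ≤ ∑ i : Fin 3, 1 := Finset.sum_le_sum fun i _ => by split_ifs <;> omega
    _ = 3 := by simp

theorem nb_eq (x D : ℝ) (v : Fin 3 → ℝ) (j : Fin 3) :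
    nb 0 x D v j = ((3 - GN x D v j : ℕ) : ℝ) := by
  rw [Nat.cast_sub (GN_le x D v j)]
  have h : nb 0 x D v j + ng 0 x D v j = 3 := by
    unfold nb ng
    rw [← Finset.sum_add_distrib]
    have : ∀ i ∈ (Finset.univ : Finset (Fin 3)), bi 0 (ad (ad v j D) i x) +
        gi 0 (ad (ad v j D) i x) = 1 := by
      intro i _
      unfold bi gi
      by_cases h : Gd 0 (ad (ad v j D) i x)
      · rw [if_pos h, if_pos h]; norm_num
      · rw [if_neg h, if_neg h]; norm_num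
    rw [Finset.sum_congr rfl this]
    simp
  rw [ng_eq] at h
  push_cast
  linarith

open Classical in
theorem sure_le2 (a b c : ℕ) (A B C P : Prop) (hP : P ↔ A ∨ B ∨ C) (ha : Fm a A) (hb : Fm b B)
    (hc : Fm c C) :
    isSure a b c ≤ (if P then 1 else 0) ∧ (if P then 1 else 0) ≤ isPoss a b c := by
  have h := sure_le a b c A B C ha hb hc
  by_cases h' : P
  · rw [if_pos h']
    rw [if_pos (hP.1 h')] at h
    exact h
  · rw [if_neg h']
    rw [if_neg fun h'' => h' (hP.2 h'')] at h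
    exact h

/-- Bounds for the number of good positions. -/
theorem GN_bd (x D v0 v1 v2 : ℝ) (hs : x + D + v0 + v1 + v2 = 1)
    (s00 s01 s02 s03 s10 s11 s12 s13 s20 s21 s22 s23 : ℕ)
    (h00 : Fm s00 (1 / 2 ≤ v0)) (h01 : Fm s01 (1 / 2 ≤ v0 + D)) (h02 : Fm s02 (1 / 2 ≤ v0 + x))
    (h03 : Fm s03 (1 / 2 ≤ v0 + D + x))
    (h10 : Fm s10 (1 / 2 ≤ v1)) (h11 : Fm s11 (1 / 2 ≤ v1 + D)) (h12 : Fm s12 (1 / 2 ≤ v1 + x))
    (h13 : Fm s13 (1 / 2 ≤ v1 + D + x))
    (h20 : Fm s20 (1 / 2 ≤ v2)) (h21 : Fm s21 (1 / 2 ≤ v2 + D)) (h22 : Fm s22 (1 / 2 ≤ v2 + x))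
    (h23 : Fm s23 (1 / 2 ≤ v2 + D + x)) :
    (isSure s03 s10 s20 + isSure s01 s12 s20 + isSure s01 s10 s22 ≤ GN x D ![v0, v1, v2] 0 ∧
      GN x D ![v0, v1, v2] 0 ≤ isPoss s03 s10 s20 + isPoss s01 s12 s20 + isPoss s01 s10 s22) ∧
    (isSure s02 s11 s20 + isSure s00 s13 s20 + isSure s00 s11 s22 ≤ GN x D ![v0, v1, v2] 1 ∧
      GN x D ![v0, v1, v2] 1 ≤ isPoss s02 s11 s20 + isPoss s00 s13 s20 + isPoss s00 s11 s22) ∧
    (isSure s02 s10 s21 + isSure s00 s12 s21 + isSure s00 s10 s23 ≤ GN x D ![v0, v1, v2] 2 ∧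
      GN x D ![v0, v1, v2] 2 ≤ isPoss s02 s10 s21 + isPoss s00 s12 s21 + isPoss s00 s10 s23) := by
  classical
  have key : ∀ (j i : Fin 3) (a b c : ℕ) (A B C : ℝ) (ha : Fm a (1 / 2 ≤ A))
      (hb : Fm b (1 / 2 ≤ B)) (hc : Fm c (1 / 2 ≤ C))
      (eA : ad (ad ![v0, v1, v2] j D) i x 0 = A) (eB : ad (ad ![v0, v1, v2] j D) i x 1 = B)
      (eC : ad (ad ![v0, v1, v2] j D) i x 2 = C) (hABC : A + B + C = 1),
      isSure a b c ≤ (if Gd 0 (ad (ad ![v0, v1, v2] j D) i x) then 1 else 0) ∧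
      (if Gd 0 (ad (ad ![v0, v1, v2] j D) i x) then 1 else 0) ≤ isPoss a b c := by
    intro j i a b c A B C ha hb hc eA eB eC hABC
    refine sure_le2 a b c _ _ _ _ ?_ ha hb hc
    rw [Gd_iff _ (by rw [eA, eB, eC]; exact hABC), eA, eB, eC]
  have k00 := key 0 0 s03 s10 s20 (v0 + D + x) v1 v2 h03 h10 h20 (by simp [ad]) (by simp [ad])
    (by simp [ad]) (by linarith)
  have k01 := key 0 1 s01 s12 s20 (v0 + D) (v1 + x) v2 h01 h12 h20 (by simp [ad]) (by simp [ad])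
    (by simp [ad]) (by linarith)
  have k02 := key 0 2 s01 s10 s22 (v0 + D) v1 (v2 + x) h01 h10 h22 (by simp [ad]) (by simp [ad])
    (by simp [ad]) (by linarith)
  have k10 := key 1 0 s02 s11 s20 (v0 + x) (v1 + D) v2 h02 h11 h20 (by simp [ad]) (by simp [ad])
    (by simp [ad]) (by linarith)
  have k11 := key 1 1 s00 s13 s20 v0 (v1 + D + x) v2 h00 h13 h20 (by simp [ad]) (by simp [ad])
    (by simp [ad]) (by linarith)
  have k12 := key 1 2 s00 s11 s22 v0 (v1 + D) (v2 + x) h00 h11 h22 (by simp [ad]) (by simp [ad])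
    (by simp [ad]) (by linarith)
  have k20 := key 2 0 s02 s10 s21 (v0 + x) v1 (v2 + D) h02 h10 h21 (by simp [ad]) (by simp [ad])
    (by simp [ad]) (by linarith)
  have k21 := key 2 1 s00 s12 s21 v0 (v1 + x) (v2 + D) h00 h12 h21 (by simp [ad]) (by simp [ad])
    (by simp [ad]) (by linarith)
  have k22 := key 2 2 s00 s10 s23 v0 v1 (v2 + D + x) h00 h10 h23 (by simp [ad]) (by simp [ad])
    (by simp [ad]) (by linarith)
  unfold GN
  simp only [Fin.sum_univ_three]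
  refine ⟨⟨?_, ?_⟩, ⟨?_, ?_⟩, ⟨?_, ?_⟩⟩
  · exact Nat.add_le_add (Nat.add_le_add k00.1 k01.1) k02.1
  · exact Nat.add_le_add (Nat.add_le_add k00.2 k01.2) k02.2
  · exact Nat.add_le_add (Nat.add_le_add k10.1 k11.1) k12.1
  · exact Nat.add_le_add (Nat.add_le_add k10.2 k11.2) k12.2
  · exact Nat.add_le_add (Nat.add_le_add k20.1 k21.1) k22.1
  · exact Nat.add_le_add (Nat.add_le_add k20.2 k21.2) k22.2

end Cl

end Pool.Agent.Work.MP_122e00_nt.Hyb
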