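import Pool.Agent.Work.MP_122e00_nt.Hyb.Sound3

set_option autoImplicit false

/-!
# Soundness of the evaluation: the main case
-/

namespace Pool.Agent.Work.MP_122e00_nt.Hyb

open Finset Filter Topology MeasureTheory

open scoped ENNReal

namespace Cl

open Chamber Cert

open Classical in
/-- Number of bad positions, block on `j`. -/
noncomputable def BN (x D : ℝ) (v : Fin 3 → ℝ) (j : Fin 3) : ℕ :=
  if amc (ad v j D) j then 3 - GN x D v j else 0

open Classical in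
/-- Number of good positions, block on `j`. -/
noncomputable def QN (x D : ℝ) (v : Fin 3 → ℝ) (j : Fin 3) : ℕ :=
  if amc (ad v j D) j then GN x D v j else 0

theorem bb_eq (x D : ℝ) (v : Fin 3 → ℝ) (j : Fin 3) : bb x D v j = (BN x D v j : ℝ) := by
  unfold bb BN
  by_cases h : amc (ad v j D) j
  · rw [if_pos h, if_pos h, nb_eq]
  · rw [if_neg h, if_neg h, Nat.cast_zero]

theorem gg_eq (x D : ℝ) (v : Fin 3 → ℝ) (j : Fin 3) : gg x D v j = (QN x D v j : ℝ) := by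
  unfold gg QN
  by_cases h : amc (ad v j D) j
  · rw [if_pos h, if_pos h, ng_eq]
  · rw [if_neg h, if_neg h, Nat.cast_zero]

theorem HV_eq (x D : ℝ) (v : Fin 3 → ℝ) : HV x D v =
    ((BN x D v 0 + BN x D v 1 + BN x D v 2 : ℕ) : ℝ) /
      ((QN x D v 0 + QN x D v 1 + QN x D v 2 : ℕ) : ℝ) ^ 2 *
    ((BN x D v 0 : ℝ) * (QN x D v 0 * hh (v 0 + D) (v 0 + D) (1 / 4 - x) +
        QN x D v 1 * hh (v 0 + D) (v 1 + D) (1 / 4 - x) +
        QN x D v 2 * hh (v 0 + D) (v 2 + D) (1 / 4 - x)) +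
      BN x D v 1 * (QN x D v 0 * hh (v 1 + D) (v 0 + D) (1 / 4 - x) +
        QN x D v 1 * hh (v 1 + D) (v 1 + D) (1 / 4 - x) +
        QN x D v 2 * hh (v 1 + D) (v 2 + D) (1 / 4 - x)) +
      BN x D v 2 * (QN x D v 0 * hh (v 2 + D) (v 0 + D) (1 / 4 - x) +
        QN x D v 1 * hh (v 2 + D) (v 1 + D) (1 / 4 - x) +
        QN x D v 2 * hh (v 2 + D) (v 2 + D) (1 / 4 - x))) := by
  unfold HV
  simp only [Fin.sum_univ_three, bb_eq, gg_eq]
  push_cast
  ring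

section pointwise

variable (s : Sx) (y : Fin 4 → ℝ) (hw : ∀ o, 0 < wt y o) (hT : ∀ o, 0 < (vx s o).T)

theorem ysum (u : Vx → ℕ) (q : Fin 5) (hq : ∀ v, pt v q = (u v : ℝ) / v.T) :
    bar (pts s) y q + bar (pts s) y 1 - (1 / 4 - bar (pts s) y 0) =
      ∑ o, wt y o * (((u (vx s o) : ℝ) + (vx s o).D + (vx s o).x) / (vx s o).T - 1 / 4) := by
  have e : ∑ o, wt y o * (((u (vx s o) : ℝ) + (vx s o).D + (vx s o).x) / (vx s o).T - 1 / 4) =
      ∑ o, wt y o * pts s o q + ∑ o, wt y o * pts s o 1 + ∑ o, wt y o * pts s o 0 -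
        1 / 4 * ∑ o, wt y o := by
    rw [Finset.mul_sum, ← Finset.sum_add_distrib, ← Finset.sum_add_distrib,
      ← Finset.sum_sub_distrib]
    refine Finset.sum_congr rfl fun o _ => ?_
    rw [pts_eq, hq]
    have e1 : pt (vx s o) 1 = ((vx s o).D : ℝ) / (vx s o).T := rfl
    have e0 : pt (vx s o) 0 = ((vx s o).x : ℝ) / (vx s o).T := rfl
    rw [e1, e0]
    ring
  rw [e, wt_sum, bar_wt, bar_wt, bar_wt]
  ring

theorem dsum (u u' : Vx → ℕ) (q q' : Fin 5) (hq : ∀ v, pt v q = (u v : ℝ) / v.T)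
    (hq' : ∀ v, pt v q' = (u' v : ℝ) / v.T) (h : ∀ o, u (vx s o) ≤ u' (vx s o)) :
    bar (pts s) y q' - bar (pts s) y q =
      ∑ o, wt y o * (((u' (vx s o) - u (vx s o) : ℕ) : ℝ) / (vx s o).T) := by
  rw [bar_wt, bar_wt, ← Finset.sum_sub_distrib]
  refine Finset.sum_congr rfl fun o _ => ?_
  rw [pts_eq, hq, hq', Nat.cast_sub (h o)]
  ring

include hw hT

theorem ypos (u : Vx → ℕ) (h : ∀ o, (vx s o).T < 4 * (u (vx s o) + (vx s o).D + (vx s o).x)) :
    (∀ o, 0 < ((u (vx s o) : ℝ) + (vx s o).D + (vx s o).x) / (vx s o).T - 1 / 4) ∧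
    0 < ∑ o, wt y o * (((u (vx s o) : ℝ) + (vx s o).D + (vx s o).x) / (vx s o).T - 1 / 4) := by
  have h1 : ∀ o, 0 < ((u (vx s o) : ℝ) + (vx s o).D + (vx s o).x) / (vx s o).T - 1 / 4 := by
    intro o
    have hT' : (0 : ℝ) < (vx s o).T := by exact_mod_cast hT o
    have h' : ((vx s o).T : ℝ) < 4 * (u (vx s o) + (vx s o).D + (vx s o).x) := by
      exact_mod_cast h o
    rw [sub_pos, lt_div_iff₀ hT']
    linarith
  exact ⟨h1, Finset.sum_pos (fun o _ => mul_pos (hw o) (h1 o)) ⟨none, Finset.mem_univ _⟩⟩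

theorem inv_bd (u : Vx → ℕ) (h : ∀ o, (vx s o).T < 4 * (u (vx s o) + (vx s o).D + (vx s o).x)) :
    1 / (∑ o, wt y o * (((u (vx s o) : ℝ) + (vx s o).D + (vx s o).x) / (vx s o).T - 1 / 4)) ≤
      ∑ o, wt y o * ((inv (vx s o) (u (vx s o)) : ℝ) / (S : ℕ)) := by
  obtain ⟨h1, _⟩ := ypos s y hw hT u h
  refine (jen_inv _ _ (fun o => (hw o).le) (wt_sum y) h1).trans ?_
  refine Finset.sum_le_sum fun o _ => mul_le_mul_of_nonneg_left ?_ (hw o).le
  exact inv_spec _ _ (hT o) (h o)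

theorem ex_bd (l : ℕ) (u u' : Vx → ℕ)
    (h : ∀ o, (vx s o).T < 4 * (u (vx s o) + (vx s o).D + (vx s o).x))
    (h2 : ∀ o, nu l (vx s o).T (yy (vx s o) (u (vx s o))) (u' (vx s o) - u (vx s o)) <
      de l (vx s o).T (yy (vx s o) (u (vx s o)))) :
    (0 : ℝ) < l ∧
    Mx l (∑ o, wt y o * (((u' (vx s o) - u (vx s o) : ℕ) : ℝ) / (vx s o).T))
      (∑ o, wt y o * (((u (vx s o) : ℝ) + (vx s o).D + (vx s o).x) / (vx s o).T - 1 / 4)) ≤
      ∑ o, wt y o * ((ex l (vx s o).T (yy (vx s o) (u (vx s o))) (u' (vx s o) - u (vx s o)) : ℝ) /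
        (S : ℕ)) := by
  obtain ⟨h1, _⟩ := ypos s y hw hT u h
  have hY : ∀ o, 0 < yy (vx s o) (u (vx s o)) := by
    intro o
    unfold yy
    have := h o
    omega
  have hx : ∀ o, 0 < l ∧ _ := fun o => ex_spec l _ _ _ (hT o) (hY o) (h2 o)
  have hl : (0 : ℝ) < l := by exact_mod_cast (hx none).1
  refine ⟨hl, ?_⟩
  refine (jen_exp _ _ _ _ hl (fun o => (hw o).le) (wt_sum y) h1).trans ?_
  refine Finset.sum_le_sum fun o _ => mul_le_mul_of_nonneg_left ?_ (hw o).le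
  have e : ((u (vx s o) : ℝ) + (vx s o).D + (vx s o).x) / (vx s o).T - 1 / 4 =
      (yy (vx s o) (u (vx s o)) : ℝ) / (4 * (vx s o).T) := by
    have hT' : (0 : ℝ) < (vx s o).T := by exact_mod_cast hT o
    unfold yy
    rw [Nat.cast_sub (h o).le]
    push_cast
    field_simp
  rw [e]
  exact (hx o).2

end pointwise

end Cl

end Pool.Agent.Work.MP_122e00_nt.Hyb
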