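import Pool.Agent.Work.MP_122e00_nt.Hyb.Sound4

set_option autoImplicit false

/-!
# Soundness of the evaluation: leaves and cuts
-/

namespace Pool.Agent.Work.MP_122e00_nt.Hyb

open Finset Filter Topology MeasureTheory

open scoped ENNReal

namespace Cl

open Chamber Cert

theorem optB (al lo hi : ℕ) (f : ℕ → ℕ → ℕ) (x D : ℝ) (v : Fin 3 → ℝ) (j : Fin 3)
    (hA : Fm al (amc (ad v j D) j)) (h1 : lo ≤ GN x D v j) (h2 : GN x D v j ≤ hi) :
    f (BN x D v j) (QN x D v j) ≤ opt al lo hi f := by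
  have h := opt_le al lo hi f _ hA (GN x D v j) h1 h2
  unfold BN QN
  by_cases hj : amc (ad v j D) j
  · rw [if_pos hj, if_pos hj]
    exact h.1 hj
  · rw [if_neg hj, if_neg hj]
    exact h.2 hj

theorem main_pt (l1 l2 l3 al1 al2 lo0 hi0 lo1 hi1 lo2 hi2 : ℕ) (z1 z2 : Bool) (s : Sx)
    (y : Fin 4 → ℝ) (hw : ∀ o, 0 < wt y o) (hT : ∀ o, 0 < (vx s o).T)
    (hok : ∀ o, okl l1 l2 l3 z1 z2 (vx s o) = true)
    (x D v0 v1 v2 : ℝ) (ex' : bar (pts s) y 0 = x) (eD : bar (pts s) y 1 = D)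
    (e0 : bar (pts s) y 2 = v0) (e1 : bar (pts s) y 3 = v1) (e2 : bar (pts s) y 4 = v2)
    (hx : x < 1 / 4)
    (hG0 : lo0 ≤ GN x D ![v0, v1, v2] 0 ∧ GN x D ![v0, v1, v2] 0 ≤ hi0)
    (hG1 : lo1 ≤ GN x D ![v0, v1, v2] 1 ∧ GN x D ![v0, v1, v2] 1 ≤ hi1)
    (hG2 : lo2 ≤ GN x D ![v0, v1, v2] 2 ∧ GN x D ![v0, v1, v2] 2 ≤ hi2)
    (hA1 : Fm al1 (amc (ad ![v0, v1, v2] 1 D) 1)) (hA2 : Fm al2 (amc (ad ![v0, v1, v2] 2 D) 2))
    (hz1 : z1 = true → BN x D ![v0, v1, v2] 1 = 0)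
    (hz2 : z2 = true → BN x D ![v0, v1, v2] 2 = 0) :
    HV x D ![v0, v1, v2] ≤
      ∑ o, wt y o * ((fv l1 l2 l3 al1 al2 lo0 hi0 lo1 hi1 lo2 hi2 (vx s o) : ℝ) / (S : ℕ)) := by
  have ok : ∀ o, (vx s o).T < 4 * ((vx s o).p + (vx s o).D + (vx s o).x) ∧
      (vx s o).q ≤ (vx s o).p ∧ (vx s o).r ≤ (vx s o).q ∧
      (z1 = true ∨ ((vx s o).T < 4 * ((vx s o).q + (vx s o).D + (vx s o).x) ∧
        nu l1 (vx s o).T (yy (vx s o) (vx s o).q) ((vx s o).p - (vx s o).q) <
          de l1 (vx s o).T (yy (vx s o) (vx s o).q))) ∧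
      (z2 = true ∨ ((vx s o).T < 4 * ((vx s o).r + (vx s o).D + (vx s o).x) ∧
        nu l2 (vx s o).T (yy (vx s o) (vx s o).r) ((vx s o).p - (vx s o).r) <
          de l2 (vx s o).T (yy (vx s o) (vx s o).r) ∧
        nu l3 (vx s o).T (yy (vx s o) (vx s o).r) ((vx s o).q - (vx s o).r) <
          de l3 (vx s o).T (yy (vx s o) (vx s o).r))) := by
    intro o
    have h := hok o
    unfold okl at h
    simp only [Bool.and_eq_true, Bool.or_eq_true, Nat.blt_eq, Nat.ble_eq] at h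
    exact h
  have hD : 0 ≤ D := by rw [← eD]; exact p_nonneg s y hw 1
  have hv2 : 0 ≤ v2 := by rw [← e2]; exact p_nonneg s y hw 4
  have q2 : ∀ v : Vx, pt v 2 = (v.p : ℝ) / v.T := fun v => rfl
  have q3 : ∀ v : Vx, pt v 3 = (v.q : ℝ) / v.T := fun v => rfl
  have q4 : ∀ v : Vx, pt v 4 = (v.r : ℝ) / v.T := fun v => rfl
  have d10 := dsum s y (fun v => v.q) (fun v => v.p) 3 2 q3 q2 (fun o => (ok o).2.1)
  have d21 := dsum s y (fun v => v.r) (fun v => v.q) 4 3 q4 q3 (fun o => (ok o).2.2.1)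
  have d20 := dsum s y (fun v => v.r) (fun v => v.p) 4 2 q4 q2
    (fun o => (ok o).2.2.1.trans (ok o).2.1)
  have nn : ∀ d : Vx → ℕ, 0 ≤ ∑ o, wt y o * ((d (vx s o) : ℝ) / (vx s o).T) := fun d =>
    Finset.sum_nonneg fun o _ => mul_nonneg (hw o).le (by positivity)
  have h10 : v1 ≤ v0 := by
    have := nn (fun v => v.p - v.q)
    rw [← d10, e0, e1] at this
    linarith
  have h21 : v2 ≤ v1 := by
    have := nn (fun v => v.q - v.r)
    rw [← d21, e1, e2] at this
    linarith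
  have a0 : amc (ad ![v0, v1, v2] 0 D) 0 := by
    intro q
    fin_cases q
    · exact le_rfl
    · simp [ad]; linarith
    · simp [ad]; linarith
  -- the parts
  have y0 := ysum s y (fun v => v.p) 2 q2
  have y1 := ysum s y (fun v => v.q) 3 q3
  have y2 := ysum s y (fun v => v.r) 4 q4
  rw [ex', eD, e0] at y0
  rw [ex', eD, e1] at y1
  rw [ex', eD, e2] at y2
  have hE : 0 < 1 / 4 - x := by linarith
  have f0 : ∀ o, (vx s o).T < 4 * ((fun v : Vx => v.p) (vx s o) + (vx s o).D + (vx s o).x) :=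
    fun o => (ok o).1
  have p0 := (ypos s y hw hT (fun v => v.p) f0).2
  have i0 := inv_bd s y hw hT (fun v => v.p) f0
  rw [← y0] at p0 i0
  have hv : ∀ j, 0 ≤ (![v0, v1, v2] : Fin 3 → ℝ) j + D := by
    intro j
    fin_cases j
    · show 0 ≤ v0 + D
      linarith
    · show 0 ≤ v1 + D
      linarith
    · show 0 ≤ v2 + D
      linarith
  have hle0 : ∀ j, (![v0, v1, v2] : Fin 3 → ℝ) j ≤ v0 := by
    intro j
    fin_cases j
    · exact le_rfl
    · exact h10
    · exact h21.trans h10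
  rw [HV_eq]
  refine (combine (wt y) hw (BN x D ![v0, v1, v2] 0) (BN x D ![v0, v1, v2] 1)
    (BN x D ![v0, v1, v2] 2) (QN x D ![v0, v1, v2] 0) (QN x D ![v0, v1, v2] 1)
    (QN x D ![v0, v1, v2] 2)
    (fun i j => hh ((![v0, v1, v2] : Fin 3 → ℝ) i + D) ((![v0, v1, v2] : Fin 3 → ℝ) j + D)
      (1 / 4 - x))
    (fun o => inv (vx s o) (vx s o).p) (fun o => inv (vx s o) (vx s o).q)
    (fun o => inv (vx s o) (vx s o).r)
    (fun o => ex l1 (vx s o).T (yy (vx s o) (vx s o).q) ((vx s o).p - (vx s o).q))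
    (fun o => ex l2 (vx s o).T (yy (vx s o) (vx s o).r) ((vx s o).p - (vx s o).r))
    (fun o => ex l3 (vx s o).T (yy (vx s o) (vx s o).r) ((vx s o).q - (vx s o).r))
    ?_ ?_ ?_).trans ?_
  · intro j
    refine (hh_le_inv (v0 + D) ((![v0, v1, v2] : Fin 3 → ℝ) j + D) (1 / 4 - x) hE
      (by linarith) (hv j) (by linarith [hle0 j])).trans ?_
    exact i0
  · cases hzz : z1 with
    | true => exact Or.inl (hz1 hzz)
    | false =>
      right
      have f1 : ∀ o, (vx s o).T < 4 * ((fun v : Vx => v.q) (vx s o) + (vx s o).D + (vx s o).x) ∧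
          nu l1 (vx s o).T (yy (vx s o) ((fun v : Vx => v.q) (vx s o)))
            ((fun v : Vx => v.p) (vx s o) - (fun v : Vx => v.q) (vx s o)) <
          de l1 (vx s o).T (yy (vx s o) ((fun v : Vx => v.q) (vx s o))) := by
        intro o
        rcases (ok o).2.2.2.1 with h | h
        · rw [hzz] at h; exact absurd h (by simp)
        · exact h
      have p1 := (ypos s y hw hT (fun v => v.q) fun o => (f1 o).1).2
      have i1 := inv_bd s y hw hT (fun v => v.q) fun o => (f1 o).1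
      obtain ⟨hl, x1⟩ := ex_bd s y hw hT l1 (fun v => v.q) (fun v => v.p) (fun o => (f1 o).1)
        fun o => (f1 o).2
      rw [← y1] at p1 i1 x1
      rw [← d10, e0, e1] at x1
      refine ⟨?_, ?_, ?_⟩
      · refine (hh_le_exp (v1 + D) (v0 + D) (1 / 4 - x) l1 hE (by linarith) (hv 0) hl).trans ?_
        have ee : v0 + D - (v1 + D) = v0 - v1 := by ring
        rw [ee]
        exact x1
      · exact (hh_le_inv (v1 + D) (v1 + D) (1 / 4 - x) hE (by linarith) (hv 1) le_rfl).trans i1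
      · exact (hh_le_inv (v1 + D) (v2 + D) (1 / 4 - x) hE (by linarith) (hv 2)
          (by linarith)).trans i1
  · cases hzz : z2 with
    | true => exact Or.inl (hz2 hzz)
    | false =>
      right
      have f2 : ∀ o, (vx s o).T < 4 * ((fun v : Vx => v.r) (vx s o) + (vx s o).D + (vx s o).x) ∧
          nu l2 (vx s o).T (yy (vx s o) ((fun v : Vx => v.r) (vx s o)))
            ((fun v : Vx => v.p) (vx s o) - (fun v : Vx => v.r) (vx s o)) <
          de l2 (vx s o).T (yy (vx s o) ((fun v : Vx => v.r) (vx s o))) ∧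
          nu l3 (vx s o).T (yy (vx s o) ((fun v : Vx => v.r) (vx s o)))
            ((fun v : Vx => v.q) (vx s o) - (fun v : Vx => v.r) (vx s o)) <
          de l3 (vx s o).T (yy (vx s o) ((fun v : Vx => v.r) (vx s o))) := by
        intro o
        rcases (ok o).2.2.2.2 with h | h
        · rw [hzz] at h; exact absurd h (by simp)
        · exact h
      have p2 := (ypos s y hw hT (fun v => v.r) fun o => (f2 o).1).2
      have i2 := inv_bd s y hw hT (fun v => v.r) fun o => (f2 o).1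
      obtain ⟨hl2, x2⟩ := ex_bd s y hw hT l2 (fun v => v.r) (fun v => v.p) (fun o => (f2 o).1)
        fun o => (f2 o).2.1
      obtain ⟨hl3, x3⟩ := ex_bd s y hw hT l3 (fun v => v.r) (fun v => v.q) (fun o => (f2 o).1)
        fun o => (f2 o).2.2
      rw [← y2] at p2 i2 x2 x3
      rw [← d20, e0, e2] at x2
      rw [← d21, e1, e2] at x3
      refine ⟨?_, ?_, ?_⟩
      · refine (hh_le_exp (v2 + D) (v0 + D) (1 / 4 - x) l2 hE (by linarith) (hv 0) hl2).trans ?_
        have ee : v0 + D - (v2 + D) = v0 - v2 := by ring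
        rw [ee]
        exact x2
      · refine (hh_le_exp (v2 + D) (v1 + D) (1 / 4 - x) l3 hE (by linarith) (hv 1) hl3).trans ?_
        have ee : v1 + D - (v2 + D) = v1 - v2 := by ring
        rw [ee]
        exact x3
      · exact (hh_le_inv (v2 + D) (v2 + D) (1 / 4 - x) hE (by linarith) (hv 2) le_rfl).trans i2
  · refine Finset.sum_le_sum fun o _ => mul_le_mul_of_nonneg_left ?_ (hw o).le
    refine div_le_div_of_nonneg_right ?_ S_pos.le
    norm_cast
    unfold fv vm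
    refine le_trans ?_ (optB 1 lo0 hi0 _ x D ![v0, v1, v2] 0 ⟨fun _ => a0, fun h => by simp at h⟩
      hG0.1 hG0.2)
    refine le_trans ?_ (optB al1 lo1 hi1 _ x D ![v0, v1, v2] 1 hA1 hG1.1 hG1.2)
    exact optB al2 lo2 hi2 _ x D ![v0, v1, v2] 2 hA2 hG2.1 hG2.2

end Cl

end Pool.Agent.Work.MP_122e00_nt.Hyb
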