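import Pool.Agent.Work.MP_122e00_nt.Hyb.Sound5

set_option autoImplicit false

/-!
# Soundness of the evaluation: the tree
-/

namespace Pool.Agent.Work.MP_122e00_nt.Hyb

open Finset Filter Topology MeasureTheory

open scoped ENNReal

namespace Cl

open Chamber Cert

theorem zero_leaf (s : Sx) (h : ∀ y, (∀ o, 0 < wt y o) → HC (bar (pts s) y) = 0) (r : ℕ) :
    EV (pts s) GC ≤ ENNReal.ofReal ((r : ℝ) / (S : ℕ)) * vol (Fin 4) := by
  have h1 : EV (pts s) GC = 0 := by
    unfold EV
    rw [lintegral_eq_zero_iff' ?_]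
    · filter_upwards [ae_int] with y hy
      show GC (bar (pts s) y) = 0
      unfold GC
      rw [h y hy, ENNReal.ofReal_zero]
    · exact (meas_GC.comp (measurable_bar _)).aemeasurable
  rw [h1]
  exact zero_le

theorem lin_q (p : Fin 5 → ℝ) : lin ![0, 0, 1, 0, 0] p = p 2 ∧ lin ![0, 0, 0, 1, 0] p = p 3 ∧
    lin ![0, 0, 0, 0, 1] p = p 4 ∧ lin ![1, 0, 0, 0, 0] p = p 0 ∧
    lin ![1, 1, 0, 0, 0] p = p 0 + p 1 ∧
    lin ![0, 1, 1, 0, 0] p = p 2 + p 1 ∧ lin ![1, 0, 1, 0, 0] p = p 2 + p 0 ∧
    lin ![1, 1, 1, 0, 0] p = p 2 + p 1 + p 0 ∧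
    lin ![0, 1, 0, 1, 0] p = p 3 + p 1 ∧ lin ![1, 0, 0, 1, 0] p = p 3 + p 0 ∧
    lin ![1, 1, 0, 1, 0] p = p 3 + p 1 + p 0 ∧
    lin ![0, 1, 0, 0, 1] p = p 4 + p 1 ∧ lin ![1, 0, 0, 0, 1] p = p 4 + p 0 ∧
    lin ![1, 1, 0, 0, 1] p = p 4 + p 1 + p 0 := by
  refine ⟨?_, ?_, ?_, ?_, ?_, ?_, ?_, ?_, ?_, ?_, ?_, ?_, ?_, ?_⟩ <;> simp [lin] <;> ring

theorem leafm_spec (l1 l2 l3 al1 al2 lo0 hi0 lo1 hi1 lo2 hi2 : ℕ) (z1 z2 : Bool) (s : Sx) (r : ℕ)
    (h : leafm l1 l2 l3 al1 al2 lo0 hi0 lo1 hi1 lo2 hi2 z1 z2 s = some r)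
    (hT : ∀ o, 0 < (vx s o).T)
    (H : ∀ y, (∀ o, 0 < wt y o) → ∀ x D v0 v1 v2 : ℝ, bar (pts s) y 0 = x →
      bar (pts s) y 1 = D → bar (pts s) y 2 = v0 → bar (pts s) y 3 = v1 → bar (pts s) y 4 = v2 →
      (lo0 ≤ GN x D ![v0, v1, v2] 0 ∧ GN x D ![v0, v1, v2] 0 ≤ hi0) ∧
      (lo1 ≤ GN x D ![v0, v1, v2] 1 ∧ GN x D ![v0, v1, v2] 1 ≤ hi1) ∧
      (lo2 ≤ GN x D ![v0, v1, v2] 2 ∧ GN x D ![v0, v1, v2] 2 ≤ hi2) ∧
      (v2 ≤ v1 → v1 ≤ v0 → Fm al1 (amc (ad ![v0, v1, v2] 1 D) 1)) ∧
      (v2 ≤ v1 → v1 ≤ v0 → Fm al2 (amc (ad ![v0, v1, v2] 2 D) 2)) ∧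
      (z1 = true → BN x D ![v0, v1, v2] 1 = 0) ∧
      (z2 = true → BN x D ![v0, v1, v2] 2 = 0)) :
    EV (pts s) GC ≤ ENNReal.ofReal ((r : ℝ) / (S : ℕ)) * vol (Fin 4) := by
  unfold leafm at h
  cases hc : (Nat.beq lo0 3 && (z1 && z2)) with
  | true =>
    simp only [Bool.and_eq_true, Nat.beq_eq] at hc
    obtain ⟨c0, c1, c2⟩ := hc
    refine zero_leaf s (fun y hw => ?_) r
    unfold HC
    split_ifs
    · obtain ⟨hG0, _, _, _, _, hz1, hz2⟩ := H y hw _ _ _ _ _ rfl rfl rfl rfl rfl
      rw [HV_eq, hz1 c1, hz2 c2]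
      have b0 : BN (bar (pts s) y 0) (bar (pts s) y 1)
          ![bar (pts s) y 2, bar (pts s) y 3, bar (pts s) y 4] 0 = 0 := by
        unfold BN
        split_ifs
        · have := hG0.1
          omega
        · rfl
      rw [b0]
      simp
    · rfl
  | false =>
    rw [hc] at h
    simp only [cond_false] at h
    cases hok : s.all (okl l1 l2 l3 z1 z2) with
    | false => rw [hok] at h; simp at h
    | true =>
      rw [hok] at h
      simp only [cond_true, Option.some.injEq] at h
      have hok' := (all_spec s _).1 hok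
      set F : Vx → ℕ := fv l1 l2 l3 al1 al2 lo0 hi0 lo1 hi1 lo2 hi2 with hF
      have hb := leaf_bound (pts s) GC (fun o => (F (vx s o) : ℝ) / (S : ℕ))
        (fun o => div_nonneg (Nat.cast_nonneg _) S_pos.le) (by
          filter_upwards [ae_int] with y hw
          unfold GC
          refine ENNReal.ofReal_le_ofReal ?_
          have e : ∑ i, y i * ((F (vx s (some i)) : ℝ) / (S : ℕ)) +
              (1 - ∑ i, y i) * ((F (vx s none) : ℝ) / (S : ℕ)) =
              ∑ o, wt y o * ((F (vx s o) : ℝ) / (S : ℕ)) := by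
            rw [Fintype.sum_option]
            simp only [wt]
            ring
          rw [e]
          unfold HC
          split_ifs with hc2
          · obtain ⟨hG0, hG1, hG2, hA1, hA2, hz1, hz2⟩ := H y hw _ _ _ _ _ rfl rfl rfl rfl rfl
            have srt : ∀ o, (vx s o).q ≤ (vx s o).p ∧ (vx s o).r ≤ (vx s o).q := by
              intro o
              have h := hok' o
              unfold okl at h
              simp only [Bool.and_eq_true, Bool.or_eq_true, Nat.blt_eq, Nat.ble_eq] at h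
              exact ⟨h.2.1, h.2.2.1⟩
            have q2 : ∀ v : Vx, pt v 2 = (v.p : ℝ) / v.T := fun v => rfl
            have q3 : ∀ v : Vx, pt v 3 = (v.q : ℝ) / v.T := fun v => rfl
            have q4 : ∀ v : Vx, pt v 4 = (v.r : ℝ) / v.T := fun v => rfl
            have d10 := dsum s y (fun v => v.q) (fun v => v.p) 3 2 q3 q2 (fun o => (srt o).1)
            have d21 := dsum s y (fun v => v.r) (fun v => v.q) 4 3 q4 q3 (fun o => (srt o).2)
            have nn : ∀ d : Vx → ℕ, 0 ≤ ∑ o, wt y o * ((d (vx s o) : ℝ) / (vx s o).T) := fun d =>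
              Finset.sum_nonneg fun o _ => mul_nonneg (hw o).le (by positivity)
            have h10 : bar (pts s) y 3 ≤ bar (pts s) y 2 := by
              have := nn (fun v => v.p - v.q)
              rw [← d10] at this
              linarith
            have h21 : bar (pts s) y 4 ≤ bar (pts s) y 3 := by
              have := nn (fun v => v.q - v.r)
              rw [← d21] at this
              linarith
            exact main_pt l1 l2 l3 al1 al2 lo0 hi0 lo1 hi1 lo2 hi2 z1 z2 s y hw hT hok' _ _ _ _ _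
              rfl rfl rfl rfl rfl hc2.1 hG0 hG1 hG2 (hA1 h21 h10) (hA2 h21 h10) hz1 hz2
          · exact Finset.sum_nonneg fun o _ => mul_nonneg (hw o).le
              (div_nonneg (Nat.cast_nonneg _) S_pos.le))
      refine hb.trans ?_
      refine mul_le_mul_left ?_ _
      refine ENNReal.ofReal_le_ofReal ?_
      rw [← h]
      have h2 := cdiv_ge (F s.a + F s.b + F s.c + F s.d + F s.e) 5
      rw [le_div_iff₀ S_pos]
      refine le_trans (le_of_eq ?_) h2
      have e : ∑ o, (F (vx s o) : ℝ) / (S : ℕ) =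
          ((F s.a + F s.b + F s.c + F s.d + F s.e : ℕ) : ℝ) / (S : ℕ) := by
        rw [Fintype.sum_option, Fin.sum_univ_four]
        simp only [vx, V5]
        push_cast
        ring
      rw [e]
      have := S_pos.ne'
      simp only [Fintype.card_fin]
      push_cast
      field_simp
      ring

theorem leaf_spec (l1 l2 l3 : ℕ) (s : Sx) (r : ℕ) (h : leaf l1 l2 l3 s = some r) :
    EV (pts s) GC ≤ ENNReal.ofReal ((r : ℝ) / (S : ℕ)) * vol (Fin 4) := by
  unfold leaf at h
  cases hT0 : s.all (fun v => Nat.blt 0 v.T) with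
  | false => rw [hT0] at h; simp at h
  | true =>
  have hT : ∀ o, 0 < (vx s o).T := fun o => by
    have := (all_spec s _).1 hT0 o
    simpa using this
  rw [hT0] at h
  simp only [cond_true] at h
  cases hc : (Nat.beq (st (fun v => 4 * v.x) Vx.T s) 1 ||
      Nat.beq (st (fun v => 4 * (v.x + v.D)) Vx.T s) 0) with
  | true =>
    simp only [Bool.or_eq_true, Nat.beq_eq] at hc
    refine zero_leaf s (fun y hw => ?_) r
    have hx := fm_st s y hw hT ![4, 0, 0, 0, 0] ![1, 1, 1, 1, 1] (fun v => 4 * v.x) Vx.T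
      (by intro v; rw [lin_pt]; simp) (by intro v; rw [lin_pt, Tcast]; simp)
    have hxD := fm_st s y hw hT ![4, 4, 0, 0, 0] ![1, 1, 1, 1, 1] (fun v => 4 * (v.x + v.D)) Vx.T
      (by intro v; rw [lin_pt]; simp; ring) (by intro v; rw [lin_pt, Tcast]; simp)
    rw [sum_one s y hT] at hx hxD
    have e1 : lin ![4, 0, 0, 0, 0] (bar (pts s) y) = 4 * bar (pts s) y 0 := by simp [lin]
    have e2 : lin ![4, 4, 0, 0, 0] (bar (pts s) y) =
        4 * (bar (pts s) y 0 + bar (pts s) y 1) := by simp [lin]; ring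
    rw [e1] at hx
    rw [e2] at hxD
    unfold HC
    split_ifs with hc2
    · exfalso
      rcases hc with hc | hc
      · have := hx.1 hc
        linarith [hc2.1]
      · have := hxD.2 hc
        apply this
        linarith [hc2.2]
    · rfl
  | false =>
    rw [hc] at h
    simp only [cond_false] at h
    unfold leaf2 at h
    refine leafm_spec _ _ _ _ _ _ _ _ _ _ _ _ _ s r h hT ?_
    intro y hw x D v0 v1 v2 ex' eD e0 e1 e2
    obtain ⟨c00, c10, c20, _, _, c01, c02, c03, c11, c12, c13, c21, c22, c23⟩ :=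
      lin_q (bar (pts s) y)
    have h00 := fm_hx s y hw hT ![0, 0, 1, 0, 0] (fun v => v.p)
      (by intro v; rw [lin_pt]; simp)
    have h10 := fm_hx s y hw hT ![0, 0, 0, 1, 0] (fun v => v.q)
      (by intro v; rw [lin_pt]; simp)
    have h20 := fm_hx s y hw hT ![0, 0, 0, 0, 1] (fun v => v.r)
      (by intro v; rw [lin_pt]; simp)
    have h01 := fm_hx s y hw hT ![0, 1, 1, 0, 0] (fun v => v.p + v.D)
      (by intro v; rw [lin_pt]; simp; ring)
    have h02 := fm_hx s y hw hT ![1, 0, 1, 0, 0] (fun v => v.p + v.x)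
      (by intro v; rw [lin_pt]; simp; ring)
    have h03 := fm_hx s y hw hT ![1, 1, 1, 0, 0] (fun v => v.p + v.D + v.x)
      (by intro v; rw [lin_pt]; simp; ring)
    have h11 := fm_hx s y hw hT ![0, 1, 0, 1, 0] (fun v => v.q + v.D)
      (by intro v; rw [lin_pt]; simp; ring)
    have h12 := fm_hx s y hw hT ![1, 0, 0, 1, 0] (fun v => v.q + v.x)
      (by intro v; rw [lin_pt]; simp; ring)
    have h13 := fm_hx s y hw hT ![1, 1, 0, 1, 0] (fun v => v.q + v.D + v.x)
      (by intro v; rw [lin_pt]; simp; ring)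
    have h21 := fm_hx s y hw hT ![0, 1, 0, 0, 1] (fun v => v.r + v.D)
      (by intro v; rw [lin_pt]; simp; ring)
    have h22 := fm_hx s y hw hT ![1, 0, 0, 0, 1] (fun v => v.r + v.x)
      (by intro v; rw [lin_pt]; simp; ring)
    have h23 := fm_hx s y hw hT ![1, 1, 0, 0, 1] (fun v => v.r + v.D + v.x)
      (by intro v; rw [lin_pt]; simp; ring)
    have ha1 := fm_st s y hw hT ![0, 1, 0, 1, 0] ![0, 0, 1, 0, 0] (fun v => v.q + v.D)
      (fun v => v.p) (by intro v; rw [lin_pt]; simp; ring) (by intro v; rw [lin_pt]; simp)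
    have ha2 := fm_st s y hw hT ![0, 1, 0, 0, 1] ![0, 0, 1, 0, 0] (fun v => v.r + v.D)
      (fun v => v.p) (by intro v; rw [lin_pt]; simp; ring) (by intro v; rw [lin_pt]; simp)
    have hs := sum_one s y hT
    have es : lin ![1, 1, 1, 1, 1] (bar (pts s) y) = bar (pts s) y 0 + bar (pts s) y 1 +
      bar (pts s) y 2 + bar (pts s) y 3 + bar (pts s) y 4 := by simp [lin]
    have hD0 := p_nonneg s y hw 1
    rw [es] at hs
    rw [c00] at h00
    rw [c10] at h10
    rw [c20] at h20
    rw [c01] at h01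
    rw [c02] at h02
    rw [c03] at h03
    rw [c11] at h11
    rw [c12] at h12
    rw [c13] at h13
    rw [c21] at h21
    rw [c22] at h22
    rw [c23] at h23
    rw [c00, c11] at ha1
    rw [c00, c21] at ha2
    rw [ex', eD, e0, e1, e2] at hs
    simp only [ex', eD, e0, e1, e2] at h00 h10 h20 h01 h02 h03 h11 h12 h13 h21 h22 h23 ha1 ha2 hD0
    have hG := GN_bd x D v0 v1 v2 hs _ _ _ _ _ _ _ _ _ _ _ _ h00 h01 h02 h03 h10 h11 h12 h13
      h20 h21 h22 h23
    have A1 : v2 ≤ v1 → v1 ≤ v0 → (v0 ≤ v1 + D ↔ amc (ad ![v0, v1, v2] 1 D) 1) := by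
      intro k1 k2
      constructor
      · intro k q
        fin_cases q
        · simpa [ad] using k
        · exact le_rfl
        · simp [ad]; linarith
      · intro k
        simpa [ad] using k 0
    have A2 : v2 ≤ v1 → v1 ≤ v0 → (v0 ≤ v2 + D ↔ amc (ad ![v0, v1, v2] 2 D) 2) := by
      intro k1 k2
      constructor
      · intro k q
        fin_cases q
        · simpa [ad] using k
        · simp [ad]; linarith
        · exact le_rfl
      · intro k
        simpa [ad] using k 0
    refine ⟨hG.1, hG.2.1, hG.2.2, fun k1 k2 => ?_, fun k1 k2 => ?_, fun hz => ?_, fun hz => ?_⟩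
    · exact ⟨fun k => (A1 k1 k2).1 (ha1.1 k), fun k k' => ha1.2 k ((A1 k1 k2).2 k')⟩
    · exact ⟨fun k => (A2 k1 k2).1 (ha2.1 k), fun k k' => ha2.2 k ((A2 k1 k2).2 k')⟩
    · simp only [Bool.or_eq_true, Nat.beq_eq] at hz
      unfold BN
      split_ifs with hj
      · rcases hz with hz | hz
        · exfalso
          have h1 := ha1.2 hz
          apply h1
          simpa [ad] using hj 0
        · have := hG.2.1.1
          omega
      · rfl
    · simp only [Bool.or_eq_true, Nat.beq_eq] at hz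
      unfold BN
      split_ifs with hj
      · rcases hz with hz | hz
        · exfalso
          have h1 := ha2.2 hz
          apply h1
          simpa [ad] using hj 0
        · have := hG.2.2.1
          omega
      · rfl

/-! ### cuts -/

/-- The index of a vertex. -/
def ix : ℕ → Option (Fin 4)
  | 0 => some 0
  | 1 => some 1
  | 2 => some 2
  | 3 => some 3
  | _ => none

theorem pts_get (s : Sx) (i : ℕ) : pts s (ix i) = pt (s.get i) := by
  rcases i with _ | _ | _ | _ | i <;> rfl

theorem pts_set (s : Sx) (i : ℕ) (w : Vx) :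
    pts (s.set i w) = Function.update (pts s) (ix i) (pt w) := by
  rcases i with _ | _ | _ | _ | i <;> apply V5_ext <;>
    simp [pts, V5, Sx.set, ix, Function.update_apply]

theorem ix_ne (i j : ℕ) (h1 : i < j) (h2 : j ≤ 4) : ix i ≠ ix j := by
  interval_cases j <;> interval_cases i <;> simp [ix]

theorem chk_spec (A B g : ℕ) (P Q w : Vx) (h : chk A B g P Q w = true) (hP : 0 < A * P.T)
    (hQ : 0 < B * Q.T) :
    pt w = ((A * P.T : ℕ) / ((A * P.T : ℕ) + (B * Q.T : ℕ)) : ℝ) • pt P +
      (1 - ((A * P.T : ℕ) / ((A * P.T : ℕ) + (B * Q.T : ℕ)) : ℝ)) • pt Q := by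
  unfold chk at h
  simp only [Bool.and_eq_true, Nat.beq_eq] at h
  obtain ⟨h0, h1, h2, h3, h4⟩ := h
  have hsum : A * P.T + B * Q.T = g * w.T := by
    unfold Vx.T
    have e : A * (P.x + P.D + P.p + P.q + P.r) + B * (Q.x + Q.D + Q.p + Q.q + Q.r) =
        (A * P.x + B * Q.x) + (A * P.D + B * Q.D) + (A * P.p + B * Q.p) + (A * P.q + B * Q.q) +
          (A * P.r + B * Q.r) := by ring
    rw [e, h0, h1, h2, h3, h4]
    ring
  have hPT : 0 < P.T := by
    rcases Nat.eq_zero_or_pos P.T with h | h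
    · rw [h] at hP; simp at hP
    · exact h
  have hQT : 0 < Q.T := by
    rcases Nat.eq_zero_or_pos Q.T with h | h
    · rw [h] at hQ; simp at hQ
    · exact h
  have hg : 0 < g := by
    rcases Nat.eq_zero_or_pos g with h | h
    · rw [h] at hsum; omega
    · exact h
  have hwT : 0 < w.T := by
    rcases Nat.eq_zero_or_pos w.T with h | h
    · rw [h] at hsum; omega
    · exact h
  have hPT' : (0 : ℝ) < P.T := by exact_mod_cast hPT
  have hQT' : (0 : ℝ) < Q.T := by exact_mod_cast hQT
  have hg' : (0 : ℝ) < g := by exact_mod_cast hg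
  have hwT' : (0 : ℝ) < w.T := by exact_mod_cast hwT
  have hsum' : (A : ℝ) * P.T + B * Q.T = g * w.T := by exact_mod_cast hsum
  have key : ∀ a b c : ℕ, A * a + B * b = g * c → (c : ℝ) / w.T =
      (A * P.T : ℝ) / (A * P.T + B * Q.T) * ((a : ℝ) / P.T) +
      (1 - (A * P.T : ℝ) / (A * P.T + B * Q.T)) * ((b : ℝ) / Q.T) := by
    intro a b c habc
    have habc' : (A : ℝ) * a + B * b = g * c := by exact_mod_cast habc
    have hne : (A * P.T + B * Q.T : ℝ) ≠ 0 := by
      rw [hsum']; positivity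
    have e1 : (1 - (A * P.T : ℝ) / (A * P.T + B * Q.T)) = (B * Q.T) / (A * P.T + B * Q.T) := by
      field_simp
      ring
    rw [e1]
    have e2 : (A * P.T : ℝ) / (A * P.T + B * Q.T) * ((a : ℝ) / P.T) +
        (B * Q.T) / (A * P.T + B * Q.T) * ((b : ℝ) / Q.T) =
        (A * a + B * b) / (A * P.T + B * Q.T) := by
      field_simp
    rw [e2, habc', hsum']
    field_simp
  push_cast
  apply vec_ext
  · exact key _ _ _ h0
  · exact key _ _ _ h1
  · exact key _ _ _ h2
  · exact key _ _ _ h3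
  · exact key _ _ _ h4

theorem run_spec : ∀ (t : Ct) (s : Sx) (r : ℕ), run t s = some r →
    EV (pts s) GC ≤ ENNReal.ofReal ((r : ℝ) / (S : ℕ)) * vol (Fin 4) := by
  intro t
  induction t with
  | lf l1 l2 l3 => exact fun s r h => leaf_spec l1 l2 l3 s r h
  | ct i j A B g w l r' ihl ihr =>
    intro s r h
    unfold run at h
    cases hc : ((Nat.blt i j && Nat.ble j 4) && (Nat.blt 0 (A * (s.get i).T) &&
        (Nat.blt 0 (B * (s.get j).T) && chk A B g (s.get i) (s.get j) w))) with
    | false => rw [hc] at h; simp at h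
    | true =>
      rw [hc] at h
      simp only [cond_true] at h
      simp only [Bool.and_eq_true, Nat.blt_eq, Nat.ble_eq] at hc
      obtain ⟨⟨hij, hj4⟩, hP, hQ, hchk⟩ := hc
      cases hl : run l (s.set i w) with
      | none => rw [hl] at h; simp [avg] at h
      | some a =>
        cases hr : run r' (s.set j w) with
        | none => rw [hl, hr] at h; simp [avg] at h
        | some b =>
          rw [hl, hr] at h
          simp only [avg, Option.some.injEq] at h
          have Ha := ihl _ _ hl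
          have Hb := ihr _ _ hr
          have hw := chk_spec A B g _ _ w hchk hP hQ
          set α : ℝ := ((A * (s.get i).T : ℕ) : ℝ) with hα
          set β : ℝ := ((B * (s.get j).T : ℕ) : ℝ) with hβ
          have hα0 : 0 < α := by rw [hα]; exact_mod_cast hP
          have hβ0 : 0 < β := by rw [hβ]; exact_mod_cast hQ
          set μ : ℝ := α / (α + β) with hμ
          have hμ0 : 0 ≤ μ := by positivity
          have hμ1 : μ ≤ 1 := by
            rw [hμ, div_le_one (by positivity)]
            linarith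
          rw [EV_bisect (pts s) GC meas_GC (ix i) (ix j) (ix_ne i j hij hj4) μ hμ0 hμ1, pts_get,
            pts_get, ← hw, ← pts_set, ← pts_set]
          refine (add_le_add (mul_le_mul_right Ha _) (mul_le_mul_right Hb _)).trans ?_
          rw [← mul_assoc, ← mul_assoc, ← add_mul, ← ENNReal.ofReal_mul hμ0,
            ← ENNReal.ofReal_mul (by linarith), ← ENNReal.ofReal_add
              (mul_nonneg hμ0 (div_nonneg (Nat.cast_nonneg _) S_pos.le))
              (mul_nonneg (by linarith) (div_nonneg (Nat.cast_nonneg _) S_pos.le))]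
          refine mul_le_mul_left ?_ _
          refine ENNReal.ofReal_le_ofReal ?_
          rw [← h]
          have h2 := cdiv_ge (A * (s.get i).T * a + B * (s.get j).T * b)
            (A * (s.get i).T + B * (s.get j).T)
          rw [le_div_iff₀ S_pos]
          refine le_trans (le_of_eq ?_) h2
          rw [Nat.cast_add (A * (s.get i).T * a), Nat.cast_mul (A * (s.get i).T) a,
            Nat.cast_mul (B * (s.get j).T) b, Nat.cast_add (A * (s.get i).T), ← hα, ← hβ, hμ]
          have := S_pos.ne'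
          have hne : α + β ≠ 0 := by positivity
          field_simp
          ring

end Cl

end Pool.Agent.Work.MP_122e00_nt.Hyb
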